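import Mathlib

/-!
# No-retraction theorem, Brouwer's fixed point theorem and the Poincare-Miranda theorem

The analytic proof of Milnor and Rogers: a `C^1` retraction of a ball onto its boundary sphere
would make the polynomial `t ↦ ∫ det (1 + t (f' - 1))` constant and equal to the volume of the
ball, while it vanishes at `t = 1`.
-/

open MeasureTheory Metric Set Polynomial
open scoped Topology NNReal ENNReal RealInnerProductSpace

namespace Pool.Agent.Helper47.Brouwer

variable {E : Type*} [NormedAddCommGroup E] [InnerProductSpace ℝ E] [FiniteDimensional ℝ E]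

lemma exists_poly (A : E →L[ℝ] E) :
    ∃ p : ℝ[X], p.natDegree ≤ Module.finrank ℝ E ∧ ∀ t : ℝ, (1 + t • A).det = p.eval t := by
  classical
  let b := Module.finBasis ℝ E
  let M := LinearMap.toMatrix b b (A : E →ₗ[ℝ] E)
  refine ⟨Matrix.det ((X : ℝ[X]) • M.map C + (1 : Matrix _ _ ℝ).map C), ?_, ?_⟩
  · simpa using natDegree_det_X_add_C_le M 1
  · intro t
    have h1 : (1 + t • A).det = (LinearMap.toMatrix b b ((1 + t • A : E →L[ℝ] E) : E →ₗ[ℝ] E)).det := by
      rw [LinearMap.det_toMatrix]
    rw [h1, ← Polynomial.coe_evalRingHom, (evalRingHom t).map_det]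
    congr 1
    have : ((1 + t • A : E →L[ℝ] E) : E →ₗ[ℝ] E) = LinearMap.id + t • (A : E →ₗ[ℝ] E) := by
      ext; simp
    rw [this, map_add, map_smul, LinearMap.toMatrix_id]
    ext i j
    simp only [M, Matrix.one_apply, RingHom.mapMatrix_apply, Matrix.map_apply, Matrix.add_apply,
      Matrix.smul_apply, smul_eq_mul, Polynomial.coe_evalRingHom, Polynomial.eval_add,
      Polynomial.eval_mul, Polynomial.eval_X, Polynomial.eval_C]
    ring

/-- interpolation: `det (1 + A)` is a fixed linear combination of the `det (1 + t_i A)` -/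
lemma exists_interp (δ : ℝ) (hδ : 0 < δ) :
    ∃ (ι : Finset ℕ) (v w : ℕ → ℝ), (∀ i ∈ ι, 0 ≤ v i ∧ v i < δ) ∧ (∑ i ∈ ι, w i = 1) ∧
      ∀ A : E →L[ℝ] E, (1 + A).det = ∑ i ∈ ι, w i * (1 + v i • A).det := by
  classical
  set n := Module.finrank ℝ E
  let v : ℕ → ℝ := fun i => δ * i / (n + 2)
  have hv : Set.InjOn v (Finset.range (n + 1)) := by
    intro i _ j _ h
    have h3 : (0:ℝ) < n + 2 := by positivity
    have : δ * i = δ * j := by
      have := h
      simp only [v] at this
      rwa [div_left_inj' h3.ne'] at this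
    have := mul_left_cancel₀ hδ.ne' this
    exact_mod_cast this
  refine ⟨Finset.range (n + 1), v, fun i => (Lagrange.basis (Finset.range (n+1)) v i).eval 1,
    ?_, ?_, ?_⟩
  · intro i hi
    have h3 : (0:ℝ) < n + 2 := by positivity
    have hi' : (i : ℝ) < n + 2 := by
      have := Finset.mem_range.1 hi
      have : i < n + 2 := by omega
      exact_mod_cast this
    refine ⟨by positivity, ?_⟩
    simp only [v]
    rw [div_lt_iff₀ h3]
    exact mul_lt_mul_of_pos_left hi' hδ
  · have := Lagrange.sum_basis hv ⟨0, by simp⟩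
    rw [← Polynomial.eval_finsetSum, this]; simp
  · intro A
    obtain ⟨p, hp, hpe⟩ := exists_poly A
    have hdeg : p.degree < (Finset.range (n + 1)).card := by
      rw [Finset.card_range]
      refine lt_of_le_of_lt Polynomial.degree_le_natDegree ?_
      exact_mod_cast Nat.lt_succ_of_le hp
    have h := Lagrange.eq_interpolate hv hdeg
    have h1 := hpe 1
    rw [one_smul] at h1
    rw [h1]
    conv_lhs => rw [h]
    rw [Lagrange.interpolate_apply, Polynomial.eval_finsetSum]
    refine Finset.sum_congr rfl fun i _ => ?_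
    rw [Polynomial.eval_mul, Polynomial.eval_C, hpe, mul_comm]

lemma det_pos (A : E →L[ℝ] E) (t : ℝ) (ht : 0 ≤ t) (h : t * ‖A‖ < 1) : 0 < (1 + t • A).det := by
  by_contra hcon
  push Not at hcon
  have hcont : Continuous fun s : ℝ => (1 + s • A).det := by
    have : Continuous fun B : E →L[ℝ] E => B.det := ContinuousLinearMap.continuous_det
    exact this.comp (by fun_prop)
  have h0 : (1 + (0:ℝ) • A).det = 1 := by
    simp only [zero_smul, add_zero]
    exact LinearMap.det_id
  have := intermediate_value_Icc' ht hcont.continuousOn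
  obtain ⟨s, hs, hs0⟩ := this ⟨hcon, by rw [h0]; exact zero_le_one⟩
  have hs0 : (1 + s • A).det = 0 := hs0
  obtain ⟨v, hv, hv0⟩ := Submodule.exists_mem_ne_zero_of_ne_bot
    (bot_lt_iff_ne_bot.1 (LinearMap.bot_lt_ker_of_det_eq_zero (f := ((1 + s • A : E →L[ℝ] E) : E →ₗ[ℝ] E)) hs0))
  have hv' : v + s • A v = 0 := by
    have := LinearMap.mem_ker.1 hv
    simpa using this
  have h1 : ‖v‖ = s * ‖A v‖ := by
    have h5 : v = -(s • A v) := eq_neg_of_add_eq_zero_left hv'
    calc ‖v‖ = ‖-(s • A v)‖ := congrArg norm h5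
      _ = s * ‖A v‖ := by rw [norm_neg, norm_smul, Real.norm_of_nonneg hs.1]
  have h2 : ‖A v‖ ≤ ‖A‖ * ‖v‖ := A.le_opNorm v
  have h3 : 0 < ‖v‖ := norm_pos_iff.2 hv0
  have h4 : s * ‖A v‖ ≤ t * (‖A‖ * ‖v‖) := mul_le_mul hs.2 h2 (norm_nonneg _) ht
  nlinarith

variable [MeasurableSpace E] [BorelSpace E]

/-- **No-retraction theorem** (`C^1` version). -/
theorem no_retraction (f : E → E) (hf : ContDiff ℝ 1 f) (R : ℝ) (hR : 0 < R)
    (h1 : ∀ x, ‖x‖ ≤ R → ‖f x‖ = R) (h2 : ∀ x, ‖x‖ = R → f x = x) : False := by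
  classical
  have hfd : Differentiable ℝ f := hf.differentiable (by norm_num)
  have hfc : Continuous (fderiv ℝ f) := hf.continuous_fderiv (by norm_num)
  -- the Lipschitz constant
  have hg'c : Continuous fun x => fderiv ℝ f x - 1 := hfc.sub continuous_const
  obtain ⟨C, hC⟩ : ∃ C : ℝ, ∀ x ∈ closedBall (0:E) R, ‖fderiv ℝ f x - 1‖ ≤ C := by
    obtain ⟨C, hC⟩ := (isCompact_closedBall (0:E) R).exists_bound_of_continuousOn hg'c.continuousOn
    exact ⟨C, hC⟩
  have hC0 : 0 ≤ C := (norm_nonneg _).trans (hC 0 (by simp [hR.le]))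
  have hg' : ∀ x, HasFDerivAt (fun x => f x - x) (fderiv ℝ f x - 1) x := fun x =>
    (hfd x).hasFDerivAt.sub (hasFDerivAt_id x)
  have hlip : ∀ x ∈ closedBall (0:E) R, ∀ y ∈ closedBall (0:E) R,
      ‖(f x - x) - (f y - y)‖ ≤ C * ‖x - y‖ := by
    intro x hx y hy
    exact (convex_closedBall (0:E) R).norm_image_sub_le_of_norm_hasFDerivWithin_le
      (fun z _ => (hg' z).hasFDerivWithinAt) hC hy hx
  -- the piecewise function
  let G : E → E := fun x => if ‖x‖ ≤ R then f x - x else 0
  have hGout : ∀ x, R ≤ ‖x‖ → G x = 0 := by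
    intro x hx
    simp only [G]
    split_ifs with h
    · rw [h2 x (le_antisymm h hx), sub_self]
    · rfl
  have hGin : ∀ x, ‖x‖ ≤ R → G x = f x - x := fun x hx => by simp only [G, if_pos hx]
  have hGlip1 : ∀ x y, ‖x‖ ≤ R → R < ‖y‖ → ‖G x - G y‖ ≤ C * ‖x - y‖ := by
    intro x y hx hy
    have hcont : ContinuousOn (fun s : ℝ => ‖x + s • (y - x)‖) (Icc 0 1) := by fun_prop
    have := intermediate_value_Icc zero_le_one hcont
    simp only [zero_smul, add_zero, one_smul, add_sub_cancel] at this
    obtain ⟨s, hs, hsR⟩ := this ⟨hx, hy.le⟩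
    set z := x + s • (y - x) with hz
    have hsR : ‖z‖ = R := hsR
    have hzz : G y = G z := by rw [hGout y hy.le, hGout z hsR.ge]
    rw [hzz, hGin x hx, hGin z hsR.le]
    refine (hlip x (by simpa using hx) z (by simpa using hsR.le)).trans ?_
    refine mul_le_mul_of_nonneg_left ?_ hC0
    have : x - z = s • (x - y) := by rw [hz]; module
    rw [this, norm_smul, Real.norm_of_nonneg hs.1]
    exact mul_le_of_le_one_left (norm_nonneg _) hs.2
  have hGlip : ∀ x y, ‖G x - G y‖ ≤ C * ‖x - y‖ := by
    intro x y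
    rcases le_or_gt ‖x‖ R with hx | hx <;> rcases le_or_gt ‖y‖ R with hy | hy
    · rw [hGin x hx, hGin y hy]
      exact hlip x (by simpa using hx) y (by simpa using hy)
    · exact hGlip1 x y hx hy
    · rw [norm_sub_rev, norm_sub_rev x y]; exact hGlip1 y x hy hx
    · rw [hGout x hx.le, hGout y hy.le, sub_self, norm_zero]; positivity
  -- small times
  let δ : ℝ := 1 / (C + 1)
  have hδ : 0 < δ := by positivity
  have hvol : ∀ t : ℝ, 0 ≤ t → t < δ →
      ∫ x in ball (0:E) R, (1 + t • (fderiv ℝ f x - 1)).det = volume.real (ball (0:E) R) := by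
    intro t ht htδ
    have htC : t * C < 1 := by
      have h3 : t * (C + 1) < 1 := by
        have := (lt_div_iff₀ (by positivity : 0 < C + 1)).1 htδ
        exact this
      nlinarith
    let F : E → E := fun x => x + t • G x
    have hinj : Function.Injective F := by
      intro x y hxy
      have h3 : x - y = t • (G y - G x) := by
        have : x + t • G x = y + t • G y := hxy
        rw [smul_sub]
        have h4 : x - y = t • G y - t • G x := by
          rw [sub_eq_sub_iff_add_eq_add, this]; abel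
        exact h4
      have h4 : ‖x - y‖ ≤ t * (C * ‖x - y‖) := by
        calc ‖x - y‖ = t * ‖G y - G x‖ := by
              conv_lhs => rw [h3]
              rw [norm_smul, Real.norm_of_nonneg ht]
          _ ≤ t * (C * ‖y - x‖) := mul_le_mul_of_nonneg_left (hGlip y x) ht
          _ = t * (C * ‖x - y‖) := by rw [norm_sub_rev]
      by_contra hne
      have : 0 < ‖x - y‖ := norm_pos_iff.2 (sub_ne_zero.2 hne)
      nlinarith
    have hsurj : Function.Surjective F := by
      intro y
      have hK : ContractingWith ⟨t * C, by positivity⟩ (fun x => y - t • G x) := by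
        refine ⟨by exact_mod_cast htC, ?_⟩
        refine LipschitzWith.of_dist_le_mul fun a b => ?_
        rw [dist_eq_norm, dist_eq_norm]
        have : y - t • G a - (y - t • G b) = t • (G b - G a) := by
          rw [smul_sub]; abel
        rw [this, norm_smul, Real.norm_of_nonneg ht]
        calc t * ‖G b - G a‖ ≤ t * (C * ‖b - a‖) := mul_le_mul_of_nonneg_left (hGlip b a) ht
          _ = t * C * ‖a - b‖ := by rw [norm_sub_rev, mul_assoc]
      obtain ⟨x, hx⟩ : ∃ x, y - t • G x = x := ⟨_, hK.fixedPoint_isFixedPt⟩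
      refine ⟨x, ?_⟩
      show x + t • G x = y
      conv_lhs => rw [← hx]
      rw [hx]
      have := hx
      rw [sub_eq_iff_eq_add] at this
      rw [this]
    have hFout : ∀ x, R ≤ ‖x‖ → F x = x := fun x hx => by
      show x + t • G x = x
      rw [hGout x hx, smul_zero, add_zero]
    have himg : F '' ball 0 R = ball 0 R := by
      ext y
      constructor
      · rintro ⟨x, hx, rfl⟩
        by_contra hcon
        have hy : R ≤ ‖F x‖ := by simpa using hcon
        have := hinj (hFout _ hy)
        rw [this] at hy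
        simp at hx
        linarith
      · intro hy
        obtain ⟨x, rfl⟩ := hsurj y
        refine ⟨x, ?_, rfl⟩
        by_contra hcon
        have hx : R ≤ ‖x‖ := by simpa using hcon
        rw [hFout x hx] at hy
        exact hcon hy
    have hderiv : ∀ x ∈ ball (0:E) R,
        HasFDerivWithinAt F (1 + t • (fderiv ℝ f x - 1)) (ball 0 R) x := by
      intro x hx
      have h3 : HasFDerivAt (fun x => x + t • (f x - x)) (1 + t • (fderiv ℝ f x - 1)) x :=
        (hasFDerivAt_id x).add ((hg' x).const_smul t)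
      refine h3.hasFDerivWithinAt.congr ?_ ?_
      · intro z hz
        show z + t • G z = _
        rw [hGin z (by simpa using (mem_ball_zero_iff.1 hz).le)]
      · show x + t • G x = _
        rw [hGin x (by simpa using (mem_ball_zero_iff.1 hx).le)]
    have key := lintegral_abs_det_fderiv_eq_addHaar_image (volume : Measure E) measurableSet_ball
      hderiv (hinj.injOn)
    rw [himg] at key
    have hpos : ∀ x ∈ ball (0:E) R, 0 < (1 + t • (fderiv ℝ f x - 1)).det := by
      intro x hx
      apply det_pos _ _ ht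
      have := hC x (ball_subset_closedBall hx)
      calc t * ‖fderiv ℝ f x - 1‖ ≤ t * C := mul_le_mul_of_nonneg_left this ht
        _ < 1 := htC
    rw [integral_eq_lintegral_of_nonneg_ae]
    · rw [Measure.real, ← key]
      congr 1
      refine setLIntegral_congr_fun measurableSet_ball fun x hx => ?_
      rw [abs_of_pos (hpos x hx)]
    · filter_upwards [ae_restrict_mem measurableSet_ball] with x hx
      exact (hpos x hx).le
    · apply Continuous.aestronglyMeasurable
      have : Continuous fun B : E →L[ℝ] E => B.det := ContinuousLinearMap.continuous_det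
      exact this.comp (by fun_prop)
  -- the determinant vanishes at time one
  have hdet0 : ∀ x ∈ ball (0:E) R, (fderiv ℝ f x).det = 0 := by
    intro x hx
    by_contra hne
    have hsurj : Function.Surjective (fderiv ℝ f x) := by
      have := LinearMap.equivOfDetNeZero ((fderiv ℝ f x : E →L[ℝ] E) : E →ₗ[ℝ] E) hne
      exact (LinearMap.equivOfDetNeZero ((fderiv ℝ f x : E →L[ℝ] E) : E →ₗ[ℝ] E) hne).surjective
    obtain ⟨v, hv⟩ := hsurj (f x)
    have h3 : HasFDerivAt (fun y => ⟪f y, f y⟫) _ x :=
      ((hfd x).hasFDerivAt.inner ℝ (hfd x).hasFDerivAt)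
    have h4 : HasFDerivAt (fun y => ⟪f y, f y⟫) (0 : E →L[ℝ] ℝ) x := by
      refine (hasFDerivAt_const (R^2 : ℝ) x).congr_of_eventuallyEq ?_
      filter_upwards [isOpen_ball.mem_nhds hx] with y hy
      rw [real_inner_self_eq_norm_sq, h1 y (mem_ball_zero_iff.1 hy).le]
    have h5 := congrArg (fun L : E →L[ℝ] ℝ => L v) (h3.unique h4)
    simp [hv, fderivInnerCLM_apply] at h5
    have h6 := h1 x (mem_ball_zero_iff.1 hx).le
    rw [h5, norm_zero] at h6
    exact hR.ne h6
  obtain ⟨ι, v, w, hv, hw, hint⟩ := exists_interp (E := E) δ hδ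
  have hintble : ∀ t : ℝ, IntegrableOn (fun x => (1 + t • (fderiv ℝ f x - 1)).det) (ball (0:E) R) := by
    intro t
    have hc : Continuous (fun x => (1 + t • (fderiv ℝ f x - 1)).det) := by
      have : Continuous fun B : E →L[ℝ] E => B.det := ContinuousLinearMap.continuous_det
      exact this.comp (by fun_prop)
    exact (hc.continuousOn.integrableOn_compact (isCompact_closedBall (0:E) R)).mono_set
      ball_subset_closedBall
  have hfin : ∫ x in ball (0:E) R, (1 + (fderiv ℝ f x - 1)).det = volume.real (ball (0:E) R) := by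
    have : ∀ x, (1 + (fderiv ℝ f x - 1)).det
        = ∑ i ∈ ι, w i * (1 + v i • (fderiv ℝ f x - 1)).det := fun x => hint _
    simp_rw [this]
    rw [integral_finsetSum]
    · have : ∀ i ∈ ι, ∫ x in ball (0:E) R, w i * (1 + v i • (fderiv ℝ f x - 1)).det
          = w i * volume.real (ball (0:E) R) := by
        intro i hi
        rw [integral_const_mul, hvol (v i) (hv i hi).1 (hv i hi).2]
      rw [Finset.sum_congr rfl this, ← Finset.sum_mul, hw, one_mul]
    · intro i _
      exact (hintble (v i)).const_mul _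
  have hz : ∫ x in ball (0:E) R, (1 + (fderiv ℝ f x - 1)).det = 0 := by
    rw [setIntegral_congr_fun (g := fun _ => (0:ℝ)) measurableSet_ball]
    · simp
    · intro x hx
      have : (1 + (fderiv ℝ f x - 1)) = fderiv ℝ f x := by abel
      show (1 + (fderiv ℝ f x - 1)).det = 0
      rw [this, hdet0 x hx]
  have hpos : 0 < volume.real (ball (0:E) R) := by
    rw [Measure.real]
    exact ENNReal.toReal_pos (measure_ball_pos _ _ hR).ne' measure_ball_lt_top.ne
  rw [hz] at hfin
  exact hpos.ne hfin

/-- a continuous self-map of `E` which is the identity outside a ball has a zero -/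
theorem exists_zero (F : E → E) (hF : Continuous F) (R : ℝ) (hR : 0 < R)
    (h : ∀ x, R ≤ ‖x‖ → F x = x) : ∃ x, F x = 0 := by
  by_contra hcon
  push Not at hcon
  -- positive lower bound
  obtain ⟨ε, hε, hεF⟩ : ∃ ε > 0, ∀ x, ε ≤ ‖F x‖ := by
    have hne : (closedBall (0:E) R).Nonempty := ⟨0, by simp [hR.le]⟩
    obtain ⟨x₀, hx₀, hmin⟩ := (isCompact_closedBall (0:E) R).exists_isMinOn hne
      (f := fun x => ‖F x‖) (by fun_prop)
    refine ⟨min ‖F x₀‖ R, lt_min (norm_pos_iff.2 (hcon x₀)) hR, fun x => ?_⟩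
    rcases le_or_gt ‖x‖ R with hx | hx
    · exact (min_le_left _ _).trans (hmin (by simpa using hx))
    · rw [h x hx.le]; exact (min_le_right _ _).trans hx.le
  -- smoothing
  let t : E → Set E := fun x => {v | ‖v - F x‖ < ε} ∩ {v | R + 1 ≤ ‖x‖ → v = x}
  have ht : ∀ x, Convex ℝ (t x) := by
    intro x
    refine Convex.inter ?_ ?_
    · have : {v : E | ‖v - F x‖ < ε} = ball (F x) ε := by
        ext v; simp [dist_eq_norm]
      rw [this]; exact convex_ball _ _
    · by_cases hx : R + 1 ≤ ‖x‖
      · have : {v : E | R + 1 ≤ ‖x‖ → v = x} = {x} := by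
          ext v; simp [hx]
        rw [this]; exact convex_singleton _
      · have : {v : E | R + 1 ≤ ‖x‖ → v = x} = univ := by
          ext v; simp [hx]
        rw [this]; exact convex_univ
  obtain ⟨g, hg⟩ := exists_contMDiffMap_forall_mem_convex_of_local (n := 1) (t := t)
    (modelWithCornersSelf ℝ E) ht (by
      intro x
      rcases le_or_gt ‖x‖ R with hx | hx
      · refine ⟨{y | ‖y‖ < R + 1 ∧ ‖F x - F y‖ < ε}, ?_, fun _ => F x, contMDiffOn_const, ?_⟩
        · apply IsOpen.mem_nhds
          · apply IsOpen.inter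
            · exact isOpen_lt continuous_norm continuous_const
            · exact isOpen_lt (f := fun y => ‖F x - F y‖) (g := fun _ => ε) (by fun_prop)
                continuous_const
          · refine ⟨?_, ?_⟩
            · show ‖x‖ < R + 1
              linarith
            · show ‖F x - F x‖ < ε
              simpa using hε
        · rintro y ⟨hy1, hy2⟩
          exact ⟨hy2, fun hy => absurd hy (not_le.2 hy1)⟩
      · refine ⟨{y | R < ‖y‖}, (isOpen_lt continuous_const continuous_norm).mem_nhds hx,
          fun y => y, contMDiffOn_id, ?_⟩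
        intro y hy
        have hy : R < ‖y‖ := hy
        refine ⟨?_, fun _ => rfl⟩
        show ‖y - F y‖ < ε
        rw [h y hy.le, sub_self, norm_zero]
        exact hε)
  have hgs : ContDiff ℝ 1 g := g.contMDiff.contDiff
  have hg0 : ∀ x, g x ≠ 0 := by
    intro x h0
    have := (hg x).1
    have h3 : ‖g x - F x‖ < ε := this
    rw [h0, zero_sub, norm_neg] at h3
    exact absurd (hεF x) (not_le.2 h3)
  have hR1 : (0:ℝ) < R + 1 := by linarith
  refine no_retraction (fun x => ((R + 1) * ‖g x‖⁻¹) • g x) ?_ (R + 1) hR1 ?_ ?_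
  · refine ContDiff.smul (contDiff_const.mul (ContDiff.inv ?_ ?_)) hgs
    · exact hgs.norm ℝ hg0
    · exact fun x => norm_ne_zero_iff.2 (hg0 x)
  · intro x _
    rw [norm_smul, norm_mul, norm_inv, norm_norm, Real.norm_of_nonneg hR1.le]
    have := norm_ne_zero_iff.2 (hg0 x)
    field_simp
  · intro x hx
    have h3 : g x = x := (hg x).2 hx.ge
    show ((R + 1) * ‖g x‖⁻¹) • g x = x
    rw [h3, hx, mul_inv_cancel₀ hR1.ne', one_smul]

/-- if a continuous vector field on a ball never points strictly inward against `x` on the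
boundary sphere, then it has a zero in the ball -/
theorem exists_zero_of_inner_nonneg (F : E → E) (R : ℝ) (hR : 0 < R)
    (hF : ContinuousOn F (closedBall 0 R)) (h : ∀ x, ‖x‖ = R → 0 ≤ ⟪F x, x⟫) :
    ∃ x ∈ closedBall (0:E) R, F x = 0 := by
  classical
  -- radial retraction onto the ball
  let ρ : E → E := fun x => (R / max R ‖x‖) • x
  have hmax : ∀ x : E, 0 < max R ‖x‖ := fun x => lt_max_of_lt_left hR
  have hρc : Continuous ρ := by
    refine Continuous.smul ?_ continuous_id
    exact continuous_const.div (by fun_prop) fun x => (hmax x).ne'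
  have hρb : ∀ x, ρ x ∈ closedBall (0:E) R := by
    intro x
    rw [mem_closedBall_zero_iff, norm_smul, norm_div, Real.norm_of_nonneg hR.le,
      Real.norm_of_nonneg (hmax x).le, div_mul_eq_mul_div, div_le_iff₀ (hmax x)]
    exact mul_le_mul_of_nonneg_left (le_max_right _ _) hR.le
  have hρin : ∀ x, ‖x‖ ≤ R → ρ x = x := by
    intro x hx
    show (R / max R ‖x‖) • x = x
    rw [max_eq_left hx, div_self hR.ne', one_smul]
  have hFρ : Continuous fun x => F (ρ x) := hF.comp_continuous hρc hρb
  -- weights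
  let a : E → ℝ := fun x => max 0 (min 1 (2 - ‖x‖ / R))
  have hac : Continuous a := by
    refine continuous_const.max (continuous_const.min (by fun_prop))
  have ha0 : ∀ x, 0 ≤ a x := fun x => le_max_left _ _
  have ha1 : ∀ x, a x ≤ 1 := fun x => max_le zero_le_one (min_le_left _ _)
  have ha_in : ∀ x, ‖x‖ ≤ R → a x = 1 := by
    intro x hx
    have : 1 ≤ 2 - ‖x‖ / R := by
      have : ‖x‖ / R ≤ 1 := (div_le_one hR).2 hx
      linarith
    show max 0 (min 1 (2 - ‖x‖ / R)) = 1
    rw [min_eq_left this, max_eq_right zero_le_one]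
  have ha_out : ∀ x, R * 2 ≤ ‖x‖ → a x = 0 := by
    intro x hx
    have : 2 - ‖x‖ / R ≤ 0 := by
      have : 2 ≤ ‖x‖ / R := (le_div_iff₀ hR).2 (by linarith)
      linarith
    show max 0 (min 1 (2 - ‖x‖ / R)) = 0
    rw [min_eq_right (by linarith), max_eq_left this]
  have ha_lt : ∀ x, R < ‖x‖ → a x < 1 := by
    intro x hx
    have : 2 - ‖x‖ / R < 1 := by
      have : 1 < ‖x‖ / R := (one_lt_div hR).2 hx
      linarith
    show max 0 (min 1 (2 - ‖x‖ / R)) < 1
    rw [min_eq_right this.le]
    exact max_lt zero_lt_one this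
  obtain ⟨x, hx⟩ := exists_zero (fun x => a x • F (ρ x) + (1 - a x) • x)
    ((hac.smul hFρ).add ((continuous_const.sub hac).smul continuous_id)) (R * 2) (by positivity)
    (by
      intro x hx
      rw [ha_out x hx]; simp)
  rcases le_or_gt ‖x‖ R with hxR | hxR
  · refine ⟨x, by simpa using hxR, ?_⟩
    simpa [ha_in x hxR, hρin x hxR] using hx
  · exfalso
    have h3 : ⟪a x • F (ρ x) + (1 - a x) • x, x⟫ = 0 := by
      have : a x • F (ρ x) + (1 - a x) • x = 0 := hx
      rw [this, inner_zero_left]
    rw [inner_add_left, real_inner_smul_left, real_inner_smul_left,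
      real_inner_self_eq_norm_sq] at h3
    have hρn : ‖ρ x‖ = R := by
      show ‖(R / max R ‖x‖) • x‖ = R
      rw [max_eq_right hxR.le, norm_smul, norm_div, norm_norm, Real.norm_of_nonneg hR.le]
      have : ‖x‖ ≠ 0 := (hR.trans hxR).ne'
      field_simp
    have h4 := h (ρ x) hρn
    have h5 : ρ x = (R / ‖x‖) • x := by
      show (R / max R ‖x‖) • x = _
      rw [max_eq_right hxR.le]
    have h6 : 0 ≤ ⟪F (ρ x), x⟫ := by
      have hx0 : 0 < ‖x‖ := hR.trans hxR
      have h7 : ⟪F (ρ x), ρ x⟫ = (R / ‖x‖) * ⟪F (ρ x), x⟫ := by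
        have := congrArg (fun z => ⟪F (ρ x), z⟫) h5
        exact this.trans (real_inner_smul_right _ _ _)
      rw [h7] at h4
      exact nonneg_of_mul_nonneg_right h4 (by positivity)
    have h8 : 0 < (1 - a x) * ‖x‖ ^ 2 := by
      have := ha_lt x hxR
      have hx0 : 0 < ‖x‖ := hR.trans hxR
      have : 0 < 1 - a x := by linarith
      positivity
    have h9 : 0 ≤ a x * ⟪F (ρ x), x⟫ := mul_nonneg (ha0 x) h6
    linarith

/-- **Brouwer's fixed point theorem** for closed balls. -/
theorem brouwer_ball (g : E → E) (R : ℝ) (hR : 0 < R) (hg : ContinuousOn g (closedBall 0 R))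
    (hm : MapsTo g (closedBall 0 R) (closedBall 0 R)) : ∃ x ∈ closedBall (0:E) R, g x = x := by
  obtain ⟨x, hx, h0⟩ := exists_zero_of_inner_nonneg (fun x => x - g x) R hR
    (continuousOn_id.sub hg) (by
      intro x hx
      have h3 : ‖g x‖ ≤ R := by simpa using hm (x := x) (by simp [hx])
      rw [inner_sub_left, real_inner_self_eq_norm_sq, hx]
      have := real_inner_le_norm (g x) x
      rw [hx] at this
      nlinarith)
  exact ⟨x, hx, (sub_eq_zero.1 h0).symm⟩

/-- **Brouwer's fixed point theorem** for retracts of a ball: if `r` is a continuous retraction of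
`E` onto the bounded set `K` then every continuous self-map of `K` has a fixed point. -/
theorem brouwer_retract (K : Set E) (hb : Bornology.IsBounded K) (r : E → E) (hr : Continuous r)
    (hrK : ∀ x, r x ∈ K) (hr1 : ∀ x ∈ K, r x = x) (g : E → E) (hg : ContinuousOn g K)
    (hm : MapsTo g K K) : ∃ x ∈ K, g x = x := by
  obtain ⟨R, hR⟩ := hb.subset_closedBall (0:E)
  obtain ⟨x, hx, h3⟩ := brouwer_ball (fun x => g (r x)) (max R 1) (by positivity)
    (hg.comp_continuous hr hrK).continuousOn (by
      intro x _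
      exact closedBall_subset_closedBall (le_max_left _ _) (hR (hm (hrK x))))
  have h4 : x ∈ K := by
    rw [← h3]; exact hm (hrK x)
  refine ⟨x, h4, ?_⟩
  have h3 : g (r x) = x := h3
  rwa [hr1 x h4] at h3

/-- clamping of a vector to the box `∏ [a i, b i]` -/
noncomputable def clamp {ι : Type*} (a b : ι → ℝ) (x : ι → ℝ) : ι → ℝ :=
  fun i => max (a i) (min (b i) (x i))

/-- **Brouwer's fixed point theorem** for boxes in `ι → ℝ`. -/
theorem brouwer_box {ι : Type*} [Fintype ι] (a b : ι → ℝ) (hab : a ≤ b)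
    (g : (ι → ℝ) → (ι → ℝ)) (hg : ContinuousOn g (Icc a b)) (hm : MapsTo g (Icc a b) (Icc a b)) :
    ∃ x ∈ Icc a b, g x = x := by
  classical
  let e : EuclideanSpace ℝ ι ≃L[ℝ] (ι → ℝ) := EuclideanSpace.equiv ι ℝ
  have hcc : Continuous (clamp a b) := by
    refine continuous_pi fun i => ?_
    show Continuous fun x : ι → ℝ => max (a i) (min (b i) (x i))
    fun_prop
  have hcl : ∀ x, clamp a b x ∈ Icc a b := fun x =>
    ⟨fun i => le_max_left _ _, fun i => max_le (hab i) (min_le_left _ _)⟩
  have hcid : ∀ x ∈ Icc a b, clamp a b x = x := by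
    intro x hx
    funext i
    show max (a i) (min (b i) (x i)) = x i
    rw [min_eq_right (hx.2 i), max_eq_right (hx.1 i)]
  obtain ⟨x, hx, h3⟩ := brouwer_retract (E := EuclideanSpace ℝ ι) (e ⁻¹' (Icc a b)) (by
      have hK : IsCompact (e.symm '' (Icc a b)) := isCompact_Icc.image e.symm.continuous
      have : e ⁻¹' (Icc a b) = e.symm '' (Icc a b) := by
        rw [← e.image_symm_eq_preimage]
      rw [this]
      exact hK.isBounded)
    (fun x => e.symm (clamp a b (e x))) (by fun_prop)
    (fun x => by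
      show e (e.symm (clamp a b (e x))) ∈ Icc a b
      rw [e.apply_symm_apply]; exact hcl _)
    (fun x hx => by rw [hcid _ hx, e.symm_apply_apply])
    (fun x => e.symm (g (e x)))
    (e.symm.continuous.comp_continuousOn (hg.comp e.continuous.continuousOn (fun x hx => hx)))
    (fun x hx => by
      show e (e.symm (g (e x))) ∈ Icc a b
      rw [e.apply_symm_apply]; exact hm hx)
  refine ⟨e x, hx, ?_⟩
  have := congrArg e h3
  rwa [e.apply_symm_apply] at this

/-- **Poincare-Miranda theorem** on a box: a continuous `f` whose `i`-th component is `≤ 0` on the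
face `x i = a i` and `≥ 0` on the face `x i = b i` has a zero. -/
theorem poincare_miranda {ι : Type*} [Fintype ι] (a b : ι → ℝ) (hab : a ≤ b)
    (f : (ι → ℝ) → (ι → ℝ)) (hf : ContinuousOn f (Icc a b))
    (h0 : ∀ x ∈ Icc a b, ∀ i, x i = a i → f x i ≤ 0)
    (h1 : ∀ x ∈ Icc a b, ∀ i, x i = b i → 0 ≤ f x i) : ∃ x ∈ Icc a b, f x = 0 := by
  classical
  have hcc : Continuous (clamp a b) := by
    refine continuous_pi fun i => ?_
    show Continuous fun x : ι → ℝ => max (a i) (min (b i) (x i))
    fun_prop
  obtain ⟨x, hx, h3⟩ := brouwer_box a b hab (fun x => clamp a b (x - f x))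
    (hcc.comp_continuousOn (continuousOn_id.sub hf))
    (fun x _ => ⟨fun i => le_max_left _ _, fun i => max_le (hab i) (min_le_left _ _)⟩)
  refine ⟨x, hx, ?_⟩
  funext i
  have h4 : max (a i) (min (b i) (x i - f x i)) = x i := congrFun h3 i
  have h5 := h0 x hx i
  have h6 := h1 x hx i
  have h7 := hx.1 i
  have h8 := hx.2 i
  show f x i = 0
  rcases le_or_gt (b i) (x i - f x i) with h | h
  · rw [min_eq_left h, max_eq_right (hab i)] at h4
    have := h6 h4.symm
    linarith
  · rw [min_eq_right h.le] at h4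
    rcases le_or_gt (a i) (x i - f x i) with h' | h'
    · rw [max_eq_right h'] at h4
      linarith
    · rw [max_eq_left h'.le] at h4
      have := h5 h4.symm
      linarith

/-- **Poincare-Miranda theorem** on the cube `[-1,1]^n` with opposite signs on opposite faces. -/
theorem poincare_miranda' {ι : Type*} [Fintype ι] (a b : ι → ℝ) (hab : a ≤ b)
    (f : (ι → ℝ) → (ι → ℝ)) (hf : ContinuousOn f (Icc a b))
    (h0 : ∀ x ∈ Icc a b, ∀ i, x i = a i → 0 ≤ f x i)
    (h1 : ∀ x ∈ Icc a b, ∀ i, x i = b i → f x i ≤ 0) : ∃ x ∈ Icc a b, f x = 0 := by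
  obtain ⟨x, hx, h⟩ := poincare_miranda a b hab (fun x => - f x) hf.neg
    (fun x hx i hi => by have := h0 x hx i hi; simpa using this)
    (fun x hx i hi => by have := h1 x hx i hi; simpa using this)
  exact ⟨x, hx, by simpa using h⟩

/-- **Brouwer's fixed point theorem** for the standard simplex. -/
theorem brouwer_simplex {ι : Type*} [Fintype ι] [Nonempty ι]
    (g : (ι → ℝ) → (ι → ℝ)) (hg : ContinuousOn g (stdSimplex ℝ ι))
    (hm : MapsTo g (stdSimplex ℝ ι) (stdSimplex ℝ ι)) :
    ∃ x ∈ stdSimplex ℝ ι, g x = x := by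
  classical
  -- a retraction of the space onto the simplex: `x ↦ (x⁺ + c) / sum`, with `c = (1 - ∑ x⁺)⁺ / n`
  let n : ℝ := Fintype.card ι
  have hn : 0 < n := by
    have : 0 < Fintype.card ι := Fintype.card_pos
    show (0:ℝ) < (Fintype.card ι : ℝ)
    exact_mod_cast this
  let c : (ι → ℝ) → ℝ := fun x => max 0 (1 - ∑ i, max 0 (x i)) / n
  let s : (ι → ℝ) → ℝ := fun x => ∑ i, (max 0 (x i) + c x)
  have hc0 : ∀ x, 0 ≤ c x := fun x => div_nonneg (le_max_left _ _) hn.le
  have hsx : ∀ x, s x = (∑ i, max 0 (x i)) + max 0 (1 - ∑ i, max 0 (x i)) := by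
    intro x
    simp only [s, c, Finset.sum_add_distrib, Finset.sum_const, Finset.card_univ, nsmul_eq_mul]
    rw [mul_div_cancel₀ _ hn.ne']
  have hs1 : ∀ x, 1 ≤ s x := by
    intro x
    rw [hsx]
    have := le_max_right 0 (1 - ∑ i, max 0 (x i))
    linarith
  let r : (ι → ℝ) → (ι → ℝ) := fun x i => (max 0 (x i) + c x) / s x
  have hcc : Continuous c := by
    show Continuous fun x : ι → ℝ => max 0 (1 - ∑ i, max 0 (x i)) / n
    fun_prop
  have hsc : Continuous s := by
    show Continuous fun x : ι → ℝ => ∑ i, (max 0 (x i) + c x)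
    fun_prop
  have hrc : Continuous r := by
    refine continuous_pi fun i => ?_
    show Continuous fun x : ι → ℝ => (max 0 (x i) + c x) / s x
    refine Continuous.div (by fun_prop) hsc fun x => ?_
    have := hs1 x
    linarith
  have hrK : ∀ x, r x ∈ stdSimplex ℝ ι := by
    intro x
    have hs0 : 0 < s x := by have := hs1 x; linarith
    refine ⟨fun i => div_nonneg (add_nonneg (le_max_left _ _) (hc0 x)) hs0.le, ?_⟩
    show ∑ i, (max 0 (x i) + c x) / s x = 1
    rw [← Finset.sum_div]
    exact div_self hs0.ne'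
  have hr1 : ∀ x ∈ stdSimplex ℝ ι, r x = x := by
    intro x hx
    have h3 : ∀ i, max 0 (x i) = x i := fun i => max_eq_right (hx.1 i)
    have h4 : ∑ i, max 0 (x i) = 1 := by rw [Finset.sum_congr rfl fun i _ => h3 i, hx.2]
    have h5 : c x = 0 := by simp only [c]; rw [h4]; simp
    have h6 : s x = 1 := by rw [hsx, h4]; simp
    funext i
    show (max 0 (x i) + c x) / s x = x i
    rw [h3, h5, h6]; simp
  let e : EuclideanSpace ℝ ι ≃L[ℝ] (ι → ℝ) := EuclideanSpace.equiv ι ℝ
  obtain ⟨x, hx, h3⟩ := brouwer_retract (E := EuclideanSpace ℝ ι) (e ⁻¹' (stdSimplex ℝ ι)) (by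
      have hK : IsCompact (e.symm '' (stdSimplex ℝ ι)) :=
        (isCompact_stdSimplex ℝ ι).image e.symm.continuous
      have : e ⁻¹' (stdSimplex ℝ ι) = e.symm '' (stdSimplex ℝ ι) := by
        rw [← e.image_symm_eq_preimage]
      rw [this]
      exact hK.isBounded)
    (fun x => e.symm (r (e x))) (by fun_prop)
    (fun x => by
      show e (e.symm (r (e x))) ∈ stdSimplex ℝ ι
      rw [e.apply_symm_apply]; exact hrK _)
    (fun x hx => by rw [hr1 _ hx, e.symm_apply_apply])
    (fun x => e.symm (g (e x)))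
    (e.symm.continuous.comp_continuousOn (hg.comp e.continuous.continuousOn (fun x hx => hx)))
    (fun x hx => by
      show e (e.symm (g (e x))) ∈ stdSimplex ℝ ι
      rw [e.apply_symm_apply]; exact hm hx)
  refine ⟨e x, hx, ?_⟩
  have := congrArg e h3
  rwa [e.apply_symm_apply] at this

end Pool.Agent.Helper47.Brouwer
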