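import Mathlib

/-!
Definitions: magnified copies of a set in `ℝ^d` and reconstruction from measures of intersections.
-/

namespace Pool.Agent.Helper47.Recon

open MeasureTheory

/-- The family `M(E) = {rE + x : r ≥ 1, x ∈ ℝ^d}` of magnified copies of `E`. -/
def magnifiedCopies {d : ℕ} (E : Set (Fin d → ℝ)) : Set (Set (Fin d → ℝ)) :=
  {A | ∃ r : ℝ, 1 ≤ r ∧ ∃ x : Fin d → ℝ, A = (fun y => r • y + x) '' E}

/-- An element of the family `𝒜` of subsets of `ℝ^d` can be reconstructed using `n` test sets: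
there are Lebesgue measurable sets `T_1, ..., T_n` such that any two members `A`, `B` of `𝒜` with
`λ(A ∩ T_i) = λ(B ∩ T_i)` for all `i` are equal. -/
def CanReconstruct {d : ℕ} (𝒜 : Set (Set (Fin d → ℝ))) (n : ℕ) : Prop :=
  ∃ T : Fin n → Set (Fin d → ℝ), (∀ i, NullMeasurableSet (T i) volume) ∧
    ∀ A ∈ 𝒜, ∀ B ∈ 𝒜, (∀ i, volume (A ∩ T i) = volume (B ∩ T i)) → A = B

end Pool.Agent.Helper47.Recon
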