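import Pool.Agent.Helper47.JefRenorm
import Pool.Agent.Helper42.Jef.Vel2

/-! # DiPerna–Lions renormalisation, locally integrable right-hand side -/

open MeasureTheory Set Filter Topology
open scoped ENNReal ContDiff

namespace Pool.Agent.Helper47.Jef

open Pool.Agent.Helper42.Jef

variable {n : ℕ}

/-- local version of `renorm` -/
theorem renorm_loc {E E' : Type*} [NormedAddCommGroup E] [NormedSpace ℝ E]
    [FiniteDimensional ℝ E] [MeasurableSpace E] [BorelSpace E]
    [NormedAddCommGroup E'] [NormedSpace ℝ E'] [FiniteDimensional ℝ E']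
    [MeasurableSpace E'] [BorelSpace E']
    {Ω : Set (Eu n)} (hΩ : IsOpen Ω) (hΩb : Bornology.IsBounded Ω) {T : ℝ} (hT : 0 < T)
    {v : ST n → Eu n} {G : ST n → Mt n} (hv : IsVel Ω T v G)
    {u F : ST n → E} (hu : MemLp u 2 volume)
    (hF : ∀ R : ℝ, IntegrableOn F {z : ST n | ‖z.2‖ ≤ R} volume)
    (h : TE T v u F) {K : Set E} (hK : Convex ℝ K) (hKc : IsClosed K) (hK0 : (0 : E) ∈ K)
    (huK : ∀ᵐ z, u z ∈ K) (β : E → E') (hβ : ContDiff ℝ 1 β) (L : ℝ)
    (hL : ∀ x ∈ K, ‖fderiv ℝ β x‖ ≤ L) :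
    TE T v (fun z => β (u z)) (fun z => fderiv ℝ β (u z) (F z)) := by
  intro η ψ hη hψ
  -- a large ball
  obtain ⟨R, hR0, hR⟩ : ∃ R : ℝ, 0 < R ∧ Ω ∪ tsupport ψ ⊆ Metric.ball (0 : Eu n) R := by
    have h1 : Bornology.IsBounded (Ω ∪ tsupport ψ) := hΩb.union hψ.cpt.isCompact.isBounded
    obtain ⟨r, hr⟩ := h1.subset_ball (0 : Eu n)
    refine ⟨max r 1, lt_max_of_lt_right one_pos, hr.trans (Metric.ball_subset_ball (le_max_left _ _))⟩
  let b : ContDiffBump (0 : Eu n) := ⟨R, R + 1, hR0, by linarith⟩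
  let κ : Eu n → ℝ := b
  have κs : ContDiff ℝ ∞ κ := b.contDiff
  have κ0 : ∀ x, 0 ≤ κ x := fun x => b.nonneg
  have κ1 : ∀ x, κ x ≤ 1 := fun x => b.le_one
  have κone : ∀ x ∈ Metric.ball (0 : Eu n) R, κ x = 1 := fun x hx =>
    b.one_of_mem_closedBall (Metric.ball_subset_closedBall hx)
  have κout : ∀ x : Eu n, R + 1 ≤ ‖x‖ → κ x = 0 := fun x hx =>
    b.zero_of_le_dist (by rwa [dist_zero_right])
  have κd : ∀ x ∈ Metric.ball (0 : Eu n) R, fderiv ℝ κ x = 0 := by
    intro x hx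
    have h1 : κ =ᶠ[𝓝 x] fun _ => 1 := by
      filter_upwards [Metric.isOpen_ball.mem_nhds hx] with y hy
      exact κone y hy
    rw [h1.fderiv_eq]
    simp
  have hv0 := (hv.zero_out hΩ.measurableSet).1
  have κv : ∀ᵐ z : ST n, fderiv ℝ κ z.2 (v z) = 0 := by
    filter_upwards [hv0] with z hz
    by_cases hzΩ : z.2 ∈ Ω
    · rw [κd z.2 (hR (Or.inl hzΩ))]
      rfl
    · rw [hz (Or.inr hzΩ), map_zero]
  have κm : Continuous (fun z : ST n => κ z.2) := κs.continuous.comp continuous_snd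
  have κb : ∀ z : ST n, ‖κ z.2‖ ≤ 1 := fun z => by
    rw [Real.norm_of_nonneg (κ0 _)]
    exact κ1 _
  -- cut off
  set u' : ST n → E := fun z => κ z.2 • u z with hu'
  set F' : ST n → E := fun z => κ z.2 • F z with hF'
  have u2' : MemLp u' 2 volume := by
    refine hu.mono (κm.aestronglyMeasurable.smul hu.1) ?_
    filter_upwards with z
    rw [hu', norm_smul]
    exact mul_le_of_le_one_left (norm_nonneg _) (κb z)
  have F1' : Integrable F' := by
    have h1 : IntegrableOn F' {z : ST n | ‖z.2‖ ≤ R + 1} volume :=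
      (hF (R + 1)).bdd_smul 1 κm.aestronglyMeasurable (Eventually.of_forall κb)
    have hm : MeasurableSet {z : ST n | ‖z.2‖ ≤ R + 1} :=
      (isClosed_le (continuous_snd.norm) continuous_const).measurableSet
    have h2 := (integrable_indicator_iff hm).2 h1
    refine h2.congr ?_
    filter_upwards with z
    by_cases hz : z ∈ {z : ST n | ‖z.2‖ ≤ R + 1}
    · rw [indicator_of_mem hz]
    · rw [indicator_of_notMem hz]
      rw [mem_ofPred_eq, not_le] at hz
      simp only [hF', κout z.2 hz.le, zero_smul]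
  have te' : TE T v u' F' := by
    intro ζ χ hζ hχ
    have hκχ : IsTest (fun x => κ x * χ x) := ⟨κs.mul hχ.smooth, hχ.cpt.mul_left⟩
    rw [← h ζ _ hζ hκχ]
    apply integral_congr_ae
    filter_upwards [κv] with z hz
    have h1 : fderiv ℝ (fun x => κ x * χ x) z.2 (v z) = κ z.2 * fderiv ℝ χ z.2 (v z) := by
      have h2 : HasFDerivAt κ (fderiv ℝ κ z.2) z.2 :=
        (κs.differentiable (by simp) _).hasFDerivAt
      have h3 : HasFDerivAt χ (fderiv ℝ χ z.2) z.2 :=
        (hχ.smooth.differentiable (by simp) _).hasFDerivAt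
      have h4 : fderiv ℝ (fun x => κ x * χ x) z.2 = _ := (h2.mul h3).fderiv
      rw [h4]
      simp [hz]
    simp only [hu', hF', h1, smul_smul]
    congr 2 <;> ring
  have uK' : ∀ᵐ z, u' z ∈ K := by
    filter_upwards [huK] with z hz
    have h1 := hK hK0 hz (a := 1 - κ z.2) (b := κ z.2) (by linarith [κ1 z.2]) (κ0 _) (by ring)
    rwa [smul_zero, zero_add] at h1
  have hm := renorm hΩ hΩb hT hv u2' F1' te' hK hKc hK0 uK' β hβ L hL
  rw [← hm η ψ hη hψ]
  apply integral_congr_ae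
  filter_upwards with z
  by_cases hz : z.2 ∈ tsupport ψ
  · have h1 : κ z.2 = 1 := κone _ (hR (Or.inr hz))
    simp only [hu', hF', h1, one_smul]
  · have h1 : ψ z.2 = 0 := image_eq_zero_of_notMem_tsupport hz
    have h2 : fderiv ℝ ψ z.2 = 0 :=
      image_eq_zero_of_notMem_tsupport fun hc => hz (tsupport_fderiv_subset ℝ hc)
    simp [h1, h2]

end Pool.Agent.Helper47.Jef
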