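import Mathlib

namespace Pool.Agent.Helper47.Centr

open scoped Topology Nat
open Set Filter

noncomputable section

/-- `ex x = exp (2 π i x)` -/
def ex (x : ℝ) : ℂ := Complex.exp ((2 * Real.pi * x : ℝ) * Complex.I)

lemma norm_ex (x : ℝ) : ‖ex x‖ = 1 := Complex.norm_exp_ofReal_mul_I _

lemma ex_add (x y : ℝ) : ex (x + y) = ex x * ex y := by
  unfold ex; rw [← Complex.exp_add]; congr 1; push_cast; ring

lemma ex_zero : ex 0 = 1 := by simp [ex]

lemma ex_nat_mul (n : ℕ) (x : ℝ) : ex (n * x) = ex x ^ n := by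
  unfold ex; rw [← Complex.exp_nat_mul]; congr 1; push_cast; ring

lemma ex_nat (n : ℕ) : ex n = 1 := by
  unfold ex
  rw [Complex.exp_eq_one_iff]
  exact ⟨n, by push_cast; ring⟩

lemma ex_int (n : ℤ) : ex n = 1 := by
  unfold ex
  rw [Complex.exp_eq_one_iff]
  exact ⟨n, by push_cast; ring⟩

lemma ex_neg (x : ℝ) : ex (-x) * ex x = 1 := by
  rw [← ex_add, neg_add_cancel, ex_zero]

lemma norm_ex_sub_one_le (x : ℝ) : ‖ex x - 1‖ ≤ 2 * Real.pi * |x| := by
  unfold ex
  have h := Real.norm_exp_I_mul_ofReal_sub_one_le (x := 2 * Real.pi * x)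
  rw [mul_comm Complex.I] at h
  refine h.trans ?_
  rw [Real.norm_eq_abs, abs_mul, abs_of_pos Real.two_pi_pos]

lemma norm_ex_sub_one_le_two (x : ℝ) : ‖ex x - 1‖ ≤ 2 := by
  refine (norm_sub_le _ _).trans ?_
  rw [norm_ex, norm_one]; norm_num

lemma norm_ex_nat_mul_sub_one_le (n : ℕ) (x : ℝ) : ‖ex (n * x) - 1‖ ≤ n * ‖ex x - 1‖ := by
  induction n with
  | zero => simp [ex_zero]
  | succ n ih =>
    have e : ex ((n + 1 : ℕ) * x) - 1 = ex (n * x) * (ex x - 1) + (ex (n * x) - 1) := by
      have : ((n + 1 : ℕ) : ℝ) * x = n * x + x := by push_cast; ring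
      rw [this, ex_add]; ring
    rw [e]
    refine (norm_add_le _ _).trans ?_
    rw [norm_mul, norm_ex, one_mul]
    push_cast
    linarith

/-- denominators -/
def q (k : ℕ) : ℕ := 2 ^ Nat.factorial k

/-- the Liouville rotation number -/
def al : ℝ := liouvilleNumber 2

lemma q_pos (k : ℕ) : 0 < q k := by unfold q; positivity
lemma q_pos' (k : ℕ) : (0 : ℝ) < q k := by exact_mod_cast q_pos k
lemma one_le_q (k : ℕ) : 1 ≤ q k := q_pos k
lemma q_mono {k m : ℕ} (h : k ≤ m) : q k ≤ q m :=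
  Nat.pow_le_pow_right (by norm_num) (Nat.factorial_le h)
lemma two_pow_le_q (k : ℕ) : 2 ^ k ≤ q k :=
  Nat.pow_le_pow_right (by norm_num) (Nat.self_le_factorial k)
lemma q_cast (k : ℕ) : (q k : ℝ) = 2 ^ Nat.factorial k := by unfold q; push_cast; rfl

lemma tendsto_q : Tendsto (fun k => (q k : ℝ)) atTop atTop := by
  have h : Tendsto (fun k : ℕ => (2 : ℝ) ^ k) atTop atTop := tendsto_pow_atTop_atTop_of_one_lt (by norm_num)
  apply tendsto_atTop_mono _ h
  intro k
  exact_mod_cast two_pow_le_q k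

lemma irrational_al : Irrational al := by
  have := (liouville_liouvilleNumber (m := 2) le_rfl).irrational
  unfold al
  exact_mod_cast this

/-- `δ_k = q_k^{-(k-1)}` -/
def de (k : ℕ) : ℝ := 1 / (q k : ℝ) ^ (k - 1)

lemma de_pos (k : ℕ) : 0 < de k := by
  unfold de; have := q_pos' k; positivity

lemma de_anti {k m : ℕ} (h : k ≤ m) : de m ≤ de k := by
  unfold de
  have h1 := q_pos' k
  apply one_div_le_one_div_of_le (by positivity)
  calc (q k : ℝ) ^ (k - 1) ≤ (q m : ℝ) ^ (k - 1) := by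
        apply pow_le_pow_left₀ h1.le
        exact_mod_cast q_mono h
    _ ≤ (q m : ℝ) ^ (m - 1) := by
        apply pow_le_pow_right₀ (by exact_mod_cast one_le_q m) (by omega)

lemma al_decomp (k : ℕ) : ∃ P : ℕ, al = P / (q k : ℝ) + LiouvilleNumber.remainder 2 k := by
  obtain ⟨P, hP⟩ := LiouvilleNumber.partialSum_eq_rat (m := 2) (by norm_num) k
  refine ⟨P, ?_⟩
  have h := LiouvilleNumber.partialSum_add_remainder (m := 2) (by norm_num) k
  unfold al
  rw [← h]
  push_cast at hP ⊢
  rw [hP, q_cast]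

lemma rem_lt (k : ℕ) : LiouvilleNumber.remainder 2 k < 1 / (q k : ℝ) ^ k := by
  have := LiouvilleNumber.remainder_lt k (m := 2) le_rfl
  rw [q_cast]; exact this

lemma rem_pos (k : ℕ) : 0 < LiouvilleNumber.remainder 2 k :=
  LiouvilleNumber.remainder_pos (by norm_num) k

lemma ex_q_al (k : ℕ) : ‖ex (q k * al) - 1‖ ≤ 2 * Real.pi * de k := by
  obtain ⟨P, hP⟩ := al_decomp k
  have hq := q_pos' k
  have hr := rem_lt k
  have hr0 := rem_pos k
  have e : (q k : ℝ) * al = P + q k * LiouvilleNumber.remainder 2 k := by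
    rw [hP]; field_simp
  rcases Nat.eq_zero_or_pos k with hk | hk
  · subst hk
    refine (norm_ex_sub_one_le_two _).trans ?_
    unfold de
    simp only [zero_le, Nat.sub_eq_zero_of_le, pow_zero, div_one, mul_one]
    linarith [Real.pi_gt_three]
  · rw [e, ex_add, ex_nat, one_mul]
    refine (norm_ex_sub_one_le _).trans ?_
    apply mul_le_mul_of_nonneg_left _ Real.two_pi_pos.le
    rw [abs_of_pos (by positivity)]
    unfold de
    have e2 : (q k : ℝ) ^ k = (q k : ℝ) ^ (k - 1) * q k := by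
      rw [← pow_succ]; congr 1; omega
    rw [e2] at hr
    rw [le_div_iff₀ (by positivity)]
    rw [lt_div_iff₀ (by positivity)] at hr
    nlinarith

/-- coefficients -/
def cn (n k : ℕ) : ℂ := ex (q k * (n * al)) - 1

lemma cn_succ (n k : ℕ) : cn (n + 1) k = cn 1 k * ex (q k * (n * al)) + cn n k := by
  unfold cn
  have e : (q k : ℝ) * ((n + 1 : ℕ) * al) = q k * ((1 : ℕ) * al) + q k * (n * al) := by push_cast; ring
  rw [e, ex_add]; ring

lemma norm_cn_le (n k : ℕ) : ‖cn n k‖ ≤ n * (2 * Real.pi * de k) := by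
  unfold cn
  have e : (q k : ℝ) * (n * al) = n * (q k * al) := by ring
  rw [e]
  refine (norm_ex_nat_mul_sub_one_le n _).trans ?_
  exact mul_le_mul_of_nonneg_left (ex_q_al k) (Nat.cast_nonneg n)

lemma norm_cn_le' (n k : ℕ) : ‖cn n k‖ ≤ q k * ‖ex (n * al) - 1‖ := by
  unfold cn
  exact norm_ex_nat_mul_sub_one_le (q k) _

/-- summable weights -/
def wt (j k : ℕ) : ℝ := q k * de k * (2 * Real.pi * q k) ^ j

lemma wt_nonneg (j k : ℕ) : 0 ≤ wt j k := by
  unfold wt; have := de_pos k; positivity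

lemma summable_wt (j : ℕ) : Summable (wt j) := by
  have h1 : Summable (fun k : ℕ => (2 * Real.pi) ^ j * (1 / 2 : ℝ) ^ k) :=
    (summable_geometric_of_lt_one (by norm_num) (by norm_num)).mul_left _
  apply Summable.of_norm_bounded_eventually_nat h1
  filter_upwards [eventually_ge_atTop (j + 3)] with k hk
  rw [Real.norm_eq_abs, abs_of_nonneg (wt_nonneg j k)]
  unfold wt de
  have hq := q_pos' k
  have e1 : (q k : ℝ) ^ (k - 1) = (q k : ℝ) ^ (j + 2) * (q k : ℝ) ^ (k - 1 - (j + 2)) := by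
    rw [← pow_add]; congr 1; omega
  have e2 : (q k : ℝ) * (1 / (q k : ℝ) ^ (k - 1)) * (2 * Real.pi * q k) ^ j
      = (2 * Real.pi) ^ j * ((q k : ℝ) ^ (j + 1) / (q k : ℝ) ^ (k - 1)) := by
    rw [mul_pow, pow_succ (q k : ℝ) j]; ring
  rw [e2]
  apply mul_le_mul_of_nonneg_left _ (by positivity)
  rw [e1, div_le_iff₀ (by positivity), one_div, inv_pow]
  have e3 : (q k : ℝ) ^ (j + 2) = (q k : ℝ) ^ (j + 1) * q k := by rw [pow_succ _ (j+1)]
  rw [e3]
  have h2 : (2 : ℝ) ^ k ≤ q k := by exact_mod_cast two_pow_le_q k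
  have h3 : (1 : ℝ) ≤ (q k : ℝ) ^ (k - 1 - (j + 2)) := one_le_pow₀ (by exact_mod_cast one_le_q k)
  have h4 : (1 : ℝ) ≤ ((2 : ℝ) ^ k)⁻¹ * q k := by
    rw [inv_mul_eq_div, le_div_iff₀ (by positivity)]; linarith
  have h5 : (0 : ℝ) < (q k : ℝ) ^ (j + 1) := by positivity
  calc (q k : ℝ) ^ (j + 1) = (q k : ℝ) ^ (j + 1) * (1 * 1) := by ring
    _ ≤ (q k : ℝ) ^ (j + 1) * ((((2 : ℝ) ^ k)⁻¹ * q k) * (q k : ℝ) ^ (k - 1 - (j + 2))) := by
        apply mul_le_mul_of_nonneg_left _ h5.le
        apply mul_le_mul h4 h3 (by norm_num) (by positivity)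
    _ = ((2 : ℝ) ^ k)⁻¹ * ((q k : ℝ) ^ (j + 1) * (q k : ℝ) * (q k : ℝ) ^ (k - 1 - (j + 2))) := by ring

lemma tendsto_de : Tendsto de atTop (𝓝 0) := by
  have h := (summable_wt 0).tendsto_atTop_zero
  apply squeeze_zero (fun k => (de_pos k).le) _ h
  intro k
  unfold wt
  rw [pow_zero, mul_one]
  have h1 : (1 : ℝ) ≤ q k := by exact_mod_cast one_le_q k
  nlinarith [de_pos k]

/-- weighted norms of the coefficients -/
lemma summable_cn (n j : ℕ) : Summable (fun k => ‖cn n k‖ * (2 * Real.pi * q k) ^ j) := by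
  apply Summable.of_nonneg_of_le (fun k => by positivity) _ ((summable_wt j).mul_left (n * (2 * Real.pi)))
  intro k
  have h1 := norm_cn_le n k
  have h2 : (1 : ℝ) ≤ q k := by exact_mod_cast one_le_q k
  have h3 := de_pos k
  unfold wt
  calc ‖cn n k‖ * (2 * Real.pi * q k) ^ j ≤ (n * (2 * Real.pi * de k)) * (2 * Real.pi * q k) ^ j := by
        apply mul_le_mul_of_nonneg_right h1 (by positivity)
    _ ≤ (n * (2 * Real.pi * (q k * de k))) * (2 * Real.pi * q k) ^ j := by
        apply mul_le_mul_of_nonneg_right _ (by positivity)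
        apply mul_le_mul_of_nonneg_left _ (by positivity)
        apply mul_le_mul_of_nonneg_left _ (by positivity)
        nlinarith
    _ = n * (2 * Real.pi) * (q k * de k * (2 * Real.pi * q k) ^ j) := by ring

/-- rigidity times `q m`: bound -/
lemma norm_cn_q_le (m k : ℕ) : ‖cn (q m) k‖ ≤ 2 * Real.pi * (q k * de k) := by
  rcases le_total k m with h | h
  · refine (norm_cn_le' (q m) k).trans ?_
    have h1 := ex_q_al m
    have h2 := de_anti h
    have h3 := q_pos' k
    calc (q k : ℝ) * ‖ex (q m * al) - 1‖ ≤ q k * (2 * Real.pi * de k) := by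
          apply mul_le_mul_of_nonneg_left _ h3.le
          refine h1.trans ?_
          apply mul_le_mul_of_nonneg_left h2 (by positivity)
      _ = 2 * Real.pi * (q k * de k) := by ring
  · refine (norm_cn_le (q m) k).trans ?_
    have h1 : (q m : ℝ) ≤ q k := by exact_mod_cast q_mono h
    have h3 := de_pos k
    calc (q m : ℝ) * (2 * Real.pi * de k) ≤ q k * (2 * Real.pi * de k) := by
          apply mul_le_mul_of_nonneg_right h1 (by positivity)
      _ = 2 * Real.pi * (q k * de k) := by ring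

lemma tendsto_cn_q (j : ℕ) :
    Tendsto (fun m => ∑' k, ‖cn (q m) k‖ * (2 * Real.pi * q k) ^ j) atTop (𝓝 0) := by
  have h := tendsto_tsum_of_dominated_convergence (𝓕 := atTop)
    (f := fun m k => ‖cn (q m) k‖ * (2 * Real.pi * q k) ^ j) (g := fun _ => (0 : ℝ))
    (bound := fun k => 2 * Real.pi * wt j k) ((summable_wt j).mul_left _) (fun k => ?_) ?_
  · simpa using h
  · -- pointwise
    have h1 : Tendsto (fun m => (q k : ℝ) * (2 * Real.pi * de m)) atTop (𝓝 (q k * (2 * Real.pi * 0))) :=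
      (tendsto_de.const_mul _).const_mul _
    have h2 : Tendsto (fun m => ‖cn (q m) k‖) atTop (𝓝 0) := by
      rw [mul_zero, mul_zero] at h1
      apply squeeze_zero (fun m => norm_nonneg _) _ h1
      intro m
      refine (norm_cn_le' (q m) k).trans ?_
      exact mul_le_mul_of_nonneg_left (ex_q_al m) (q_pos' k).le
    have := h2.mul_const ((2 * Real.pi * q k) ^ j)
    simpa using this
  · filter_upwards with m k
    rw [Real.norm_eq_abs, abs_of_nonneg (by positivity)]
    have := norm_cn_q_le m k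
    unfold wt
    calc ‖cn (q m) k‖ * (2 * Real.pi * q k) ^ j ≤ 2 * Real.pi * (q k * de k) * (2 * Real.pi * q k) ^ j :=
          mul_le_mul_of_nonneg_right this (by positivity)
      _ = 2 * Real.pi * (q k * de k * (2 * Real.pi * q k) ^ j) := by ring

/-- the second family of times -/
def nn (m : ℕ) : ℕ := 2 ^ (Nat.factorial (m + 1) - Nat.factorial m - 1)

lemma fact_succ (m : ℕ) : Nat.factorial (m + 1) = (m + 1) * Nat.factorial m := Nat.factorial_succ m

lemma nn_mul {m : ℕ} (hm : 2 ≤ m) : nn m * q m * 2 = q (m + 1) := by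
  unfold nn q
  rw [← pow_add, ← pow_succ]
  congr 1
  have h1 := fact_succ m
  have h2 : 0 < Nat.factorial m := Nat.factorial_pos m
  have h3 : Nat.factorial m + 1 ≤ Nat.factorial (m + 1) := by rw [h1]; nlinarith
  omega

lemma nn_dvd {m : ℕ} (hm : 2 ≤ m) : q m ∣ nn m := by
  unfold nn q
  apply pow_dvd_pow
  have h1 := fact_succ m
  have h2 : 0 < Nat.factorial m := Nat.factorial_pos m
  have h3 : 3 * Nat.factorial m ≤ Nat.factorial (m + 1) := by rw [h1]; apply Nat.mul_le_mul_right; omega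
  omega

lemma nn_al {m : ℕ} (hm : 2 ≤ m) : ∃ P : ℕ, (nn m : ℝ) * al
    = P + (1 / (2 * q m) + nn m * LiouvilleNumber.remainder 2 (m + 1)) := by
  obtain ⟨P, hP⟩ := LiouvilleNumber.partialSum_eq_rat (m := 2) (by norm_num) m
  obtain ⟨d, hd⟩ := nn_dvd hm
  refine ⟨d * P, ?_⟩
  have h := LiouvilleNumber.partialSum_add_remainder (m := 2) (by norm_num) (m + 1)
  rw [LiouvilleNumber.partialSum_succ] at h
  have hq := q_pos' m
  have hq1 := q_pos' (m + 1)
  have hmul : (nn m : ℝ) * q m * 2 = q (m + 1) := by exact_mod_cast nn_mul hm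
  have hdc : (nn m : ℝ) = q m * d := by exact_mod_cast hd
  have hP' : LiouvilleNumber.partialSum 2 m = P / (q m : ℝ) := by
    rw [q_cast]; push_cast at hP; exact hP
  have hal : al = P / (q m : ℝ) + 1 / (q (m + 1) : ℝ) + LiouvilleNumber.remainder 2 (m + 1) := by
    unfold al
    rw [← h, hP', q_cast (m + 1)]
  have e1 : (nn m : ℝ) * (1 / (q (m + 1) : ℝ)) = 1 / (2 * q m) := by
    rw [← hmul]
    have : (0 : ℝ) < nn m := by unfold nn; positivity
    field_simp
  have e2 : (nn m : ℝ) * (P / (q m : ℝ)) = d * P := by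
    rw [hdc]; field_simp
  rw [hal, mul_add, mul_add, e1, e2]
  push_cast
  ring

lemma nn_rem_le {m : ℕ} (hm : 2 ≤ m) :
    nn m * q m * LiouvilleNumber.remainder 2 (m + 1) ≤ 1 / (2 * q m) := by
  have hmul : (nn m : ℝ) * q m * 2 = q (m + 1) := by exact_mod_cast nn_mul hm
  have hr := rem_lt (m + 1)
  have hr0 := rem_pos (m + 1)
  have hq := q_pos' m
  have hq1 := q_pos' (m + 1)
  have h1 : (1 : ℝ) ≤ q (m + 1) := by exact_mod_cast one_le_q (m + 1)
  have h2 : (q m : ℝ) ≤ q (m + 1) := by exact_mod_cast q_mono (Nat.le_succ m)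
  have e1 : (nn m : ℝ) * q m = q (m + 1) / 2 := by linarith
  rw [e1]
  have h3 : LiouvilleNumber.remainder 2 (m + 1) ≤ 1 / ((q (m + 1) : ℝ) * q (m + 1)) := by
    refine hr.le.trans ?_
    apply one_div_le_one_div_of_le (by positivity)
    calc (q (m + 1) : ℝ) * q (m + 1) = (q (m + 1) : ℝ) ^ 2 := by ring
      _ ≤ (q (m + 1) : ℝ) ^ (m + 1) := pow_le_pow_right₀ h1 (by omega)
  calc (q (m + 1) : ℝ) / 2 * LiouvilleNumber.remainder 2 (m + 1)
      ≤ (q (m + 1) : ℝ) / 2 * (1 / ((q (m + 1) : ℝ) * q (m + 1))) :=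
        mul_le_mul_of_nonneg_left h3 (by positivity)
    _ = 1 / (2 * q (m + 1)) := by field_simp
    _ ≤ 1 / (2 * q m) := by
        apply one_div_le_one_div_of_le (by positivity)
        linarith

lemma ex_nn_al {m : ℕ} (hm : 2 ≤ m) : ‖ex (nn m * al) - 1‖ ≤ 2 * Real.pi * (1 / q m) := by
  obtain ⟨P, hP⟩ := nn_al hm
  rw [hP, ex_add, ex_nat, one_mul]
  refine (norm_ex_sub_one_le _).trans ?_
  apply mul_le_mul_of_nonneg_left _ Real.two_pi_pos.le
  have hr0 := rem_pos (m + 1)
  have hq := q_pos' m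
  have h1 := nn_rem_le hm
  have h2 : (1 : ℝ) ≤ q m := by exact_mod_cast one_le_q m
  have hn : (0 : ℝ) ≤ nn m := Nat.cast_nonneg _
  rw [abs_of_nonneg (by positivity)]
  have h3 : nn m * LiouvilleNumber.remainder 2 (m + 1) ≤ nn m * q m * LiouvilleNumber.remainder 2 (m + 1) := by
    have : 0 ≤ (nn m : ℝ) * LiouvilleNumber.remainder 2 (m + 1) := by positivity
    nlinarith
  have h4 : (1 : ℝ) / q m = 1 / (2 * q m) + 1 / (2 * q m) := by field_simp; norm_num
  rw [h4]
  linarith

lemma cn_nn_self {m : ℕ} (hm : 2 ≤ m) : ‖cn (nn m) m + 2‖ ≤ 2 * Real.pi * (1 / q m) := by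
  obtain ⟨P, hP⟩ := nn_al hm
  have hq := q_pos' m
  unfold cn
  have e : (q m : ℝ) * (nn m * al) = ((q m * P : ℕ) : ℝ) + (1 / 2 + nn m * q m * LiouvilleNumber.remainder 2 (m + 1)) := by
    rw [hP]; push_cast; field_simp
  rw [e, ex_add, ex_nat, one_mul, ex_add]
  have h12 : ex (1 / 2) = -1 := by
    unfold ex
    have : ((2 * Real.pi * (1 / 2) : ℝ) : ℂ) * Complex.I = Real.pi * Complex.I := by
      push_cast; ring
    rw [this, Complex.exp_pi_mul_I]
  rw [h12]
  have e2 : -1 * ex (nn m * q m * LiouvilleNumber.remainder 2 (m + 1)) - 1 + 2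
      = -(ex (nn m * q m * LiouvilleNumber.remainder 2 (m + 1)) - 1) := by ring
  rw [e2, norm_neg]
  refine (norm_ex_sub_one_le _).trans ?_
  apply mul_le_mul_of_nonneg_left _ Real.two_pi_pos.le
  have hr0 := rem_pos (m + 1)
  rw [abs_of_nonneg (by positivity)]
  refine (nn_rem_le hm).trans ?_
  apply one_div_le_one_div_of_le hq
  linarith

lemma tendsto_one_div_q : Tendsto (fun m => (1 : ℝ) / q m) atTop (𝓝 0) := by
  have := tendsto_q.inv_tendsto_atTop
  refine this.congr ?_
  intro m; simp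

lemma tendsto_cn_nn_self : Tendsto (fun m => cn (nn m) m) atTop (𝓝 (-2)) := by
  rw [tendsto_iff_norm_sub_tendsto_zero]
  have h1 : Tendsto (fun m => 2 * Real.pi * (1 / (q m : ℝ))) atTop (𝓝 0) := by
    have := tendsto_one_div_q.const_mul (2 * Real.pi)
    simpa using this
  apply squeeze_zero' (Eventually.of_forall fun m => norm_nonneg _) _ h1
  filter_upwards [eventually_ge_atTop 2] with m hm
  rw [sub_neg_eq_add]
  exact cn_nn_self hm

/-- bound for the off-diagonal coefficients at the times `nn m` -/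
lemma norm_cn_nn_le {m k : ℕ} (hm : 2 ≤ m) (hk : k ≠ m) :
    ‖cn (nn m) k‖ ≤ 2 * Real.pi * (q k * de k) + 2 * Real.pi * (1 / 2) ^ k := by
  have hdk := de_pos k
  have hqk := q_pos' k
  rcases lt_or_gt_of_ne hk with h | h
  · -- k < m
    refine (norm_cn_le' (nn m) k).trans ?_
    have h1 := ex_nn_al hm
    have h2 : (q k : ℝ) * (1 / q m) ≤ (1 / 2) ^ k := by
      have h3 : q k * 2 ^ k ≤ q m := by
        have h4 : q (k + 1) ≤ q m := q_mono h
        refine le_trans ?_ h4
        unfold q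
        rw [← pow_add]
        apply Nat.pow_le_pow_right (by norm_num)
        rw [fact_succ]
        have := Nat.factorial_pos k
        nlinarith
      have h3' : (q k : ℝ) * 2 ^ k ≤ q m := by exact_mod_cast h3
      have hqm := q_pos' m
      rw [mul_one_div, div_le_iff₀ hqm, one_div, inv_pow, inv_mul_eq_div, le_div_iff₀ (by positivity)]
      exact h3'
    calc (q k : ℝ) * ‖ex (nn m * al) - 1‖ ≤ q k * (2 * Real.pi * (1 / q m)) :=
          mul_le_mul_of_nonneg_left h1 hqk.le
      _ = 2 * Real.pi * (q k * (1 / q m)) := by ring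
      _ ≤ 2 * Real.pi * (1 / 2) ^ k := mul_le_mul_of_nonneg_left h2 (by positivity)
      _ ≤ _ := by
        have : 0 ≤ 2 * Real.pi * (q k * de k) := by positivity
        linarith
  · refine (norm_cn_le (nn m) k).trans ?_
    have h1 : (nn m : ℝ) ≤ q k := by
      have h2 : nn m ≤ q (m + 1) := by
        rw [← nn_mul hm]
        have := q_pos m
        nlinarith [Nat.zero_le (nn m)]
      have h3 : q (m + 1) ≤ q k := q_mono h
      exact_mod_cast h2.trans h3
    calc (nn m : ℝ) * (2 * Real.pi * de k) ≤ q k * (2 * Real.pi * de k) :=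
          mul_le_mul_of_nonneg_right h1 (by positivity)
      _ = 2 * Real.pi * (q k * de k) := by ring
      _ ≤ _ := by
        have : 0 ≤ 2 * Real.pi * (1 / 2 : ℝ) ^ k := by positivity
        linarith

/-- off-diagonal sums tend to zero -/
lemma tendsto_offdiag :
    Tendsto (fun m => ∑' k, if k = m then (0 : ℝ) else ‖cn (nn m) k‖) atTop (𝓝 0) := by
  have hsum : Summable (fun k : ℕ => 2 * Real.pi * (q k * de k) + 2 * Real.pi * (1 / 2 : ℝ) ^ k) := by
    apply Summable.add
    · have := (summable_wt 0).mul_left (2 * Real.pi)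
      refine this.congr ?_
      intro k
      unfold wt; rw [pow_zero, mul_one]
    · exact (summable_geometric_of_lt_one (by norm_num) (by norm_num)).mul_left _
  have h := tendsto_tsum_of_dominated_convergence (𝓕 := atTop)
    (f := fun m k => if k = m then (0 : ℝ) else ‖cn (nn m) k‖) (g := fun _ => (0 : ℝ))
    hsum (fun k => ?_) ?_
  · simpa using h
  · have h1 : Tendsto (fun m => (q k : ℝ) * (2 * Real.pi * (1 / (q m : ℝ)))) atTop (𝓝 0) := by
      have := (tendsto_one_div_q.const_mul (2 * Real.pi)).const_mul (q k : ℝ)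
      simpa using this
    apply squeeze_zero' _ _ h1
    · filter_upwards with m
      split_ifs
      · exact le_rfl
      · exact norm_nonneg _
    · filter_upwards [eventually_ge_atTop 2, eventually_gt_atTop k] with m hm hmk
      rw [if_neg (by omega)]
      refine (norm_cn_le' (nn m) k).trans ?_
      exact mul_le_mul_of_nonneg_left (ex_nn_al hm) (q_pos' k).le
  · filter_upwards [eventually_ge_atTop 2] with m hm k
    by_cases hk : k = m
    · rw [if_pos hk, norm_zero]
      have := de_pos k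
      positivity
    · rw [if_neg hk, norm_norm]
      exact norm_cn_nn_le hm hk

/-- no interval of angles `θ` satisfies `cos (q_m θ) → 1` -/
lemma not_tendsto_cos {θ₀ : ℝ} (hθ₀ : 0 < θ₀)
    (h : ∀ θ ∈ Ioo 0 θ₀, Tendsto (fun m => Real.cos (q m * θ)) atTop (𝓝 1)) : False := by
  have h1 : Tendsto (fun m => ∫ θ in (0 : ℝ)..θ₀, Real.cos (q m * θ)) atTop
      (𝓝 (∫ θ in (0 : ℝ)..θ₀, (1 : ℝ))) := by
    apply intervalIntegral.tendsto_integral_filter_of_dominated_convergence (fun _ => (1 : ℝ))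
    · filter_upwards with m
      apply Continuous.aestronglyMeasurable
      fun_prop
    · filter_upwards with m
      filter_upwards with θ _
      exact Real.abs_cos_le_one _
    · exact intervalIntegrable_const
    · have hne : ∀ᵐ θ : ℝ, θ ≠ θ₀ := by
        have : MeasureTheory.volume ({θ₀} : Set ℝ) = 0 := Real.volume_singleton
        exact MeasureTheory.measure_eq_zero_iff_ae_notMem.1 this
      filter_upwards [hne] with θ hθ hθ'
      rw [uIoc_of_le hθ₀.le] at hθ'
      exact h θ ⟨hθ'.1, lt_of_le_of_ne hθ'.2 hθ⟩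
  have h2 : Tendsto (fun m => ∫ θ in (0 : ℝ)..θ₀, Real.cos (q m * θ)) atTop (𝓝 0) := by
    have e : ∀ m, ∫ θ in (0 : ℝ)..θ₀, Real.cos (q m * θ) = (1 / (q m : ℝ)) * Real.sin (q m * θ₀) := by
      intro m
      rw [intervalIntegral.integral_comp_mul_left (fun x => Real.cos x) (q_pos' m).ne', integral_cos]
      simp
    simp only [e]
    have h3 : ∀ m, ‖(1 / (q m : ℝ)) * Real.sin (q m * θ₀)‖ ≤ 1 / (q m : ℝ) := by
      intro m
      rw [norm_mul, Real.norm_eq_abs, Real.norm_eq_abs, abs_of_pos (by have := q_pos' m; positivity)]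
      have := Real.abs_sin_le_one (q m * θ₀)
      have h4 : 0 < 1 / (q m : ℝ) := by have := q_pos' m; positivity
      nlinarith
    exact squeeze_zero_norm h3 tendsto_one_div_q
  have h3 := tendsto_nhds_unique h1 h2
  simp at h3
  linarith

end

end Pool.Agent.Helper47.Centr
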