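import Mathlib

/-!
Definitions: the group of `C^∞` diffeomorphisms of a manifold with the `C^∞` topology, centralizers,
transitivity, and central extensions of Lie groups.
-/

namespace Pool.Agent.Helper47.Centr

open scoped Manifold ContDiff Topology
open Set

noncomputable section

section diffeo

variable (E : Type*) [NormedAddCommGroup E] [NormedSpace ℝ E]
  (M : Type*) [TopologicalSpace M] [ChartedSpace E M]

/-- The group `Diff^∞(M)` of `C^∞` diffeomorphisms of the manifold `M` modelled on `E`, as a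
subgroup of the group of all self-homeomorphisms of `M` (multiplication is composition). -/
def diffGroup : Subgroup (M ≃ₜ M) where
  carrier := {f | ContMDiff 𝓘(ℝ, E) 𝓘(ℝ, E) ∞ f ∧ ContMDiff 𝓘(ℝ, E) 𝓘(ℝ, E) ∞ f.symm}
  mul_mem' := fun hf hg => ⟨hf.1.comp hg.1, hg.2.comp hf.2⟩
  one_mem' := ⟨contMDiff_id, contMDiff_id⟩
  inv_mem' := fun hf => ⟨hf.2, hf.1⟩

variable {E M}

/-- The basic set `N^r(f; (e,U), (e',U'), K, ε)` of the `C^r` topology: all `g` such that
`g(K) ⊆ U'` and all derivatives up to order `r` of the chart expressions `e' ∘ g ∘ e⁻¹` and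
`e' ∘ f ∘ e⁻¹` differ by less than `ε` at every point of `e(K)`. -/
def basicNhd (f : diffGroup E M) (e e' : OpenPartialHomeomorph M E) (K : Set M) (r : ℕ) (ε : ℝ) :
    Set (diffGroup E M) :=
  {g | MapsTo (g : M ≃ₜ M) K e'.source ∧ ∀ p ∈ K, ∀ j ≤ r,
    ‖iteratedFDeriv ℝ j (e' ∘ (g : M ≃ₜ M) ∘ e.symm) (e p) -
      iteratedFDeriv ℝ j (e' ∘ (f : M ≃ₜ M) ∘ e.symm) (e p)‖ < ε}

/-- The `C^∞` topology on `Diff^∞(M)`: it is generated by the sets `N^r(f; (e,U), (e',U'), K, ε)`,
where `r` is any order, `e`, `e'` are charts of the atlas of `M` with domains `U`, `U'`,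
`K ⊆ U` is compact, `f` is a diffeomorphism with `f(K) ⊆ U'`, and `ε > 0`. -/
instance smoothTopology : TopologicalSpace (diffGroup E M) :=
  TopologicalSpace.generateFrom
    {N | ∃ (f : diffGroup E M) (e e' : OpenPartialHomeomorph M E) (K : Set M) (r : ℕ) (ε : ℝ),
      e ∈ atlas E M ∧ e' ∈ atlas E M ∧ IsCompact K ∧ K ⊆ e.source ∧
      MapsTo (f : M ≃ₜ M) K e'.source ∧ 0 < ε ∧ N = basicNhd f e e' K r ε}

/-- The centralizer `Z(f)` of `f` in `Diff^∞(M)`; it carries the subspace topology. -/
def centralizer (f : diffGroup E M) : Subgroup (diffGroup E M) :=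
  Subgroup.centralizer {f}

/-- `f` is transitive: some orbit `{f^n(x) : n ∈ ℤ}` is dense in `M`. -/
def IsTransitive (f : diffGroup E M) : Prop :=
  ∃ x : M, Dense (range fun n : ℤ => ((f ^ n : diffGroup E M) : M ≃ₜ M) x)

end diffeo

/-- The group `Z`, with its topology, is a central extension of a Lie group: there is a closed
subgroup `A` contained in the center of `Z` such that `Z ⧸ A`, with the quotient topology, is
isomorphic as a topological group to a finite-dimensional real Lie group `L`. (No separation or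
countability condition is imposed on `L`; discrete groups are allowed.) -/
def IsCentralExtensionOfLieGroup.{u, v, w} (Z : Type u) [Group Z] [TopologicalSpace Z] : Prop :=
  ∃ (A : Subgroup Z) (_ : A.Normal), IsClosed (A : Set Z) ∧ A ≤ Subgroup.center Z ∧
    ∃ (V : Type v) (_ : NormedAddCommGroup V) (_ : NormedSpace ℝ V) (_ : FiniteDimensional ℝ V)
      (L : Type w) (_ : TopologicalSpace L) (_ : ChartedSpace V L) (_ : Group L)
      (_ : LieGroup 𝓘(ℝ, V) ∞ L), Nonempty ((Z ⧸ A) ≃ₜ* L)

end

end Pool.Agent.Helper47.Centr
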