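import Mathlib
import Pool.Agent.Helper47.CentrDefs

namespace Pool.Agent.Helper47.Centr

open scoped Manifold ContDiff Topology
open Set Filter

noncomputable section

/-- evaluation is continuous for the smooth topology -/
lemma continuous_eval {E : Type*} [NormedAddCommGroup E] [NormedSpace ℝ E]
    {M : Type*} [TopologicalSpace M] [ChartedSpace E M] (p : M) :
    Continuous (fun g : diffGroup E M => (g : M ≃ₜ M) p) := by
  rw [continuous_iff_continuousAt]
  intro f W hW
  set q : M := (f : M ≃ₜ M) p with hq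
  set e := chartAt E p with he
  set e' := chartAt E q with he'
  have hqs : q ∈ e'.source := mem_chart_source E q
  -- a neighbourhood of `e' q` in `E`
  have h1 : e'.symm ⁻¹' W ∈ 𝓝 (e' q) := by
    have hc : ContinuousAt e'.symm (e' q) := e'.symm.continuousAt (e'.map_source hqs)
    apply hc
    rw [e'.left_inv hqs]; exact hW
  obtain ⟨ε, hε, hball⟩ := Metric.mem_nhds_iff.1 h1
  have hmem : basicNhd f e e' {p} 0 ε ∈ 𝓝 f := by
    apply IsOpen.mem_nhds
    · apply TopologicalSpace.isOpen_generateFrom_of_mem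
      refine ⟨f, e, e', {p}, 0, ε, chart_mem_atlas E p, chart_mem_atlas E q, isCompact_singleton, ?_, ?_, hε, rfl⟩
      · rintro _ rfl; exact mem_chart_source E _
      · rintro _ rfl; exact hqs
    · refine ⟨?_, ?_⟩
      · rintro _ rfl; exact hqs
      · intro p' _ j _
        rw [sub_self, norm_zero]; exact hε
  rw [Filter.mem_map]
  filter_upwards [hmem] with g hg
  obtain ⟨hg1, hg2⟩ := hg
  have hgs : (g : M ≃ₜ M) p ∈ e'.source := hg1 rfl
  have h2 := hg2 p rfl 0 le_rfl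
  have hpe : e.symm (e p) = p := e.left_inv (mem_chart_source E p)
  have h3 : ‖e' ((g : M ≃ₜ M) p) - e' q‖ < ε := by
    have h4 : ∀ (u w : E → E) (x : E), ‖iteratedFDeriv ℝ 0 u x - iteratedFDeriv ℝ 0 w x‖ = ‖u x - w x‖ := by
      intro u w x
      rw [iteratedFDeriv_zero_eq_comp, iteratedFDeriv_zero_eq_comp]
      simp only [Function.comp_apply]
      rw [← map_sub, LinearIsometryEquiv.norm_map]
    rw [h4] at h2
    simp only [Function.comp_apply, hpe] at h2
    exact h2
  have h5 : e' ((g : M ≃ₜ M) p) ∈ Metric.ball (e' q) ε := by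
    rw [Metric.mem_ball, dist_eq_norm]; exact h3
  have h6 := hball h5
  rw [mem_preimage, e'.left_inv hgs] at h6
  exact h6

/-! ### The torus as a manifold -/

abbrev T := AddCircle (1 : ℝ)
abbrev T3 := T × T × T
abbrev V3 := ℝ × ℝ × ℝ

def pr (v : V3) : T3 := ((v.1 : T), (v.2.1 : T), (v.2.2 : T))

lemma pr_add (v w : V3) : pr (v + w) = pr v + pr w := by
  simp [pr]

lemma continuous_pr : Continuous pr := by
  unfold pr
  have h : Continuous (fun x : ℝ => (x : T)) := AddCircle.continuous_mk' 1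
  exact (h.comp continuous_fst).prodMk ((h.comp (continuous_fst.comp continuous_snd)).prodMk
    (h.comp (continuous_snd.comp continuous_snd)))

lemma pr_surjective : Function.Surjective pr := by
  rintro ⟨a, b, c⟩
  obtain ⟨a, rfl⟩ := QuotientAddGroup.mk_surjective a
  obtain ⟨b, rfl⟩ := QuotientAddGroup.mk_surjective b
  obtain ⟨c, rfl⟩ := QuotientAddGroup.mk_surjective c
  exact ⟨(a, b, c), rfl⟩

instance : DiscreteTopology (AddSubgroup.zmultiples (1 : ℝ)) := inferInstance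

/-- chart of the circle -/
def oc (a : ℝ) : OpenPartialHomeomorph T ℝ := (AddCircle.openPartialHomeomorphCoe 1 a).symm

/-- chart of the torus -/
def tch (c : V3) : OpenPartialHomeomorph T3 V3 :=
  (oc c.1).prod ((oc c.2.1).prod (oc c.2.2))

lemma tch_symm (c v : V3) : (tch c).symm v = pr v := rfl

lemma tch_pr {c v : V3} (hv : v ∈ (tch c).target) : tch c (pr v) = v :=
  (tch c).right_inv hv

lemma pr_tch {c : V3} {p : T3} (hp : p ∈ (tch c).source) : pr (tch c p) = p :=
  (tch c).left_inv hp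

/-- a lift to `V3` -/
def lift3 (p : T3) : V3 := (pr_surjective p).choose

lemma pr_lift3 (p : T3) : pr (lift3 p) = p := (pr_surjective p).choose_spec

lemma mem_oc_source (r : ℝ) : (r : T) ∈ (oc (r - 1/2)).source := by
  have : (oc (r - 1/2)).source = {((r - 1/2 : ℝ) : T)}ᶜ := rfl
  rw [this, mem_compl_singleton_iff]
  intro h
  have h1 : ((r - (r - 1/2) : ℝ) : T) = 0 := by
    rw [AddCircle.coe_sub, ← h, sub_self]
  rw [AddCircle.coe_eq_zero_iff] at h1
  obtain ⟨n, hn⟩ := h1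
  have hn' : (n : ℝ) = 1 / 2 := by
    rw [zsmul_eq_mul, mul_one] at hn; rw [hn]; ring
  have h2 : (2 * n : ℤ) = 1 := by
    have : (2 * n : ℝ) = 1 := by rw [hn']; norm_num
    exact_mod_cast this
  omega

instance torusChartedSpace : ChartedSpace V3 T3 where
  atlas := range tch
  chartAt p := tch (lift3 p - (1/2, 1/2, 1/2))
  mem_chart_source p := by
    have h := pr_lift3 p
    set v := lift3 p
    rw [← h]
    exact ⟨mem_oc_source v.1, mem_oc_source v.2.1, mem_oc_source v.2.2⟩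
  chart_mem_atlas p := ⟨_, rfl⟩

lemma tch_mem_atlas (c : V3) : tch c ∈ atlas V3 T3 := ⟨c, rfl⟩

/-- charts composed with the projection are locally translations -/
lemma tch_pr_eventually {c v₀ : V3} (h : pr v₀ ∈ (tch c).source) :
    ∃ n : V3, pr n = 0 ∧ v₀ + n ∈ (tch c).target ∧
      (fun v => tch c (pr v)) =ᶠ[𝓝 v₀] (fun v => v + n) := by
  set w₀ := tch c (pr v₀) with hw₀
  have hw₀t : w₀ ∈ (tch c).target := (tch c).map_source h
  have hpw : pr w₀ = pr v₀ := pr_tch h
  refine ⟨w₀ - v₀, ?_, ?_, ?_⟩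
  · have : pr w₀ = pr (w₀ - v₀) + pr v₀ := by rw [← pr_add, sub_add_cancel]
    rw [hpw] at this
    exact left_eq_add.1 (by rw [add_comm] at this; exact this)
  · rw [add_sub_cancel]; exact hw₀t
  · have hn : pr (w₀ - v₀) = 0 := by
      have : pr w₀ = pr (w₀ - v₀) + pr v₀ := by rw [← pr_add, sub_add_cancel]
      rw [hpw] at this
      exact left_eq_add.1 (by rw [add_comm] at this; exact this)
    have hc : ContinuousAt (fun v : V3 => v + (w₀ - v₀)) v₀ := by fun_prop
    have hmem : (tch c).target ∈ 𝓝 (v₀ + (w₀ - v₀)) := by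
      rw [add_sub_cancel]; exact (tch c).open_target.mem_nhds hw₀t
    filter_upwards [hc hmem] with v hv
    have : pr v = pr (v + (w₀ - v₀)) := by rw [pr_add, hn, add_zero]
    rw [this]
    exact tch_pr hv

instance torusIsManifold : IsManifold 𝓘(ℝ, V3) ∞ T3 := by
  apply isManifold_of_contDiffOn
  rintro _ _ ⟨c, rfl⟩ ⟨c', rfl⟩
  intro v hv
  simp only [modelWithCornersSelf_coe, modelWithCornersSelf_coe_symm, range_id, inter_univ,
    preimage_id, Function.id_comp, Function.comp_id] at hv ⊢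
  have hv' : pr v ∈ (tch c').source := hv.2
  obtain ⟨n, -, -, hn⟩ := tch_pr_eventually hv'
  have h1 : ContDiffAt ℝ ∞ (fun v => tch c' (pr v)) v := by
    apply ContDiffAt.congr_of_eventuallyEq _ hn
    fun_prop
  exact h1.contDiffWithinAt

/-- maps with smooth lifts are smooth -/
lemma contMDiff_of_lift {g : T3 → T3} (hg : Continuous g) {G : V3 → V3} (hG : ContDiff ℝ ∞ G)
    (h : ∀ v, g (pr v) = pr (G v)) : ContMDiff 𝓘(ℝ, V3) 𝓘(ℝ, V3) ∞ g := by
  intro x
  rw [contMDiffAt_iff]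
  refine ⟨hg.continuousAt, ?_⟩
  simp only [extChartAt, range_id, modelWithCornersSelf_coe, contDiffWithinAt_univ]
  obtain ⟨c, hc⟩ : ∃ c, chartAt V3 x = tch c := ⟨_, rfl⟩
  obtain ⟨c', hc'⟩ : ∃ c', chartAt V3 (g x) = tch c' := ⟨_, rfl⟩
  have hx := mem_chart_source V3 x
  have hgx := mem_chart_source V3 (g x)
  rw [hc] at hx ⊢
  rw [hc'] at hgx ⊢
  change ContDiffAt ℝ ∞ (fun v => tch c' (g (pr v))) (tch c x)
  set v₀ := tch c x with hv₀
  have hv₀x : pr v₀ = x := pr_tch hx
  have hG0 : pr (G v₀) ∈ (tch c').source := by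
    rw [← h, hv₀x]; exact hgx
  obtain ⟨n, -, -, hn⟩ := tch_pr_eventually hG0
  have h1 : (fun v => tch c' (g (pr v))) =ᶠ[𝓝 v₀] (fun v => G v + n) := by
    have := hG.continuous.continuousAt.eventually hn
    filter_upwards [this] with v hv
    rw [h]; exact hv
  apply ContDiffAt.congr_of_eventuallyEq _ h1
  exact hG.contDiffAt.add contDiffAt_const


lemma contDiffOn_chart_expr (f : diffGroup V3 T3) (c c' : V3) :
    ContDiffOn ℝ ∞ (tch c' ∘ (f : T3 ≃ₜ T3) ∘ (tch c).symm)
      ((tch c).target ∩ (tch c).symm ⁻¹' ((f : T3 ≃ₜ T3) ⁻¹' (tch c').source)) := by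
  rw [← contMDiffOn_iff_contDiffOn]
  have h1 : ContMDiffOn 𝓘(ℝ, V3) 𝓘(ℝ, V3) ∞ (tch c') (tch c').source :=
    contMDiffOn_of_mem_maximalAtlas (IsManifold.subset_maximalAtlas (tch_mem_atlas c'))
  have h2 : ContMDiffOn 𝓘(ℝ, V3) 𝓘(ℝ, V3) ∞ (tch c).symm (tch c).target :=
    contMDiffOn_symm_of_mem_maximalAtlas (IsManifold.subset_maximalAtlas (tch_mem_atlas c))
  have h3 : ContMDiff 𝓘(ℝ, V3) 𝓘(ℝ, V3) ∞ (f : T3 ≃ₜ T3) := f.2.1
  apply h1.comp (t := (tch c').source)
  · exact (h3.contMDiffOn (s := univ)).comp (h2.mono inter_subset_left) (fun x _ => mem_univ _)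
  · intro x hx
    exact hx.2

lemma isOpen_chart_dom (f : diffGroup V3 T3) (c c' : V3) :
    IsOpen ((tch c).target ∩ (tch c).symm ⁻¹' ((f : T3 ≃ₜ T3) ⁻¹' (tch c').source)) := by
  apply (tch c).symm.isOpen_inter_preimage
  exact (tch c').open_source.preimage (f : T3 ≃ₜ T3).continuous

lemma continuousOn_deriv (f : diffGroup V3 T3) (c c' : V3) (j : ℕ) (K : Set T3)
    (hK : K ⊆ (tch c).source) (hf : MapsTo (f : T3 ≃ₜ T3) K (tch c').source) :
    ContinuousOn (fun p => iteratedFDeriv ℝ j (tch c' ∘ (f : T3 ≃ₜ T3) ∘ (tch c).symm) (tch c p)) K := by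
  have h1 := contDiffOn_chart_expr f c c'
  have ho := isOpen_chart_dom f c c'
  have h2 : ContinuousOn (iteratedFDeriv ℝ j (tch c' ∘ (f : T3 ≃ₜ T3) ∘ (tch c).symm))
      ((tch c).target ∩ (tch c).symm ⁻¹' ((f : T3 ≃ₜ T3) ⁻¹' (tch c').source)) := by
    have h3 := h1.continuousOn_iteratedFDerivWithin (m := j) (by exact_mod_cast le_top) ho.uniqueDiffOn
    apply h3.congr
    intro x hx
    exact (iteratedFDerivWithin_of_isOpen j ho hx).symm
  apply h2.comp ((tch c).continuousOn.mono hK)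
  intro p hp
  refine ⟨(tch c).map_source (hK hp), ?_⟩
  rw [mem_preimage, mem_preimage, (tch c).left_inv (hK hp)]
  exact hf hp

/-- convergence criterion for the `C^∞` topology on the torus -/
lemma tendsto_one_of_lift (g : ℕ → diffGroup V3 T3) (u : ℕ → V3 → V3)
    (hu : ∀ m, ContDiff ℝ ∞ (u m))
    (hg : ∀ m v, (g m : T3 ≃ₜ T3) (pr v) = pr (v + u m v))
    (hlim : ∀ j : ℕ, ∀ η > 0, ∀ᶠ m in atTop, ∀ v, ‖iteratedFDeriv ℝ j (u m) v‖ < η) :
    Tendsto g atTop (𝓝 1) := by
  rw [TopologicalSpace.tendsto_nhds_generateFrom_iff]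
  rintro _ ⟨f, _, _, K, r, ε, ⟨c, rfl⟩, ⟨c', rfl⟩, hKc, hKs, hfK, hε, rfl⟩ ⟨h1K, h1d⟩
  -- margin
  have hmargin : ∃ η > 0, ∀ p ∈ K, ∀ j ≤ r,
      ‖iteratedFDeriv ℝ j (tch c' ∘ ((1 : diffGroup V3 T3) : T3 ≃ₜ T3) ∘ (tch c).symm) (tch c p) -
      iteratedFDeriv ℝ j (tch c' ∘ (f : T3 ≃ₜ T3) ∘ (tch c).symm) (tch c p)‖ + η < ε := by
    have h1 : ∀ j ∈ Finset.range (r + 1), ∀ᶠ η in 𝓝[>] (0 : ℝ), ∀ p ∈ K,
        ‖iteratedFDeriv ℝ j (tch c' ∘ ((1 : diffGroup V3 T3) : T3 ≃ₜ T3) ∘ (tch c).symm) (tch c p) -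
        iteratedFDeriv ℝ j (tch c' ∘ (f : T3 ≃ₜ T3) ∘ (tch c).symm) (tch c p)‖ + η < ε := by
      intro j hj
      have hj' : j ≤ r := by
        have := Finset.mem_range.1 hj; omega
      rcases K.eq_empty_or_nonempty with hKe | hKne
      · filter_upwards with η p hp
        rw [hKe] at hp; exact absurd hp (notMem_empty _)
      · have hcont : ContinuousOn (fun p =>
            ‖iteratedFDeriv ℝ j (tch c' ∘ ((1 : diffGroup V3 T3) : T3 ≃ₜ T3) ∘ (tch c).symm) (tch c p) -
            iteratedFDeriv ℝ j (tch c' ∘ (f : T3 ≃ₜ T3) ∘ (tch c).symm) (tch c p)‖) K :=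
          ((continuousOn_deriv 1 c c' j K hKs h1K).sub (continuousOn_deriv f c c' j K hKs hfK)).norm
        obtain ⟨p₀, hp₀, hmax⟩ := hKc.exists_isMaxOn hKne hcont
        have hlt := h1d p₀ hp₀ j hj'
        have hev : ∀ᶠ η in 𝓝[>] (0 : ℝ), η < ε -
            ‖iteratedFDeriv ℝ j (tch c' ∘ ((1 : diffGroup V3 T3) : T3 ≃ₜ T3) ∘ (tch c).symm) (tch c p₀) -
            iteratedFDeriv ℝ j (tch c' ∘ (f : T3 ≃ₜ T3) ∘ (tch c).symm) (tch c p₀)‖ := by
          apply mem_nhdsWithin_of_mem_nhds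
          apply Iio_mem_nhds
          linarith
        filter_upwards [hev] with η hη p hp
        have h2 := hmax hp
        simp only [mem_ofPred_eq] at h2
        linarith
    have h2 := (Filter.eventually_all_finset _).2 h1
    have h3 : ∀ᶠ η in 𝓝[>] (0 : ℝ), 0 < η := self_mem_nhdsWithin
    obtain ⟨η, hη1, hη2⟩ := (h2.and h3).exists
    exact ⟨η, hη2, fun p hp j hj => hη1 j (Finset.mem_range.2 (by omega)) p hp⟩
  obtain ⟨η, hη, hmargin⟩ := hmargin
  have h1K' : ∀ p ∈ K, p ∈ (tch c').source := fun p hp => h1K hp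
  -- Lebesgue number
  have hK' : IsCompact (tch c' '' K) := hKc.image_of_continuousOn ((tch c').continuousOn.mono h1K)
  have hK't : tch c' '' K ⊆ (tch c').target := by
    rintro _ ⟨p, hp, rfl⟩
    exact (tch c').map_source (h1K hp)
  obtain ⟨ρ, hρ, hthick⟩ := hK'.exists_thickening_subset_open (tch c').open_target hK't
  -- large m
  have hev : ∀ᶠ m in atTop, (∀ v, ‖iteratedFDeriv ℝ 0 (u m) v‖ < ρ) ∧
      ∀ j ∈ Finset.range (r + 1), ∀ v, ‖iteratedFDeriv ℝ j (u m) v‖ < η :=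
    (hlim 0 ρ hρ).and ((Filter.eventually_all_finset _).2 (fun j _ => hlim j η hη))
  filter_upwards [hev] with m hm
  obtain ⟨hm0, hmj⟩ := hm
  have hu0 : ∀ v, ‖u m v‖ < ρ := by
    intro v
    have := hm0 v
    rwa [norm_iteratedFDeriv_zero] at this
  have htarget : ∀ p ∈ K, tch c' p + u m (tch c' p) ∈ (tch c').target := by
    intro p hp
    apply hthick
    rw [Metric.mem_thickening_iff]
    refine ⟨tch c' p, ⟨p, hp, rfl⟩, ?_⟩
    rw [dist_eq_norm, add_sub_cancel_left]
    exact hu0 _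
  have hgp : ∀ p ∈ K, (g m : T3 ≃ₜ T3) p = pr (tch c' p + u m (tch c' p)) := by
    intro p hp
    rw [← hg, pr_tch (h1K' p hp)]
  refine ⟨?_, ?_⟩
  · intro p hp
    rw [hgp p hp]
    exact (tch c').map_target (htarget p hp)
  · intro p hp j hj
    have hv₀ : pr (tch c p) = p := pr_tch (hKs hp)
    set v₀ := tch c p with hv₀'
    have h1 : pr v₀ ∈ (tch c').source := by rw [hv₀]; exact h1K hp
    obtain ⟨n, hn0, hnt, hn⟩ := tch_pr_eventually h1
    have hn' : tch c' p = v₀ + n := by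
      have : tch c' (pr v₀) = v₀ + n := hn.self_of_nhds
      rw [hv₀] at this; exact this
    -- chart expression of the identity
    have e1 : (tch c' ∘ ((1 : diffGroup V3 T3) : T3 ≃ₜ T3) ∘ (tch c).symm) =ᶠ[𝓝 v₀] (fun v => v + n) := hn
    -- chart expression of `g m`
    have e2 : (tch c' ∘ (g m : T3 ≃ₜ T3) ∘ (tch c).symm) =ᶠ[𝓝 v₀] (fun v => (v + n) + u m (v + n)) := by
      have hc : ContinuousAt (fun v : V3 => (v + n) + u m (v + n)) v₀ := by
        have := (hu m).continuous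
        fun_prop
      have hmem : (tch c').target ∈ 𝓝 ((v₀ + n) + u m (v₀ + n)) := by
        apply (tch c').open_target.mem_nhds
        rw [← hn']; exact htarget p hp
      filter_upwards [hc hmem] with v hv
      change tch c' ((g m : T3 ≃ₜ T3) (pr v)) = _
      have : pr v = pr (v + n) := by rw [pr_add, hn0, add_zero]
      rw [this, hg]
      exact tch_pr hv
    have d1 : ContDiffAt ℝ j (fun v : V3 => v + n) v₀ := by fun_prop
    have hu' : ContDiff ℝ j (u m) := (hu m).of_le (by exact_mod_cast le_top)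
    have d2 : ContDiffAt ℝ j (fun v : V3 => u m (v + n)) v₀ := by fun_prop
    have e3 : iteratedFDeriv ℝ j (fun v : V3 => (v + n) + u m (v + n)) v₀
        = iteratedFDeriv ℝ j (fun v : V3 => v + n) v₀ + iteratedFDeriv ℝ j (u m) (v₀ + n) := by
      have : (fun v : V3 => (v + n) + u m (v + n)) = (fun v : V3 => v + n) + (fun v : V3 => u m (v + n)) := rfl
      rw [this, iteratedFDeriv_add_apply d1 d2, iteratedFDeriv_comp_add_right]
    have hsum := hmargin p hp j hj
    rw [(e2.iteratedFDeriv ℝ j).self_of_nhds, e3]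
    rw [(e1.iteratedFDeriv ℝ j).self_of_nhds] at hsum
    have hsmall := hmj j (Finset.mem_range.2 (by omega)) (v₀ + n)
    set a := iteratedFDeriv ℝ j (fun v : V3 => v + n) v₀
    set b := iteratedFDeriv ℝ j (u m) (v₀ + n)
    set d := iteratedFDeriv ℝ j (tch c' ∘ (f : T3 ≃ₜ T3) ∘ (tch c).symm) v₀
    have : a + b - d = (a - d) + b := by abel
    rw [this]
    refine (norm_add_le _ _).trans_lt ?_
    linarith

end

end Pool.Agent.Helper47.Centr
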