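import Mathlib
import Pool.Agent.Helper47.CentrTorus
import Pool.Agent.Helper47.CentrArith

namespace Pool.Agent.Helper47.Centr

open scoped Manifold ContDiff Topology
open Set Filter

noncomputable section

/-- skew homeomorphisms -/
def skew (s t : T) (h : C(T × T, T)) : T3 ≃ₜ T3 where
  toFun p := (p.1 + s, p.2.1 + t, p.2.2 + h (p.1, p.2.1))
  invFun p := (p.1 - s, p.2.1 - t, p.2.2 - h (p.1 - s, p.2.1 - t))
  left_inv p := by simp
  right_inv p := by simp
  continuous_toFun := by fun_prop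
  continuous_invFun := by fun_prop

lemma skew_apply (s t : T) (h : C(T × T, T)) (p : T3) :
    skew s t h p = (p.1 + s, p.2.1 + t, p.2.2 + h (p.1, p.2.1)) := rfl

lemma skew_mem (s t : T) (h : C(T × T, T)) (H : ℝ × ℝ → ℝ) (hH : ContDiff ℝ ∞ H)
    (hc : ∀ x y : ℝ, h ((x : T), (y : T)) = (H (x, y) : T)) : skew s t h ∈ diffGroup V3 T3 := by
  obtain ⟨s, rfl⟩ := QuotientAddGroup.mk_surjective s
  obtain ⟨t, rfl⟩ := QuotientAddGroup.mk_surjective t
  constructor
  · apply contMDiff_of_lift (skew _ _ h).continuous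
      (G := fun v => (v.1 + s, v.2.1 + t, v.2.2 + H (v.1, v.2.1)))
    · fun_prop
    · intro v
      rw [skew_apply]
      simp only [pr, hc]
      rfl
  · apply contMDiff_of_lift (skew _ _ h).symm.continuous
      (G := fun v => (v.1 - s, v.2.1 - t, v.2.2 - H (v.1 - s, v.2.1 - t)))
    · fun_prop
    · intro v
      change (((v.1 : ℝ) : T) - (s : T), ((v.2.1 : ℝ) : T) - (t : T),
        ((v.2.2 : ℝ) : T) - h (((v.1 : ℝ) : T) - (s : T), ((v.2.1 : ℝ) : T) - (t : T))) = _
      have e1 : ((v.1 : ℝ) : T) - (s : T) = ((v.1 - s : ℝ) : T) := rfl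
      have e2 : ((v.2.1 : ℝ) : T) - (t : T) = ((v.2.1 - t : ℝ) : T) := rfl
      rw [e1, e2, hc]
      rfl

/-! ### the Fourier series -/

/-- summands -/
def fs (n k : ℕ) (x : ℝ) : ℝ := (1 / 16) * (cn n k * ex (q k * x)).re

/-- `φ_n` -/
def ph (n : ℕ) (x : ℝ) : ℝ := ∑' k, fs n k x

lemma ex_contDiff (c : ℝ) : ContDiff ℝ ∞ (fun x : ℝ => ex (c * x)) := by
  unfold ex
  have h0 : ContDiff ℝ ∞ (fun x : ℝ => 2 * Real.pi * (c * x)) := by fun_prop
  have h1 : ContDiff ℝ ∞ (fun x : ℝ => ((2 * Real.pi * (c * x) : ℝ) : ℂ)) :=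
    Complex.ofRealCLM.contDiff.comp h0
  exact (h1.mul contDiff_const).cexp

lemma hasDerivAt_ex (c : ℝ) (z : ℂ) (x : ℝ) :
    HasDerivAt (fun x : ℝ => z * ex (c * x)) ((z * (2 * Real.pi * c * Complex.I)) * ex (c * x)) x := by
  unfold ex
  have h1 : HasDerivAt (fun x : ℝ => ((2 * Real.pi * (c * x) : ℝ) : ℂ) * Complex.I)
      (((2 * Real.pi * c : ℝ) : ℂ) * Complex.I) x := by
    have h2 : HasDerivAt (fun x : ℝ => 2 * Real.pi * (c * x)) (2 * Real.pi * c) x := by
      have := ((hasDerivAt_id x).const_mul c).const_mul (2 * Real.pi)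
      simpa using this
    exact h2.ofReal_comp.mul_const _
  have h3 := (h1.cexp).const_mul z
  refine h3.congr_deriv ?_
  push_cast
  ring

lemma iteratedDeriv_ex (c : ℝ) (j : ℕ) : ∀ z : ℂ,
    iteratedDeriv j (fun x : ℝ => z * ex (c * x)) = fun x => (z * (2 * Real.pi * c * Complex.I) ^ j) * ex (c * x) := by
  induction j with
  | zero => intro z; simp
  | succ j ih =>
    intro z
    rw [iteratedDeriv_succ']
    have : deriv (fun x : ℝ => z * ex (c * x)) = fun x => (z * (2 * Real.pi * c * Complex.I)) * ex (c * x) := by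
      funext x
      exact (hasDerivAt_ex c z x).deriv
    rw [this, ih]
    funext x
    rw [pow_succ]
    ring

lemma fs_contDiff (n k : ℕ) : ContDiff ℝ ∞ (fs n k) := by
  unfold fs
  have h := ex_contDiff (q k)
  have h2 : ContDiff ℝ ∞ (fun x : ℝ => Complex.reCLM (cn n k * ex (q k * x))) :=
    Complex.reCLM.contDiff.comp (contDiff_const.mul h)
  exact contDiff_const.mul h2

lemma norm_iteratedFDeriv_fs (n k j : ℕ) (x : ℝ) :
    ‖iteratedFDeriv ℝ j (fs n k) x‖ ≤ (1 / 16) * (‖cn n k‖ * (2 * Real.pi * q k) ^ j) := by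
  have e : fs n k = ((1 / 16 : ℝ) • Complex.reCLM) ∘ (fun x : ℝ => cn n k * ex (q k * x)) := by
    funext x
    simp [fs]
  have h := ex_contDiff (q k)
  have hc : ContDiff ℝ ∞ (fun x : ℝ => cn n k * ex (q k * x)) := contDiff_const.mul h
  rw [e]
  refine (ContinuousLinearMap.norm_iteratedFDeriv_comp_left _ hc.contDiffAt (n := j) (by exact_mod_cast le_top)).trans ?_
  rw [norm_iteratedFDeriv_eq_norm_iteratedDeriv, iteratedDeriv_ex]
  have h1 : ‖(1 / 16 : ℝ) • Complex.reCLM‖ ≤ 1 / 16 := by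
    rw [norm_smul, Complex.reCLM_norm]; norm_num
  have h2 : ‖(cn n k * (2 * Real.pi * (q k : ℝ) * Complex.I) ^ j) * ex (q k * x)‖ = ‖cn n k‖ * (2 * Real.pi * q k) ^ j := by
    rw [norm_mul, norm_ex, mul_one, norm_mul, norm_pow]
    congr 2
    rw [norm_mul, Complex.norm_I, mul_one]
    have : (2 * Real.pi * (q k : ℝ) : ℂ) = ((2 * Real.pi * q k : ℝ) : ℂ) := by push_cast; rfl
    rw [this, Complex.norm_real, Real.norm_eq_abs, abs_of_nonneg (by positivity)]
  rw [h2]
  exact mul_le_mul_of_nonneg_right h1 (by positivity)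

lemma summable_bound (n j : ℕ) : Summable (fun k => (1 / 16) * (‖cn n k‖ * (2 * Real.pi * q k) ^ j)) :=
  (summable_cn n j).mul_left _

lemma ph_contDiff (n : ℕ) : ContDiff ℝ ∞ (ph n) :=
  contDiff_tsum (fs_contDiff n) (fun j _ => summable_bound n j) (fun j k x _ => norm_iteratedFDeriv_fs n k j x)

lemma norm_iteratedFDeriv_ph (n j : ℕ) (x : ℝ) :
    ‖iteratedFDeriv ℝ j (ph n) x‖ ≤ ∑' k, (1 / 16) * (‖cn n k‖ * (2 * Real.pi * q k) ^ j) := by
  have h := iteratedFDeriv_tsum (fs_contDiff n) (fun j _ => summable_bound n j)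
    (fun j k x _ => norm_iteratedFDeriv_fs n k j x) (k := j) (by exact_mod_cast le_top)
  have h' : iteratedFDeriv ℝ j (ph n) = fun x => ∑' k, iteratedFDeriv ℝ j (fs n k) x := h
  rw [h']
  exact tsum_of_norm_bounded (summable_bound n j).hasSum (fun k => norm_iteratedFDeriv_fs n k j x)

lemma abs_fs_le (n k : ℕ) (x : ℝ) : |fs n k x| ≤ (1 / 16) * ‖cn n k‖ := by
  unfold fs
  rw [abs_mul, abs_of_pos (by norm_num : (0 : ℝ) < 1 / 16)]
  apply mul_le_mul_of_nonneg_left _ (by norm_num)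
  refine (Complex.abs_re_le_norm _).trans ?_
  rw [norm_mul, norm_ex, mul_one]

lemma summable_cn0 (n : ℕ) : Summable (fun k => ‖cn n k‖) := by
  have := summable_cn n 0
  simpa using this

lemma summable_fs (n : ℕ) (x : ℝ) : Summable (fun k => fs n k x) :=
  Summable.of_norm_bounded ((summable_cn0 n).mul_left (1 / 16)) (fun k => abs_fs_le n k x)

lemma fs_add_one (n k : ℕ) (x : ℝ) : fs n k (x + 1) = fs n k x := by
  unfold fs
  have : (q k : ℝ) * (x + 1) = q k * x + q k := by ring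
  rw [this, ex_add, ex_nat, mul_one]

lemma ph_periodic (n : ℕ) : Function.Periodic (ph n) 1 := by
  intro x
  unfold ph
  exact tsum_congr (fun k => fs_add_one n k x)

lemma ph_zero (x : ℝ) : ph 0 x = 0 := by
  unfold ph
  have : ∀ k, fs 0 k x = 0 := by
    intro k
    unfold fs cn
    simp [ex_zero]
  simp [this]

lemma ph_succ (n : ℕ) (x : ℝ) : ph (n + 1) x = ph 1 (x + n * al) + ph n x := by
  unfold ph
  rw [← (summable_fs 1 _).tsum_add (summable_fs n x)]
  apply tsum_congr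
  intro k
  unfold fs
  rw [cn_succ]
  have : (q k : ℝ) * (x + n * al) = q k * (n * al) + q k * x := by ring
  rw [this, ex_add, add_mul, Complex.add_re, mul_add]
  congr 3
  ring

/-- `Φ_n` on the circle -/
def PH (n : ℕ) : C(T, T) where
  toFun := fun b => (((ph_periodic n).lift b : ℝ) : T)
  continuous_toFun := by
    apply (AddCircle.continuous_mk' 1).comp
    apply continuous_coinduced_dom.2
    exact (ph_contDiff n).continuous

lemma PH_coe (n : ℕ) (x : ℝ) : PH n (x : T) = (ph n x : T) := rfl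

lemma PH_zero (b : T) : PH 0 b = 0 := by
  obtain ⟨x, rfl⟩ := QuotientAddGroup.mk_surjective b
  rw [PH_coe, ph_zero]; rfl

lemma PH_succ (n : ℕ) (b : T) : PH (n + 1) b = PH 1 (b + n • (al : T)) + PH n b := by
  obtain ⟨x, rfl⟩ := QuotientAddGroup.mk_surjective b
  change PH (n+1) (x : T) = PH 1 ((x : T) + n • (al : T)) + PH n (x : T)
  have e : (x : T) + n • (al : T) = ((x + n * al : ℝ) : T) := by
    rw [AddCircle.coe_add, ← AddCircle.coe_nsmul, nsmul_eq_mul]
  rw [e, PH_coe, PH_coe, PH_coe, ph_succ]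
  rfl

lemma PH_succ' (n : ℕ) : ∀ b : T, PH (n + 1) b = PH n (b + (al : T)) + PH 1 b := by
  induction n with
  | zero => intro b; rw [PH_zero, zero_add, zero_add]
  | succ n ih =>
    intro b
    rw [PH_succ (n + 1) b, ih b, PH_succ n (b + al)]
    have : b + (n + 1) • (al : T) = b + (al : T) + n • (al : T) := by
      rw [add_smul, one_smul]; abel
    rw [this]
    abel

/-! ### the diffeomorphisms -/

def hF : C(T × T, T) := ⟨fun x => x.1 + PH 1 x.2, by fun_prop⟩
def hG : C(T × T, T) := ⟨fun x => x.2, by fun_prop⟩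
def hE (n : ℕ) : C(T × T, T) := ⟨fun x => PH n x.2, by fun_prop⟩
def hV (c : T) : C(T × T, T) := ⟨fun _ => c, by fun_prop⟩

def dF (a1 : T) : diffGroup V3 T3 :=
  ⟨skew a1 (al : T) hF, skew_mem _ _ _ (fun x => x.1 + ph 1 x.2)
    (by have := ph_contDiff 1; fun_prop) (fun x y => rfl)⟩

def dG : diffGroup V3 T3 :=
  ⟨skew (al : T) 0 hG, skew_mem _ _ _ (fun x => x.2) (by fun_prop) (fun x y => rfl)⟩

def dE (n : ℕ) : diffGroup V3 T3 :=
  ⟨skew 0 (n • (al : T)) (hE n), skew_mem _ _ _ (fun x => ph n x.2)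
    (by have := ph_contDiff n; fun_prop) (fun x y => rfl)⟩

lemma dF_apply (a1 : T) (p : T3) :
    (dF a1 : T3 ≃ₜ T3) p = (p.1 + a1, p.2.1 + (al : T), p.2.2 + (p.1 + PH 1 p.2.1)) := rfl

lemma dG_apply (p : T3) :
    (dG : T3 ≃ₜ T3) p = (p.1 + (al : T), p.2.1 + 0, p.2.2 + p.2.1) := rfl

lemma dE_apply (n : ℕ) (p : T3) :
    (dE n : T3 ≃ₜ T3) p = (p.1 + 0, p.2.1 + n • (al : T), p.2.2 + PH n p.2.1) := rfl

lemma diff_ext {g h : diffGroup V3 T3} (H : ∀ p, (g : T3 ≃ₜ T3) p = (h : T3 ≃ₜ T3) p) : g = h :=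
  Subtype.ext (Homeomorph.ext H)

lemma mul_apply' (g h : diffGroup V3 T3) (p : T3) :
    ((g * h : diffGroup V3 T3) : T3 ≃ₜ T3) p = (g : T3 ≃ₜ T3) ((h : T3 ≃ₜ T3) p) := rfl

lemma mem_centralizer_iff' (f g : diffGroup V3 T3) :
    g ∈ centralizer f ↔ ∀ p, (f : T3 ≃ₜ T3) ((g : T3 ≃ₜ T3) p) = (g : T3 ≃ₜ T3) ((f : T3 ≃ₜ T3) p) := by
  unfold centralizer
  rw [Subgroup.mem_centralizer_singleton_iff]
  constructor
  · intro h p
    rw [← mul_apply', ← mul_apply', h]
  · intro h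
    apply diff_ext
    intro p
    rw [mul_apply', mul_apply', h]

lemma dG_mem (a1 : T) : dG ∈ centralizer (dF a1) := by
  rw [mem_centralizer_iff']
  intro p
  simp only [dF_apply, dG_apply]
  ext
  · simp only; abel
  · simp only; abel
  · simp only [add_zero]; abel

lemma dE_mem (a1 : T) (n : ℕ) : dE n ∈ centralizer (dF a1) := by
  rw [mem_centralizer_iff']
  intro p
  simp only [dF_apply, dE_apply]
  ext
  · simp only; abel
  · simp only; abel
  · simp only [add_zero]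
    have h1 := PH_succ n p.2.1
    have h2 := PH_succ' n p.2.1
    have h3 : PH 1 (p.2.1 + n • (al : T)) + PH n p.2.1 = PH n (p.2.1 + (al : T)) + PH 1 p.2.1 := by
      rw [← h1, ← h2]
    calc p.2.2 + PH n p.2.1 + (p.1 + PH 1 (p.2.1 + n • (al : T)))
        = p.2.2 + p.1 + (PH 1 (p.2.1 + n • (al : T)) + PH n p.2.1) := by abel
      _ = _ := by rw [h3]; abel

/-- the small real representative of `q_m α` -/
def be (m : ℕ) : ℝ := q m * LiouvilleNumber.remainder 2 m

lemma be_coe (m : ℕ) : ((be m : ℝ) : T) = q m • (al : T) := by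
  obtain ⟨P, hP⟩ := al_decomp m
  have hq := q_pos' m
  have e : (q m : ℝ) * al = be m + P := by
    rw [hP]; unfold be; field_simp; ring
  rw [← AddCircle.coe_nsmul, nsmul_eq_mul, e, AddCircle.coe_add]
  have : ((P : ℝ) : T) = 0 := by
    rw [AddCircle.coe_eq_zero_iff]
    exact ⟨P, by simp⟩
  rw [this, add_zero]

lemma be_pos (m : ℕ) : 0 < be m := mul_pos (q_pos' m) (rem_pos m)

lemma be_le {m : ℕ} (hm : 1 ≤ m) : be m ≤ de m := by
  have hr := rem_lt m
  have hq := q_pos' m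
  unfold be de
  have e2 : (q m : ℝ) ^ m = (q m : ℝ) ^ (m - 1) * q m := by
    rw [← pow_succ]; congr 1; omega
  rw [e2] at hr
  rw [le_div_iff₀ (by positivity)]
  rw [lt_div_iff₀ (by positivity)] at hr
  nlinarith

lemma tendsto_be : Tendsto be atTop (𝓝 0) := by
  apply squeeze_zero' _ _ tendsto_de
  · filter_upwards with m; exact (be_pos m).le
  · filter_upwards [eventually_ge_atTop 1] with m hm; exact be_le hm

def L1 : V3 →L[ℝ] ℝ := (ContinuousLinearMap.fst ℝ ℝ ℝ).comp (ContinuousLinearMap.snd ℝ ℝ (ℝ × ℝ))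
def L2 : ℝ →L[ℝ] V3 := (ContinuousLinearMap.inr ℝ ℝ (ℝ × ℝ)).comp (ContinuousLinearMap.inr ℝ ℝ ℝ)

lemma norm_L1 : ‖L1‖ ≤ 1 := by
  apply ContinuousLinearMap.opNorm_le_bound _ zero_le_one
  intro v
  rw [one_mul]
  exact (norm_fst_le v.2).trans (norm_snd_le v)

lemma norm_L2 : ‖L2‖ ≤ 1 := by
  apply ContinuousLinearMap.opNorm_le_bound _ zero_le_one
  intro v
  rw [one_mul]
  simp [L2, Prod.norm_def]

lemma norm_iteratedFDeriv_const_le (c : V3) (j : ℕ) (v : V3) :
    ‖iteratedFDeriv ℝ j (fun _ : V3 => c) v‖ ≤ ‖c‖ := by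
  rcases Nat.eq_zero_or_pos j with h | h
  · subst h
    rw [norm_iteratedFDeriv_zero]
  · rw [iteratedFDeriv_const_of_ne h.ne']
    simp

lemma tendsto_dE : Tendsto (fun m => dE (q m)) atTop (𝓝 1) := by
  apply tendsto_one_of_lift _ (fun m v => (0, be m, ph (q m) v.2.1))
  · intro m
    have := ph_contDiff (q m)
    fun_prop
  · intro m v
    rw [dE_apply]
    simp only [pr]
    ext
    · simp
    · simp [be_coe]
    · simp only [PH_coe]
      rfl
  · intro j η hη
    have h1 : Tendsto (fun m => |be m| + ∑' k, (1 / 16) * (‖cn (q m) k‖ * (2 * Real.pi * q k) ^ j)) atTop (𝓝 0) := by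
      have h2 := (tendsto_cn_q j).const_mul (1 / 16)
      simp only [← tsum_mul_left] at h2
      have h3 := tendsto_be.abs.add h2
      simpa using h3
    filter_upwards [h1.eventually_lt_const hη] with m hm v
    refine lt_of_le_of_lt ?_ hm
    have e : (fun v : V3 => ((0 : ℝ), be m, ph (q m) v.2.1))
        = (fun _ : V3 => ((0 : ℝ), be m, (0 : ℝ))) + (L2 ∘ (ph (q m) ∘ L1)) := by
      funext v
      simp [L1, L2]
    have hc : ContDiff ℝ ∞ (ph (q m) ∘ L1) := (ph_contDiff (q m)).comp L1.contDiff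
    have hc2 : ContDiff ℝ ∞ (L2 ∘ (ph (q m) ∘ L1)) := L2.contDiff.comp hc
    rw [e, iteratedFDeriv_add_apply contDiffAt_const (hc2.contDiffAt.of_le (by exact_mod_cast le_top))]
    refine (norm_add_le _ _).trans ?_
    apply add_le_add
    · refine (norm_iteratedFDeriv_const_le _ j v).trans ?_
      simp [Prod.norm_def]
    · refine (ContinuousLinearMap.norm_iteratedFDeriv_comp_left _ hc.contDiffAt (n := j) (by exact_mod_cast le_top)).trans ?_
      rw [ContinuousLinearMap.iteratedFDeriv_comp_right _ (ph_contDiff (q m)) _ (i := j) (by exact_mod_cast le_top)]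
      have h4 := (iteratedFDeriv ℝ j (ph (q m)) (L1 v)).norm_compContinuousLinearMap_le (fun _ => L1)
      have h5 : ∏ _i : Fin j, ‖L1‖ ≤ 1 := by
        rw [Finset.prod_const]
        exact pow_le_one₀ (norm_nonneg _) norm_L1
      have h6 := norm_iteratedFDeriv_ph (q m) j (L1 v)
      have h7 : 0 ≤ ‖iteratedFDeriv ℝ j (ph (q m)) (L1 v)‖ := norm_nonneg _
      calc ‖L2‖ * _ ≤ 1 * (‖iteratedFDeriv ℝ j (ph (q m)) (L1 v)‖ * 1) := by
            apply mul_le_mul norm_L2 _ (norm_nonneg _) zero_le_one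
            refine h4.trans ?_
            exact mul_le_mul_of_nonneg_left h5 h7
        _ = ‖iteratedFDeriv ℝ j (ph (q m)) (L1 v)‖ := by ring
        _ ≤ _ := h6

end

end Pool.Agent.Helper47.Centr
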