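import Mathlib
import Pool.Agent.Helper47.CentrSkew

namespace Pool.Agent.Helper47.Centr

open scoped Manifold ContDiff Topology
open Set Filter

noncomputable section

lemma norm_coe_le (x : ℝ) : ‖((x : ℝ) : T)‖ ≤ |x| := by
  have := QuotientAddGroup.norm_mk_le_norm (S := AddSubgroup.zmultiples (1 : ℝ)) (m := x)
  exact this

lemma coe_intCast (k : ℤ) : ((k : ℝ) : T) = 0 := by
  rw [AddCircle.coe_eq_zero_iff]
  exact ⟨k, by simp⟩

lemma rec_al (N : ℕ) (V : Set T) (hV : IsOpen V) (hne : V.Nonempty) : ∃ n ≥ N, n • (al : T) ∈ V := by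
  have hd : DenseRange (· • (al : T) : ℤ → T) := by
    rw [AddCircle.denseRange_zsmul_coe_iff, div_one]
    exact irrational_al
  obtain ⟨z, hz⟩ := hd.exists_mem_open hV hne
  have h1 : Tendsto (fun m => z • (al : T) + q m • (al : T)) atTop (𝓝 (z • (al : T))) := by
    have h2 : Tendsto (fun m => ((be m : ℝ) : T)) atTop (𝓝 ((0 : ℝ) : T)) :=
      ((AddCircle.continuous_mk' 1).tendsto 0).comp tendsto_be
    have h3 := h2.const_add (z • (al : T))
    simp only [be_coe] at h3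
    simpa using h3
  have h2 : Tendsto (fun m => (z : ℝ) + q m) atTop atTop := tendsto_atTop_add_const_left _ _ tendsto_q
  obtain ⟨m, hm1, hm2⟩ := ((h1.eventually (hV.mem_nhds hz)).and (h2.eventually_ge_atTop (N : ℝ))).exists
  have hm3 : (N : ℤ) ≤ z + q m := by exact_mod_cast hm2
  refine ⟨(z + q m).toNat, ?_, ?_⟩
  · have := Int.toNat_of_nonneg (le_trans (by positivity) hm3 : 0 ≤ z + (q m : ℤ))
    omega
  · have : (z + q m).toNat • (al : T) = z • (al : T) + q m • (al : T) := by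
      rw [← natCast_zsmul, Int.toNat_of_nonneg (le_trans (by positivity) hm3), add_smul, natCast_zsmul]
    rw [this]; exact hm1

/-- `a1` is good: the pairs `n (a1, al)`, `n ≥ N`, are dense -/
def Good (a1 : T) : Prop := ∀ N : ℕ, ∀ U V : Set T, IsOpen U → U.Nonempty → IsOpen V → V.Nonempty →
  ∃ n ≥ N, n • a1 ∈ U ∧ n • (al : T) ∈ V

lemma exists_mul_eq (w : T) (x₀ δ : ℝ) (n : ℕ) (hn : 1 < n * δ) :
    ∃ x ∈ Ioo x₀ (x₀ + δ), n • ((x : ℝ) : T) = w := by
  obtain ⟨w, rfl⟩ := QuotientAddGroup.mk_surjective w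
  have hn0 : (0 : ℝ) < n := by
    rcases Nat.eq_zero_or_pos n with h | h
    · subst h; simp at hn; linarith
    · exact_mod_cast h
  set k : ℤ := ⌊n * x₀ - w⌋ + 1 with hk
  have h1 : (n : ℝ) * x₀ - w < k := by
    rw [hk]; push_cast; exact Int.lt_floor_add_one _
  have h2 : (k : ℝ) ≤ n * x₀ - w + 1 := by
    rw [hk]; push_cast; have := Int.floor_le ((n : ℝ) * x₀ - w); linarith
  refine ⟨(w + k) / n, ⟨?_, ?_⟩, ?_⟩
  · rw [lt_div_iff₀ hn0]; linarith
  · rw [div_lt_iff₀ hn0]; nlinarith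
  · rw [← AddCircle.coe_nsmul, nsmul_eq_mul, mul_div_cancel₀ _ hn0.ne', AddCircle.coe_add, coe_intCast,
      add_zero]

lemma exists_good : ∃ a1 : T, Good a1 := by
  set b := TopologicalSpace.countableBasis T with hb
  have hbc : b.Countable := TopologicalSpace.countable_countableBasis T
  have hbb := TopologicalSpace.isBasis_countableBasis T
  let W : ℕ × b × b → Set T := fun x => {a | ∃ n ≥ x.1, n • a ∈ (x.2.1 : Set T) ∧ n • (al : T) ∈ (x.2.2 : Set T)}
  have hWo : ∀ x, IsOpen (W x) := by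
    rintro ⟨N, U, V⟩
    have : W ⟨N, U, V⟩ = ⋃ n ∈ {n | n ≥ N ∧ n • (al : T) ∈ (V : Set T)}, (fun a : T => n • a) ⁻¹' (U : Set T) := by
      ext a
      simp only [W, mem_ofPred_eq, mem_iUnion, mem_preimage, exists_prop]
      constructor
      · rintro ⟨n, h1, h2, h3⟩; exact ⟨n, ⟨h1, h3⟩, h2⟩
      · rintro ⟨n, ⟨h1, h3⟩, h2⟩; exact ⟨n, h1, h2, h3⟩
    rw [this]
    apply isOpen_biUnion
    intro n _
    exact (hbb.isOpen U.2).preimage (by fun_prop)
  have hWd : ∀ x : ℕ × b × b, (x.2.1 : Set T).Nonempty → (x.2.2 : Set T).Nonempty → Dense (W x) := by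
    rintro ⟨N, U, V⟩ hU hV
    rw [dense_iff_inter_open]
    intro O hO ⟨a, ha⟩
    obtain ⟨x₀, rfl⟩ := QuotientAddGroup.mk_surjective a
    have h1 : (fun x : ℝ => (x : T)) ⁻¹' O ∈ 𝓝 x₀ :=
      (AddCircle.continuous_mk' 1).continuousAt.preimage_mem_nhds (hO.mem_nhds ha)
    obtain ⟨δ, hδ, hball⟩ := Metric.mem_nhds_iff.1 h1
    obtain ⟨M, hM⟩ := exists_nat_gt (1 / δ)
    obtain ⟨n, hn, hnV⟩ := rec_al (max N M) V (hbb.isOpen V.2) hV
    obtain ⟨u, hu⟩ := hU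
    have hnδ : 1 < n * δ := by
      have h2 : (M : ℝ) ≤ n := by exact_mod_cast (le_max_right N M).trans hn
      rw [div_lt_iff₀ hδ] at hM
      nlinarith
    obtain ⟨x, hx, hxu⟩ := exists_mul_eq u x₀ δ n hnδ
    refine ⟨(x : T), ?_, ?_⟩
    · apply hball
      rw [Metric.mem_ball, Real.dist_eq, abs_lt]
      constructor <;> linarith [hx.1, hx.2]
    · refine ⟨n, (le_max_left N M).trans hn, ?_, hnV⟩
      rw [hxu]; exact hu
  let S : Set (Set T) := W '' {x | (x.2.1 : Set T).Nonempty ∧ (x.2.2 : Set T).Nonempty}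
  have hSc : S.Countable := by
    have : Countable b := hbc.to_subtype
    exact (Set.to_countable _).image W
  have hd : Dense (⋂₀ S) := by
    apply dense_sInter_of_isOpen _ hSc
    · rintro _ ⟨x, hx, rfl⟩; exact hWd x hx.1 hx.2
    · rintro _ ⟨x, hx, rfl⟩; exact hWo x
  obtain ⟨a1, ha1⟩ := hd.nonempty
  refine ⟨a1, ?_⟩
  intro N U V hU ⟨u, hu⟩ hV ⟨v, hv⟩
  obtain ⟨U', hU'b, huU', hU'U⟩ := hbb.exists_subset_of_mem_open hu hU
  obtain ⟨V', hV'b, hvV', hV'V⟩ := hbb.exists_subset_of_mem_open hv hV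
  have h1 : a1 ∈ W (N, ⟨U', hU'b⟩, ⟨V', hV'b⟩) := by
    apply ha1
    exact ⟨_, ⟨⟨u, huU'⟩, ⟨v, hvV'⟩⟩, rfl⟩
  obtain ⟨n, h2, h3, h4⟩ := h1
  exact ⟨n, h2, hU'U h3, hV'V h4⟩

/-! ### iterates of `F` -/

lemma dF_iter (a1 : T) (n : ℕ) : ∃ s : T, ∀ p : T3, (dF a1 : T3 ≃ₜ T3)^[n] p
    = (p.1 + n • a1, p.2.1 + n • (al : T), p.2.2 + n • p.1 + s + PH n p.2.1) := by
  induction n with
  | zero =>
    refine ⟨0, fun p => ?_⟩
    simp [PH_zero]
  | succ n ih =>
    obtain ⟨s, hs⟩ := ih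
    refine ⟨s + n • a1, fun p => ?_⟩
    rw [Function.iterate_succ_apply', hs, dF_apply]
    ext
    · simp only [add_smul, one_smul]; abel
    · simp only [add_smul, one_smul]; abel
    · simp only [add_smul, one_smul]
      rw [PH_succ n p.2.1]
      abel

lemma dF_iter_eq_pow (a1 : T) (n : ℕ) (p : T3) :
    (dF a1 : T3 ≃ₜ T3)^[n] p = ((dF a1 ^ (n : ℤ) : diffGroup V3 T3) : T3 ≃ₜ T3) p := by
  rw [zpow_natCast]
  induction n generalizing p with
  | zero => rfl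
  | succ n ih =>
    rw [Function.iterate_succ_apply, ih, pow_succ, mul_apply']

/-- topological transitivity -/
lemma top_trans {a1 : T} (h : Good a1) (U V : Set T3) (hU : IsOpen U) (hUne : U.Nonempty)
    (hV : IsOpen V) (hVne : V.Nonempty) : ∃ n : ℕ, ∃ p ∈ U, (dF a1 : T3 ≃ₜ T3)^[n] p ∈ V := by
  obtain ⟨⟨a₀, b₀, y₀⟩, hp₀⟩ := hUne
  obtain ⟨⟨a₁, b₁, y₁⟩, hv₀⟩ := hVne
  obtain ⟨ε₁, hε₁, hb1⟩ := Metric.isOpen_iff.1 hU _ hp₀
  obtain ⟨ε₂, hε₂, hb2⟩ := Metric.isOpen_iff.1 hV _ hv₀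
  set ε := min ε₁ ε₂ with hε
  have hε0 : 0 < ε := lt_min hε₁ hε₂
  obtain ⟨N, hN⟩ := exists_nat_gt (1 / (ε / 2))
  obtain ⟨n, hnN, hna, hnb⟩ := h N (Metric.ball (a₁ - a₀) (ε / 2)) (Metric.ball (b₁ - b₀) (ε / 2))
    Metric.isOpen_ball ⟨_, Metric.mem_ball_self (by positivity)⟩ Metric.isOpen_ball
    ⟨_, Metric.mem_ball_self (by positivity)⟩
  obtain ⟨x₀, rfl⟩ := QuotientAddGroup.mk_surjective a₀
  obtain ⟨s, hs⟩ := dF_iter a1 n
  have hnε : 1 < n * (ε / 2) := by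
    have h2 : (N : ℝ) ≤ n := by exact_mod_cast hnN
    rw [div_lt_iff₀ (by positivity)] at hN
    nlinarith
  obtain ⟨x, hx, hxw⟩ := exists_mul_eq (y₁ - y₀ - s - PH n b₀) x₀ (ε / 2) n hnε
  have hxx : ‖(x : T) - (x₀ : T)‖ < ε / 2 := by
    rw [← AddCircle.coe_sub]
    refine (norm_coe_le _).trans_lt ?_
    rw [abs_lt]; constructor <;> linarith [hx.1, hx.2]
  refine ⟨n, ((x : T), b₀, y₀), ?_, ?_⟩
  · apply hb1
    rw [Metric.mem_ball, Prod.dist_eq, Prod.dist_eq]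
    simp only [dist_self, max_self]
    apply max_lt _ hε₁
    rw [dist_eq_norm]
    exact hxx.trans (by have := min_le_left ε₁ ε₂; linarith)
  · apply hb2
    rw [hs]
    rw [Metric.mem_ball, Prod.dist_eq, Prod.dist_eq]
    have h2 := min_le_right ε₁ ε₂
    rw [Metric.mem_ball, dist_eq_norm] at hna hnb
    apply max_lt
    · simp only [dist_eq_norm]
      have e : (x : T) + n • a1 - a₁ = ((x : T) - (x₀ : T)) + (n • a1 - (a₁ - (x₀ : T))) := by abel
      rw [e]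
      refine (norm_add_le _ _).trans_lt ?_
      change ‖n • a1 - (a₁ - (x₀ : T))‖ < ε / 2 at hna
      linarith
    · apply max_lt
      · simp only [dist_eq_norm]
        have e : b₀ + n • (al : T) - b₁ = n • (al : T) - (b₁ - b₀) := by abel
        rw [e]
        linarith
      · simp only [hxw]
        have e : y₀ + (y₁ - y₀ - s - PH n b₀) + s + PH n b₀ = y₁ := by abel
        rw [e, dist_self]
        exact hε₂

lemma exists_dense_orbit {a1 : T} (h : Good a1) :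
    ∃ x : T3, ∀ U : Set T3, IsOpen U → U.Nonempty → ∃ n : ℕ, (dF a1 : T3 ≃ₜ T3)^[n] x ∈ U := by
  set b := TopologicalSpace.countableBasis T3 with hb
  have hbc : b.Countable := TopologicalSpace.countable_countableBasis T3
  have hbb := TopologicalSpace.isBasis_countableBasis T3
  let W : Set T3 → Set T3 := fun V => ⋃ n : ℕ, (dF a1 : T3 ≃ₜ T3)^[n] ⁻¹' V
  have hd : Dense (⋂₀ (W '' {V ∈ b | V.Nonempty})) := by
    apply dense_sInter_of_isOpen
    · rintro _ ⟨V, ⟨hVb, hVne⟩, rfl⟩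
      apply isOpen_iUnion
      intro n
      exact (hbb.isOpen hVb).preimage ((dF a1 : T3 ≃ₜ T3).continuous.iterate n)
    · exact (hbc.mono (fun V hV => hV.1)).image W
    · rintro _ ⟨V, ⟨hVb, hVne⟩, rfl⟩
      rw [dense_iff_inter_open]
      intro O hO hOne
      obtain ⟨n, p, hp, hpn⟩ := top_trans h O V hO hOne (hbb.isOpen hVb) hVne
      exact ⟨p, hp, mem_iUnion.2 ⟨n, hpn⟩⟩
  obtain ⟨x, hx⟩ := hd.nonempty
  refine ⟨x, ?_⟩
  intro U hU ⟨u, hu⟩
  obtain ⟨U', hU'b, huU', hU'U⟩ := hbb.exists_subset_of_mem_open hu hU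
  have h1 : x ∈ W U' := hx _ ⟨U', ⟨hU'b, ⟨u, huU'⟩⟩, rfl⟩
  obtain ⟨n, hn⟩ := mem_iUnion.1 h1
  exact ⟨n, hU'U hn⟩

lemma dF_transitive {a1 : T} (h : Good a1) : IsTransitive (dF a1) := by
  obtain ⟨x, hx⟩ := exists_dense_orbit h
  refine ⟨x, ?_⟩
  rw [dense_iff_inter_open]
  intro U hU hne
  obtain ⟨n, hn⟩ := hx U hU hne
  refine ⟨_, hn, ⟨n, ?_⟩⟩
  simp only
  rw [dF_iter_eq_pow]

lemma invariant_const {a1 : T} (h : Good a1) {Y : Type*} [TopologicalSpace Y] [T2Space Y] (u : T3 → Y)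
    (hu : Continuous u) (hinv : ∀ p, u ((dF a1 : T3 ≃ₜ T3) p) = u p) (p p' : T3) : u p = u p' := by
  obtain ⟨x, hx⟩ := exists_dense_orbit h
  have h1 : ∀ n : ℕ, u ((dF a1 : T3 ≃ₜ T3)^[n] x) = u x := by
    intro n
    induction n with
    | zero => rfl
    | succ n ih => rw [Function.iterate_succ_apply', hinv, ih]
  have h2 : ∀ p, u p = u x := by
    have hcl : IsClosed {p | u p = u x} := isClosed_eq hu continuous_const
    have hd : Dense {p | u p = u x} := by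
      rw [dense_iff_inter_open]
      intro U hU hne
      obtain ⟨n, hn⟩ := hx U hU hne
      exact ⟨_, hn, h1 n⟩
    have := hcl.closure_eq ▸ hd.closure_eq
    intro p
    have hp : p ∈ {p | u p = u x} := by rw [this]; exact mem_univ p
    exact hp
  rw [h2 p, h2 p']

end

end Pool.Agent.Helper47.Centr
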