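import Mathlib
import Pool.Agent.Helper47.CentrTrans

namespace Pool.Agent.Helper47.Centr

open scoped Manifold ContDiff Topology
open Set Filter

noncomputable section

lemma exists_data {a1 : T} (h : Good a1) (g : T3 → T3) (hgc : Continuous g)
    (hgF : ∀ p, (dF a1 : T3 ≃ₜ T3) (g p) = g ((dF a1 : T3 ≃ₜ T3) p)) :
    ∃ β₁ β₂ : T, ∃ B : T3 → T, Continuous B ∧ (∀ p, g p = (p.1 + β₁, p.2.1 + β₂, p.2.2 + B p)) ∧
      ∀ p, B ((dF a1 : T3 ≃ₜ T3) p) = B p + β₁ + PH 1 (p.2.1 + β₂) - PH 1 p.2.1 := by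
  have h1 := invariant_const h (fun p => (g p).1 - p.1) (by fun_prop) (by
    intro p
    rw [← hgF, dF_apply, dF_apply]
    simp only
    abel)
  have h2 := invariant_const h (fun p => (g p).2.1 - p.2.1) (by fun_prop) (by
    intro p
    rw [← hgF, dF_apply, dF_apply]
    simp only
    abel)
  set β₁ := (g 0).1 - (0 : T3).1 with hβ₁
  set β₂ := (g 0).2.1 - (0 : T3).2.1 with hβ₂
  have e1 : ∀ p, (g p).1 = p.1 + β₁ := by
    intro p
    have := h1 p 0
    rw [← hβ₁] at this
    rw [← this]; abel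
  have e2 : ∀ p, (g p).2.1 = p.2.1 + β₂ := by
    intro p
    have := h2 p 0
    rw [← hβ₂] at this
    rw [← this]; abel
  refine ⟨β₁, β₂, fun p => (g p).2.2 - p.2.2, by fun_prop, ?_, ?_⟩
  · intro p
    ext
    · exact e1 p
    · exact e2 p
    · simp only; abel
  · intro p
    simp only
    rw [← hgF, dF_apply (p := g p), e1, e2, dF_apply]
    simp only
    abel

section data

variable {a1 : T} {β₁ β₂ : T} {B : T3 → T}

lemma iter_B (hF : ∀ p, B ((dF a1 : T3 ≃ₜ T3) p) = B p + β₁ + PH 1 (p.2.1 + β₂) - PH 1 p.2.1)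
    (n : ℕ) (p : T3) :
    B ((dF a1 : T3 ≃ₜ T3)^[n] p) = B p + n • β₁ + PH n (p.2.1 + β₂) - PH n p.2.1 := by
  induction n with
  | zero => simp [PH_zero]
  | succ n ih =>
    obtain ⟨s, hs⟩ := dF_iter a1 n
    rw [Function.iterate_succ_apply', hF, ih, hs]
    simp only
    rw [PH_succ n (p.2.1 + β₂), PH_succ n p.2.1]
    have : p.2.1 + n • (al : T) + β₂ = p.2.1 + β₂ + n • (al : T) := by abel
    rw [this, add_smul, one_smul]
    abel

lemma vertical (h : Good a1) (hB : Continuous B)
    (hF : ∀ p, B ((dF a1 : T3 ≃ₜ T3) p) = B p + β₁ + PH 1 (p.2.1 + β₂) - PH 1 p.2.1)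
    (a b y c : T) : B (a, b, y + c) = B (a, b, y) := by
  have h1 : ∀ c : T, ∀ p p' : T3, B (p.1, p.2.1, p.2.2 + c) - B p = B (p'.1, p'.2.1, p'.2.2 + c) - B p' := by
    intro c
    apply invariant_const h (fun p => B (p.1, p.2.1, p.2.2 + c) - B p) (by fun_prop)
    intro p
    have e : ((((dF a1 : T3 ≃ₜ T3) p).1, ((dF a1 : T3 ≃ₜ T3) p).2.1, ((dF a1 : T3 ≃ₜ T3) p).2.2 + c) : T3)
        = (dF a1 : T3 ≃ₜ T3) (p.1, p.2.1, p.2.2 + c) := by
      simp only [dF_apply]
      ext
      · simp only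
      · simp only
      · simp only; abel
    rw [e, hF, hF]
    simp only
    abel
  set κ : T → T := fun c => B (0, 0, c) - B (0, 0, 0) with hκ
  have h2 : ∀ a b y c : T, B (a, b, y + c) = B (a, b, y) + κ c := by
    intro a b y c
    have := h1 c (a, b, y) (0, 0, 0)
    simp only [zero_add] at this
    simp only [hκ]
    rw [← this]; abel
  have h3 : ∀ c c' : T, κ (c + c') = κ c + κ c' := by
    intro c c'
    simp only [hκ]
    rw [h2 0 0 c c']
    simp only [hκ]
    abel
  have h4 : ∀ c, κ c = 0 := by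
    intro c
    rw [← norm_le_zero_iff]
    apply le_of_forall_pos_le_add
    intro ε hε
    rw [zero_add]
    have huc : UniformContinuous B := CompactSpace.uniformContinuous_of_continuous hB
    obtain ⟨δ, hδ, hδB⟩ := Metric.uniformContinuous_iff.1 huc (ε / 2) (by positivity)
    obtain ⟨n, hn, hna, hnb⟩ := h 1 (Metric.ball 0 δ) (Metric.ball 0 δ) Metric.isOpen_ball
      ⟨0, Metric.mem_ball_self hδ⟩ Metric.isOpen_ball ⟨0, Metric.mem_ball_self hδ⟩
    obtain ⟨x, -, hx⟩ := exists_mul_eq c 0 2 n (by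
      have : (1 : ℝ) ≤ n := by exact_mod_cast hn
      linarith)
    obtain ⟨s, hs⟩ := dF_iter a1 n
    have e1 := iter_B hF n (0, 0, 0)
    have e2 := iter_B hF n ((x : T), 0, 0)
    rw [hs] at e1 e2
    simp only [zero_add, smul_zero, hx] at e1 e2
    have e3 : B (n • a1, n • (al : T), s + PH n 0) = B (n • a1, n • (al : T), 0) + κ (s + PH n 0) := by
      have := h2 (n • a1) (n • (al : T)) 0 (s + PH n 0)
      rwa [zero_add] at this
    have e4 : B ((x : T) + n • a1, n • (al : T), c + s + PH n 0)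
        = B ((x : T) + n • a1, n • (al : T), 0) + κ c + κ (s + PH n 0) := by
      have := h2 ((x : T) + n • a1) (n • (al : T)) 0 (c + (s + PH n 0))
      rw [zero_add, ← add_assoc] at this
      rw [this, add_assoc c, h3]
      abel
    rw [e3] at e1
    rw [e4] at e2
    have e5 : κ c = (B (n • a1, n • (al : T), 0) - B (0, 0, 0))
        - (B ((x : T) + n • a1, n • (al : T), 0) - B ((x : T), 0, 0)) := by
      have e6 : B (n • a1, n • (al : T), 0) + κ (s + PH n 0) - B (0, 0, 0)
          = B ((x : T) + n • a1, n • (al : T), 0) + κ c + κ (s + PH n 0) - B ((x : T), 0, 0) := by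
        rw [e1, e2]; abel
      have e7 : κ c = (B ((x : T) + n • a1, n • (al : T), 0) + κ c + κ (s + PH n 0) - B ((x : T), 0, 0))
          - (B ((x : T) + n • a1, n • (al : T), 0) + κ (s + PH n 0) - B ((x : T), 0, 0)) := by abel
      rw [← e6] at e7
      rw [e7]
      abel
    rw [e5]
    refine (norm_sub_le _ _).trans ?_
    rw [mem_ball_zero_iff] at hna hnb
    have d1 : ‖B (n • a1, n • (al : T), 0) - B (0, 0, 0)‖ < ε / 2 := by
      rw [← dist_eq_norm]
      apply hδB
      rw [Prod.dist_eq, Prod.dist_eq]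
      simp only [dist_self, dist_zero_right]
      exact max_lt hna (max_lt hnb hδ)
    have d2 : ‖B ((x : T) + n • a1, n • (al : T), 0) - B ((x : T), 0, 0)‖ < ε / 2 := by
      rw [← dist_eq_norm]
      apply hδB
      rw [Prod.dist_eq, Prod.dist_eq]
      simp only [dist_self, dist_zero_right]
      refine max_lt ?_ (max_lt hnb hδ)
      rw [dist_eq_norm, add_sub_cancel_left]
      exact hna
    linarith
  rw [h2, h4, add_zero]

end data

end

end Pool.Agent.Helper47.Centr
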