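import Mathlib
import Pool.Agent.Helper47.CentrStruct

namespace Pool.Agent.Helper47.Centr

open scoped Manifold ContDiff Topology
open Set Filter

noncomputable section

lemma ex_periodic : Function.Periodic ex 1 := by
  intro x
  rw [ex_add]
  have := ex_nat 1
  rw [Nat.cast_one] at this
  rw [this, mul_one]

/-- `exT (x mod 1) = ex x` -/
def exT : T → ℂ := ex_periodic.lift

lemma exT_coe (x : ℝ) : exT (x : T) = ex x := rfl

lemma continuous_ex : Continuous ex := by unfold ex; fun_prop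

lemma continuous_exT : Continuous exT := by
  apply continuous_coinduced_dom.2
  exact continuous_ex

lemma exT_add (a b : T) : exT (a + b) = exT a * exT b := by
  obtain ⟨x, rfl⟩ := QuotientAddGroup.mk_surjective a
  obtain ⟨y, rfl⟩ := QuotientAddGroup.mk_surjective b
  exact ex_add x y

lemma exT_zero : exT 0 = 1 := ex_zero

lemma exT_ne_zero (a : T) : exT a ≠ 0 := by
  intro h
  have h1 := exT_add a (-a)
  rw [h, zero_mul, add_neg_cancel, exT_zero] at h1
  exact one_ne_zero h1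

lemma exT_sub (a b : T) : exT (a - b) = exT a / exT b := by
  rw [eq_div_iff (exT_ne_zero b), ← exT_add, sub_add_cancel]

/-- real representative of `nn m • al` -/
def rn (m : ℕ) : ℝ := 1 / (2 * q m) + nn m * LiouvilleNumber.remainder 2 (m + 1)

lemma rn_coe {m : ℕ} (hm : 2 ≤ m) : ((rn m : ℝ) : T) = nn m • (al : T) := by
  obtain ⟨P, hP⟩ := nn_al hm
  rw [← AddCircle.coe_nsmul, nsmul_eq_mul, hP, AddCircle.coe_add]
  have : ((P : ℝ) : T) = 0 := by
    rw [AddCircle.coe_eq_zero_iff]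
    exact ⟨P, by simp⟩
  rw [this, zero_add]
  rfl

lemma abs_rn_le {m : ℕ} (hm : 2 ≤ m) : |rn m| ≤ 1 / q m := by
  have hr0 := rem_pos (m + 1)
  have hq := q_pos' m
  have h1 := nn_rem_le hm
  have h2 : (1 : ℝ) ≤ q m := by exact_mod_cast one_le_q m
  have hn : (0 : ℝ) ≤ nn m := Nat.cast_nonneg _
  unfold rn
  rw [abs_of_nonneg (by positivity)]
  have h3 : nn m * LiouvilleNumber.remainder 2 (m + 1) ≤ nn m * q m * LiouvilleNumber.remainder 2 (m + 1) := by
    have : 0 ≤ (nn m : ℝ) * LiouvilleNumber.remainder 2 (m + 1) := by positivity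
    nlinarith
  have h4 : (1 : ℝ) / q m = 1 / (2 * q m) + 1 / (2 * q m) := by field_simp; norm_num
  rw [h4]
  linarith

lemma tendsto_nn_al : Tendsto (fun m => nn m • (al : T)) atTop (𝓝 0) := by
  have h1 : Tendsto rn atTop (𝓝 0) := by
    rw [tendsto_zero_iff_abs_tendsto_zero]
    apply squeeze_zero' _ _ tendsto_one_div_q
    · filter_upwards with m; exact abs_nonneg _
    · filter_upwards [eventually_ge_atTop 2] with m hm; exact abs_rn_le hm
  have h2 : Tendsto (fun m => ((rn m : ℝ) : T)) atTop (𝓝 ((0 : ℝ) : T)) :=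
    ((AddCircle.continuous_mk' 1).tendsto 0).comp h1
  refine Tendsto.congr' ?_ h2
  filter_upwards [eventually_ge_atTop 2] with m hm
  exact rn_coe hm

lemma tendsto_q_al : Tendsto (fun m => q m • (al : T)) atTop (𝓝 0) := by
  have h2 : Tendsto (fun m => ((be m : ℝ) : T)) atTop (𝓝 ((0 : ℝ) : T)) :=
    ((AddCircle.continuous_mk' 1).tendsto 0).comp tendsto_be
  simp only [be_coe] at h2
  exact h2

/-! ### the main estimate -/

/-- the difference of the lifts -/
def dk (n k : ℕ) (c x y : ℝ) : ℝ :=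
  (fs n k (x + y) - fs n k x) - (fs n k (x + c + y) - fs n k (x + c))

lemma abs_dk_le (n k : ℕ) (c x y : ℝ) : |dk n k c x y| ≤ (1 / 4) * ‖cn n k‖ := by
  have h1 := abs_fs_le n k (x + y)
  have h2 := abs_fs_le n k x
  have h3 := abs_fs_le n k (x + c + y)
  have h4 := abs_fs_le n k (x + c)
  unfold dk
  rw [abs_le] at *
  constructor <;> linarith [h1.1, h1.2, h2.1, h2.2, h3.1, h3.2, h4.1, h4.2]

lemma ex_half : ex (1 / 2) = -1 := by
  unfold ex
  have : ((2 * Real.pi * (1 / 2) : ℝ) : ℂ) * Complex.I = Real.pi * Complex.I := by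
    push_cast; ring
  rw [this, Complex.exp_pi_mul_I]

lemma dk_self (n m : ℕ) (x y : ℝ) :
    dk n m (1 / (2 * q m)) x y = (1 / 8) * (cn n m * (ex (q m * y) - 1) * ex (q m * x)).re := by
  have hq := q_pos' m
  have h1 : ∀ z : ℝ, fs n m (z + 1 / (2 * q m)) = - fs n m z := by
    intro z
    unfold fs
    have : (q m : ℝ) * (z + 1 / (2 * q m)) = q m * z + 1 / 2 := by field_simp
    rw [this, ex_add, ex_half]
    simp
    ring
  unfold dk
  have e : x + 1 / (2 * (q m : ℝ)) + y = (x + y) + 1 / (2 * q m) := by ring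
  rw [e, h1, h1]
  unfold fs
  have e2 : (q m : ℝ) * (x + y) = q m * y + q m * x := by ring
  rw [e2, ex_add]
  have e3 : cn n m * (ex (q m * y) - 1) * ex (q m * x) = cn n m * (ex (q m * y) * ex (q m * x)) - cn n m * ex (q m * x) := by
    ring
  rw [e3, Complex.sub_re]
  ring

/-- `Δ` -/
def De (n : ℕ) (c x y : ℝ) : ℝ := (ph n (x + y) - ph n x) - (ph n (x + c + y) - ph n (x + c))

lemma De_eq (n : ℕ) (c x y : ℝ) : De n c x y = ∑' k, dk n k c x y := by
  unfold De ph dk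
  have s1 := summable_fs n (x + y)
  have s2 := summable_fs n x
  have s3 := summable_fs n (x + c + y)
  have s4 := summable_fs n (x + c)
  rw [(s1.sub s2).tsum_sub (s3.sub s4), s1.tsum_sub s2, s3.tsum_sub s4]

lemma summable_dk (n : ℕ) (c x y : ℝ) : Summable (fun k => dk n k c x y) :=
  Summable.of_norm_bounded ((summable_cn0 n).mul_left (1 / 4)) (fun k => abs_dk_le n k c x y)

/-- off-diagonal sum -/
def off (m : ℕ) : ℝ := ∑' k, if k = m then (0 : ℝ) else ‖cn (nn m) k‖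

lemma De_main (m : ℕ) (x y : ℝ) :
    |De (nn m) (1 / (2 * q m)) x y - (1 / 8) * (cn (nn m) m * (ex (q m * y) - 1) * ex (q m * x)).re|
      ≤ (1 / 4) * off m := by
  rw [De_eq, (summable_dk (nn m) _ x y).tsum_eq_add_tsum_ite m, dk_self, add_sub_cancel_left]
  have hs : Summable (fun k => (1 / 4) * (if k = m then (0 : ℝ) else ‖cn (nn m) k‖)) := by
    apply Summable.mul_left
    apply Summable.of_nonneg_of_le _ _ (summable_cn0 (nn m))
    · intro k; split_ifs
      · exact le_rfl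
      · exact norm_nonneg _
    · intro k; split_ifs
      · exact norm_nonneg _
      · exact le_rfl
  unfold off
  rw [← tsum_mul_left, ← Real.norm_eq_abs]
  apply tsum_of_norm_bounded hs.hasSum
  intro k
  split_ifs with hk
  · simp
  · exact abs_dk_le _ _ _ _ _

lemma exists_phase (z : ℂ) (m : ℕ) : ∃ x : ℝ, z * ex (q m * x) = ‖z‖ := by
  have hq := q_pos' m
  refine ⟨-(z.arg / (2 * Real.pi)) / q m, ?_⟩
  have e : (q m : ℝ) * (-(z.arg / (2 * Real.pi)) / q m) = -(z.arg / (2 * Real.pi)) := by field_simp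
  rw [e]
  unfold ex
  have e2 : ((2 * Real.pi * -(z.arg / (2 * Real.pi)) : ℝ) : ℂ) * Complex.I = -(z.arg * Complex.I) := by
    have hp : (Real.pi : ℝ) ≠ 0 := Real.pi_ne_zero
    have : 2 * Real.pi * -(z.arg / (2 * Real.pi)) = -z.arg := by field_simp
    rw [this]; push_cast; ring
  rw [e2]
  nth_rewrite 1 [← Complex.norm_mul_exp_arg_mul_I z]
  rw [mul_assoc, ← Complex.exp_add, add_neg_cancel, Complex.exp_zero, mul_one]

section data

variable {a1 : T} {β₁ β₂ : T} {B : T3 → T}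

lemma G_const (h : Good a1) (hB : Continuous B)
    (hF : ∀ p, B ((dF a1 : T3 ≃ₜ T3) p) = B p + β₁ + PH 1 (p.2.1 + β₂) - PH 1 p.2.1) (p p' : T3) :
    B p - B ((dG : T3 ≃ₜ T3) p) = B p' - B ((dG : T3 ≃ₜ T3) p') := by
  refine invariant_const h (fun p => B p - B ((dG : T3 ≃ₜ T3) p)) ?_ ?_ p p'
  · exact hB.sub (hB.comp (dG : T3 ≃ₜ T3).continuous)
  · intro p
    have e : (dG : T3 ≃ₜ T3) ((dF a1 : T3 ≃ₜ T3) p) = (dF a1 : T3 ≃ₜ T3) ((dG : T3 ≃ₜ T3) p) :=
      ((mem_centralizer_iff' _ _).1 (dG_mem a1) p).symm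
    rw [e, hF, hF]
    have : ((dG : T3 ≃ₜ T3) p).2.1 = p.2.1 := by simp [dG_apply]
    rw [this]
    abel

lemma G_iter (h : Good a1) (hB : Continuous B)
    (hF : ∀ p, B ((dF a1 : T3 ≃ₜ T3) p) = B p + β₁ + PH 1 (p.2.1 + β₂) - PH 1 p.2.1) (n : ℕ) :
    B (n • (al : T), 0, 0) = B 0 + n • (B ((dG : T3 ≃ₜ T3) 0) - B 0) := by
  induction n with
  | zero => simp; rfl
  | succ n ih =>
    have h1 := G_const h hB hF (n • (al : T), 0, 0) 0
    have e : (dG : T3 ≃ₜ T3) (n • (al : T), 0, 0) = ((n + 1) • (al : T), 0, 0) := by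
      rw [dG_apply]; simp [add_smul]
    rw [e] at h1
    have h2 : B ((n + 1) • (al : T), 0, 0) = B (n • (al : T), 0, 0) - (B 0 - B ((dG : T3 ≃ₜ T3) 0)) := by
      rw [← h1]; abel
    rw [h2, ih, add_smul, one_smul]
    abel

lemma G_lim (h : Good a1) (hB : Continuous B)
    (hF : ∀ p, B ((dF a1 : T3 ≃ₜ T3) p) = B p + β₁ + PH 1 (p.2.1 + β₂) - PH 1 p.2.1) :
    Tendsto (fun m => q m • (B ((dG : T3 ≃ₜ T3) 0) - B 0)) atTop (𝓝 0) := by
  have h1 : Tendsto (fun m => B (q m • (al : T), 0, 0)) atTop (𝓝 (B (0, 0, 0))) := by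
    have hc : Continuous (fun a : T => B (a, 0, 0)) := by fun_prop
    exact (hc.tendsto 0).comp tendsto_q_al
  have h2 : Tendsto (fun m => B (q m • (al : T), 0, 0) - B 0) atTop (𝓝 (B (0, 0, 0) - B 0)) :=
    h1.sub_const _
  have e0 : B (0, 0, 0) - B 0 = 0 := sub_self _
  rw [e0] at h2
  refine h2.congr ?_
  intro m
  rw [G_iter h hB hF]
  abel

lemma E_const (h : Good a1) (hB : Continuous B)
    (hF : ∀ p, B ((dF a1 : T3 ≃ₜ T3) p) = B p + β₁ + PH 1 (p.2.1 + β₂) - PH 1 p.2.1) :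
    ∃ c : T, ∀ b : T, B (0, b + (al : T), 0) = B (0, b, 0) + PH 1 (b + β₂) - PH 1 b + c := by
  have key : ∀ p p' : T3, B ((dE 1 : T3 ≃ₜ T3) p) - B p - PH 1 (p.2.1 + β₂) + PH 1 p.2.1
      = B ((dE 1 : T3 ≃ₜ T3) p') - B p' - PH 1 (p'.2.1 + β₂) + PH 1 p'.2.1 := by
    apply invariant_const h (fun p => B ((dE 1 : T3 ≃ₜ T3) p) - B p - PH 1 (p.2.1 + β₂) + PH 1 p.2.1)
    · have := (dE 1 : T3 ≃ₜ T3).continuous
      fun_prop
    · intro p
      have e : (dE 1 : T3 ≃ₜ T3) ((dF a1 : T3 ≃ₜ T3) p) = (dF a1 : T3 ≃ₜ T3) ((dE 1 : T3 ≃ₜ T3) p) :=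
        ((mem_centralizer_iff' _ _).1 (dE_mem a1 1) p).symm
      rw [e, hF, hF]
      have e1 : ((dE 1 : T3 ≃ₜ T3) p).2.1 = p.2.1 + (al : T) := by rw [dE_apply, one_smul]
      have e2 : ((dF a1 : T3 ≃ₜ T3) p).2.1 = p.2.1 + (al : T) := by rw [dF_apply]
      rw [e1, e2]
      abel
  refine ⟨B ((dE 1 : T3 ≃ₜ T3) 0) - B 0 - PH 1 ((0 : T3).2.1 + β₂) + PH 1 (0 : T3).2.1, ?_⟩
  intro b
  rw [← key (0, b, 0) 0]
  have e : B ((dE 1 : T3 ≃ₜ T3) (0, b, 0)) = B (0, b + (al : T), 0) := by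
    rw [dE_apply]
    simp only [one_smul, add_zero]
    exact vertical h hB hF 0 (b + (al : T)) 0 (PH 1 b)
  rw [e]
  abel

lemma E_iter {c : T} (hE : ∀ b : T, B (0, b + (al : T), 0) = B (0, b, 0) + PH 1 (b + β₂) - PH 1 b + c)
    (n : ℕ) (b : T) : B (0, b + n • (al : T), 0) = B (0, b, 0) + PH n (b + β₂) - PH n b + n • c := by
  induction n with
  | zero => simp [PH_zero]
  | succ n ih =>
    have e : b + (n + 1) • (al : T) = b + n • (al : T) + (al : T) := by rw [add_smul, one_smul]; abel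
    rw [e, hE, ih, PH_succ n (b + β₂), PH_succ n b]
    have e2 : b + n • (al : T) + β₂ = b + β₂ + n • (al : T) := by abel
    rw [e2, add_smul, one_smul]
    abel

lemma E_lim (h : Good a1) (hB : Continuous B)
    (hF : ∀ p, B ((dF a1 : T3 ≃ₜ T3) p) = B p + β₁ + PH 1 (p.2.1 + β₂) - PH 1 p.2.1) :
    Tendsto (fun m => exT (q m • β₂)) atTop (𝓝 1) := by
  obtain ⟨c, hE⟩ := E_const h hB hF
  obtain ⟨y, rfl⟩ := QuotientAddGroup.mk_surjective β₂
  -- uniform smallness of `De`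
  have h1 : ∀ ε > 0, ∀ᶠ m in atTop, ∀ x : ℝ, ‖((De (nn m) (1 / (2 * q m)) x y : ℝ) : T)‖ < ε := by
    intro ε hε
    have huc : UniformContinuous B := CompactSpace.uniformContinuous_of_continuous hB
    obtain ⟨δ, hδ, hδB⟩ := Metric.uniformContinuous_iff.1 huc (ε / 2) (by positivity)
    have h2 : ∀ᶠ m in atTop, nn m • (al : T) ∈ Metric.ball (0 : T) δ :=
      tendsto_nn_al.eventually (Metric.ball_mem_nhds _ hδ)
    filter_upwards [h2] with m hm x
    rw [mem_ball_zero_iff] at hm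
    have h3 : ∀ b : T, ‖PH (nn m) (b + (y : T)) - PH (nn m) b + nn m • c‖ < ε / 2 := by
      intro b
      have h4 := E_iter hE (nn m) b
      have h5 : PH (nn m) (b + (y : T)) - PH (nn m) b + nn m • c
          = B (0, b + nn m • (al : T), 0) - B (0, b, 0) := by
        rw [h4]
        change _ = B (0, b, 0) + PH (nn m) (b + (y : T)) - PH (nn m) b + nn m • c - B (0, b, 0)
        abel
      rw [h5, ← dist_eq_norm]
      apply hδB
      rw [Prod.dist_eq, Prod.dist_eq]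
      simp only [dist_self]
      refine max_lt hδ (max_lt ?_ hδ)
      rw [dist_eq_norm, add_sub_cancel_left]
      exact hm
    have e : ((De (nn m) (1 / (2 * q m)) x y : ℝ) : T)
        = (PH (nn m) ((x : T) + (y : T)) - PH (nn m) (x : T) + nn m • c)
          - (PH (nn m) (((x + 1 / (2 * q m) : ℝ) : T) + (y : T)) - PH (nn m) ((x + 1 / (2 * q m) : ℝ) : T) + nn m • c) := by
      rw [← AddCircle.coe_add, ← AddCircle.coe_add, PH_coe, PH_coe, PH_coe, PH_coe]
      unfold De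
      rw [AddCircle.coe_sub, AddCircle.coe_sub, AddCircle.coe_sub]
      abel
    rw [e]
    refine (norm_sub_le _ _).trans_lt ?_
    have := h3 (x : T)
    have := h3 ((x + 1 / (2 * q m) : ℝ) : T)
    linarith
  -- the main term
  set R : ℕ → ℝ := fun m => (1 / 8) * ‖cn (nn m) m * (ex (q m * y) - 1)‖ with hR
  have hR0 : ∀ m, 0 ≤ R m := fun m => by positivity
  have hR1 : ∀ m, R m ≤ 1 / 2 := by
    intro m
    simp only [hR]
    rw [norm_mul]
    have h2 : ‖cn (nn m) m‖ ≤ 2 := norm_ex_sub_one_le_two _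
    have h3 : ‖ex (q m * y) - 1‖ ≤ 2 := norm_ex_sub_one_le_two _
    have h4 := mul_le_mul h2 h3 (norm_nonneg _) (by norm_num)
    linarith
  have hR2 : Tendsto R atTop (𝓝 0) := by
    rw [Metric.tendsto_nhds]
    intro ε hε
    have h5 : ∀ᶠ m in atTop, (1 / 4) * off m < ε / 2 := by
      have := tendsto_offdiag.const_mul (1 / 4)
      rw [mul_zero] at this
      exact this.eventually_lt_const (by positivity)
    filter_upwards [h1 (ε / 2) (by positivity), h5] with m hm1 hm2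
    obtain ⟨x, hx⟩ := exists_phase (cn (nn m) m * (ex (q m * y) - 1)) m
    have h6 := De_main m x y
    rw [hx, Complex.ofReal_re] at h6
    have h7 : ‖((R m : ℝ) : T)‖ < ε := by
      have e : ((R m : ℝ) : T) = ((De (nn m) (1 / (2 * q m)) x y : ℝ) : T)
          - ((De (nn m) (1 / (2 * q m)) x y - R m : ℝ) : T) := by
        rw [← AddCircle.coe_sub]
        congr 1; ring
      rw [e]
      refine (norm_sub_le _ _).trans_lt ?_
      have h8 := hm1 x
      have h9 := norm_coe_le (De (nn m) (1 / (2 * q m)) x y - R m)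
      have h10 : |De (nn m) (1 / (2 * q m)) x y - R m| ≤ (1 / 4) * off m := h6
      linarith
    have h8 : ‖((R m : ℝ) : T)‖ = |R m| := by
      rw [AddCircle.norm_coe_eq_abs_iff (1 : ℝ) one_ne_zero, abs_of_nonneg (hR0 m), abs_one]
      exact hR1 m
    rw [Real.dist_eq, sub_zero, ← h8]
    exact h7
  -- conclusion
  have h2 : Tendsto (fun m => ‖cn (nn m) m‖) atTop (𝓝 2) := by
    have := tendsto_cn_nn_self.norm
    simpa using this
  have h3 : Tendsto (fun m => ‖ex (q m * y) - 1‖) atTop (𝓝 0) := by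
    have h4 : Tendsto (fun m => 8 * R m) atTop (𝓝 0) := by
      have := hR2.const_mul 8
      rwa [mul_zero] at this
    have h5 : ∀ᶠ m in atTop, 1 < ‖cn (nn m) m‖ := h2.eventually_const_lt (by norm_num)
    apply squeeze_zero' _ _ h4
    · filter_upwards with m; exact norm_nonneg _
    · filter_upwards [h5] with m hm
      simp only [hR]
      rw [norm_mul]
      have := norm_nonneg (ex (q m * y) - 1)
      nlinarith
  have h4 : ∀ m, exT (q m • ((y : ℝ) : T)) = ex (q m * y) := by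
    intro m
    rw [← AddCircle.coe_nsmul, nsmul_eq_mul, exT_coe]
  change Tendsto (fun m => exT (q m • ((y : ℝ) : T))) atTop (𝓝 1)
  simp only [h4]
  rw [tendsto_iff_norm_sub_tendsto_zero]
  exact h3

end data

/-- the commutator invariant -/
def tt (g : T3 → T3) : T := ((dG : T3 ≃ₜ T3) (g 0)).2.2 - (g ((dG : T3 ≃ₜ T3) 0)).2.2

lemma tt_eq {a1 : T} (h : Good a1) (g : T3 → T3) (hgc : Continuous g)
    (hgF : ∀ p, (dF a1 : T3 ≃ₜ T3) (g p) = g ((dF a1 : T3 ≃ₜ T3) p)) (p : T3) :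
    ((dG : T3 ≃ₜ T3) (g p)).2.2 - (g ((dG : T3 ≃ₜ T3) p)).2.2 = tt g := by
  obtain ⟨β₁, β₂, B, hB, hg, hF⟩ := exists_data h g hgc hgF
  have h1 : ∀ p, ((dG : T3 ≃ₜ T3) (g p)).2.2 - (g ((dG : T3 ≃ₜ T3) p)).2.2 = β₂ + (B p - B ((dG : T3 ≃ₜ T3) p)) := by
    intro p
    rw [dG_apply, hg, hg ((dG : T3 ≃ₜ T3) p), dG_apply]
    simp only
    abel
  unfold tt
  rw [h1, h1, G_const h hB hF p 0]

lemma tt_lim {a1 : T} (h : Good a1) (g : T3 → T3) (hgc : Continuous g)
    (hgF : ∀ p, (dF a1 : T3 ≃ₜ T3) (g p) = g ((dF a1 : T3 ≃ₜ T3) p)) :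
    Tendsto (fun m => exT (q m • tt g)) atTop (𝓝 1) := by
  obtain ⟨β₁, β₂, B, hB, hg, hF⟩ := exists_data h g hgc hgF
  have h1 : ∀ p, ((dG : T3 ≃ₜ T3) (g p)).2.2 - (g ((dG : T3 ≃ₜ T3) p)).2.2 = β₂ + (B p - B ((dG : T3 ≃ₜ T3) p)) := by
    intro p
    rw [dG_apply, hg, hg ((dG : T3 ≃ₜ T3) p), dG_apply]
    simp only
    abel
  have h2 : ∀ m, exT (q m • tt g) = exT (q m • β₂) / exT (q m • (B ((dG : T3 ≃ₜ T3) 0) - B 0)) := by
    intro m
    rw [← exT_sub]
    congr 1
    unfold tt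
    rw [h1, ← smul_sub]
    congr 1
    abel
  simp only [h2]
  have h3 := E_lim h hB hF
  have h4 : Tendsto (fun m => exT (q m • (B ((dG : T3 ≃ₜ T3) 0) - B 0))) atTop (𝓝 1) := by
    have h5 := (continuous_exT.tendsto 0).comp (G_lim h hB hF)
    rw [exT_zero] at h5
    exact h5
  have h6 := h3.div h4 one_ne_zero
  rwa [div_one] at h6

end

end Pool.Agent.Helper47.Centr
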