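import Mathlib
import Pool.Agent.Helper47.CentrKey

namespace Pool.Agent.Helper47.Centr

open scoped Manifold ContDiff Topology
open Set Filter

noncomputable section

lemma comm_of_mem {a1 : T} (g : centralizer (dF a1)) (p : T3) :
    (dF a1 : T3 ≃ₜ T3) (((g : diffGroup V3 T3) : T3 ≃ₜ T3) p)
      = ((g : diffGroup V3 T3) : T3 ≃ₜ T3) ((dF a1 : T3 ≃ₜ T3) p) :=
  (mem_centralizer_iff' _ _).1 g.2 p

/-- the invariant `ρ` -/
def rho {a1 : T} (g : centralizer (dF a1)) : ℝ :=
  (exT (tt (fun p => ((g : diffGroup V3 T3) : T3 ≃ₜ T3) p))).re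

lemma continuous_rho {a1 : T} : Continuous (rho (a1 := a1)) := by
  unfold rho tt
  apply Complex.continuous_re.comp
  apply continuous_exT.comp
  have h : ∀ p : T3, Continuous (fun g : centralizer (dF a1) => ((g : diffGroup V3 T3) : T3 ≃ₜ T3) p) :=
    fun p => (continuous_eval p).comp continuous_subtype_val
  apply Continuous.sub
  · exact (continuous_snd.comp continuous_snd).comp ((dG : T3 ≃ₜ T3).continuous.comp (h 0))
  · exact (continuous_snd.comp continuous_snd).comp (h _)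

lemma rho_mul {a1 : T} (h : Good a1) (g z : centralizer (dF a1))
    (hz : z ∈ Subgroup.center (centralizer (dF a1))) : rho (g * z) = rho g := by
  unfold rho
  congr 2
  have h1 : ∀ p, ((z : diffGroup V3 T3) : T3 ≃ₜ T3) ((dG : T3 ≃ₜ T3) p)
      = (dG : T3 ≃ₜ T3) (((z : diffGroup V3 T3) : T3 ≃ₜ T3) p) := by
    intro p
    have h2 := (Subgroup.mem_center_iff.1 hz) ⟨dG, dG_mem a1⟩
    have h3 := congrArg (fun w : centralizer (dF a1) => ((w : diffGroup V3 T3) : T3 ≃ₜ T3) p) h2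
    exact h3.symm
  have h2 := tt_eq h (fun p => ((g : diffGroup V3 T3) : T3 ≃ₜ T3) p)
    ((g : diffGroup V3 T3) : T3 ≃ₜ T3).continuous (comm_of_mem g) (((z : diffGroup V3 T3) : T3 ≃ₜ T3) 0)
  rw [← h2]
  unfold tt
  have e : ∀ p, (((g * z : centralizer (dF a1)) : diffGroup V3 T3) : T3 ≃ₜ T3) p
    = ((g : diffGroup V3 T3) : T3 ≃ₜ T3) (((z : diffGroup V3 T3) : T3 ≃ₜ T3) p) := fun p => rfl
  simp only [e, h1]

lemma rho_one {a1 : T} : rho (1 : centralizer (dF a1)) = 1 := by
  have e : tt (fun p => (((1 : centralizer (dF a1)) : diffGroup V3 T3) : T3 ≃ₜ T3) p) = 0 := by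
    unfold tt
    have : ∀ p, (((1 : centralizer (dF a1)) : diffGroup V3 T3) : T3 ≃ₜ T3) p = p := fun p => rfl
    simp only [this, sub_self]
  unfold rho
  rw [e, exT_zero, Complex.one_re]

lemma ex_re (x : ℝ) : (ex x).re = Real.cos (2 * Real.pi * x) := by
  unfold ex
  rw [Complex.exp_ofReal_mul_I_re]

lemma rho_dE {a1 : T} (n : ℕ) :
    rho (⟨dE n, dE_mem a1 n⟩ : centralizer (dF a1)) = Real.cos (2 * Real.pi * (n * al)) := by
  have e : tt (fun p => ((dE n : diffGroup V3 T3) : T3 ≃ₜ T3) p) = n • (al : T) := by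
    unfold tt
    simp only [dE_apply, dG_apply]
    simp
  unfold rho
  change (exT (tt (fun p => ((dE n : diffGroup V3 T3) : T3 ≃ₜ T3) p))).re = _
  rw [e, ← AddCircle.coe_nsmul, nsmul_eq_mul, exT_coe, ex_re]

lemma cos_q_al_lt (m : ℕ) : Real.cos (2 * Real.pi * (q m * al)) < 1 := by
  apply lt_of_le_of_ne (Real.cos_le_one _)
  intro h
  rw [Real.cos_eq_one_iff] at h
  obtain ⟨n, hn⟩ := h
  have hp : (2 * Real.pi) ≠ 0 := Real.two_pi_pos.ne'
  have h1 : (n : ℝ) = q m * al := by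
    have : (2 * Real.pi) * (n : ℝ) = (2 * Real.pi) * (q m * al) := by rw [← hn]; ring
    exact mul_left_cancel₀ hp this
  have hq := q_pos' m
  apply irrational_al
  refine ⟨(n : ℚ) / (q m : ℚ), ?_⟩
  push_cast
  rw [h1]
  field_simp

lemma rho_lim {a1 : T} (h : Good a1) (g : centralizer (dF a1)) (θ : ℝ) (hθ : rho g = Real.cos θ) :
    Tendsto (fun m => Real.cos (q m * θ)) atTop (𝓝 1) := by
  have h1 := tt_lim h (fun p => ((g : diffGroup V3 T3) : T3 ≃ₜ T3) p)
    ((g : diffGroup V3 T3) : T3 ≃ₜ T3).continuous (comm_of_mem g)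
  unfold rho at hθ
  set t := tt (fun p => ((g : diffGroup V3 T3) : T3 ≃ₜ T3) p) with ht
  obtain ⟨τ, hτ⟩ := QuotientAddGroup.mk_surjective t
  rw [← hτ] at h1 hθ
  change (exT (τ : T)).re = _ at hθ
  change Tendsto (fun m => exT (q m • (τ : T))) atTop (𝓝 1) at h1
  rw [exT_coe, ex_re, Real.cos_eq_cos_iff] at hθ
  have h2 : Tendsto (fun m => (exT (q m • (τ : T))).re) atTop (𝓝 (1 : ℂ).re) :=
    (Complex.continuous_re.tendsto 1).comp h1
  rw [Complex.one_re] at h2
  refine h2.congr ?_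
  intro m
  rw [← AddCircle.coe_nsmul, nsmul_eq_mul, exT_coe, ex_re]
  obtain ⟨k, hk | hk⟩ := hθ
  · rw [hk]
    have : (q m : ℝ) * (2 * k * Real.pi + 2 * Real.pi * τ) = 2 * Real.pi * (q m * τ) + ((q m * k : ℤ) : ℝ) * (2 * Real.pi) := by
      push_cast; ring
    rw [this, Real.cos_add_int_mul_two_pi]
  · rw [hk]
    have : (q m : ℝ) * (2 * k * Real.pi - 2 * Real.pi * τ) = ((q m * k : ℤ) : ℝ) * (2 * Real.pi) - 2 * Real.pi * (q m * τ) := by
      push_cast; ring
    rw [this, Real.cos_int_mul_two_pi_sub]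

universe v w

theorem not_central {a1 : T} (h : Good a1) :
    ¬ IsCentralExtensionOfLieGroup.{0, v, w} (centralizer (dF a1)) := by
  rintro ⟨A, hAn, hAcl, hAc, V, _, _, _, L, _, _, _, _, ⟨φ⟩⟩
  have hL : LocallyConnectedSpace L := ChartedSpace.locallyConnectedSpace V L
  have hQ : LocallyConnectedSpace (centralizer (dF a1) ⧸ A) := φ.toHomeomorph.locallyConnectedSpace
  -- the induced function
  let ρq : (centralizer (dF a1) ⧸ A) → ℝ := Quotient.lift rho (by
    intro g g' hgg'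
    have h1 : g⁻¹ * g' ∈ A := QuotientGroup.leftRel_apply.1 hgg'
    have h2 := rho_mul h g (g⁻¹ * g') (hAc h1)
    rw [mul_inv_cancel_left] at h2
    exact h2.symm)
  have hρq : Continuous ρq := continuous_rho.quotient_lift _
  have hmk : ∀ g : centralizer (dF a1), ρq (QuotientGroup.mk g) = rho g := fun g => rfl
  set C₀ := connectedComponent (1 : centralizer (dF a1) ⧸ A) with hC₀
  have hCo : IsOpen C₀ := isOpen_connectedComponent
  have hCp : IsPreconnected C₀ := isPreconnected_connectedComponent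
  have hoc : OrdConnected (ρq '' C₀) := (hCp.image _ hρq.continuousOn).ordConnected
  -- the rigid sequence
  have ht1 : Tendsto (fun m => (⟨dE (q m), dE_mem a1 (q m)⟩ : centralizer (dF a1))) atTop (𝓝 1) := by
    rw [tendsto_subtype_rng]
    exact tendsto_dE
  have ht2 : Tendsto (fun m => (QuotientGroup.mk (⟨dE (q m), dE_mem a1 (q m)⟩ : centralizer (dF a1)) :
      centralizer (dF a1) ⧸ A)) atTop (𝓝 (QuotientGroup.mk (1 : centralizer (dF a1)))) := by
    have hc : Continuous (QuotientGroup.mk : centralizer (dF a1) → centralizer (dF a1) ⧸ A) :=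
      continuous_quotient_mk'
    exact (hc.tendsto 1).comp ht1
  have h1C : (QuotientGroup.mk (1 : centralizer (dF a1)) : centralizer (dF a1) ⧸ A) ∈ C₀ :=
    mem_connectedComponent
  obtain ⟨m, hm⟩ := (ht2.eventually (hCo.mem_nhds h1C)).exists
  set r := Real.cos (2 * Real.pi * (q m * al)) with hr
  have hr1 : r < 1 := cos_q_al_lt m
  have hr0 : -1 ≤ r := Real.neg_one_le_cos _
  have hrm : r ∈ ρq '' C₀ := ⟨_, hm, by rw [hmk, rho_dE]⟩
  have h1m : (1 : ℝ) ∈ ρq '' C₀ := ⟨_, h1C, by rw [hmk, rho_one]⟩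
  have hsub : Icc r 1 ⊆ ρq '' C₀ := hoc.out hrm h1m
  have hθ₀ : 0 < Real.arccos r := Real.arccos_pos.2 hr1
  apply not_tendsto_cos hθ₀
  intro θ hθ
  have hcos : Real.cos θ ∈ Icc r 1 := by
    refine ⟨?_, Real.cos_le_one _⟩
    rw [← Real.cos_arccos hr0 hr1.le]
    apply Real.cos_le_cos_of_nonneg_of_le_pi hθ.1.le (Real.arccos_le_pi r) hθ.2.le
  obtain ⟨x, -, hx⟩ := hsub hcos
  obtain ⟨g, rfl⟩ := QuotientGroup.mk_surjective x
  rw [hmk] at hx
  exact rho_lim h g θ hx

theorem centr_main : ∃ (E : Type) (_ : NormedAddCommGroup E) (_ : NormedSpace ℝ E)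
    (_ : FiniteDimensional ℝ E) (M : Type) (_ : TopologicalSpace M) (_ : ChartedSpace E M)
    (_ : IsManifold 𝓘(ℝ, E) ∞ M) (_ : CompactSpace M) (_ : T2Space M)
    (_ : SecondCountableTopology M) (_ : ConnectedSpace M) (f : diffGroup E M),
    IsTransitive f ∧ ¬ IsCentralExtensionOfLieGroup.{0, v, w} (centralizer f) := by
  obtain ⟨a1, h⟩ := exists_good
  exact ⟨V3, inferInstance, inferInstance, inferInstance, T3, inferInstance, torusChartedSpace,
    torusIsManifold, inferInstance, inferInstance, inferInstance, inferInstance, dF a1,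
    dF_transitive h, not_central h⟩

end

end Pool.Agent.Helper47.Centr
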