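import Mathlib
import Pool.Agent.Helper93.ETC.Defs
import Pool.Agent.Helper93.ETC.Isom

/-!
# Effective topological complexity: from a cover of `X × X` to a partition of unity on `ℍ × ℍ`
-/

open Topology Set
open scoped unitInterval
open Pool.Agent.Helper93.ETC

set_option linter.unusedSectionVars false

namespace Pool.Agent.Helper47.ETCCover

section General

variable {E : Type} [MetricSpace E] [ProperSpace E] {Γ : Type} [Group Γ] [MulAction Γ E]
  [IsIsometricSMul Γ E] [ProperlyDiscontinuousSMul Γ E]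
  {G : Type} [Group G] [TopologicalSpace G] [DiscreteTopology G] (φ : Γ →* G)
  {X : Type} [TopologicalSpace X] [MulAction G X] (π : E → X)

include φ in
lemma isQuotientCoveringMap (hfree : ∀ γ : Γ, ∀ z : E, γ • z = z → γ = 1)
    (hπ : IsQuotientMap π)
    (hfib : ∀ z w : E, π z = π w ↔ ∃ γ : Γ, φ γ = 1 ∧ γ • z = w) :
    IsQuotientCoveringMap π φ.ker := by
  have : IsCancelSMul φ.ker E := isCancelSMul_iff_eq_one_of_smul_eq.mpr fun g e h =>
    Subtype.ext (hfree g.1 e h)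
  have : ContinuousConstSMul φ.ker E := ⟨fun γ => (isometry_smul E (γ : Γ)).continuous⟩
  refine hπ.isQuotientCoveringMap_of_properlyDiscontinuousSMul ?_
  intro z w
  rw [eq_comm, hfib]
  constructor
  · rintro ⟨γ, h1, h2⟩
    exact ⟨⟨γ, h1⟩, h2⟩
  · rintro ⟨γ, h⟩
    exact ⟨γ.1, γ.2, h⟩

/-- one stage of lifting -/
lemma stage (hfree : ∀ γ : Γ, ∀ z : E, γ • z = z → γ = 1)
    (hπ : IsQuotientMap π)
    (hfib : ∀ z w : E, π z = π w ↔ ∃ γ : Γ, φ γ = 1 ∧ γ • z = w)
    {A : Type} [TopologicalSpace A] (H : C(I × A, X)) (f : C(A, E))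
    (h0 : ∀ a, H (0, a) = π (f a)) :
    ∃ f' : C(A, E), (∀ a, π (f' a) = H (1, a)) ∧
      ∀ a a' (b : Γ), φ b = 1 → (∀ t, H (t, a) = H (t, a')) → f a' = b • f a →
        f' a' = b • f' a := by
  have cov : IsCoveringMap π := (isQuotientCoveringMap φ π hfree hπ hfib).isCoveringMap
  refine ⟨⟨fun a => cov.liftHomotopy H f h0 (1, a), by fun_prop⟩, ?_, ?_⟩
  · intro a
    exact congrFun (cov.liftHomotopy_lifts H f h0) (1, a)
  · intro a a' b hb hH hf
    show cov.liftHomotopy H f h0 (1, a') = b • cov.liftHomotopy H f h0 (1, a)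
    have h1 : ∀ a, (H.comp ((ContinuousMap.id I).prodMk (ContinuousMap.const I a)) : C(I, X)) 0
        = π (f a) := h0
    have key : (fun t => b • cov.liftHomotopy H f h0 (t, a)) =
        cov.liftPath (H.comp ((ContinuousMap.id I).prodMk (ContinuousMap.const I a'))) (f a')
          (h1 a') := by
      rw [cov.eq_liftPath_iff]
      refine ⟨?_, ?_, ?_⟩
      · exact (isometry_smul E b).continuous.comp (by fun_prop)
      · funext t
        show π (b • cov.liftHomotopy H f h0 (t, a)) = H (t, a')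
        rw [← hH t]
        have h2 : π (cov.liftHomotopy H f h0 (t, a)) = H (t, a) :=
          congrFun (cov.liftHomotopy_lifts H f h0) (t, a)
        rw [← h2, eq_comm, hfib]
        exact ⟨b, hb, rfl⟩
      · show b • cov.liftHomotopy H f h0 (0, a) = f a'
        rw [cov.liftHomotopy_zero, hf]
    exact (congrFun key 1).symm

/-- the lifted end point map -/
lemma exists_end (hfree : ∀ γ : Γ, ∀ z : E, γ • z = z → γ = 1)
    (hφ : Function.Surjective φ)
    (hπ : IsQuotientMap π)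
    (hfib : ∀ z w : E, π z = π w ↔ ∃ γ : Γ, φ γ = 1 ∧ γ • z = w)
    (hact : ∀ (γ : Γ) (z : E), φ γ • π z = π (γ • z))
    (U : Set (X × X)) (s : C(U, EG G X))
    (hs : ((endpoints G X).comp s).Homotopic (⟨Subtype.val, continuous_subtype_val⟩ : C(U, X × X))) :
    ∃ e : C({P : E × E // (π P.1, π P.2) ∈ U}, E),
      (∀ P, ∃ g : G, π (e P) = g • π P.1.2) ∧
      ∀ P P' (b : Γ), φ b = 1 → π P.1.1 = π P'.1.1 → π P.1.2 = π P'.1.2 → P'.1.1 = b • P.1.1 →
        e P' = b • e P := by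
  obtain ⟨F⟩ := hs
  have hGc : ∀ g : G, Continuous fun x : X => g • x := by
    intro g
    obtain ⟨γ, rfl⟩ := hφ g
    rw [hπ.continuous_iff]
    have : (fun x : X => φ γ • x) ∘ π = fun z => π (γ • z) := by
      funext z; exact hact γ z
    rw [this]
    exact hπ.continuous.comp (isometry_smul E γ).continuous
  have : ContinuousConstSMul G X := ⟨hGc⟩
  have hGX : Continuous fun q : G × X => q.1 • q.2 := by
    rw [continuous_prod_of_discrete_left]
    exact hGc
  let V := {P : E × E // (π P.1, π P.2) ∈ U}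
  let ρ : C(V, U) := ⟨fun P => ⟨(π P.1.1, π P.1.2), P.2⟩, by
    refine Continuous.subtype_mk ?_ _
    exact (hπ.continuous.comp (continuous_fst.comp continuous_subtype_val)).prodMk
      (hπ.continuous.comp (continuous_snd.comp continuous_subtype_val))⟩
  -- stage 1
  let H1 : C(I × V, X) := ⟨fun q => (F (σ q.1, ρ q.2)).1, by fun_prop⟩
  obtain ⟨f1, hf1, hf1'⟩ := stage φ π hfree hπ hfib H1
    ⟨fun P : V => P.1.1, by fun_prop⟩ (by
      intro P
      show (F (σ 0, ρ P)).1 = π P.1.1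
      rw [unitInterval.symm_zero, F.apply_one]
      rfl)
  -- stage 2
  let H2 : C(I × V, X) := ⟨fun q => (s (ρ q.2)).1.1 q.1, by fun_prop⟩
  obtain ⟨f2, hf2, hf2'⟩ := stage φ π hfree hπ hfib H2 f1 (by
      intro P
      rw [hf1]
      show (s (ρ P)).1.1 0 = (F (σ 1, ρ P)).1
      rw [unitInterval.symm_one, F.apply_zero]
      rfl)
  -- stage 3
  let H3 : C(I × V, X) := ⟨fun q => ((s (ρ q.2)).1.2.1)⁻¹ • (s (ρ q.2)).1.2.2 q.1, by
    refine hGX.comp (Continuous.prodMk ?_ ?_)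
    · exact (continuous_of_discreteTopology (f := fun g : G => g⁻¹)).comp (by fun_prop)
    · fun_prop⟩
  obtain ⟨f3, hf3, hf3'⟩ := stage φ π hfree hπ hfib H3 f2 (by
      intro P
      rw [hf2]
      show ((s (ρ P)).1.2.1)⁻¹ • (s (ρ P)).1.2.2 0 = (s (ρ P)).1.1 1
      rw [← (s (ρ P)).2, inv_smul_smul])
  -- stage 4
  let H4 : C(I × V, X) := ⟨fun q => ((s (ρ q.2)).1.2.1)⁻¹ • (F (q.1, ρ q.2)).2, by
    refine hGX.comp (Continuous.prodMk ?_ ?_)
    · exact (continuous_of_discreteTopology (f := fun g : G => g⁻¹)).comp (by fun_prop)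
    · fun_prop⟩
  obtain ⟨f4, hf4, hf4'⟩ := stage φ π hfree hπ hfib H4 f3 (by
      intro P
      rw [hf3]
      show ((s (ρ P)).1.2.1)⁻¹ • (F (0, ρ P)).2 = ((s (ρ P)).1.2.1)⁻¹ • (s (ρ P)).1.2.2 1
      rw [F.apply_zero]
      rfl)
  refine ⟨f4, ?_, ?_⟩
  · intro P
    refine ⟨((s (ρ P)).1.2.1)⁻¹, ?_⟩
    rw [hf4]
    show ((s (ρ P)).1.2.1)⁻¹ • (F (1, ρ P)).2 = _
    rw [F.apply_one]
    rfl
  · intro P P' b hb h1 h2 h3
    have hρ : ρ P = ρ P' := Subtype.ext (Prod.ext h1 h2)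
    refine hf4' P P' b hb ?_ (hf3' P P' b hb ?_ (hf2' P P' b hb ?_ (hf1' P P' b hb ?_ h3)))
    · intro t
      show ((s (ρ P)).1.2.1)⁻¹ • (F (t, ρ P)).2 = ((s (ρ P')).1.2.1)⁻¹ • (F (t, ρ P')).2
      rw [hρ]
    · intro t
      show ((s (ρ P)).1.2.1)⁻¹ • (s (ρ P)).1.2.2 t = ((s (ρ P')).1.2.1)⁻¹ • (s (ρ P')).1.2.2 t
      rw [hρ]
    · intro t
      show (s (ρ P)).1.1 t = (s (ρ P')).1.1 t
      rw [hρ]
    · intro t
      show (F (σ t, ρ P)).1 = (F (σ t, ρ P')).1
      rw [hρ]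

/-- the space `X` is Hausdorff -/
lemma t2 (hπ : IsQuotientMap π)
    (hfib : ∀ z w : E, π z = π w ↔ ∃ γ : Γ, φ γ = 1 ∧ γ • z = w) : T2Space X := by
  have : ContinuousConstSMul φ.ker E := ⟨fun γ => (isometry_smul E (γ : Γ)).continuous⟩
  have h1 : Setoid.ker π = MulAction.orbitRel φ.ker E := by
    ext z w
    rw [Setoid.ker_def, MulAction.orbitRel_apply, eq_comm, hfib]
    constructor
    · rintro ⟨γ, h1, h2⟩
      exact ⟨⟨γ, h1⟩, h2⟩
    · rintro ⟨γ, h⟩
      exact ⟨γ.1, γ.2, h⟩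
  let πc : C(E, X) := ⟨π, hπ.continuous⟩
  have hπc : IsQuotientMap πc := hπ
  have : T2Space (Quotient (Setoid.ker πc)) := by
    show T2Space (Quotient (Setoid.ker π))
    rw [h1]; exact t2Space_of_properlyDiscontinuousSMul_of_t2Space
  exact hπc.homeomorph.symm.isEmbedding.t2Space

theorem general (hfree : ∀ γ : Γ, ∀ z : E, γ • z = z → γ = 1)
    (hφ : Function.Surjective φ) [CompactSpace X]
    (hπ : IsQuotientMap π)
    (hfib : ∀ z w : E, π z = π w ↔ ∃ γ : Γ, φ γ = 1 ∧ γ • z = w)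
    (hact : ∀ (γ : Γ) (z : E), φ γ • π z = π (γ • z)) (k : ℕ)
    (h : SecatLe (endpoints G X) k) :
    ∃ (t : Γ → E × E → ℝ) (R : ℝ), (∀ u, Continuous (t u)) ∧ (∀ u P, 0 ≤ t u P) ∧
      (∀ P, ∃ S : Finset Γ, S.card ≤ k + 1 ∧ (∀ u ∉ S, t u P = 0) ∧ ∑ u ∈ S, t u P = 1) ∧
      ∀ u P, t u P ≠ 0 → dist P.1 (u • P.2) ≤ R := by
  classical
  obtain ⟨U, hUo, hUc, hs⟩ := h
  choose s hs using hs
  have : T2Space X := t2 φ π hπ hfib
  have : ContinuousConstSMul Γ E := ⟨fun γ => (isometry_smul E γ).continuous⟩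
  -- the end point maps
  have hend := fun i => exists_end φ π hfree hφ hπ hfib hact (U i) (s i) (hs i)
  choose e he1 he2 using hend
  -- labels
  have hlab : ∀ i (P : {P : E × E // (π P.1, π P.2) ∈ U i}), ∃ u : Γ, e i P = u • P.1.2 := by
    intro i P
    obtain ⟨g, hg⟩ := he1 i P
    obtain ⟨γ, rfl⟩ := hφ g
    rw [hact, eq_comm, hfib] at hg
    obtain ⟨c, _, hc⟩ := hg
    exact ⟨c * γ, by rw [mul_smul, hc]⟩
  choose l hl using hlab
  -- the labels are locally constant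
  have hlc : ∀ i, IsLocallyConstant (l i) := by
    intro i
    rw [IsLocallyConstant.iff_eventually_eq]
    intro P
    obtain ⟨W, hW, hW'⟩ := ProperlyDiscontinuousSMul.exists_nhds_image_smul_eq_self Γ P.1.2
    have h1 : ∀ᶠ Q : {P : E × E // (π P.1, π P.2) ∈ U i} in 𝓝 P, Q.1.2 ∈ W :=
      (continuous_snd.comp continuous_subtype_val).continuousAt.eventually_mem
        (by simpa using hW)
    have h2 : ∀ᶠ Q : {P : E × E // (π P.1, π P.2) ∈ U i} in 𝓝 P, (l i P)⁻¹ • e i Q ∈ W := by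
      have hc : Continuous fun Q : {P : E × E // (π P.1, π P.2) ∈ U i} =>
          (l i P)⁻¹ • e i Q := by fun_prop
      refine hc.continuousAt.eventually_mem ?_
      rw [hl i P, inv_smul_smul]
      exact hW
    filter_upwards [h1, h2] with Q hQ1 hQ2
    have h3 : ((l i P)⁻¹ * l i Q) • P.1.2 = P.1.2 := by
      apply hW'
      refine ⟨(l i P)⁻¹ • e i Q, ⟨Q.1.2, hQ1, ?_⟩, hQ2⟩
      show ((l i P)⁻¹ * l i Q) • Q.1.2 = _
      rw [hl i Q, mul_smul]
    have h4 := hfree _ _ h3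
    rw [inv_mul_eq_one] at h4
    exact h4.symm
  -- partition of unity
  obtain ⟨f, hf⟩ := PartitionOfUnity.exists_isSubordinate_of_locallyFinite
    (s := (univ : Set (X × X))) isClosed_univ U hUo (locallyFinite_of_finite U)
    (fun b _ => mem_iUnion.2 (hUc b))
  let ππ : E × E → X × X := fun P => (π P.1, π P.2)
  have hππ : Continuous ππ :=
    (hπ.continuous.comp continuous_fst).prodMk (hπ.continuous.comp continuous_snd)
  -- a compact fundamental set
  obtain ⟨K, hK, hKX⟩ : ∃ K : Set E, IsCompact K ∧ ∀ x : X, ∃ z ∈ K, π z = x := by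
    rcases isEmpty_or_nonempty E with hE | ⟨⟨z₀⟩⟩
    · refine ⟨∅, isCompact_empty, fun x => ?_⟩
      obtain ⟨z, _⟩ := hπ.surjective x
      exact (hE.false z).elim
    · have hop : IsOpenMap π :=
        (isQuotientCoveringMap φ π hfree hπ hfib).isOpenQuotientMap.isOpenMap
      obtain ⟨n, hn⟩ := isCompact_univ.elim_directed_cover
        (fun n : ℕ => π '' Metric.ball z₀ n) (fun n => hop _ Metric.isOpen_ball)
        (by
          intro x _
          obtain ⟨z, rfl⟩ := hπ.surjective x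
          obtain ⟨n, hn⟩ := exists_nat_gt (dist z z₀)
          exact mem_iUnion.2 ⟨n, z, hn, rfl⟩)
        (by
          intro n m
          refine ⟨max n m, ?_, ?_⟩
          · exact image_mono (Metric.ball_subset_ball (by exact_mod_cast le_max_left _ _))
          · exact image_mono (Metric.ball_subset_ball (by exact_mod_cast le_max_right _ _)))
      refine ⟨Metric.closedBall z₀ n, isCompact_closedBall _ _, fun x => ?_⟩
      obtain ⟨z, hz, rfl⟩ := hn (mem_univ x)
      exact ⟨z, Metric.ball_subset_closedBall hz, rfl⟩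
  -- bounds
  have hbd : ∀ i, ∃ R : ℝ, ∀ P : {P : E × E // (π P.1, π P.2) ∈ U i},
      f i (ππ P.1) ≠ 0 → dist P.1.1 (e i P) ≤ R := by
    intro i
    have hT : IsCompact ((K ×ˢ K) ∩ ππ ⁻¹' (tsupport (f i))) :=
      (hK.prod hK).inter_right ((isClosed_tsupport _).preimage hππ)
    have hTV : (K ×ˢ K) ∩ ππ ⁻¹' (tsupport (f i)) ⊆ {P : E × E | (π P.1, π P.2) ∈ U i} :=
      fun P hP => hf i hP.2
    have hT' : IsCompact ((Subtype.val : {P : E × E // (π P.1, π P.2) ∈ U i} → E × E) ⁻¹'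
        ((K ×ˢ K) ∩ ππ ⁻¹' (tsupport (f i)))) := by
      rw [Topology.IsInducing.subtypeVal.isCompact_preimage_iff]
      · exact hT
      · rw [Subtype.range_coe_subtype]; exact hTV
    obtain ⟨R, hR⟩ := hT'.exists_bound_of_continuousOn
      (f := fun P : {P : E × E // (π P.1, π P.2) ∈ U i} => dist P.1.1 (e i P)) (by fun_prop)
    refine ⟨R, fun P hP => ?_⟩
    obtain ⟨p', hp', hpp⟩ := hKX (π P.1.1)
    obtain ⟨q', hq', hqq⟩ := hKX (π P.1.2)
    have hP' : (π (p', q').1, π (p', q').2) ∈ U i := by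
      show (π p', π q') ∈ U i
      rw [hpp, hqq]; exact P.2
    obtain ⟨b, hb, hbp⟩ := (hfib P.1.1 p').1 hpp.symm
    have h1 := he2 i P ⟨(p', q'), hP'⟩ b hb hpp.symm hqq.symm hbp.symm
    have h2 := hR ⟨(p', q'), hP'⟩ ⟨⟨hp', hq'⟩, by
      show ππ (p', q') ∈ tsupport (f i)
      have : ππ (p', q') = ππ P.1 := Prod.ext hpp hqq
      rw [this]
      exact subset_tsupport _ hP⟩
    rw [Real.norm_of_nonneg dist_nonneg] at h2
    have h3 : dist (p', q').1 (e i ⟨(p', q'), hP'⟩) = dist P.1.1 (e i P) := by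
      rw [h1]
      show dist p' (b • e i P) = _
      rw [← hbp, dist_smul]
    rw [← h3]
    exact h2
  choose R hR using hbd
  -- the functions
  let t : Γ → E × E → ℝ := fun u P =>
    ∑ i, if h : ∃ hP : (π P.1, π P.2) ∈ U i, l i ⟨P, hP⟩ = u then f i (ππ P) else 0
  refine ⟨t, ∑ i, |R i|, ?_, ?_, ?_, ?_⟩
  · intro u
    refine continuous_finsetSum _ fun i _ => ?_
    rw [continuous_iff_continuousAt]
    intro P
    by_cases hP : (π P.1, π P.2) ∈ U i
    · -- locally constant choice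
      have hopen : IsOpen {Q : E × E | (π Q.1, π Q.2) ∈ U i} := (hUo i).preimage hππ
      have h1 : ∀ᶠ Q in 𝓝 P, ∃ hQ : (π Q.1, π Q.2) ∈ U i, l i ⟨Q, hQ⟩ = l i ⟨P, hP⟩ := by
        have h2 := (IsLocallyConstant.iff_eventually_eq _).1 (hlc i) ⟨P, hP⟩
        rw [nhds_subtype_eq_comap, Filter.eventually_comap] at h2
        filter_upwards [h2, hopen.mem_nhds hP] with Q hQ1 hQ2
        exact ⟨hQ2, hQ1 ⟨Q, hQ2⟩ rfl⟩
      by_cases hu : l i ⟨P, hP⟩ = u
      · have h3 : (fun P => if h : ∃ hP : (π P.1, π P.2) ∈ U i, l i ⟨P, hP⟩ = u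
            then f i (ππ P) else 0) =ᶠ[𝓝 P] fun P => f i (ππ P) := by
          filter_upwards [h1] with Q hQ
          obtain ⟨hQ1, hQ2⟩ := hQ
          rw [dif_pos ⟨hQ1, hQ2.trans hu⟩]
        exact ((f i).continuous.comp hππ).continuousAt.congr h3.symm
      · have h3 : (fun P => if h : ∃ hP : (π P.1, π P.2) ∈ U i, l i ⟨P, hP⟩ = u
            then f i (ππ P) else 0) =ᶠ[𝓝 P] fun P => 0 := by
          filter_upwards [h1] with Q hQ
          obtain ⟨hQ1, hQ2⟩ := hQ
          rw [dif_neg]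
          rintro ⟨hQ3, hQ4⟩
          exact hu (hQ2.symm.trans hQ4)
        exact continuousAt_const.congr h3.symm
    · -- outside the support
      have hP2 : ππ P ∉ tsupport (f i) := fun hc => hP (hf i hc)
      have h1 : ∀ᶠ Q in 𝓝 P, f i (ππ Q) = 0 := by
        have : (ππ ⁻¹' (tsupport (f i)))ᶜ ∈ 𝓝 P :=
          (((isClosed_tsupport _).preimage hππ).isOpen_compl).mem_nhds hP2
        filter_upwards [this] with Q hQ
        exact image_eq_zero_of_notMem_tsupport hQ
      have h3 : (fun P => if h : ∃ hP : (π P.1, π P.2) ∈ U i, l i ⟨P, hP⟩ = u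
          then f i (ππ P) else 0) =ᶠ[𝓝 P] fun P => 0 := by
        filter_upwards [h1] with Q hQ
        split_ifs
        · exact hQ
        · rfl
      exact continuousAt_const.congr h3.symm
  · intro u P
    refine Finset.sum_nonneg fun i _ => ?_
    split_ifs
    · exact f.nonneg i _
    · exact le_rfl
  · intro P
    let L : Fin (k + 1) → Γ := fun i =>
      if hP : (π P.1, π P.2) ∈ U i then l i ⟨P, hP⟩ else 1
    refine ⟨Finset.univ.image L, ?_, ?_, ?_⟩
    · exact (Finset.card_image_le).trans (by simp)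
    · intro u hu
      refine Finset.sum_eq_zero fun i _ => ?_
      rw [dif_neg]
      rintro ⟨hP, rfl⟩
      refine hu (Finset.mem_image.2 ⟨i, Finset.mem_univ _, ?_⟩)
      simp only [L, dif_pos hP]
    · rw [Finset.sum_comm]
      have h1 : ∀ i, (∑ u ∈ Finset.univ.image L,
          if h : ∃ hP : (π P.1, π P.2) ∈ U i, l i ⟨P, hP⟩ = u then f i (ππ P) else 0)
            = f i (ππ P) := by
        intro i
        by_cases hP : (π P.1, π P.2) ∈ U i
        · rw [Finset.sum_eq_single (l i ⟨P, hP⟩)]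
          · rw [dif_pos ⟨hP, rfl⟩]
          · intro u _ hu
            rw [dif_neg]
            rintro ⟨_, rfl⟩
            exact hu rfl
          · intro hnot
            refine absurd (Finset.mem_image.2 ⟨i, Finset.mem_univ _, ?_⟩) hnot
            simp only [L, dif_pos hP]
        · have h2 : f i (ππ P) = 0 :=
            image_eq_zero_of_notMem_tsupport fun hc => hP (hf i hc)
          rw [h2]
          refine Finset.sum_eq_zero fun u _ => ?_
          split_ifs <;> rfl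
      rw [Finset.sum_congr rfl fun i _ => h1 i]
      have h3 := f.sum_eq_one (mem_univ (ππ P))
      rwa [finsum_eq_sum_of_fintype] at h3
  · intro u P hne
    obtain ⟨i, _, hi⟩ := Finset.exists_ne_zero_of_sum_ne_zero hne
    by_cases hc : ∃ hP : (π P.1, π P.2) ∈ U i, l i ⟨P, hP⟩ = u
    · rw [dif_pos hc] at hi
      obtain ⟨hP, rfl⟩ := hc
      have h1 := hR i ⟨P, hP⟩ hi
      rw [hl i ⟨P, hP⟩] at h1
      refine h1.trans ((le_abs_self _).trans ?_)
      exact Finset.single_le_sum (f := fun i => |R i|) (fun j _ => abs_nonneg _)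
        (Finset.mem_univ i)
    · rw [dif_neg hc] at hi
      exact absurd rfl hi

end General

open UpperHalfPlane MatrixGroups Matrix

theorem cover (Γ : Subgroup PGL(2, ℝ)) (hfree : ∀ γ ∈ Γ, ∀ z : ℍ, γ • z = z → γ = 1)
    [ProperlyDiscontinuousSMul Γ ℍ] (G : Type) [Group G] [TopologicalSpace G]
    [DiscreteTopology G] (φ : Γ →* G) (hφ : Function.Surjective φ) (X : Type)
    [TopologicalSpace X] [CompactSpace X] [MulAction G X] (π : ℍ → X) (hπ : IsQuotientMap π)
    (hfib : ∀ z w : ℍ, π z = π w ↔ ∃ γ : Γ, φ γ = 1 ∧ γ • z = w)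
    (hact : ∀ (γ : Γ) (z : ℍ), φ γ • π z = π (γ • z)) (k : ℕ)
    (h : SecatLe (endpoints G X) k) :
    ∃ (t : Γ → ℍ × ℍ → ℝ) (R : ℝ), (∀ u, Continuous (t u)) ∧ (∀ u P, 0 ≤ t u P) ∧
      (∀ P, ∃ S : Finset Γ, S.card ≤ k + 1 ∧ (∀ u ∉ S, t u P = 0) ∧ ∑ u ∈ S, t u P = 1) ∧
      ∀ u P, t u P ≠ 0 → dist P.1 (u • P.2) ≤ R := by
  have : IsIsometricSMul Γ ℍ := ⟨fun γ => Pool.Agent.Helper93.ETC.isometry_smul γ.1⟩
  exact general φ π (fun γ z hz => Subtype.ext (hfree γ.1 γ.2 z hz)) hφ hπ hfib hact k h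

end Pool.Agent.Helper47.ETCCover
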