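import Mathlib
import Pool.Agent.Helper47.ETCCover

/-!
# Effective topological complexity: the dimensional upper bound for surfaces
-/

open Topology Set
open scoped unitInterval
open Pool.Agent.Helper93.ETC

set_option linter.unusedSectionVars false

namespace Pool.Agent.Helper47.ETCUpper

section Sec

variable {E X : Type} [TopologicalSpace E] [TopologicalSpace X] (π : E → X)

/-- `π` has a continuous section over `O` -/
def HasSec (O : Set X) : Prop := ∃ s : X → E, ContinuousOn s O ∧ ∀ x ∈ O, π (s x) = x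

variable {π}

lemma HasSec.mono {O O' : Set X} (h : HasSec π O) (hs : O' ⊆ O) : HasSec π O' := by
  obtain ⟨s, h1, h2⟩ := h
  exact ⟨s, h1.mono hs, fun x hx => h2 x (hs hx)⟩

lemma HasSec.iUnion [Nonempty E] {ι : Type} (O : ι → Set X) (ho : ∀ i, IsOpen (O i))
    (hd : ∀ i j, i ≠ j → Disjoint (O i) (O j)) (h : ∀ i, HasSec π (O i)) :
    HasSec π (⋃ i, O i) := by
  classical
  choose s hs1 hs2 using h
  let t : X → E := fun x => if h : ∃ i, x ∈ O i then s h.choose x else Classical.arbitrary E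
  have ht : ∀ i, ∀ x ∈ O i, t x = s i x := by
    intro i x hx
    have h : ∃ i, x ∈ O i := ⟨i, hx⟩
    have h1 : h.choose = i := by
      by_contra hne
      exact (hd _ _ hne).le_bot ⟨h.choose_spec, hx⟩
    simp only [t, dif_pos h, h1]
  refine ⟨t, ?_, ?_⟩
  · intro x hx
    obtain ⟨i, hi⟩ := mem_iUnion.1 hx
    have h1 : ContinuousAt (s i) x := (hs1 i).continuousAt ((ho i).mem_nhds hi)
    refine (h1.congr ?_).continuousWithinAt
    filter_upwards [(ho i).mem_nhds hi] with y hy
    exact (ht i y hy).symm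
  · intro x hx
    obtain ⟨i, hi⟩ := mem_iUnion.1 hx
    rw [ht i x hi, hs2 i x hi]

lemma exists_open_sec [Nonempty E] [T2Space X] {ι : Type} [Finite ι] (B : ι → Set X)
    (hBo : ∀ i, IsOpen (B i)) (hB : ∀ i, HasSec π (B i)) (K : ι → Set X)
    (hK : ∀ i, IsCompact (K i)) (hd : ∀ i j, i ≠ j → Disjoint (K i) (K j))
    (hKB : ∀ i, K i ⊆ B i) : ∃ O : Set X, IsOpen O ∧ (⋃ i, K i) ⊆ O ∧ HasSec π O := by
  classical
  have hsep : ∀ i j, ∃ U V : Set X, i ≠ j → IsOpen U ∧ IsOpen V ∧ K i ⊆ U ∧ K j ⊆ V ∧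
      Disjoint U V := by
    intro i j
    by_cases hij : i = j
    · exact ⟨∅, ∅, fun h => absurd hij h⟩
    · obtain ⟨U, V, h⟩ := SeparatedNhds.of_isCompact_isCompact (hK i) (hK j) (hd i j hij)
      exact ⟨U, V, fun _ => h⟩
  choose U V hUV using hsep
  let O : ι → Set X := fun i => B i ∩ ⋂ j, ⋂ (_ : j ≠ i), (U i j ∩ V j i)
  have hO : ∀ i, IsOpen (O i) := by
    intro i
    refine (hBo i).inter (isOpen_iInter_of_finite fun j => isOpen_iInter_of_finite fun hj => ?_)
    exact (hUV i j hj.symm).1.inter (hUV j i hj).2.1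
  refine ⟨⋃ i, O i, isOpen_iUnion hO, iUnion_mono fun i => ?_, HasSec.iUnion O hO ?_ fun i =>
    (hB i).mono inter_subset_left⟩
  · refine subset_inter (hKB i) (subset_iInter fun j => subset_iInter fun hj => ?_)
    exact subset_inter (hUV i j hj.symm).2.2.1 (hUV j i hj).2.2.2.1
  · intro i j hij
    rw [Set.disjoint_left]
    intro x hxi hxj
    have h1 := mem_iInter₂.1 hxi.2 j hij.symm
    have h2 := mem_iInter₂.1 hxj.2 i hij
    exact (hUV i j hij).2.2.2.2.le_bot ⟨h1.1, h2.2⟩

/-- three open sets with sections -/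
lemma three_cover [Nonempty E] [T2Space X] [CompactSpace X] {ι : Type} [Finite ι]
    (B : ι → Set X) (hBo : ∀ i, IsOpen (B i)) (hB : ∀ i, HasSec π (B i))
    (hcov : ∀ x, ∃ i, x ∈ B i)
    (hfin : ∀ i j, i ≠ j → (frontier (B i) ∩ frontier (B j)).Finite) :
    ∃ O : Fin 3 → Set X, (∀ i, IsOpen (O i)) ∧ (∀ x, ∃ i, x ∈ O i) ∧ ∀ i, HasSec π (O i) := by
  classical
  have hemp : HasSec π (∅ : Set X) :=
    ⟨fun _ => Classical.arbitrary E, continuousOn_empty _, fun x hx => absurd hx (notMem_empty x)⟩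
  -- the finite set
  let F : Set X := ⋃ i, ⋃ j, ⋃ (_ : i ≠ j), (frontier (B i) ∩ frontier (B j))
  have hF : F.Finite := Set.finite_iUnion fun i => Set.finite_iUnion fun j =>
    Set.finite_iUnion fun hij => hfin i j hij
  choose c hc using hcov
  obtain ⟨O0, hO0, hFO, hS0⟩ : ∃ O : Set X, IsOpen O ∧ F ⊆ O ∧ HasSec π O := by
    have : Finite F := hF
    obtain ⟨O, h1, h2, h3⟩ := exists_open_sec (π := π) (fun x : F => B (c x)) (fun x => hBo _)
      (fun x => hB _) (fun x : F => {(x : X)}) (fun x => isCompact_singleton)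
      (fun x y hxy => by
        rw [Set.disjoint_singleton]
        exact fun h => hxy (Subtype.ext h)) (fun x => by
        rw [singleton_subset_iff]; exact hc x)
    refine ⟨O, h1, ?_, h3⟩
    intro x hx
    exact h2 (mem_iUnion.2 ⟨⟨x, hx⟩, rfl⟩)
  -- the complement of the frontiers
  let S : Set X := ⋃ i, frontier (B i)
  have hScl : IsClosed S := isClosed_iUnion_of_finite fun i => isClosed_frontier
  have hpat : ∀ x, ∀ P : Set ι, {i | x ∈ B i} = P ↔ ∀ i, (x ∈ B i ↔ i ∈ P) := by
    intro x P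
    rw [Set.ext_iff]
    rfl
  have hBP : ∀ P : Set ι, HasSec π (if h : P.Nonempty then B h.some else ∅) := by
    intro P
    split_ifs with h
    · exact hB _
    · exact hemp
  have hBPo : ∀ P : Set ι, IsOpen (if h : P.Nonempty then B h.some else (∅ : Set X)) := by
    intro P
    split_ifs with h
    · exact hBo _
    · exact isOpen_empty
  have hBPsub : ∀ x, ∀ P : Set ι, {i | x ∈ B i} = P →
      x ∈ (if h : P.Nonempty then B h.some else (∅ : Set X)) := by
    intro x P hP
    have hne : P.Nonempty := ⟨c x, by rw [← hP]; exact hc x⟩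
    rw [dif_pos hne]
    exact ((hpat x P).1 hP _).2 hne.some_mem
  have hS2 : HasSec π Sᶜ := by
    have h1 : Sᶜ = ⋃ P : Set ι, (Sᶜ ∩ {x | {i | x ∈ B i} = P}) := by
      ext x
      simp
    rw [h1]
    refine HasSec.iUnion _ ?_ ?_ ?_
    · intro P
      have h2 : Sᶜ ∩ {x | {i | x ∈ B i} = P} = Sᶜ ∩ ⋂ i, (if i ∈ P then B i else (closure (B i))ᶜ) := by
        ext x
        simp only [mem_inter_iff, mem_ofPred_eq, mem_iInter, and_congr_right_iff]
        intro hx
        rw [hpat]
        refine forall_congr' fun i => ?_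
        have hxi : x ∉ frontier (B i) := fun h => hx (mem_iUnion.2 ⟨i, h⟩)
        by_cases hi : i ∈ P
        · rw [if_pos hi]; simp [hi]
        · rw [if_neg hi]
          simp only [hi, iff_false, mem_compl_iff]
          rw [(hBo i).frontier_eq] at hxi
          constructor
          · intro h3 h4
            exact hxi ⟨h4, h3⟩
          · intro h3 h4
            exact h3 (subset_closure h4)
      rw [h2]
      refine hScl.isOpen_compl.inter (isOpen_iInter_of_finite fun i => ?_)
      split_ifs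
      · exact hBo i
      · exact isClosed_closure.isOpen_compl
    · intro P Q hPQ
      rw [Set.disjoint_left]
      rintro x ⟨_, hx1⟩ ⟨_, hx2⟩
      exact hPQ (hx1.symm.trans hx2)
    · intro P
      refine (hBP P).mono ?_
      rintro x ⟨_, hx⟩
      exact hBPsub x P hx
  -- the rest
  obtain ⟨O1, hO1, hKO, hS1⟩ : ∃ O : Set X, IsOpen O ∧ S \ O0 ⊆ O ∧ HasSec π O := by
    have hK : IsClosed (S \ O0) := hScl.sdiff hO0
    have huniq : ∀ x ∈ S \ O0, ∀ i j, x ∈ frontier (B i) → x ∈ frontier (B j) → i = j := by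
      intro x hx i j hi hj
      by_contra hij
      exact hx.2 (hFO (mem_iUnion.2 ⟨i, mem_iUnion.2 ⟨j, mem_iUnion.2 ⟨hij, hi, hj⟩⟩⟩))
    obtain ⟨O, h1, h2, h3⟩ := exists_open_sec (π := π)
      (fun q : Set ι × ι => (if h : q.1.Nonempty then B h.some else (∅ : Set X)))
      (fun q => hBPo q.1) (fun q => hBP q.1)
      (fun q : Set ι × ι => {x | x ∈ S \ O0 ∧ x ∈ frontier (B q.2) ∧ {i | x ∈ B i} = q.1})
      (by
        rintro ⟨P, i⟩
        apply IsClosed.isCompact
        have h4 : {x | x ∈ S \ O0 ∧ x ∈ frontier (B i) ∧ {i | x ∈ B i} = P} =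
            (S \ O0) ∩ frontier (B i) ∩
              ⋂ j, (if j ∈ P then (if j = i then ∅ else closure (B j)) else (B j)ᶜ) := by
          ext x
          simp only [mem_inter_iff, mem_ofPred_eq, mem_iInter]
          rw [and_assoc, hpat]
          refine and_congr_right fun hx => and_congr_right fun hxi => ?_
          refine forall_congr' fun j => ?_
          by_cases hj : j ∈ P
          · rw [if_pos hj]
            by_cases hji : j = i
            · rw [if_pos hji]
              subst hji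
              rw [(hBo j).frontier_eq] at hxi
              simp [hj, hxi.2]
            · rw [if_neg hji]
              have hxj : x ∉ frontier (B j) := fun h => hji (huniq x hx j i h hxi)
              rw [(hBo j).frontier_eq] at hxj
              simp only [hj, iff_true]
              constructor
              · exact fun h => subset_closure h
              · intro h
                by_contra h5
                exact hxj ⟨h, h5⟩
          · rw [if_neg hj]
            simp [hj]
        rw [h4]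
        refine (hK.inter isClosed_frontier).inter (isClosed_iInter fun j => ?_)
        split_ifs
        · exact isClosed_empty
        · exact isClosed_closure
        · exact (hBo j).isClosed_compl)
      (by
        rintro ⟨P, i⟩ ⟨Q, j⟩ hne
        rw [Set.disjoint_left]
        rintro x ⟨hx, hxi, hxP⟩ ⟨_, hxj, hxQ⟩
        exact hne (Prod.ext (hxP.symm.trans hxQ) (huniq x hx i j hxi hxj)))
      (by
        rintro ⟨P, i⟩ x ⟨_, _, hx⟩
        exact hBPsub x P hx)
    refine ⟨O, h1, ?_, h3⟩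
    intro x hx
    obtain ⟨i, hi⟩ := mem_iUnion.1 hx.1
    exact h2 (mem_iUnion.2 ⟨({i | x ∈ B i}, i), hx, hi, rfl⟩)
  refine ⟨![O0, O1, Sᶜ], ?_, ?_, ?_⟩
  · intro i
    fin_cases i
    · exact hO0
    · exact hO1
    · exact hScl.isOpen_compl
  · intro x
    by_cases h0 : x ∈ O0
    · exact ⟨0, h0⟩
    · by_cases hS : x ∈ S
      · exact ⟨1, hKO ⟨hS, h0⟩⟩
      · exact ⟨2, hS⟩
  · intro i
    fin_cases i
    · exact hS0
    · exact hS1
    · exact hS2

/-- five open sets in the product -/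
lemma five_cover [Nonempty E] [NormalSpace X] (O : Fin 3 → Set X) (hO : ∀ i, IsOpen (O i))
    (hcov : ∀ x, ∃ i, x ∈ O i) (hS : ∀ i, HasSec π (O i)) :
    ∃ W : Fin 5 → Set (X × X), (∀ m, IsOpen (W m)) ∧ (∀ x, ∃ m, x ∈ W m) ∧
      ∀ m, HasSec (Prod.map π π) (W m) := by
  classical
  obtain ⟨a, ha⟩ := PartitionOfUnity.exists_isSubordinate_of_locallyFinite
    (s := (univ : Set X)) isClosed_univ O hO (locallyFinite_of_finite O)
    (fun b _ => mem_iUnion.2 (hcov b))
  have hac : ∀ i, Continuous (a i) := fun i => (a i).continuous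
  have ha0 : ∀ i x, 0 ≤ a i x := fun i x => a.nonneg i x
  have haO : ∀ i x, a i x ≠ 0 → x ∈ O i := fun i x h => ha i (subset_tsupport _ h)
  -- the least maximiser
  have hmax : ∀ x, ∃ i, 0 < a i x ∧ (∀ k, a k x ≤ a i x) ∧ ∀ k < i, a k x < a i x := by
    intro x
    have hne : (Finset.univ.filter fun i : Fin 3 => ∀ k, a k x ≤ a i x).Nonempty := by
      obtain ⟨i, _, hi⟩ := Finset.exists_max_image (Finset.univ : Finset (Fin 3)) (fun i => a i x)
        ⟨0, Finset.mem_univ _⟩
      exact ⟨i, Finset.mem_filter.2 ⟨Finset.mem_univ _, fun k => hi k (Finset.mem_univ _)⟩⟩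
    have hmem := Finset.min'_mem _ hne
    rw [Finset.mem_filter] at hmem
    refine ⟨_, ?_, hmem.2, ?_⟩
    · by_contra hcon
      push Not at hcon
      have hz : ∀ k, a k x = 0 := fun k => le_antisymm ((hmem.2 k).trans hcon) (ha0 k x)
      have h3 := a.sum_eq_one (mem_univ x)
      rw [finsum_eq_sum_of_fintype, Finset.sum_congr rfl fun i _ => hz i] at h3
      simp at h3
    · intro k hk
      by_contra hcon
      push Not at hcon
      have : k ∈ Finset.univ.filter fun i : Fin 3 => ∀ k, a k x ≤ a i x :=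
        Finset.mem_filter.2 ⟨Finset.mem_univ _, fun l => (hmem.2 l).trans hcon⟩
      exact absurd (Finset.min'_le _ _ this) (not_le.2 hk)
  let Wq : Fin 3 × Fin 3 → Set (X × X) := fun q =>
    {z | 0 < a q.1 z.1 * a q.2 z.2 ∧ ∀ k : Fin 3 × Fin 3,
      k ≠ q → (k.1 : ℕ) + k.2 = q.1 + q.2 → a k.1 z.1 * a k.2 z.2 < a q.1 z.1 * a q.2 z.2}
  have hWo : ∀ q, IsOpen (Wq q) := by
    intro q
    have : Wq q = {z | 0 < a q.1 z.1 * a q.2 z.2} ∩ ⋂ k : Fin 3 × Fin 3,
        ⋂ (_ : k ≠ q ∧ (k.1 : ℕ) + k.2 = q.1 + q.2),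
          {z | a k.1 z.1 * a k.2 z.2 < a q.1 z.1 * a q.2 z.2} := by
      ext z
      simp only [Wq, mem_ofPred_eq, mem_inter_iff, mem_iInter, and_imp]
    rw [this]
    refine IsOpen.inter ?_ (isOpen_iInter_of_finite fun k => isOpen_iInter_of_finite fun _ => ?_)
    · exact isOpen_lt continuous_const (by fun_prop)
    · exact isOpen_lt (by fun_prop) (by fun_prop)
  have hWsec : ∀ q, HasSec (Prod.map π π) (Wq q) := by
    intro q
    obtain ⟨s1, h1, h1'⟩ := hS q.1
    obtain ⟨s2, h2, h2'⟩ := hS q.2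
    have hsub1 : ∀ z ∈ Wq q, z.1 ∈ O q.1 := fun z hz => haO _ _ (by
      intro h; have := hz.1; rw [h, zero_mul] at this; exact lt_irrefl _ this)
    have hsub2 : ∀ z ∈ Wq q, z.2 ∈ O q.2 := fun z hz => haO _ _ (by
      intro h; have := hz.1; rw [h, mul_zero] at this; exact lt_irrefl _ this)
    refine ⟨fun z => (s1 z.1, s2 z.2), ?_, ?_⟩
    · exact (h1.comp continuousOn_fst hsub1).prodMk (h2.comp continuousOn_snd hsub2)
    · intro z hz
      exact Prod.ext (h1' _ (hsub1 z hz)) (h2' _ (hsub2 z hz))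
  refine ⟨fun m => ⋃ q : {q : Fin 3 × Fin 3 // (q.1 : ℕ) + q.2 = m}, Wq q.1,
    fun m => isOpen_iUnion fun q => hWo _, ?_, ?_⟩
  · rintro ⟨x, y⟩
    obtain ⟨i, hi0, hi1, hi2⟩ := hmax x
    obtain ⟨j, hj0, hj1, hj2⟩ := hmax y
    refine ⟨⟨i + j, by omega⟩, mem_iUnion.2 ⟨⟨(i, j), rfl⟩, mul_pos hi0 hj0, ?_⟩⟩
    rintro ⟨k, l⟩ hne hsum
    show a k x * a l y < a i x * a j y
    have hsum : (k : ℕ) + l = i + j := hsum
    rcases lt_or_ge k i with hk | hk
    · calc a k x * a l y ≤ a k x * a j y := mul_le_mul_of_nonneg_left (hj1 l) (ha0 k x)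
        _ < a i x * a j y := mul_lt_mul_of_pos_right (hi2 k hk) hj0
    · rcases lt_or_ge l j with hl | hl
      · calc a k x * a l y ≤ a i x * a l y := mul_le_mul_of_nonneg_right (hi1 k) (ha0 l y)
          _ < a i x * a j y := mul_lt_mul_of_pos_left (hj2 l hl) hi0
      · exfalso
        apply hne
        have h1 : (i : ℕ) ≤ k := hk
        have h2 : (j : ℕ) ≤ l := hl
        refine Prod.ext (Fin.ext ?_) (Fin.ext ?_)
        · show (k : ℕ) = i
          omega
        · show (l : ℕ) = j
          omega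
  · intro m
    refine HasSec.iUnion _ (fun q => hWo _) ?_ fun q => hWsec _
    rintro ⟨q, hq⟩ ⟨q', hq'⟩ hne
    rw [Set.disjoint_left]
    intro z hz hz'
    have hne' : q ≠ q' := fun h => hne (Subtype.ext h)
    have h1 := hz.2 q' hne'.symm (hq'.trans hq.symm)
    have h2 := hz'.2 q hne' (hq.trans hq'.symm)
    exact lt_asymm h1 h2

/-- from sections over five sets to the bound -/
lemma secat_of_sec {G : Type} [Group G] [TopologicalSpace G] [MulAction G X]
    [ContractibleSpace E] (hπ : Continuous π) (W : Fin 5 → Set (X × X))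
    (hW : ∀ m, IsOpen (W m)) (hcov : ∀ x, ∃ m, x ∈ W m)
    (hS : ∀ m, HasSec (Prod.map π π) (W m)) : SecatLe (endpoints G X) 4 := by
  refine ⟨W, hW, hcov, fun m => ?_⟩
  obtain ⟨s, hs1, hs2⟩ := hS m
  obtain ⟨z0, ⟨c⟩⟩ : ∃ z0 : E, Nonempty ((ContinuousMap.id E).Homotopy (ContinuousMap.const E z0)) := by
    obtain ⟨z0, h⟩ := id_nullhomotopic E
    exact ⟨z0, h⟩
  have hsc : Continuous fun x : W m => s x := continuousOn_iff_continuous_domRestrict.1 hs1
  let g1 : C(W m, C(I, X)) := ContinuousMap.curry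
    ⟨fun q : W m × I => π (c (q.2, (s q.1).1)), hπ.comp (c.continuous.comp
      (continuous_snd.prodMk (continuous_fst.comp (hsc.comp continuous_fst))))⟩
  let g2 : C(W m, C(I, X)) := ContinuousMap.curry
    ⟨fun q : W m × I => π (c (σ q.2, (s q.1).2)), hπ.comp (c.continuous.comp
      ((unitInterval.continuous_symm.comp continuous_snd).prodMk
        (continuous_snd.comp (hsc.comp continuous_fst))))⟩
  have hg1 : ∀ x t, g1 x t = π (c (t, (s x).1)) := fun x t => rfl
  have hg2 : ∀ x t, g2 x t = π (c (σ t, (s x).2)) := fun x t => rfl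
  let S : C(W m, EG G X) := ⟨fun x => ⟨(g1 x, 1, g2 x), by
      show (1 : G) • g1 x 1 = g2 x 0
      rw [one_smul, hg1, hg2, unitInterval.symm_zero, c.apply_one, c.apply_one]
      rfl⟩, by
    refine Continuous.subtype_mk ?_ _
    exact g1.continuous.prodMk (continuous_const.prodMk g2.continuous)⟩
  refine ⟨S, ?_⟩
  have : (endpoints G X).comp S = (⟨Subtype.val, continuous_subtype_val⟩ : C(W m, X × X)) := by
    ext1 x
    have h1 := hs2 x x.2
    show (g1 x 0, g2 x 1) = (x : X × X)
    rw [hg1, hg2, unitInterval.symm_one, c.apply_zero, c.apply_zero]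
    exact h1
  rw [this]

end Sec

open UpperHalfPlane MatrixGroups Matrix

/-- distinct hyperbolic circles meet in a finite set -/
lemma finite_sphere_inter (z w : ℍ) (hzw : z ≠ w) (r s : ℝ) :
    (Metric.sphere z r ∩ Metric.sphere w s).Finite := by
  by_contra hinf
  have hinf : (Metric.sphere z r ∩ Metric.sphere w s).Infinite := hinf
  obtain ⟨p1, hp1⟩ := hinf.nonempty
  obtain ⟨p2, hp2, hp12⟩ := (hinf.sdiff (Set.finite_singleton p1)).nonempty
  obtain ⟨p3, hp3, hp3'⟩ := (hinf.sdiff ((Set.finite_singleton p1).insert p2)).nonempty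
  have hp12 : p2 ≠ p1 := hp12
  have hp31 : p3 ≠ p1 := fun h => hp3' (by rw [h]; simp)
  have hp32 : p3 ≠ p2 := fun h => hp3' (by rw [h]; simp)
  have key : ∀ p : ℍ, p ∈ Metric.sphere z r ∩ Metric.sphere w s →
      dist (p : ℂ) (z.center r) = z.im * Real.sinh r ∧
      dist (p : ℂ) (w.center s) = w.im * Real.sinh s := by
    intro p hp
    exact ⟨dist_eq_iff_dist_coe_center_eq.1 hp.1, dist_eq_iff_dist_coe_center_eq.1 hp.2⟩
  have k1 := key p1 hp1
  have k2 := key p2 hp2
  have k3 := key p3 hp3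
  have hr : 0 < r := by
    have h1 : dist p1 z = r := hp1.1
    have h2 : dist p2 z = r := hp2.1
    rcases (dist_nonneg (x := p1) (y := z)).lt_or_eq with h | h
    · rwa [h1] at h
    · exfalso
      rw [h1] at h
      rw [← h] at h1 h2
      exact hp12 ((dist_eq_zero.1 h2).trans (dist_eq_zero.1 h1).symm)
  have hs : 0 < s := by
    have h1 : dist p1 w = s := hp1.2
    have h2 : dist p2 w = s := hp2.2
    rcases (dist_nonneg (x := p1) (y := w)).lt_or_eq with h | h
    · rwa [h1] at h
    · exfalso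
      rw [h1] at h
      rw [← h] at h1 h2
      exact hp12 ((dist_eq_zero.1 h2).trans (dist_eq_zero.1 h1).symm)
  by_cases hc : ((z.center r : ℍ) : ℂ) = (w.center s : ℍ)
  · -- concentric
    have hrad : z.im * Real.sinh r = w.im * Real.sinh s := by
      rw [← k1.1, ← k1.2, hc]
    have hre : z.re = w.re := by
      have := congrArg Complex.re hc
      simpa using this
    have him : z.im * Real.cosh r = w.im * Real.cosh s := by
      have := congrArg Complex.im hc
      simpa using this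
    have hsq : z.im ^ 2 = w.im ^ 2 := by
      have h1 := Real.cosh_sq r
      have h2 := Real.cosh_sq s
      have : z.im ^ 2 * (Real.cosh r ^ 2 - Real.sinh r ^ 2)
          = w.im ^ 2 * (Real.cosh s ^ 2 - Real.sinh s ^ 2) := by
        have e1 : (z.im * Real.cosh r) ^ 2 = (w.im * Real.cosh s) ^ 2 := by rw [him]
        have e2 : (z.im * Real.sinh r) ^ 2 = (w.im * Real.sinh s) ^ 2 := by rw [hrad]
        linarith
      rw [h1, h2] at this
      linarith
    have him' : z.im = w.im := by
      have := z.im_pos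
      have := w.im_pos
      nlinarith
    apply hzw
    apply UpperHalfPlane.ext
    exact Complex.ext hre him'
  · have hpp : (p1 : ℂ) ≠ (p2 : ℂ) := fun h => hp12 (UpperHalfPlane.ext h).symm
    rcases EuclideanGeometry.eq_of_dist_eq_of_dist_eq_of_finrank_eq_two
      Complex.finrank_real_complex hc hpp k1.1 k2.1 k3.1 k1.2 k2.2 k3.2 with h | h
    · exact hp31 (UpperHalfPlane.ext h)
    · exact hp32 (UpperHalfPlane.ext h)

theorem upper (Γ : Subgroup PGL(2, ℝ)) (hfree : ∀ γ ∈ Γ, ∀ z : ℍ, γ • z = z → γ = 1)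
    [ProperlyDiscontinuousSMul Γ ℍ] (G : Type) [Group G] [TopologicalSpace G]
    [DiscreteTopology G] (φ : Γ →* G) (X : Type)
    [TopologicalSpace X] [CompactSpace X] [MulAction G X] (π : ℍ → X) (hπ : IsQuotientMap π)
    (hfib : ∀ z w : ℍ, π z = π w ↔ ∃ γ : Γ, φ γ = 1 ∧ γ • z = w) :
    SecatLe (endpoints G X) 4 := by
  classical
  have : IsIsometricSMul Γ ℍ := ⟨fun γ => Pool.Agent.Helper93.ETC.isometry_smul γ.1⟩
  have : ContinuousConstSMul Γ ℍ := ⟨fun γ => (isometry_smul ℍ γ).continuous⟩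
  have hfree' : ∀ γ : Γ, ∀ z : ℍ, γ • z = z → γ = 1 :=
    fun γ z hz => Subtype.ext (hfree γ.1 γ.2 z hz)
  have hq := ETCCover.isQuotientCoveringMap φ π hfree' hπ hfib
  have : T2Space X := ETCCover.t2 φ π hπ hfib
  have hop : IsOpenMap π := hq.isOpenQuotientMap.isOpenMap
  -- small balls
  have hball : ∀ z : ℍ, ∃ r : ℝ, 0 < r ∧ HasSec π (π '' Metric.ball z r) := by
    intro z
    obtain ⟨e, hze, he⟩ := hq.isCoveringMap.isLocalHomeomorph z
    obtain ⟨r, hr, hrs⟩ := Metric.isOpen_iff.1 e.open_source z hze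
    refine ⟨r, hr, e.symm, ?_, ?_⟩
    · refine e.symm.continuousOn.mono ?_
      rintro _ ⟨w, hw, rfl⟩
      rw [he]
      exact e.map_source (hrs hw)
    · rintro _ ⟨w, hw, rfl⟩
      rw [he, e.left_inv (hrs hw)]
  choose r hr hsec using hball
  choose z hz using hπ.surjective
  obtain ⟨T, -, hT⟩ := isCompact_univ.elim_nhds_subcover
    (fun x : X => π '' Metric.ball (z x) (r (z x))) (fun x _ =>
      (hop _ Metric.isOpen_ball).mem_nhds ⟨z x, Metric.mem_ball_self (hr _), hz x⟩)
  have hfr : ∀ (w : ℍ) (ρ : ℝ), frontier (π '' Metric.ball w ρ) ⊆ π '' Metric.sphere w ρ := by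
    intro w ρ x hx
    rw [(hop _ Metric.isOpen_ball).frontier_eq] at hx
    have h1 : closure (π '' Metric.ball w ρ) ⊆ π '' Metric.closedBall w ρ :=
      closure_minimal (image_mono Metric.ball_subset_closedBall)
        ((isCompact_closedBall w ρ).image hπ.continuous).isClosed
    obtain ⟨p, hp, rfl⟩ := h1 hx.1
    refine ⟨p, ?_, rfl⟩
    rcases (Metric.mem_closedBall.1 hp).lt_or_eq with h | h
    · exact absurd ⟨p, h, rfl⟩ hx.2
    · exact h
  obtain ⟨O, hO1, hO2, hO3⟩ := three_cover (π := π) (fun x : T => π '' Metric.ball (z x) (r (z x)))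
    (fun x => hop _ Metric.isOpen_ball) (fun x => hsec _) (by
      intro x
      obtain ⟨y, hy, hxy⟩ := mem_iUnion₂.1 (hT (mem_univ x))
      exact ⟨⟨y, hy⟩, hxy⟩) (by
      intro x y hxy
      have hfin := ProperlyDiscontinuousSMul.finite_disjoint_inter_image (Γ := Γ)
        (isCompact_sphere (z y) (r (z y))) (isCompact_sphere (z x) (r (z x)))
      have hfin2 : (π '' (⋃ γ ∈ {γ : Γ | (((γ • ·) '' Metric.sphere (z y) (r (z y))) ∩
          Metric.sphere (z x) (r (z x))).Nonempty},
          (if φ γ = 1 then Metric.sphere (z x) (r (z x)) ∩ Metric.sphere (γ • z y) (r (z y))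
            else ∅))).Finite := by
        refine Set.Finite.image _ (hfin.biUnion fun γ _ => ?_)
        split_ifs with hγ
        · refine finite_sphere_inter _ _ ?_ _ _
          intro heq
          apply hxy
          apply Subtype.ext
          rw [← hz x.1, ← hz y.1, heq, eq_comm, hfib]
          exact ⟨γ, hγ, rfl⟩
        · exact Set.finite_empty
      refine hfin2.subset ?_
      rintro x' ⟨h1, h2⟩
      obtain ⟨p, hp, rfl⟩ := hfr _ _ h1
      obtain ⟨q, hq, hqp⟩ := hfr _ _ h2
      obtain ⟨γ, hγ, hγq⟩ := (hfib q p).1 hqp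
      refine ⟨p, mem_iUnion₂.2 ⟨γ, ⟨p, ⟨q, hq, hγq⟩, hp⟩, ?_⟩, rfl⟩
      rw [if_pos hγ]
      refine ⟨hp, ?_⟩
      rw [Metric.mem_sphere, ← hγq, dist_smul]
      exact hq)
  obtain ⟨W, hW1, hW2, hW3⟩ := five_cover O hO1 hO2 hO3
  exact secat_of_sec hπ.continuous W hW1 hW2 hW3

end Pool.Agent.Helper47.ETCUpper
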