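import Pool.Agent.Helper47.JefJst

/-! # The defect functional -/

open MeasureTheory Set Filter Topology
open scoped ENNReal ContDiff

namespace Pool.Agent.Helper47.Jef

open Pool.Agent.Helper42.Jef

variable {n : ℕ} {E E' : Type*} [NormedAddCommGroup E] [NormedSpace ℝ E] [FiniteDimensional ℝ E]
  [NormedAddCommGroup E'] [NormedSpace ℝ E'] [FiniteDimensional ℝ E']

/-- the defect functional -/
noncomputable def BB (β : E → E') (η : ℝ → ℝ) (ψ : Eu n → ℝ) (ε : ℝ) (u : ST n → E)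
    (v : ST n → Eu n) : E' :=
  ∫ z : ST n, ((η z.1 * fderiv ℝ ψ z.2 (v z)) • β (mo ε u z) +
    (η z.1 * ψ z.2) • fderiv ℝ β (mo ε u z) (qe ε v u z))

omit [FiniteDimensional ℝ E] in
theorem re_eq' (ε : ℝ) (v : ST n → Eu n) (u : ST n → E) (z : ST n) :
    re ε v u z = ∫ h, (fderiv ℝ (ro ε) h (v (shf h z) - v z)) • u (shf h z) := by
  unfold re shf
  exact conv_eq (fun h y => (fderiv ℝ (ro ε) h (v (z.1, y) - v z)) • u (z.1, y)) z.2

omit [FiniteDimensional ℝ E] in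
theorem re_meas {ε : ℝ} {v : ST n → Eu n} {u : ST n → E} (hv : StronglyMeasurable v)
    (hu : StronglyMeasurable u) : StronglyMeasurable (re ε v u) := by
  have h1 : re ε v u = fun z => ∫ h, (fderiv ℝ (ro ε) h (v (shf h z) - v z)) • u (shf h z) :=
    funext (re_eq' ε v u)
  rw [h1]
  have h2 : StronglyMeasurable (fun p : ST n × Eu n =>
      (fderiv ℝ (ro ε) p.2 (v (shf p.2 p.1) - v p.1)) • u (shf p.2 p.1)) := by
    apply StronglyMeasurable.smul
    · have hc : Continuous (fun q : (Eu n →L[ℝ] ℝ) × Eu n => q.1 q.2) :=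
        continuous_fst.clm_apply continuous_snd
      exact hc.comp_stronglyMeasurable
        (((dro_cont ε).comp continuous_snd).stronglyMeasurable.prodMk
          ((hv.comp_measurable shf_cont.measurable).sub (hv.comp_measurable measurable_fst)))
    · exact hu.comp_measurable shf_cont.measurable
  exact h2.integral_prod_right'

theorem le_of_forall_real {x a b : ℝ≥0∞} (hb : b ≠ ⊤)
    (h : ∀ κ : ℝ, 0 < κ → x ≤ a + b * ENNReal.ofReal κ) : x ≤ a := by
  have h1 : Tendsto (fun κ : ℝ => a + b * ENNReal.ofReal κ) (𝓝[>] 0) (𝓝 (a + b * 0)) := by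
    apply Tendsto.const_add
    apply ENNReal.Tendsto.const_mul _ (Or.inr hb)
    have h2 : Tendsto (fun κ : ℝ => ENNReal.ofReal κ) (𝓝 0) (𝓝 (ENNReal.ofReal 0)) :=
      (ENNReal.continuous_ofReal.tendsto 0)
    rw [ENNReal.ofReal_zero] at h2
    exact h2.mono_left nhdsWithin_le_nhds
  rw [mul_zero, add_zero] at h1
  apply ge_of_tendsto h1
  filter_upwards [self_mem_nhdsWithin] with κ hκ
  exact h κ hκ

namespace RH

variable {T : ℝ} {v : ST n → Eu n} {u F : ST n → E} {K : Set E} {β : E → E'} {L : ℝ}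

theorem BB_int (H : RH T v u F K β L) {ε : ℝ} (hε : 0 < ε) {η : ℝ → ℝ} {ψ : Eu n → ℝ}
    (hη : IsTime (-1) T η) (hψ : IsTest ψ) {v' : ST n → Eu n} (vm' : StronglyMeasurable v')
    (v2' : MemLp v' 2 volume) :
    Integrable (fun z : ST n => (η z.1 * fderiv ℝ ψ z.2 (v' z)) • β (mo ε u z)) ∧
    Integrable (fun z : ST n => (η z.1 * ψ z.2) • fderiv ℝ β (mo ε u z) (qe ε v' u z)) := by
  obtain ⟨b1, b2⟩ := prod_cont_cpt hη.smooth.continuous hη.cpt hψ.smooth.continuous hψ.cpt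
  obtain ⟨C, hC⟩ := b2.exists_bound_of_continuous b1
  obtain ⟨k1, k2, k3⟩ := kv hη hψ vm' v2'
  exact ⟨H.intB (mo_meas H.um) (H.mo_u2 hε) (H.mo_mem hε) k2 k3,
    H.intD (mo_meas (ε := ε) H.um) (H.mo_mem hε) (qe_meas (ε := ε) vm' H.um)
      (qe_int hε vm' H.um v2' H.u2) b1 hC⟩

theorem re_int (H : RH T v u F K β L) {ε : ℝ} (hε : 0 < ε) {Ω : Set (Eu n)}
    {v' : ST n → Eu n} {G' : ST n → Mt n} (hv' : IsElem Ω T v' G') (G2' : MemLp G' 2 volume) :
    Integrable (re ε v' u) := by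
  refine ⟨(re_meas (elem_meas hv').1 H.um).aestronglyMeasurable, ?_⟩
  refine (re_bound hε hv' H.um H.good_u (fun h _ => trans_triv H.um (by norm_num) h)).trans_lt ?_
  exact ENNReal.mul_lt_top (ENNReal.mul_lt_top Cro_lt_top G2'.2)
    (ENNReal.mul_lt_top (by norm_num) H.u2.2)

theorem BB_elem (H : RH T v u F K β L) {ε : ℝ} (hε : 0 < ε) {η : ℝ → ℝ} {ψ : Eu n → ℝ}
    (hη : IsTime (-1) T η) (hψ : IsTest ψ) {Ω : Set (Eu n)} {v' : ST n → Eu n}
    {G' : ST n → Mt n} (hv' : IsElem Ω T v' G') (v2' : MemLp v' 2 volume)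
    (G2' : MemLp G' 2 volume) :
    BB β η ψ ε u v' = ∫ z : ST n, (η z.1 * ψ z.2) • fderiv ℝ β (mo ε u z) (re ε v' u z) := by
  obtain ⟨b1, b2⟩ := prod_cont_cpt hη.smooth.continuous hη.cpt hψ.smooth.continuous hψ.cpt
  obtain ⟨C, hC⟩ := b2.exists_bound_of_continuous b1
  obtain ⟨vm', Gm', -⟩ := elem_meas hv'
  obtain ⟨i1, i2⟩ := H.BB_int hε hη hψ vm' v2'
  have i3 := H.intD (mo_meas (ε := ε) H.um) (H.mo_mem hε) (re_meas (ε := ε) vm' H.um)
      (H.re_int hε hv' G2') b1 hC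
  have i12 : Integrable (fun z : ST n => (η z.1 * fderiv ℝ ψ z.2 (v' z)) • β (mo ε u z) +
      (η z.1 * ψ z.2) • fderiv ℝ β (mo ε u z) (qe ε v' u z)) := i1.add i2
  have iH : Integrable (fun z : ST n => ((η z.1 * fderiv ℝ ψ z.2 (v' z)) • β (mo ε u z) +
      (η z.1 * ψ z.2) • fderiv ℝ β (mo ε u z) (qe ε v' u z)) -
      (η z.1 * ψ z.2) • fderiv ℝ β (mo ε u z) (re ε v' u z)) := i12.sub i3
  have hzero : ∫ z : ST n, (((η z.1 * fderiv ℝ ψ z.2 (v' z)) • β (mo ε u z) +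
      (η z.1 * ψ z.2) • fderiv ℝ β (mo ε u z) (qe ε v' u z)) -
      (η z.1 * ψ z.2) • fderiv ℝ β (mo ε u z) (re ε v' u z)) = 0 := by
    rw [Measure.volume_eq_prod] at iH ⊢
    rw [integral_prod _ iH]
    apply integral_eq_zero_of_ae
    filter_upwards [H.good_u] with t ht
    obtain ⟨hVT, -⟩ := elem_slice hv' t
    set g : Eu n → E' := fun x => ψ x • β (mo ε u (t, x)) with hg
    have hmo := mo_contDiff hε ht
    have hψ1 : ContDiff ℝ 1 ψ := hψ.smooth.of_le (by exact_mod_cast le_top)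
    have hgs : ContDiff ℝ 1 g := hψ1.smul (H.hβ.comp hmo)
    have hgd : ∀ x w, fderiv ℝ g x w = (fderiv ℝ ψ x w) • β (mo ε u (t, x)) +
        ψ x • fderiv ℝ β (mo ε u (t, x)) (fderiv ℝ (fun x => mo ε u (t, x)) x w) := by
      intro x w
      have h1 : HasFDerivAt ψ (fderiv ℝ ψ x) x := (hψ1.differentiable one_ne_zero x).hasFDerivAt
      have h2 : HasFDerivAt (fun x => mo ε u (t, x)) (fderiv ℝ (fun x => mo ε u (t, x)) x) x :=
        (hmo.differentiable one_ne_zero x).hasFDerivAt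
      have h3 : HasFDerivAt β (fderiv ℝ β (mo ε u (t, x))) (mo ε u (t, x)) :=
        (H.hβ.differentiable one_ne_zero _).hasFDerivAt
      have h4 := h1.smul (h3.comp x h2)
      have h5 : fderiv ℝ g x = _ := h4.fderiv
      rw [h5]
      simp [add_comm]
    have key : ∀ x, (((η t * fderiv ℝ ψ x (v' (t, x))) • β (mo ε u (t, x)) +
      (η t * ψ x) • fderiv ℝ β (mo ε u (t, x)) (qe ε v' u (t, x))) -
      (η t * ψ x) • fderiv ℝ β (mo ε u (t, x)) (re ε v' u (t, x))) =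
        η t • fderiv ℝ g x (v' (t, x)) := by
      intro x
      have h6 := qe_eq_re hε (v := v') (u := u) (z := (t, x)) ht hVT.smooth.continuous
      rw [h6, hgd, map_add]
      simp only [smul_add, mul_smul]
      abel
    show ∫ x, _ = (0 : E')
    simp only [key]
    rw [integral_smul, integral_div_free hVT hgs, smul_zero]
  rw [integral_sub i12 i3, sub_eq_zero] at hzero
  exact hzero

theorem BB_elem_bound (H : RH T v u F K β L) {ε : ℝ} (hε : 0 < ε) {η : ℝ → ℝ} {ψ : Eu n → ℝ}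
    (hη : IsTime (-1) T η) (hψ : IsTest ψ) {Ω : Set (Eu n)} {v' : ST n → Eu n}
    {G' : ST n → Mt n} (hv' : IsElem Ω T v' G') (v2' : MemLp v' 2 volume)
    (G2' : MemLp G' 2 volume) {C : ℝ} (hC : ∀ z : ST n, ‖η z.1 * ψ z.2‖ ≤ C) {δ : ℝ≥0∞}
    (hδ : ∀ h : Eu n, ‖h‖ ≤ ε → eLpNorm (fun z => u (shf h z) - u z) 2 volume ≤ δ) :
    ‖BB β η ψ ε u v'‖ₑ ≤ ENNReal.ofReal (C * L) * (Cro n * eLpNorm G' 2 volume * δ) := by
  rw [H.BB_elem hε hη hψ hv' v2' G2']
  refine (H.normD (H.mo_mem hε) hC).trans ?_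
  gcongr
  exact re_bound hε hv' H.um H.good_u hδ

theorem BB_sub (H : RH T v u F K β L) {ε : ℝ} (hε : 0 < ε) {η : ℝ → ℝ} {ψ : Eu n → ℝ}
    (hη : IsTime (-1) T η) (hψ : IsTest ψ) {v1 v2 : ST n → Eu n} (vm1 : StronglyMeasurable v1)
    (v21 : MemLp v1 2 volume) (vm2 : StronglyMeasurable v2) (v22 : MemLp v2 2 volume) :
    BB β η ψ ε u v1 - BB β η ψ ε u v2 = BB β η ψ ε u (fun z => v1 z - v2 z) := by
  obtain ⟨i1, i2⟩ := H.BB_int hε hη hψ vm1 v21
  obtain ⟨j1, j2⟩ := H.BB_int hε hη hψ vm2 v22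
  unfold BB
  have i12 : Integrable (fun z : ST n => (η z.1 * fderiv ℝ ψ z.2 (v1 z)) • β (mo ε u z) +
      (η z.1 * ψ z.2) • fderiv ℝ β (mo ε u z) (qe ε v1 u z)) := i1.add i2
  have j12 : Integrable (fun z : ST n => (η z.1 * fderiv ℝ ψ z.2 (v2 z)) • β (mo ε u z) +
      (η z.1 * ψ z.2) • fderiv ℝ β (mo ε u z) (qe ε v2 u z)) := j1.add j2
  rw [← integral_sub i12 j12]
  apply integral_congr_ae
  filter_upwards [ae_of_time (int_vu hε vm1 H.um v21 H.u2),
    ae_of_time (int_vu hε vm2 H.um v22 H.u2)] with z hz1 hz2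
  have h1 : qe ε (fun z => v1 z - v2 z) u z = qe ε v1 u z - qe ε v2 u z := by
    unfold qe
    rw [← integral_sub (hz1 z.2) (hz2 z.2)]
    congr 1
    ext1 y
    rw [map_sub, sub_smul]
  rw [h1, map_sub, map_sub]
  simp only [mul_sub, sub_smul, smul_sub]
  abel

theorem BB_crude (H : RH T v u F K β L) {ε : ℝ} (hε : 0 < ε) {η : ℝ → ℝ} {ψ : Eu n → ℝ}
    (hη : IsTime (-1) T η) (hψ : IsTest ψ) : ∃ Kε : ℝ≥0∞, Kε ≠ ⊤ ∧
    ∀ v' : ST n → Eu n, StronglyMeasurable v' → MemLp v' 2 volume →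
      ‖BB β η ψ ε u v'‖ₑ ≤ Kε * eLpNorm v' 2 volume := by
  have hηc : Continuous η := hη.smooth.continuous
  have hψc : Continuous (fun x => fderiv ℝ ψ x) := hψ.smooth.continuous_fderiv (by simp)
  obtain ⟨a1, a2⟩ := prod_cont_cpt (η := fun t => ‖η t‖) (ψ := fun x => ‖fderiv ℝ ψ x‖)
    hηc.norm hη.cpt.norm hψc.norm (hψ.cpt.fderiv (𝕜 := ℝ)).norm
  obtain ⟨C', hC'⟩ := a2.exists_bound_of_continuous a1
  obtain ⟨b1, b2⟩ := prod_cont_cpt hη.smooth.continuous hη.cpt hψ.smooth.continuous hψ.cpt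
  obtain ⟨C, hC⟩ := b2.exists_bound_of_continuous b1
  have hC0 : 0 ≤ C := (norm_nonneg _).trans (hC 0)
  set k : ST n → ℝ := fun z => (‖η z.1‖ * ‖fderiv ℝ ψ z.2‖) * (‖β 0‖ + L * ‖mo ε u z‖) with hk
  have hkm : StronglyMeasurable k := a1.stronglyMeasurable.mul
    (stronglyMeasurable_const.add ((mo_meas H.um).norm.const_mul L))
  have hk2 : MemLp k 2 volume := by
    have h1 : MemLp (fun z : ST n => (‖η z.1‖ * ‖fderiv ℝ ψ z.2‖) * ‖β 0‖) 2 volume :=
      (a1.memLp_of_hasCompactSupport (p := 2) a2).mul_const _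
    have h2 : MemLp (fun z : ST n => C' * L * ‖mo ε u z‖) 2 volume :=
      (H.mo_u2 hε).norm.const_mul _
    have h3 := h1.add h2
    refine h3.mono' hkm.aestronglyMeasurable ?_
    filter_upwards with z
    have h4 := (le_abs_self _).trans (hC' z)
    have h5 := H.L0
    rw [Real.norm_of_nonneg (by simp only [hk]; positivity)]
    simp only [hk, Pi.add_apply]
    rw [mul_add]
    have h6 : ‖η z.1‖ * ‖fderiv ℝ ψ z.2‖ * (L * ‖mo ε u z‖) ≤ C' * (L * ‖mo ε u z‖) := by gcongr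
    linarith
  refine ⟨eLpNorm k 2 volume + ENNReal.ofReal (C * L) * (Cdro n ε * eLpNorm u 2 volume), ?_, ?_⟩
  · exact (ENNReal.add_lt_top.2 ⟨hk2.2, ENNReal.mul_lt_top ENNReal.ofReal_lt_top
      (ENNReal.mul_lt_top (Cdro_lt_top hε) H.u2.2)⟩).ne
  · intro v' vm' v2'
    obtain ⟨i1, i2⟩ := H.BB_int hε hη hψ vm' v2'
    unfold BB
    rw [integral_add i1 i2]
    refine (enorm_add_le _ _).trans ?_
    rw [add_mul]
    gcongr
    · refine (enorm_integral_le_lintegral_enorm _).trans ?_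
      refine le_trans ?_ (lintegral_enorm_mul_le hkm.aestronglyMeasurable vm'.aestronglyMeasurable)
      apply lintegral_mono_ae
      filter_upwards [H.mo_mem hε] with z hz
      rw [← ofReal_norm, ← ofReal_norm, ← ofReal_norm, ← ENNReal.ofReal_mul (norm_nonneg _)]
      apply ENNReal.ofReal_le_ofReal
      have h5 := H.L0
      rw [norm_smul, norm_mul, Real.norm_of_nonneg (show 0 ≤ k z by simp only [hk]; positivity)]
      have h6 := H.bnd hz
      calc ‖η z.1‖ * ‖fderiv ℝ ψ z.2 (v' z)‖ * ‖β (mo ε u z)‖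
          ≤ ‖η z.1‖ * (‖fderiv ℝ ψ z.2‖ * ‖v' z‖) * (‖β 0‖ + L * ‖mo ε u z‖) := by
            gcongr
            exact ContinuousLinearMap.le_opNorm _ _
        _ = k z * ‖v' z‖ := by simp only [hk]; ring
    · refine (H.normD (H.mo_mem hε) hC).trans ?_
      rw [mul_assoc]
      gcongr
      refine (qe_bound vm' H.um).trans (le_of_eq ?_)
      ring

theorem BB_bound (H : RH T v u F K β L) {Ω : Set (Eu n)} {G : ST n → Mt n}
    (hv : IsVel Ω T v G) {ε : ℝ} (hε : 0 < ε) {η : ℝ → ℝ} {ψ : Eu n → ℝ}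
    (hη : IsTime (-1) T η) (hψ : IsTest ψ) {C : ℝ} (hC : ∀ z : ST n, ‖η z.1 * ψ z.2‖ ≤ C)
    {δ : ℝ≥0∞} (hδt : δ ≠ ⊤)
    (hδ : ∀ h : Eu n, ‖h‖ ≤ ε → eLpNorm (fun z => u (shf h z) - u z) 2 volume ≤ δ) :
    ‖BB β η ψ ε u v‖ₑ ≤ ENNReal.ofReal (C * L) * (Cro n * eLpNorm G 2 volume * δ) := by
  obtain ⟨Kε, hK1, hK2⟩ := H.BB_crude hε hη hψ
  apply le_of_forall_real (b := ENNReal.ofReal (C * L) * (Cro n * δ) + Kε)
  · exact (ENNReal.add_lt_top.2 ⟨ENNReal.mul_lt_top ENNReal.ofReal_lt_top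
      (ENNReal.mul_lt_top Cro_lt_top hδt.lt_top), hK1.lt_top⟩).ne
  · intro κ hκ
    obtain ⟨v', G', he, h1, h2⟩ := hv.approx κ hκ
    obtain ⟨vm', Gm', -⟩ := elem_meas he
    have v2' : MemLp v' 2 volume := by
      have h3 : MemLp (v - v') 2 volume :=
        ⟨(H.vm.sub vm').aestronglyMeasurable, h1.trans_lt ENNReal.ofReal_lt_top⟩
      have h4 := hv.memv.sub h3
      rwa [sub_sub_cancel] at h4
    have hGd : MemLp (G - G') 2 volume :=
      ⟨hv.memG.1.sub Gm'.aestronglyMeasurable, h2.trans_lt ENNReal.ofReal_lt_top⟩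
    have G2' : MemLp G' 2 volume := by
      have h4 := hv.memG.sub hGd
      rwa [sub_sub_cancel] at h4
    have h5 : eLpNorm G' 2 volume ≤ eLpNorm G 2 volume + ENNReal.ofReal κ := by
      have h6 : G' = G - (G - G') := by rw [sub_sub_cancel]
      calc eLpNorm G' 2 volume = eLpNorm (G - (G - G')) 2 volume := by rw [← h6]
        _ ≤ eLpNorm G 2 volume + eLpNorm (G - G') 2 volume :=
            eLpNorm_sub_le hv.memG.1 hGd.1 (by norm_num)
        _ ≤ _ := by gcongr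
    have h7 : BB β η ψ ε u v = BB β η ψ ε u v' + BB β η ψ ε u (fun z => v z - v' z) := by
      rw [← H.BB_sub hε hη hψ H.vm H.v2 vm' v2']
      abel
    rw [h7]
    refine (enorm_add_le _ _).trans ?_
    have h8 := H.BB_elem_bound hε hη hψ he v2' G2' hC hδ
    have h9 := hK2 (fun z => v z - v' z) (H.vm.sub vm') (H.v2.sub v2')
    have h10 : eLpNorm (fun z => v z - v' z) 2 volume ≤ ENNReal.ofReal κ := h1
    calc ‖BB β η ψ ε u v'‖ₑ + ‖BB β η ψ ε u (fun z => v z - v' z)‖ₑ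
        ≤ ENNReal.ofReal (C * L) * (Cro n * (eLpNorm G 2 volume + ENNReal.ofReal κ) * δ) +
          Kε * ENNReal.ofReal κ := by
          gcongr
          · exact h8.trans (by gcongr)
          · exact h9.trans (by gcongr)
      _ = _ := by ring

end RH

end Pool.Agent.Helper47.Jef
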