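import Pool.Agent.Helper47.JefElem

/-! # The commutator estimate -/

open MeasureTheory Set Filter Topology
open scoped ENNReal ContDiff

namespace Pool.Agent.Helper47.Jef

open Pool.Agent.Helper42.Jef

variable {n : ℕ} {E : Type*} [NormedAddCommGroup E] [NormedSpace ℝ E] [FiniteDimensional ℝ E]

/-- `(u v) * ∇ρ_ε` -/
noncomputable def qe (ε : ℝ) (v : ST n → Eu n) (u : ST n → E) (z : ST n) : E :=
  ∫ y, (fderiv ℝ (ro ε) (z.2 - y) (v (z.1, y))) • u (z.1, y)

/-- the commutator -/
noncomputable def re (ε : ℝ) (v : ST n → Eu n) (u : ST n → E) (z : ST n) : E :=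
  ∫ y, (fderiv ℝ (ro ε) (z.2 - y) (v (z.1, y) - v z)) • u (z.1, y)

theorem dro_cont (ε : ℝ) : Continuous (fun x : Eu n => fderiv ℝ (ro ε) x) :=
  (ro_smooth ε).continuous_fderiv (by simp)

theorem dro_cpt {ε : ℝ} (hε : 0 < ε) : HasCompactSupport (fun x : Eu n => fderiv ℝ (ro ε) x) :=
  (ro_cpt hε).fderiv (𝕜 := ℝ)

theorem ker_cont_cpt {ε : ℝ} (hε : 0 < ε) (x : Eu n) {w : Eu n → Eu n} (hw : Continuous w) :
    Continuous (fun y => fderiv ℝ (ro ε) (x - y) (w y)) ∧
    HasCompactSupport (fun y => fderiv ℝ (ro ε) (x - y) (w y)) := by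
  constructor
  · exact ((dro_cont ε).comp (continuous_const.sub continuous_id)).clm_apply hw
  · have h1 : HasCompactSupport (fun y => fderiv ℝ (ro ε) (x - y)) :=
      (dro_cpt hε).comp_homeomorph (Homeomorph.subLeft x)
    apply h1.mono
    intro y hy
    simp only [Function.mem_support] at hy ⊢
    intro h0
    apply hy
    rw [h0]
    simp

omit [FiniteDimensional ℝ E] in
theorem int_ker {ε : ℝ} (hε : 0 < ε) {u : ST n → E} {t : ℝ} (ht : Good u t) (x : Eu n)
    {w : Eu n → Eu n} (hw : Continuous w) :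
    Integrable (fun y => (fderiv ℝ (ro ε) (x - y) (w y)) • u (t, y)) :=
  LocallyIntegrable.integrable_smul_left_of_hasCompactSupport ht
    (ker_cont_cpt hε x hw).1 (ker_cont_cpt hε x hw).2

theorem mo_contDiff {ε : ℝ} (hε : 0 < ε) {u : ST n → E} {t : ℝ} (ht : Good u t) :
    ContDiff ℝ 1 (fun x => mo ε u (t, x)) :=
  (ro_cpt hε).contDiff_convolution_right (ContinuousLinearMap.lsmul ℝ ℝ).flip ht
    ((ro_smooth ε).of_le (by exact_mod_cast le_top))

theorem mo_fderiv {ε : ℝ} (hε : 0 < ε) {u : ST n → E} {t : ℝ} (ht : Good u t) (x w : Eu n) :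
    fderiv ℝ (fun x => mo ε u (t, x)) x w = ∫ y, (fderiv ℝ (ro ε) (x - y) w) • u (t, y) := by
  have h1 := (ro_cpt hε).hasFDerivAt_convolution_right (μ := (volume : Measure (Eu n)))
    (ContinuousLinearMap.lsmul ℝ ℝ : ℝ →L[ℝ] E →L[ℝ] E).flip ht
    ((ro_smooth ε).of_le (by exact_mod_cast le_top)) x
  have h2 : fderiv ℝ (fun x => mo ε u (t, x)) x = _ := h1.fderiv
  rw [h2, convolution_precompR_apply _ ht (dro_cpt hε) (dro_cont ε)]
  rfl

theorem qe_eq_re {ε : ℝ} (hε : 0 < ε) {v : ST n → Eu n} {u : ST n → E} {z : ST n}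
    (hz : Good u z.1) (hv : Continuous (fun x => v (z.1, x))) :
    qe ε v u z = re ε v u z + fderiv ℝ (fun x => mo ε u (z.1, x)) z.2 (v z) := by
  rw [mo_fderiv hε hz]
  unfold qe re
  have a1 := int_ker hε hz z.2 (w := fun y => v (z.1, y) - v z) (hv.sub continuous_const)
  have a2 := int_ker hε hz z.2 (w := fun _ => v z) continuous_const
  rw [← integral_add a1 a2]
  congr 1
  ext y
  rw [← add_smul, ← map_add, sub_add_cancel]

theorem integral_dro_const {ε : ℝ} (hε : 0 < ε) (x w : Eu n) :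
    ∫ y, fderiv ℝ (ro ε) (x - y) w = 0 := by
  rw [integral_sub_left_eq_self (fun h => fderiv ℝ (ro (n := n) ε) h w) volume x]
  have h1 := integral_mul_fderiv_eq_neg_fderiv_mul_of_integrable (μ := (volume : Measure (Eu n)))
    (f := fun _ => (1 : ℝ)) (g := ro (n := n) ε) (v := w) (by simp) ?_ ?_ ?_ ?_
  · simpa using h1
  · simp only [one_mul]
    apply Continuous.integrable_of_hasCompactSupport
    · exact (dro_cont ε).clm_apply continuous_const
    · exact (dro_cpt hε).comp_left (g := fun L : Eu n →L[ℝ] ℝ => L w) rfl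
  · simpa using ro_integrable hε
  · intro y _
    exact differentiableAt_const _
  · intro y _
    exact (ro_smooth ε).differentiable (by simp) y

theorem integral_dro_div {ε : ℝ} {φ : Eu n → Eu n} (hφ : VT0 φ) (x : Eu n) :
    ∫ y, fderiv ℝ (ro ε) (x - y) (φ y) = 0 := by
  have h1 : ContDiff ℝ 1 (fun y : Eu n => ro ε (x - y)) :=
    ((ro_smooth ε).of_le (by exact_mod_cast le_top)).comp (contDiff_const.sub contDiff_id)
  have h2 := integral_div_free hφ h1
  have h3 : ∀ y, fderiv ℝ (fun y : Eu n => ro ε (x - y)) y (φ y) =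
      - fderiv ℝ (ro ε) (x - y) (φ y) := by
    intro y
    have h4 : HasFDerivAt (fun y : Eu n => x - y) (-ContinuousLinearMap.id ℝ (Eu n)) y :=
      (hasFDerivAt_id y).const_sub x
    have h5 := (((ro_smooth ε).differentiable (by simp) (x - y)).hasFDerivAt).comp y h4
    have h6 : fderiv ℝ (fun y : Eu n => ro ε (x - y)) y = _ := h5.fderiv
    rw [h6]
    simp
  simp only [h3] at h2
  rw [integral_neg, neg_eq_zero] at h2
  exact h2

theorem re_eq {ε : ℝ} (hε : 0 < ε) {v : ST n → Eu n} {u : ST n → E} {z : ST n}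
    (hz : Good u z.1) (hv : VT0 (fun x => v (z.1, x))) :
    re ε v u z = ∫ y, (fderiv ℝ (ro ε) (z.2 - y) (v (z.1, y) - v z)) • (u (z.1, y) - u z) := by
  have hc : Continuous (fun y => v (z.1, y) - v z) := hv.smooth.continuous.sub continuous_const
  have h0 : Integrable (fun y => fderiv ℝ (ro ε) (z.2 - y) (v (z.1, y) - v z)) :=
    (ker_cont_cpt hε z.2 hc).1.integrable_of_hasCompactSupport (ker_cont_cpt hε z.2 hc).2
  have h1 : ∫ y, fderiv ℝ (ro ε) (z.2 - y) (v (z.1, y) - v z) = 0 := by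
    simp only [map_sub]
    rw [integral_sub, integral_dro_div hv, integral_dro_const hε, sub_zero]
    · exact (ker_cont_cpt hε z.2 hv.smooth.continuous).1.integrable_of_hasCompactSupport
        (ker_cont_cpt hε z.2 hv.smooth.continuous).2
    · exact (ker_cont_cpt hε z.2 continuous_const).1.integrable_of_hasCompactSupport
        (ker_cont_cpt hε z.2 continuous_const).2
  simp only [smul_sub]
  rw [integral_sub (int_ker hε hz z.2 hc) (h0.smul_const (u z)), integral_smul_const, h1, zero_smul,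
    sub_zero]
  rfl

theorem dro_enorm_meas (ε : ℝ) : Measurable (fun h : Eu n => ‖fderiv ℝ (ro ε) h‖ₑ) :=
  (dro_cont ε).enorm.measurable

/-- the commutator estimate -/
theorem re_bound {ε : ℝ} (hε : 0 < ε) {Ω : Set (Eu n)} {T : ℝ} {v : ST n → Eu n}
    {G : ST n → Mt n} (hv : IsElem Ω T v G) {u : ST n → E} (hu : StronglyMeasurable u)
    (hg : ∀ᵐ t : ℝ, Good u t) {δ : ℝ≥0∞}
    (hδ : ∀ h : Eu n, ‖h‖ ≤ ε → eLpNorm (fun z => u (shf h z) - u z) 2 volume ≤ δ) :
    ∫⁻ z, ‖re ε v u z‖ₑ ≤ Cro n * eLpNorm G 2 volume * δ := by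
  obtain ⟨hvm, hGm, -⟩ := elem_meas hv
  have hvs : StronglyMeasurable (fun p : ST n × Eu n => v (shf p.2 p.1) - v p.1) :=
    (hvm.comp_measurable shf_cont.measurable).sub (hvm.comp_measurable measurable_fst)
  have hus : StronglyMeasurable (fun p : ST n × Eu n => u (shf p.2 p.1) - u p.1) :=
    (hu.comp_measurable shf_cont.measurable).sub (hu.comp_measurable measurable_fst)
  calc ∫⁻ z, ‖re ε v u z‖ₑ
      ≤ ∫⁻ z : ST n, ∫⁻ h, ‖fderiv ℝ (ro ε) h‖ₑ *
          (‖v (shf h z) - v z‖ₑ * ‖u (shf h z) - u z‖ₑ) := by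
        apply lintegral_mono_ae
        filter_upwards [ae_of_time hg] with z hz
        rw [re_eq hε hz (elem_slice hv z.1).1]
        refine (enorm_integral_le_lintegral_enorm _).trans ?_
        have h1 := lintegral_sub_left_eq_self (μ := (volume : Measure (Eu n)))
          (fun y => ‖fderiv ℝ (ro ε) (z.2 - y)‖ₑ *
          (‖v (z.1, y) - v z‖ₑ * ‖u (z.1, y) - u z‖ₑ)) z.2
        simp only [sub_sub_cancel] at h1
        change _ ≤ ∫⁻ h, ‖fderiv ℝ (ro ε) h‖ₑ *
          (‖v (z.1, z.2 - h) - v z‖ₑ * ‖u (z.1, z.2 - h) - u z‖ₑ)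
        rw [h1]
        apply lintegral_mono
        intro y
        simp only
        rw [enorm_smul, ← mul_assoc]
        gcongr
        exact ContinuousLinearMap.le_opENorm _ _
    _ = ∫⁻ h, ‖fderiv ℝ (ro ε) h‖ₑ *
          ∫⁻ z : ST n, (‖v (shf h z) - v z‖ₑ * ‖u (shf h z) - u z‖ₑ) := by
        exact tonelli_kernel (a := fun p : ST n × Eu n =>
          ‖v (shf p.2 p.1) - v p.1‖ₑ * ‖u (shf p.2 p.1) - u p.1‖ₑ) (dro_enorm_meas ε)
          (hvs.enorm.mul hus.enorm)
    _ ≤ ∫⁻ h : Eu n, (‖fderiv ℝ (ro ε) h‖ₑ * ‖h‖ₑ) * (eLpNorm G 2 volume * δ) := by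
        apply lintegral_mono
        intro h
        beta_reduce
        rcases lt_or_ge ε ‖h‖ with hh | hh
        · have h0 : ‖fderiv ℝ (ro ε) h‖ₑ = 0 := by
            rw [← ofReal_norm, dro_zero hε hh, norm_zero, ENNReal.ofReal_zero]
          rw [h0, zero_mul]
          exact zero_le
        · rw [mul_assoc]
          gcongr
          refine (lintegral_enorm_mul_le (hvs.comp_measurable
            (measurable_id.prodMk measurable_const)).aestronglyMeasurable
            (hus.comp_measurable (measurable_id.prodMk measurable_const)).aestronglyMeasurable).trans ?_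
          rw [← mul_assoc]
          gcongr
          · exact elem_trans hv h
          · exact hδ h hh
    _ = (∫⁻ h : Eu n, ‖fderiv ℝ (ro ε) h‖ₑ * ‖h‖ₑ) * (eLpNorm G 2 volume * δ) := by
        apply lintegral_mul_const
        exact (dro_enorm_meas ε).mul measurable_id.enorm
    _ ≤ Cro n * (eLpNorm G 2 volume * δ) := by
        gcongr
        exact dro_bound hε
    _ = _ := by rw [mul_assoc]

omit [FiniteDimensional ℝ E] in
theorem qe_eq (ε : ℝ) (v : ST n → Eu n) (u : ST n → E) (z : ST n) :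
    qe ε v u z = ∫ h, (fderiv ℝ (ro ε) h (v (shf h z))) • u (shf h z) := by
  unfold qe shf
  exact conv_eq (fun h y => (fderiv ℝ (ro ε) h (v (z.1, y))) • u (z.1, y)) z.2

omit [FiniteDimensional ℝ E] in
theorem qe_meas {ε : ℝ} {v : ST n → Eu n} {u : ST n → E} (hv : StronglyMeasurable v)
    (hu : StronglyMeasurable u) : StronglyMeasurable (qe ε v u) := by
  have h1 : qe ε v u = fun z => ∫ h, (fderiv ℝ (ro ε) h (v (shf h z))) • u (shf h z) :=
    funext (qe_eq ε v u)
  rw [h1]
  have h2 : StronglyMeasurable (fun p : ST n × Eu n =>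
      (fderiv ℝ (ro ε) p.2 (v (shf p.2 p.1))) • u (shf p.2 p.1)) := by
    apply StronglyMeasurable.smul
    · have hc : Continuous (fun q : (Eu n →L[ℝ] ℝ) × Eu n => q.1 q.2) :=
        continuous_fst.clm_apply continuous_snd
      exact hc.comp_stronglyMeasurable
        (((dro_cont ε).comp continuous_snd).stronglyMeasurable.prodMk
          (hv.comp_measurable shf_cont.measurable))
    · exact hu.comp_measurable shf_cont.measurable
  exact h2.integral_prod_right'

/-- the constant for fixed `ε` -/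
noncomputable def Cdro (n : ℕ) (ε : ℝ) : ℝ≥0∞ := ∫⁻ h : Eu n, ‖fderiv ℝ (ro ε) h‖ₑ

theorem Cdro_lt_top {ε : ℝ} (hε : 0 < ε) : Cdro n ε < ⊤ :=
  ((dro_cont ε).integrable_of_hasCompactSupport (dro_cpt hε)).2

theorem qe_bound {ε : ℝ} {v : ST n → Eu n} {u : ST n → E}
    (hv : StronglyMeasurable v) (hu : StronglyMeasurable u) :
    ∫⁻ z, ‖qe ε v u z‖ₑ ≤ Cdro n ε * (eLpNorm v 2 volume * eLpNorm u 2 volume) := by
  have hvs : StronglyMeasurable (fun p : ST n × Eu n => v (shf p.2 p.1)) :=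
    hv.comp_measurable shf_cont.measurable
  have hus : StronglyMeasurable (fun p : ST n × Eu n => u (shf p.2 p.1)) :=
    hu.comp_measurable shf_cont.measurable
  calc ∫⁻ z, ‖qe ε v u z‖ₑ
      ≤ ∫⁻ z : ST n, ∫⁻ h, ‖fderiv ℝ (ro ε) h‖ₑ * (‖v (shf h z)‖ₑ * ‖u (shf h z)‖ₑ) := by
        apply lintegral_mono
        intro z
        simp only
        rw [qe_eq]
        refine (enorm_integral_le_lintegral_enorm _).trans ?_
        apply lintegral_mono
        intro h
        simp only
        rw [enorm_smul, ← mul_assoc]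
        gcongr
        exact ContinuousLinearMap.le_opENorm _ _
    _ = ∫⁻ h, ‖fderiv ℝ (ro ε) h‖ₑ * ∫⁻ z : ST n, (‖v (shf h z)‖ₑ * ‖u (shf h z)‖ₑ) := by
        exact tonelli_kernel (a := fun p : ST n × Eu n =>
          ‖v (shf p.2 p.1)‖ₑ * ‖u (shf p.2 p.1)‖ₑ) (dro_enorm_meas ε)
          (hvs.enorm.mul hus.enorm)
    _ = ∫⁻ h : Eu n, ‖fderiv ℝ (ro ε) h‖ₑ * ∫⁻ z : ST n, (‖v z‖ₑ * ‖u z‖ₑ) := by
        congr 1
        ext h
        rw [lintegral_shf h (fun z => ‖v z‖ₑ * ‖u z‖ₑ)]
    _ = Cdro n ε * ∫⁻ z : ST n, (‖v z‖ₑ * ‖u z‖ₑ) := by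
        rw [lintegral_mul_const _ (dro_enorm_meas ε)]
        rfl
    _ ≤ _ := by
        gcongr
        exact lintegral_enorm_mul_le hv.aestronglyMeasurable hu.aestronglyMeasurable

/-- integrability of the products for a.e. time -/
theorem int_vu {ε : ℝ} (hε : 0 < ε) {v : ST n → Eu n} {u : ST n → E}
    (hv : StronglyMeasurable v) (hu : StronglyMeasurable u) (hv2 : MemLp v 2 volume)
    (hu2 : MemLp u 2 volume) :
    ∀ᵐ t : ℝ, ∀ x : Eu n,
      Integrable (fun y => (fderiv ℝ (ro ε) (x - y) (v (t, y))) • u (t, y)) := by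
  have h1 : Integrable (fun z : ST n => ‖v z‖ * ‖u z‖) := by
    exact hv2.norm.integrable_mul hu2.norm
  have h2 : ∀ᵐ t : ℝ, Integrable (fun y : Eu n => ‖v (t, y)‖ * ‖u (t, y)‖) := by
    rw [Measure.volume_eq_prod] at h1
    exact h1.prod_right_ae
  obtain ⟨C, hC⟩ := (dro_cpt (n := n) hε).exists_bound_of_continuous (dro_cont ε)
  filter_upwards [h2] with t ht x
  refine Integrable.mono' (ht.const_mul C) ?_ ?_
  · apply StronglyMeasurable.aestronglyMeasurable
    apply StronglyMeasurable.smul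
    · have hc : Continuous (fun q : (Eu n →L[ℝ] ℝ) × Eu n => q.1 q.2) :=
        continuous_fst.clm_apply continuous_snd
      exact hc.comp_stronglyMeasurable
        (((dro_cont ε).comp (continuous_const.sub continuous_id)).stronglyMeasurable.prodMk
          (hv.comp_measurable (measurable_const.prodMk measurable_id)))
    · exact hu.comp_measurable (measurable_const.prodMk measurable_id)
  · filter_upwards with y
    rw [norm_smul, ← mul_assoc]
    gcongr
    exact (ContinuousLinearMap.le_opNorm _ _).trans (by gcongr; exact hC _)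

end Pool.Agent.Helper47.Jef
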