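import Pool.Agent.Helper47.JefMo

/-! # Elementary velocity fields: slices, translations, divergence -/

open MeasureTheory Set Filter Topology
open scoped ENNReal ContDiff

namespace Pool.Agent.Helper47.Jef

open Pool.Agent.Helper42.Jef

variable {n : ℕ}

theorem fderiv_apply_sum {F : Type*} [NormedAddCommGroup F] [NormedSpace ℝ F]
    (L : Eu n →L[ℝ] F) (h : Eu n) : L h = ∑ j, h j • L (bv j) := by
  conv_lhs => rw [show h = ∑ j, h j • bv j by
    ext i
    simp [bv, Finset.sum_apply, Pi.single_apply]]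
  rw [map_sum]
  simp only [map_smul]

theorem norm_fderiv_le_grad (φ : Eu n → Eu n) (x h : Eu n) :
    ‖fderiv ℝ φ x h‖ ≤ ‖grad φ x‖ * ‖h‖ := by
  have h1 : ‖fderiv ℝ φ x h‖ ^ 2 ≤ (‖grad φ x‖ * ‖h‖) ^ 2 := by
    rw [mul_pow, EuclideanSpace.norm_sq_eq, EuclideanSpace.norm_sq_eq, EuclideanSpace.norm_sq_eq]
    rw [Fintype.sum_prod_type, Finset.sum_mul]
    apply Finset.sum_le_sum
    intro i _
    rw [fderiv_apply_sum (fderiv ℝ φ x) h]
    have h2 : (∑ j, h j • fderiv ℝ φ x (bv j)) i = ∑ j, (fderiv ℝ φ x (bv j)) i * h j := by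
      simp [Finset.sum_apply, mul_comm]
    rw [h2]
    simp only [Real.norm_eq_abs, sq_abs, grad]
    exact Finset.sum_mul_sq_le_sq_mul_sq _ _ _
  exact le_of_sq_le_sq h1 (by positivity)

/-- divergence free smooth compactly supported fields -/
structure VT0 (φ : Eu n → Eu n) : Prop where
  smooth : ContDiff ℝ ∞ φ
  cpt : HasCompactSupport φ
  div0 : ∀ x, dvg φ x = 0

theorem VT0.add {φ ψ : Eu n → Eu n} (h1 : VT0 φ) (h2 : VT0 ψ) : VT0 (fun x => φ x + ψ x) := by
  refine ⟨h1.smooth.add h2.smooth, h1.cpt.add h2.cpt, fun x => ?_⟩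
  have a1 := h1.div0 x
  have a2 := h2.div0 x
  unfold dvg at *
  have h3 : fderiv ℝ (fun x => φ x + ψ x) x = fderiv ℝ φ x + fderiv ℝ ψ x :=
    fderiv_fun_add (h1.smooth.differentiable (by simp) x) (h2.smooth.differentiable (by simp) x)
  rw [h3]
  simp only [add_apply, PiLp.add_apply, Finset.sum_add_distrib]
  rw [a1, a2, add_zero]

theorem VT0.smul {φ : Eu n → Eu n} (h1 : VT0 φ) (c : ℝ) : VT0 (fun x => c • φ x) := by
  refine ⟨(contDiff_const_smul c).comp h1.smooth,
    h1.cpt.comp_left (g := fun y : Eu n => c • y) (smul_zero c), fun x => ?_⟩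
  have a1 := h1.div0 x
  unfold dvg at *
  have h3 : fderiv ℝ (fun x => c • φ x) x = c • fderiv ℝ φ x :=
    fderiv_fun_const_smul (h1.smooth.differentiable (by simp) x) c
  rw [h3]
  simp only [smul_apply, PiLp.smul_apply, smul_eq_mul, ← Finset.mul_sum]
  rw [a1, mul_zero]

theorem VT0.zero : VT0 (fun _ : Eu n => (0 : Eu n)) := by
  refine ⟨contDiff_const, HasCompactSupport.zero, fun x => ?_⟩
  unfold dvg
  simp

theorem VT0.sum {ι : Type*} (s : Finset ι) {φ : ι → Eu n → Eu n} (h : ∀ i, VT0 (φ i)) :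
    VT0 (fun x => ∑ i ∈ s, φ i x) := by
  classical
  induction s using Finset.induction_on with
  | empty => simpa using VT0.zero
  | insert a s ha ih =>
    have : (fun x => ∑ i ∈ insert a s, φ i x) = fun x => φ a x + ∑ i ∈ s, φ i x := by
      ext1 x
      rw [Finset.sum_insert ha]
    rw [this]
    exact (h a).add ih

theorem elem_slice {Ω : Set (Eu n)} {T : ℝ} {v : ST n → Eu n} {G : ST n → Mt n}
    (h : IsElem Ω T v G) (t : ℝ) :
    VT0 (fun x => v (t, x)) ∧ ∀ x, grad (fun x => v (t, x)) x = G (t, x) := by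
  obtain ⟨N, c, φ, hcm, hcb, hc0, hφ, hv, hG⟩ := h
  have hv' : (fun x => v (t, x)) = fun x => ∑ j, c j t • φ j x := by
    ext1 x
    rw [hv]
  have hVT : ∀ j, VT0 (φ j) := fun j => ⟨(hφ j).smooth, (hφ j).cpt, (hφ j).div0⟩
  constructor
  · rw [hv']
    exact VT0.sum _ fun j => (hVT j).smul _
  · intro x
    rw [hv', hG]
    have h1 : fderiv ℝ (fun x => ∑ j, c j t • φ j x) x = ∑ j, c j t • fderiv ℝ (φ j) x := by
      rw [fderiv_fun_sum]
      · congr 1
        ext1 j
        exact fderiv_fun_const_smul ((hφ j).smooth.differentiable (by simp) x) _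
      · intro j _
        exact ((hφ j).smooth.differentiable (by simp) x).const_smul (c j t)
    ext p
    simp [grad, h1, Finset.sum_apply]

theorem elem_meas {Ω : Set (Eu n)} {T : ℝ} {v : ST n → Eu n} {G : ST n → Mt n}
    (h : IsElem Ω T v G) : StronglyMeasurable v ∧ StronglyMeasurable G ∧ ∃ C : ℝ, ∀ z, ‖v z‖ ≤ C := by
  obtain ⟨N, c, φ, hcm, hcb, hc0, hφ, hv, hG⟩ := h
  have hv' : v = fun z => ∑ j, c j z.1 • φ j z.2 := funext hv
  have hG' : G = fun z => ∑ j, c j z.1 • grad (φ j) z.2 := funext hG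
  have hgm : ∀ j, Continuous (grad (φ j)) := by
    intro j
    unfold grad
    have h1 := (hφ j).smooth.continuous_fderiv (by simp)
    refine (PiLp.continuous_toLp 2 _).comp ?_
    apply continuous_pi
    intro p
    fun_prop
  refine ⟨?_, ?_, ?_⟩
  · rw [hv']
    apply Finset.stronglyMeasurable_fun_sum
    intro j _
    exact ((hcm j).comp measurable_fst).stronglyMeasurable.smul
      ((hφ j).smooth.continuous.comp continuous_snd).stronglyMeasurable
  · rw [hG']
    apply Finset.stronglyMeasurable_fun_sum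
    intro j _
    exact ((hcm j).comp measurable_fst).stronglyMeasurable.smul
      ((hgm j).comp continuous_snd).stronglyMeasurable
  · choose C hC using hcb
    have h2 : ∀ j, ∃ D : ℝ, ∀ x, ‖φ j x‖ ≤ D := fun j =>
      (hφ j).cpt.exists_bound_of_continuous (hφ j).smooth.continuous
    choose D hD using h2
    refine ⟨∑ j, C j * D j, fun z => ?_⟩
    rw [hv]
    refine (norm_sum_le _ _).trans (Finset.sum_le_sum fun j _ => ?_)
    rw [norm_smul]
    have h3 := hC j z.1
    have h4 := hD j z.2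
    rw [Real.norm_eq_abs]
    gcongr
    exact le_trans (abs_nonneg _) h3

/-- translation estimate -/
theorem elem_trans {Ω : Set (Eu n)} {T : ℝ} {v : ST n → Eu n} {G : ST n → Mt n}
    (hv : IsElem Ω T v G) (h : Eu n) :
    eLpNorm (fun z => v (shf h z) - v z) 2 volume ≤ ‖h‖ₑ * eLpNorm G 2 volume := by
  obtain ⟨hvm, hGm, -⟩ := elem_meas hv
  have hsq : eLpNorm (fun z => v (shf h z) - v z) 2 volume ^ 2 ≤
      (‖h‖ₑ * eLpNorm G 2 volume) ^ 2 := by
    rw [mul_pow, eLpNorm_two_sq, eLpNorm_two_sq]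
    have hpt : ∀ z : ST n, ‖v (shf h z) - v z‖ₑ ^ 2 ≤
        ∫⁻ s in Icc (0 : ℝ) 1, (‖h‖ₑ * ‖G (shf (s • h) z)‖ₑ) ^ 2 := by
      intro z
      obtain ⟨hVT, hgr⟩ := elem_slice hv z.1
      set f : Eu n → Eu n := fun x => v (z.1, x) with hf
      let γ : ℝ → Eu n := fun s => f (z.2 - s • h)
      have hγd : ∀ s, HasDerivAt γ (fderiv ℝ f (z.2 - s • h) (-h)) s := by
        intro s
        have h1 : HasFDerivAt f (fderiv ℝ f (z.2 - s • h)) (z.2 - s • h) :=
          (hVT.smooth.differentiable (by simp) _).hasFDerivAt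
        have h2 : HasDerivAt (fun s : ℝ => z.2 - s • h) (-h) s := by
          have := ((hasDerivAt_id s).smul_const h).const_sub z.2
          simpa using this
        exact h1.comp_hasDerivAt s h2
      have hγ : ContDiff ℝ 1 γ :=
        (hVT.smooth.of_le (by exact_mod_cast le_top)).comp
          (contDiff_const.sub (contDiff_id.smul contDiff_const))
      have h3 := enorm_sub_le_lintegral_deriv_of_contDiffOn_Icc (f := γ) hγ.contDiffOn
        zero_le_one
      have h4 : γ 1 - γ 0 = v (shf h z) - v z := by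
        simp [γ, f, shf]
      rw [h4] at h3
      have h5 : ∫⁻ s in Icc (0 : ℝ) 1, ‖deriv γ s‖ₑ ≤
          ∫⁻ s in Icc (0 : ℝ) 1, 1 * (‖h‖ₑ * ‖G (shf (s • h) z)‖ₑ) := by
        apply lintegral_mono
        intro s
        simp only [one_mul]
        rw [(hγd s).deriv, map_neg, enorm_neg, mul_comm, ← ofReal_norm, ← ofReal_norm,
          ← ofReal_norm, ← ENNReal.ofReal_mul (norm_nonneg _)]
        apply ENNReal.ofReal_le_ofReal
        have h6 := norm_fderiv_le_grad f (z.2 - s • h) h
        rw [hgr] at h6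
        exact h6
      have hmeas : Measurable (fun s : ℝ => ‖h‖ₑ * ‖G (shf (s • h) z)‖ₑ) := by
        apply Measurable.const_mul
        apply (hGm.comp_measurable _).enorm
        unfold shf
        fun_prop
      calc ‖v (shf h z) - v z‖ₑ ^ 2
          ≤ (∫⁻ s in Icc (0 : ℝ) 1, 1 * (‖h‖ₑ * ‖G (shf (s • h) z)‖ₑ)) ^ 2 := by
            gcongr
            exact h3.trans h5
        _ ≤ (∫⁻ s in Icc (0 : ℝ) 1, 1) * ∫⁻ s in Icc (0 : ℝ) 1,
              1 * (‖h‖ₑ * ‖G (shf (s • h) z)‖ₑ) ^ 2 :=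
            sq_lintegral_le measurable_const hmeas
        _ = _ := by simp
    calc ∫⁻ z, ‖v (shf h z) - v z‖ₑ ^ 2
        ≤ ∫⁻ z : ST n, ∫⁻ s in Icc (0 : ℝ) 1, (‖h‖ₑ * ‖G (shf (s • h) z)‖ₑ) ^ 2 :=
          lintegral_mono hpt
      _ = ∫⁻ s in Icc (0 : ℝ) 1, ∫⁻ z : ST n, (‖h‖ₑ * ‖G (shf (s • h) z)‖ₑ) ^ 2 := by
          apply lintegral_lintegral_swap
          apply Measurable.aemeasurable
          apply Measurable.pow_const
          apply Measurable.const_mul
          apply (hGm.comp_measurable _).enorm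
          unfold shf
          fun_prop
      _ = ∫⁻ s in Icc (0 : ℝ) 1, ‖h‖ₑ ^ 2 * ∫⁻ z, ‖G z‖ₑ ^ 2 := by
          congr 1
          ext s
          have h7 := lintegral_shf (s • h) (fun z => (‖h‖ₑ * ‖G z‖ₑ) ^ 2)
          rw [h7]
          simp only [mul_pow]
          rw [lintegral_const_mul _ (hGm.enorm.pow_const 2)]
      _ = _ := by simp
  exact (ENNReal.pow_le_pow_left_iff (by norm_num)).1 hsq

/-- integration by parts for divergence free fields -/
theorem integral_div_free {F : Type*} [NormedAddCommGroup F] [NormedSpace ℝ F]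
    [FiniteDimensional ℝ F] {φ : Eu n → Eu n} (hφ : VT0 φ) {g : Eu n → F}
    (hg : ContDiff ℝ 1 g) : ∫ x, fderiv ℝ g x (φ x) = 0 := by
  have hgd : Continuous (fderiv ℝ g) := hg.continuous_fderiv one_ne_zero
  have hφi : ∀ i, ContDiff ℝ ∞ (fun x => φ x i) := fun i => by
    have := hφ.smooth
    exact (contDiff_euclidean.1 this) i
  have hφc : ∀ i, HasCompactSupport (fun x => φ x i) := fun i =>
    hφ.cpt.comp_left (g := fun y : Eu n => y i) rfl
  have h1 : ∀ x, fderiv ℝ g x (φ x) = ∑ i, φ x i • fderiv ℝ g x (bv i) := fun x =>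
    fderiv_apply_sum _ _
  have hint : ∀ i, Integrable (fun x => φ x i • fderiv ℝ g x (bv i)) := by
    intro i
    apply Continuous.integrable_of_hasCompactSupport
    · exact (hφi i).continuous.smul (hgd.clm_apply continuous_const)
    · exact (hφc i).smul_right
  have hfd : ∀ i x, fderiv ℝ (fun x => φ x i) x (bv i) = (fderiv ℝ φ x (bv i)) i := by
    intro i x
    have h2 : HasFDerivAt (fun x => φ x i)
        ((EuclideanSpace.proj (𝕜 := ℝ) i : Eu n →L[ℝ] ℝ).comp (fderiv ℝ φ x)) x :=
      ((EuclideanSpace.proj (𝕜 := ℝ) i : Eu n →L[ℝ] ℝ).hasFDerivAt).comp x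
        (hφ.smooth.differentiable (by simp) x).hasFDerivAt
    rw [h2.fderiv]
    rfl
  have hint2 : ∀ i, Integrable (fun x => fderiv ℝ (fun x => φ x i) x (bv i) • g x) := by
    intro i
    apply Continuous.integrable_of_hasCompactSupport
    · exact (((hφi i).continuous_fderiv (by simp)).clm_apply continuous_const).smul hg.continuous
    · apply HasCompactSupport.smul_right
      exact ((hφc i).fderiv (𝕜 := ℝ)).comp_left (g := fun L : Eu n →L[ℝ] ℝ => L (bv i)) rfl
  have h2 : ∀ i, ∫ x, φ x i • fderiv ℝ g x (bv i) =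
      - ∫ x, fderiv ℝ (fun x => φ x i) x (bv i) • g x := by
    intro i
    apply integral_smul_fderiv_eq_neg_fderiv_smul_of_integrable (hint2 i) (hint i)
    · apply Continuous.integrable_of_hasCompactSupport
      · exact (hφi i).continuous.smul hg.continuous
      · exact (hφc i).smul_right
    · intro x _
      exact (hφi i).differentiable (by simp) x
    · intro x _
      exact hg.differentiable one_ne_zero x
  simp only [h1]
  rw [integral_finsetSum _ fun i _ => hint i]
  simp only [h2]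
  rw [Finset.sum_neg_distrib, ← integral_finsetSum _ fun i _ => hint2 i]
  simp only [hfd, ← Finset.sum_smul]
  have h3 : ∀ x, ∑ i, (fderiv ℝ φ x (bv i)) i = 0 := hφ.div0
  simp only [h3, zero_smul, integral_zero, neg_zero]

end Pool.Agent.Helper47.Jef
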