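import Pool.Agent.Helper47.JefJx

/-! # The mollified renormalised equation on space-time -/

open MeasureTheory Set Filter Topology
open scoped ENNReal ContDiff

namespace Pool.Agent.Helper47.Jef

open Pool.Agent.Helper42.Jef

variable {n : ℕ} {E E' : Type*} [NormedAddCommGroup E] [NormedSpace ℝ E] [FiniteDimensional ℝ E]
  [NormedAddCommGroup E'] [NormedSpace ℝ E'] [FiniteDimensional ℝ E']

/-- the hypotheses of the renormalisation theorem (measurable representatives) -/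
structure RH (T : ℝ) (v : ST n → Eu n) (u F : ST n → E) (K : Set E) (β : E → E') (L : ℝ) :
    Prop where
  hT : 0 < T
  vm : StronglyMeasurable v
  um : StronglyMeasurable u
  Fm : StronglyMeasurable F
  v2 : MemLp v 2 volume
  u2 : MemLp u 2 volume
  F1 : Integrable F volume
  te : TE T v u F
  hK : Convex ℝ K
  hKc : IsClosed K
  hK0 : (0 : E) ∈ K
  uK : ∀ᵐ z, u z ∈ K
  hβ : ContDiff ℝ 1 β
  hL : ∀ x ∈ K, ‖fderiv ℝ β x‖ ≤ L

namespace RH

variable {T : ℝ} {v : ST n → Eu n} {u F : ST n → E} {K : Set E} {β : E → E'} {L : ℝ}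

theorem L0 (H : RH T v u F K β L) : 0 ≤ L := (norm_nonneg _).trans (H.hL 0 H.hK0)

theorem lip (H : RH T v u F K β L) {x y : E} (hx : x ∈ K) (hy : y ∈ K) :
    ‖β y - β x‖ ≤ L * ‖y - x‖ :=
  H.hK.norm_image_sub_le_of_norm_fderiv_le (fun z _ => H.hβ.differentiable one_ne_zero z)
    H.hL hx hy

theorem bnd (H : RH T v u F K β L) {x : E} (hx : x ∈ K) : ‖β x‖ ≤ ‖β 0‖ + L * ‖x‖ := by
  have h1 := H.lip H.hK0 hx
  rw [sub_zero] at h1
  have h2 : ‖β x‖ ≤ ‖β x - β 0‖ + ‖β 0‖ := norm_le_norm_sub_add _ _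
  linarith

theorem good_u (H : RH T v u F K β L) : ∀ᵐ t : ℝ, Good u t :=
  good_ae (H.u2.locallyIntegrable (by norm_num))

theorem good_F (H : RH T v u F K β L) : ∀ᵐ t : ℝ, Good F t :=
  good_ae H.F1.locallyIntegrable

/-- mollification preserves closed convex sets -/
theorem mo_mem (H : RH T v u F K β L) {ε : ℝ} (hε : 0 < ε) : ∀ᵐ z, mo ε u z ∈ K := by
  have h1 : ∀ᵐ t : ℝ, ∀ᵐ y : Eu n, u (t, y) ∈ K := by
    have := H.uK
    rw [Measure.volume_eq_prod] at this
    exact Measure.ae_ae_of_ae_prod this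
  filter_upwards [ae_of_time (H.good_u.and h1)] with z hz
  obtain ⟨hz1, hz2⟩ := hz
  set w : Eu n → ℝ≥0∞ := fun y => ENNReal.ofReal (ro ε (z.2 - y)) with hw
  have hwm : Measurable w := (kerx_cpt hε z.2).1.measurable.ennreal_ofReal
  have hwlt : ∀ᵐ y : Eu n, w y < ⊤ := Eventually.of_forall fun y => ENNReal.ofReal_lt_top
  have hwr : ∀ y, (w y).toReal = ro ε (z.2 - y) := fun y =>
    ENNReal.toReal_ofReal (ro_nonneg hε _)
  have hprob : IsProbabilityMeasure (volume.withDensity w) := by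
    constructor
    rw [withDensity_apply _ MeasurableSet.univ, Measure.restrict_univ]
    have h2 := lintegral_sub_left_eq_self (μ := (volume : Measure (Eu n)))
      (fun y => ENNReal.ofReal (ro ε y)) z.2
    simp only [hw]
    rw [h2, ← ro_lintegral (n := n) hε]
    congr 1
    ext y
    rw [← ofReal_norm, Real.norm_of_nonneg (ro_nonneg hε y)]
  have h3 : ∫ y, u (z.1, y) ∂(volume.withDensity w) ∈ K := by
    apply H.hK.integral_mem H.hKc
    · exact (withDensity_absolutelyContinuous _ _).ae_le hz2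
    · rw [integrable_withDensity_iff_integrable_smul' hwm hwlt]
      simp only [hwr]
      exact good_kernel hz1 (ro_smooth ε).continuous (ro_cpt hε) z.2
  rw [integral_withDensity_eq_integral_toReal_smul hwm hwlt] at h3
  simp only [hwr] at h3
  exact h3

theorem trans_triv {p : ℝ≥0∞} {w : ST n → E} (hw : StronglyMeasurable w) (hp : 1 ≤ p)
    (h : Eu n) : eLpNorm (fun z => w (shf h z) - w z) p volume ≤ 2 * eLpNorm w p volume := by
  have h1 : eLpNorm (fun z => w (shf h z)) p volume = eLpNorm w p volume :=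
    eLpNorm_comp_measurePreserving hw.aestronglyMeasurable (shf_mp h)
  have h2 : AEStronglyMeasurable (fun z => w (shf h z)) volume :=
    hw.aestronglyMeasurable.comp_measurePreserving (shf_mp h)
  calc eLpNorm (fun z => w (shf h z) - w z) p volume
      ≤ eLpNorm (fun z => w (shf h z)) p volume + eLpNorm w p volume :=
        eLpNorm_sub_le h2 hw.aestronglyMeasurable hp
    _ = 2 * eLpNorm w p volume := by rw [h1, two_mul]

theorem mo_u2 (H : RH T v u F K β L) {ε : ℝ} (hε : 0 < ε) : MemLp (mo ε u) 2 volume := by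
  have h1 : MemLp (fun z => mo ε u z - u z) 2 volume := by
    refine ⟨((mo_meas H.um).sub H.um).aestronglyMeasurable, ?_⟩
    refine (mo_sub_L2 hε H.um H.good_u (fun h _ => trans_triv H.um (by norm_num) h)).trans_lt ?_
    exact ENNReal.mul_lt_top (by norm_num) H.u2.2
  have h2 := h1.add H.u2
  refine (memLp_congr_ae ?_).1 h2
  filter_upwards with z
  simp

theorem mo_F1 (H : RH T v u F K β L) {ε : ℝ} (hε : 0 < ε) : Integrable (mo ε F) volume := by
  have h1 : Integrable (fun z => mo ε F z - F z) volume := by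
    rw [← memLp_one_iff_integrable]
    refine ⟨((mo_meas H.Fm).sub H.Fm).aestronglyMeasurable, ?_⟩
    refine (mo_sub_L1 hε H.Fm H.good_F (fun h _ => trans_triv H.Fm le_rfl h)).trans_lt ?_
    exact ENNReal.mul_lt_top (by norm_num) (memLp_one_iff_integrable.2 H.F1).2
  have h2 := h1.add H.F1
  refine h2.congr ?_
  filter_upwards with z
  simp

theorem qe_int {ε : ℝ} (hε : 0 < ε) {v : ST n → Eu n} {u : ST n → E}
    (hv : StronglyMeasurable v) (hu : StronglyMeasurable u) (hv2 : MemLp v 2 volume)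
    (hu2 : MemLp u 2 volume) : Integrable (qe ε v u) volume := by
  refine ⟨(qe_meas hv hu).aestronglyMeasurable, ?_⟩
  refine (qe_bound hv hu).trans_lt ?_
  exact ENNReal.mul_lt_top (Cdro_lt_top hε) (ENNReal.mul_lt_top hv2.2 hu2.2)

/-- weights times `β(w)` -/
theorem intB (H : RH T v u F K β L) {w : ST n → E} (hw : StronglyMeasurable w)
    (hw2 : MemLp w 2 volume) (hwK : ∀ᵐ z, w z ∈ K) {k : ST n → ℝ} (hk1 : Integrable k)
    (hk2 : MemLp k 2 volume) : Integrable (fun z => k z • β (w z)) := by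
  have h1 : Integrable (fun z => ‖k z‖ * ‖β 0‖ + L * (‖k z‖ * ‖w z‖)) :=
    (hk1.norm.mul_const _).add ((hk2.norm.integrable_mul hw2.norm).const_mul _)
  refine h1.mono' ?_ ?_
  · exact hk1.aestronglyMeasurable.smul
      (H.hβ.continuous.comp_stronglyMeasurable hw).aestronglyMeasurable
  · filter_upwards [hwK] with z hz
    rw [norm_smul]
    have := H.bnd hz
    calc ‖k z‖ * ‖β (w z)‖ ≤ ‖k z‖ * (‖β 0‖ + L * ‖w z‖) := by gcongr
      _ = _ := by ring

theorem measD (hβ : ContDiff ℝ 1 β) {w g : ST n → E} (hw : StronglyMeasurable w)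
    (hg : StronglyMeasurable g) : StronglyMeasurable (fun z => fderiv ℝ β (w z) (g z)) := by
  have hc : Continuous (fun q : E × E => fderiv ℝ β q.1 q.2) :=
    ((hβ.continuous_fderiv one_ne_zero).comp continuous_fst).clm_apply continuous_snd
  exact hc.comp_stronglyMeasurable (hw.prodMk hg)

theorem bndD (H : RH T v u F K β L) {w g : ST n → E} (hwK : ∀ᵐ z, w z ∈ K) {k : ST n → ℝ}
    {C : ℝ} (hC : ∀ z, ‖k z‖ ≤ C) :
    ∀ᵐ z, ‖k z • fderiv ℝ β (w z) (g z)‖ ≤ C * L * ‖g z‖ := by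
  have hC0 : 0 ≤ C := (norm_nonneg _).trans (hC 0)
  filter_upwards [hwK] with z hz
  rw [norm_smul]
  have h1 := hC z
  have h2 := H.hL _ hz
  calc ‖k z‖ * ‖fderiv ℝ β (w z) (g z)‖ ≤ C * (L * ‖g z‖) := by
        gcongr
        exact (ContinuousLinearMap.le_opNorm _ _).trans (by gcongr)
    _ = _ := by ring

theorem intD (H : RH T v u F K β L) {w g : ST n → E} (hw : StronglyMeasurable w)
    (hwK : ∀ᵐ z, w z ∈ K) (hg : StronglyMeasurable g) (hg1 : Integrable g)
    {k : ST n → ℝ} (hk : Continuous k) {C : ℝ} (hC : ∀ z, ‖k z‖ ≤ C) :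
    Integrable (fun z => k z • fderiv ℝ β (w z) (g z)) := by
  refine (hg1.norm.const_mul (C * L)).mono' ?_ (H.bndD hwK hC)
  exact hk.aestronglyMeasurable.smul (measD H.hβ hw hg).aestronglyMeasurable

theorem normD (H : RH T v u F K β L) {w g : ST n → E}
    (hwK : ∀ᵐ z, w z ∈ K)
    {k : ST n → ℝ} {C : ℝ} (hC : ∀ z, ‖k z‖ ≤ C) :
    ‖∫ z, k z • fderiv ℝ β (w z) (g z)‖ₑ ≤ ENNReal.ofReal (C * L) * ∫⁻ z, ‖g z‖ₑ := by
  have hC0 : 0 ≤ C := (norm_nonneg _).trans (hC 0)
  refine (enorm_integral_le_lintegral_enorm _).trans ?_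
  rw [← lintegral_const_mul' _ _ ENNReal.ofReal_ne_top]
  apply lintegral_mono_ae
  filter_upwards [H.bndD (g := g) hwK hC] with z hz
  rw [← ofReal_norm, ← ofReal_norm, ← ENNReal.ofReal_mul (mul_nonneg hC0 H.L0)]
  exact ENNReal.ofReal_le_ofReal hz

/-- facts on the weight `η ∂ψ(v)` -/
theorem kv {η : ℝ → ℝ} {ψ : Eu n → ℝ} (hη : IsTime (-1) T η) (hψ : IsTest ψ)
    {v : ST n → Eu n} (vm : StronglyMeasurable v) (v2 : MemLp v 2 volume) :
    StronglyMeasurable (fun z : ST n => η z.1 * fderiv ℝ ψ z.2 (v z)) ∧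
    Integrable (fun z : ST n => η z.1 * fderiv ℝ ψ z.2 (v z)) ∧
    MemLp (fun z : ST n => η z.1 * fderiv ℝ ψ z.2 (v z)) 2 volume := by
  have hηc : Continuous η := hη.smooth.continuous
  have hψc : Continuous (fun x => fderiv ℝ ψ x) := hψ.smooth.continuous_fderiv (by simp)
  have hm : StronglyMeasurable (fun z : ST n => η z.1 * fderiv ℝ ψ z.2 (v z)) := by
    have hc : Continuous (fun q : (Eu n →L[ℝ] ℝ) × Eu n => q.1 q.2) :=
      continuous_fst.clm_apply continuous_snd
    exact (hηc.comp continuous_fst).stronglyMeasurable.mul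
      (hc.comp_stronglyMeasurable ((hψc.comp continuous_snd).stronglyMeasurable.prodMk vm))
  obtain ⟨a1, a2⟩ := prod_cont_cpt (η := fun t => ‖η t‖) (ψ := fun x => ‖fderiv ℝ ψ x‖)
    hηc.norm hη.cpt.norm hψc.norm (hψ.cpt.fderiv (𝕜 := ℝ)).norm
  obtain ⟨C, hC⟩ := a2.exists_bound_of_continuous a1
  have hpt : ∀ z : ST n, ‖η z.1 * fderiv ℝ ψ z.2 (v z)‖ ≤
      (‖η z.1‖ * ‖fderiv ℝ ψ z.2‖) * ‖v z‖ := by
    intro z
    rw [norm_mul, mul_assoc]
    gcongr
    exact ContinuousLinearMap.le_opNorm _ _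
  refine ⟨hm, ?_, ?_⟩
  · have hk2 : MemLp (fun z : ST n => ‖η z.1‖ * ‖fderiv ℝ ψ z.2‖) 2 volume :=
      a1.memLp_of_hasCompactSupport a2
    refine (hk2.integrable_mul v2.norm).mono'
      hm.aestronglyMeasurable ?_
    filter_upwards with z
    exact hpt z
  · refine (v2.norm.const_mul C).mono' hm.aestronglyMeasurable ?_
    filter_upwards with z
    refine (hpt z).trans ?_
    gcongr
    exact (le_abs_self _).trans (hC z)

/-- the mollified equation on space-time -/
theorem J_ST (H : RH T v u F K β L) {ε : ℝ} (hε : 0 < ε) {η : ℝ → ℝ} {ψ : Eu n → ℝ}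
    (hη : IsTime (-1) T η) (hψ : IsTest ψ) :
    ∫ z : ST n, ((deriv η z.1 * ψ z.2) • β (mo ε u z) + (η z.1 * ψ z.2) •
      fderiv ℝ β (mo ε u z) (mo ε F z - qe ε v u z)) = 0 := by
  have hηc : Continuous η := hη.smooth.continuous
  have hηd : Continuous (deriv η) :=
    (hη.smooth.of_le (m := 1) (by exact_mod_cast le_top)).continuous_deriv le_rfl
  obtain ⟨a1, a2⟩ := prod_cont_cpt hηd hη.cpt.deriv hψ.smooth.continuous hψ.cpt
  obtain ⟨b1, b2⟩ := prod_cont_cpt hηc hη.cpt hψ.smooth.continuous hψ.cpt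
  obtain ⟨C, hC⟩ := b2.exists_bound_of_continuous b1
  have i1 := H.intB (mo_meas (ε := ε) H.um) (H.mo_u2 hε) (H.mo_mem hε)
    (a1.integrable_of_hasCompactSupport a2) (a1.memLp_of_hasCompactSupport a2)
  have i2 := H.intD (mo_meas (ε := ε) H.um) (H.mo_mem hε)
    ((mo_meas (ε := ε) H.Fm).sub (qe_meas (ε := ε) H.vm H.um))
    ((H.mo_F1 hε).sub (qe_int hε H.vm H.um H.v2 H.u2)) b1 hC
  have i3 : Integrable (fun z : ST n => (deriv η z.1 * ψ z.2) • β (mo ε u z) +
      (η z.1 * ψ z.2) • fderiv ℝ β (mo ε u z) (mo ε F z - qe ε v u z)) := i1.add i2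
  rw [Measure.volume_eq_prod] at i3 ⊢
  rw [integral_prod_symm _ i3]
  have h1 : ∀ x : Eu n, ∫ t : ℝ, ((deriv η t * ψ x) • β (mo ε u (t, x)) +
      (η t * ψ x) • fderiv ℝ β (mo ε u (t, x)) (mo ε F (t, x) - qe ε v u (t, x))) = 0 := by
    intro x
    have h2 := J_x hε H.hT H.vm H.um H.v2 H.u2 H.F1 H.te H.hβ hη x
    have h3 : ∀ t : ℝ, ((deriv η t * ψ x) • β (mo ε u (t, x)) +
      (η t * ψ x) • fderiv ℝ β (mo ε u (t, x)) (mo ε F (t, x) - qe ε v u (t, x))) =
      ψ x • (deriv η t • β (mo ε u (t, x)) +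
      η t • fderiv ℝ β (mo ε u (t, x)) (mo ε F (t, x) - qe ε v u (t, x))) := by
      intro t
      rw [smul_add, smul_smul, smul_smul, mul_comm (ψ x), mul_comm (ψ x)]
    simp only [h3]
    rw [integral_smul, h2, smul_zero]
  simp only [h1, integral_zero]

end RH

end Pool.Agent.Helper47.Jef
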