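import Pool.Agent.Helper42.Jef.Defs

/-! # One dimensional chain rule for distributional derivatives (du Bois-Reymond) -/

open MeasureTheory Set Filter Topology
open scoped ENNReal ContDiff

namespace Pool.Agent.Helper47.Jef

open Pool.Agent.Helper42.Jef

section OneD
variable {E E' : Type*} [NormedAddCommGroup E] [NormedSpace ℝ E] [FiniteDimensional ℝ E]
    [NormedAddCommGroup E'] [NormedSpace ℝ E'] [FiniteDimensional ℝ E']

theorem chain_primitive_cont {R : ℝ → E} (hR : Continuous R) (c : E)
    {β : E → E'} (hβ : ContDiff ℝ 1 β) {η : ℝ → ℝ} (hη : ContDiff ℝ 1 η)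
    (hc : HasCompactSupport η) :
    ∫ t, (deriv η t • β (c + ∫ s in (0 : ℝ)..t, R s) +
      η t • fderiv ℝ β (c + ∫ s in (0 : ℝ)..t, R s) (R t)) = 0 := by
  have hI : ∀ t, HasDerivAt (fun t => c + ∫ s in (0 : ℝ)..t, R s) (R t) t := fun t =>
    (intervalIntegral.integral_hasDerivAt_right (hR.intervalIntegrable _ _)
      (hR.stronglyMeasurableAtFilter _ _) hR.continuousAt).const_add c
  have hIc : Continuous (fun t => c + ∫ s in (0 : ℝ)..t, R s) :=
    continuous_iff_continuousAt.2 fun t => (hI t).continuousAt
  have hd : ∀ t, HasDerivAt (fun t => η t • β (c + ∫ s in (0 : ℝ)..t, R s))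
      (deriv η t • β (c + ∫ s in (0 : ℝ)..t, R s) +
      η t • fderiv ℝ β (c + ∫ s in (0 : ℝ)..t, R s) (R t)) t := by
    intro t
    have h1 : HasDerivAt η (deriv η t) t := (hη.differentiable one_ne_zero t).hasDerivAt
    have h2 : HasFDerivAt β (fderiv ℝ β (c + ∫ s in (0 : ℝ)..t, R s))
      (c + ∫ s in (0 : ℝ)..t, R s) := (hβ.differentiable one_ne_zero _).hasFDerivAt
    have h3 := h2.comp_hasDerivAt t (hI t)
    have h4 := h1.smul h3
    rw [add_comm]
    exact h4
  have hdc : Continuous (deriv η) := hη.continuous_deriv le_rfl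
  have hfd : Continuous (fderiv ℝ β) := hβ.continuous_fderiv one_ne_zero
  have hcont : Continuous (fun t => deriv η t • β (c + ∫ s in (0 : ℝ)..t, R s) +
      η t • fderiv ℝ β (c + ∫ s in (0 : ℝ)..t, R s) (R t)) :=
    (hdc.smul (hβ.continuous.comp hIc)).add
      (hη.continuous.smul ((hfd.comp hIc).clm_apply hR))
  apply integral_eq_zero_of_hasDerivAt_of_integrable hd
  · apply hcont.integrable_of_hasCompactSupport
    exact (hc.deriv.smul_right).add hc.smul_right
  · apply (hη.continuous.smul (hβ.continuous.comp hIc)).integrable_of_hasCompactSupport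
    exact hc.smul_right

theorem chain_primitive {R : ℝ → E} (hR : Integrable R) (c : E)
    {β : E → E'} (hβ : ContDiff ℝ 1 β) {η : ℝ → ℝ} (hη : ContDiff ℝ 1 η)
    (hc : HasCompactSupport η) :
    ∫ t, (deriv η t • β (c + ∫ s in (0 : ℝ)..t, R s) +
      η t • fderiv ℝ β (c + ∫ s in (0 : ℝ)..t, R s) (R t)) = 0 := by
  have hex : ∀ k : ℕ, ∃ g : ℝ → E, HasCompactSupport g ∧ (∫ x, ‖R x - g x‖) ≤ 1 / ((k : ℝ) + 1) ∧
      Continuous g ∧ Integrable g := fun k =>
    hR.exists_hasCompactSupport_integral_sub_le (by positivity)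
  choose Rk hRkc hRkd hRkcont hRki using hex
  set I : ℝ → E := fun t => ∫ s in (0 : ℝ)..t, R s with hIdef
  set Ik : ℕ → ℝ → E := fun k t => ∫ s in (0 : ℝ)..t, Rk k s with hIkdef
  have hIcont : Continuous I := intervalIntegral.continuous_primitive (fun a b => hR.intervalIntegrable) 0
  have hIkcont : ∀ k, Continuous (Ik k) := fun k =>
    intervalIntegral.continuous_primitive (fun a b => (hRki k).intervalIntegrable) 0
  have hdiff : ∀ k t, ‖Ik k t - I t‖ ≤ 1 / ((k : ℝ) + 1) := by
    intro k t
    have h1 : Ik k t - I t = ∫ s in (0 : ℝ)..t, (Rk k s - R s) := by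
      rw [intervalIntegral.integral_sub (hRki k).intervalIntegrable hR.intervalIntegrable]
    rw [h1]
    calc ‖∫ s in (0 : ℝ)..t, (Rk k s - R s)‖ ≤ ∫ s in uIoc 0 t, ‖Rk k s - R s‖ :=
          intervalIntegral.norm_integral_le_integral_norm_uIoc
      _ ≤ ∫ s, ‖Rk k s - R s‖ := setIntegral_le_integral ((hRki k).sub hR).norm
          (Eventually.of_forall fun x => norm_nonneg _)
      _ = ∫ s, ‖R s - Rk k s‖ := by simp_rw [norm_sub_rev]
      _ ≤ _ := hRkd k
  have hIb : ∀ t, ‖I t‖ ≤ ∫ s, ‖R s‖ := by
    intro t
    calc ‖I t‖ ≤ ∫ s in uIoc 0 t, ‖R s‖ := intervalIntegral.norm_integral_le_integral_norm_uIoc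
      _ ≤ ∫ s, ‖R s‖ := setIntegral_le_integral hR.norm
          (Eventually.of_forall fun x => norm_nonneg _)
  set M : ℝ := (∫ s, ‖R s‖) + 1 with hM
  have hmemS : ∀ k t, c + Ik k t ∈ Metric.closedBall c M := by
    intro k t
    rw [mem_closedBall_iff_norm, add_sub_cancel_left]
    have h1 : ‖Ik k t‖ ≤ ‖Ik k t - I t‖ + ‖I t‖ := norm_le_norm_sub_add _ _
    have h2 := hdiff k t
    have h3 : 1 / ((k : ℝ) + 1) ≤ 1 := by
      rw [div_le_one (by positivity)]
      have : (0 : ℝ) ≤ k := Nat.cast_nonneg k
      linarith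
    have h4 := hIb t
    linarith
  have hcompact : IsCompact (Metric.closedBall c M) := by
    have : ProperSpace E := FiniteDimensional.proper ℝ E
    exact isCompact_closedBall c M
  have hfd : Continuous (fderiv ℝ β) := hβ.continuous_fderiv one_ne_zero
  have hdc : Continuous (deriv η) := hη.continuous_deriv le_rfl
  obtain ⟨Cβ, hCβ⟩ := hcompact.exists_bound_of_continuousOn hβ.continuous.continuousOn
  obtain ⟨CD, hCD⟩ := hcompact.exists_bound_of_continuousOn hfd.continuousOn
  obtain ⟨Cη, hCη⟩ := hc.exists_bound_of_continuous hη.continuous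
  have hCη0 : 0 ≤ Cη := le_trans (norm_nonneg _) (hCη 0)
  have hCD0 : 0 ≤ CD := le_trans (norm_nonneg _) (hCD _ (hmemS 0 0))
  have hetai : Integrable (deriv η) := hdc.integrable_of_hasCompactSupport hc.deriv
  -- the dominated part
  have hmeasD : ∀ k, AEStronglyMeasurable (fun t => deriv η t • β (c + Ik k t) +
      η t • fderiv ℝ β (c + Ik k t) (R t)) := by
    intro k
    have hk : Continuous (fun t => c + Ik k t) := continuous_const.add (hIkcont k)
    refine ((hdc.smul (hβ.continuous.comp hk)).aestronglyMeasurable).add ?_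
    refine hη.continuous.aestronglyMeasurable.smul ?_
    exact ContinuousLinearMap.aestronglyMeasurable_comp₂ (ContinuousLinearMap.apply ℝ E').flip
      (hfd.comp hk).aestronglyMeasurable hR.aestronglyMeasurable
  have hlim1 : Tendsto (fun k => ∫ t, (deriv η t • β (c + Ik k t) +
      η t • fderiv ℝ β (c + Ik k t) (R t))) atTop
      (𝓝 (∫ t, (deriv η t • β (c + I t) + η t • fderiv ℝ β (c + I t) (R t)))) := by
    apply tendsto_integral_of_dominated_convergence
      (bound := fun t => ‖deriv η t‖ * Cβ + Cη * (CD * ‖R t‖)) hmeasD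
    · exact (hetai.norm.mul_const _).add ((hR.norm.const_mul _).const_mul _)
    · intro k
      filter_upwards with t
      calc _ ≤ ‖deriv η t • β (c + Ik k t)‖ + ‖η t • fderiv ℝ β (c + Ik k t) (R t)‖ := norm_add_le _ _
        _ ≤ ‖deriv η t‖ * Cβ + Cη * (CD * ‖R t‖) := by
          rw [norm_smul, norm_smul]
          have h1 := hCβ _ (hmemS k t)
          have h2 := hCD _ (hmemS k t)
          have h3 := hCη t
          have h4 := (fderiv ℝ β (c + Ik k t)).le_opNorm (R t)
          gcongr
          exact h4.trans (by gcongr)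
    · filter_upwards with t
      have hIt : Tendsto (fun k => Ik k t) atTop (𝓝 (I t)) := by
        rw [tendsto_iff_norm_sub_tendsto_zero]
        exact squeeze_zero (fun k => norm_nonneg _) (fun k => hdiff k t)
          tendsto_one_div_add_atTop_nhds_zero_nat
      have h1 : Tendsto (fun k => c + Ik k t) atTop (𝓝 (c + I t)) := hIt.const_add c
      have h2 := (hβ.continuous.tendsto _).comp h1
      have h3 : Tendsto (fun k => fderiv ℝ β (c + Ik k t)) atTop (𝓝 (fderiv ℝ β (c + I t))) :=
        (hfd.tendsto _).comp h1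
      have h4 : Tendsto (fun k => fderiv ℝ β (c + Ik k t) (R t)) atTop
          (𝓝 (fderiv ℝ β (c + I t) (R t))) :=
        ((ContinuousLinearMap.apply ℝ E' (R t)).continuous.tendsto _).comp h3
      exact (h2.const_smul _).add (h4.const_smul _)
  have hlim2 : Tendsto (fun k => ∫ t, (deriv η t • β (c + Ik k t) +
      η t • fderiv ℝ β (c + Ik k t) (R t))) atTop (𝓝 0) := by
    rw [tendsto_zero_iff_norm_tendsto_zero]
    refine squeeze_zero (fun k => norm_nonneg _) (g := fun k : ℕ => Cη * CD * (1 / ((k : ℝ) + 1)))
      (fun k => ?_) ?_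
    · have h0 := chain_primitive_cont (hRkcont k) c hβ hη hc
      have hk : Continuous (fun t => c + Ik k t) := continuous_const.add (hIkcont k)
      have hi1 : Integrable (fun t => deriv η t • β (c + Ik k t) +
          η t • fderiv ℝ β (c + Ik k t) (R t)) := by
        refine Integrable.mono' (g := fun t => ‖deriv η t‖ * Cβ + Cη * (CD * ‖R t‖))
          ((hetai.norm.mul_const _).add ((hR.norm.const_mul _).const_mul _)) (hmeasD k) ?_
        filter_upwards with t
        calc _ ≤ ‖deriv η t • β (c + Ik k t)‖ + ‖η t • fderiv ℝ β (c + Ik k t) (R t)‖ :=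
              norm_add_le _ _
          _ ≤ ‖deriv η t‖ * Cβ + Cη * (CD * ‖R t‖) := by
            rw [norm_smul, norm_smul]
            have h1 := hCβ _ (hmemS k t)
            have h2 := hCD _ (hmemS k t)
            have h3 := hCη t
            have h4 := (fderiv ℝ β (c + Ik k t)).le_opNorm (R t)
            gcongr
            exact h4.trans (by gcongr)
      have hi2 : Integrable (fun t => deriv η t • β (c + Ik k t) +
          η t • fderiv ℝ β (c + Ik k t) (Rk k t)) := by
        apply Continuous.integrable_of_hasCompactSupport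
        · exact (hdc.smul (hβ.continuous.comp hk)).add
            (hη.continuous.smul ((hfd.comp hk).clm_apply (hRkcont k)))
        · exact (hc.deriv.smul_right).add hc.smul_right
      have h5 : ∫ t, (deriv η t • β (c + Ik k t) + η t • fderiv ℝ β (c + Ik k t) (R t)) =
          ∫ t, (η t • fderiv ℝ β (c + Ik k t) (R t - Rk k t)) := by
        rw [← sub_zero (∫ t, (deriv η t • β (c + Ik k t) + η t • fderiv ℝ β (c + Ik k t) (R t))),
          ← h0, ← integral_sub hi1 hi2]
        congr 1
        ext t
        rw [map_sub, smul_sub]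
        abel
      rw [h5]
      calc ‖∫ t, (η t • fderiv ℝ β (c + Ik k t) (R t - Rk k t))‖
          ≤ ∫ t, Cη * CD * ‖R t - Rk k t‖ := by
            apply norm_integral_le_of_norm_le ((hR.sub (hRki k)).norm.const_mul _)
            filter_upwards with t
            rw [norm_smul]
            have h2 := hCD _ (hmemS k t)
            have h3 := hCη t
            have h4 := (fderiv ℝ β (c + Ik k t)).le_opNorm (R t - Rk k t)
            calc ‖η t‖ * ‖fderiv ℝ β (c + Ik k t) (R t - Rk k t)‖
                ≤ Cη * (CD * ‖R t - Rk k t‖) := by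
                  gcongr
                  exact h4.trans (by gcongr)
              _ = Cη * CD * ‖R t - Rk k t‖ := by ring
        _ = Cη * CD * ∫ t, ‖R t - Rk k t‖ := integral_const_mul _ _
        _ ≤ Cη * CD * (1 / ((k : ℝ) + 1)) := by
            gcongr
            exact hRkd k
    · simpa using tendsto_one_div_add_atTop_nhds_zero_nat.const_mul (Cη * CD)
  exact tendsto_nhds_unique hlim1 hlim2

/-- du Bois-Reymond -/
theorem dbr {W : ℝ → E} {a b : ℝ} (hab : a < b) (hW : IntegrableOn W (Ioo a b))
    (h : ∀ η, IsTime a b η → ∫ t, deriv η t • W t = 0) :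
    ∃ c : E, ∀ᵐ t, t ∈ Ioo a b → W t = c := by
  have _ : CompleteSpace E := FiniteDimensional.complete ℝ E
  -- integrability of products
  have hint : ∀ g : ℝ → ℝ, Continuous g → HasCompactSupport g → tsupport g ⊆ Ioo a b →
      Integrable (fun t => g t • W t) := by
    intro g hg hgc hgs
    obtain ⟨C, hC⟩ := hgc.exists_bound_of_continuous hg
    have h1 : (fun t => g t • W t) = (Ioo a b).indicator (fun t => g t • W t) := by
      ext t
      by_cases ht : t ∈ Ioo a b
      · rw [indicator_of_mem ht]
      · rw [indicator_of_notMem ht, image_eq_zero_of_notMem_tsupport (fun h => ht (hgs h)), zero_smul]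
    rw [h1, integrable_indicator_iff measurableSet_Ioo]
    exact hW.bdd_smul C hg.aestronglyMeasurable (Eventually.of_forall hC)
  -- a fixed bump
  let m : ℝ := (a + b) / 2
  let θb : ContDiffBump m := ⟨(b - a) / 8, (b - a) / 4, by linarith, by linarith⟩
  let θ : ℝ → ℝ := θb.normed volume
  have hθ1 : ∫ t, θ t = 1 := θb.integral_normed
  have hθs : ContDiff ℝ ∞ θ := θb.contDiff_normed
  have hθc : HasCompactSupport θ := θb.hasCompactSupport_normed
  have hθsupp : tsupport θ ⊆ Ioo a b := by
    rw [θb.tsupport_normed_eq, Real.closedBall_eq_Icc]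
    intro t ht
    have : θb.rOut = (b - a) / 4 := rfl
    rw [this] at ht
    simp only [m] at ht
    constructor <;> [linarith [ht.1]; linarith [ht.2]]
  refine ⟨∫ t, θ t • W t, ?_⟩
  set c : E := ∫ t, θ t • W t with hcdef
  have key := isOpen_Ioo.ae_eq_zero_of_integral_contDiff_smul_eq_zero (U := Ioo a b)
    (f := fun t => W t - c) (μ := volume) ?_ ?_
  · filter_upwards [key] with t ht hmem
    exact sub_eq_zero.1 (ht hmem)
  · exact (hW.sub (integrableOn_const (by simp))).locallyIntegrableOn
  · intro g hg hgc hgs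
    let M : ℝ := ∫ t, g t
    let g₀ : ℝ → ℝ := fun t => g t - M * θ t
    have hg₀ : ContDiff ℝ ∞ g₀ := hg.sub (contDiff_const.mul hθs)
    have hg₀c : HasCompactSupport g₀ := hgc.sub hθc.mul_left
    have hgi : Integrable g := hg.continuous.integrable_of_hasCompactSupport hgc
    have hθi : Integrable θ := hθs.continuous.integrable_of_hasCompactSupport hθc
    have hg₀i : Integrable g₀ := hg₀.continuous.integrable_of_hasCompactSupport hg₀c
    have hg₀0 : ∫ t, g₀ t = 0 := by
      simp only [g₀]
      rw [integral_sub hgi (hθi.const_mul M), integral_const_mul, hθ1, mul_one, sub_self]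
    -- supports
    obtain ⟨a', b', ha', hb', hab', hsub⟩ : ∃ a' b', a < a' ∧ b' < b ∧ a' ≤ b' ∧
        ∀ t, g₀ t ≠ 0 → t ∈ Icc a' b' := by
      have hK : IsCompact (tsupport g ∪ tsupport θ) := hgc.isCompact.union hθc.isCompact
      have hne : (tsupport g ∪ tsupport θ).Nonempty := by
        by_contra hcon
        rw [not_nonempty_iff_eq_empty, union_empty_iff] at hcon
        have : θ = 0 := tsupport_eq_empty_iff.1 hcon.2
        rw [this] at hθ1
        simp at hθ1
      have hKs : tsupport g ∪ tsupport θ ⊆ Ioo a b := union_subset hgs hθsupp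
      refine ⟨sInf (tsupport g ∪ tsupport θ), sSup (tsupport g ∪ tsupport θ),
        (hKs (hK.sInf_mem hne)).1, (hKs (hK.sSup_mem hne)).2,
        csInf_le_csSup hne hK.bddBelow hK.bddAbove, ?_⟩
      intro t ht
      have htm : t ∈ tsupport g ∪ tsupport θ := by
        by_contra hcon
        rw [mem_union, not_or] at hcon
        apply ht
        simp only [g₀]
        rw [image_eq_zero_of_notMem_tsupport hcon.1, image_eq_zero_of_notMem_tsupport hcon.2]
        simp
      exact ⟨csInf_le hK.bddBelow htm, le_csSup hK.bddAbove htm⟩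
    -- the primitive
    let η : ℝ → ℝ := fun t => ∫ s in a..t, g₀ s
    have hηd : ∀ t, HasDerivAt η (g₀ t) t := fun t =>
      intervalIntegral.integral_hasDerivAt_right (hg₀.continuous.intervalIntegrable _ _)
      (hg₀.continuous.stronglyMeasurableAtFilter _ _) hg₀.continuous.continuousAt
    have hderiv : deriv η = g₀ := funext fun t => (hηd t).deriv
    have hηs : ContDiff ℝ ∞ η := by
      rw [contDiff_infty_iff_deriv]
      exact ⟨fun t => (hηd t).differentiableAt, by rw [hderiv]; exact hg₀⟩
    have hη0 : ∀ t, t ∉ Icc a' b' → η t = 0 := by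
      intro t ht
      rw [mem_Icc, not_and_or, not_le, not_le] at ht
      rcases ht with ht | ht
      · simp only [η]
        apply intervalIntegral.integral_zero_ae
        filter_upwards with s hs
        by_contra hcon
        have h1 := hsub s hcon
        have h2 : s ≤ max a t := (mem_uIoc.1 hs).elim (fun h => le_max_of_le_right h.2)
          (fun h => le_max_of_le_left h.2)
        have h3 : max a t < a' := max_lt ha' ht
        linarith [h1.1]
      · have h1 : η t = ∫ s, g₀ s := by
          simp only [η]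
          rcases le_total a t with hat | hat
          · rw [intervalIntegral.integral_of_le hat]
            rw [← integral_indicator measurableSet_Ioc]
            congr 1
            ext s
            by_cases hs : s ∈ Ioc a t
            · rw [indicator_of_mem hs]
            · rw [indicator_of_notMem hs]
              by_contra hcon
              have h2 := hsub s (Ne.symm hcon)
              exact hs ⟨lt_of_lt_of_le ha' h2.1, h2.2.trans ht.le⟩
          · exfalso
            linarith
        rw [h1, hg₀0]
    have hηT : IsTime a b η := by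
      refine ⟨hηs, ?_, ?_⟩
      · exact HasCompactSupport.intro isCompact_Icc hη0
      · have h1 : tsupport η ⊆ Icc a' b' := by
          apply closure_minimal _ isClosed_Icc
          intro t ht
          by_contra hcon
          exact ht (hη0 t hcon)
        exact h1.trans (Icc_subset_Ioo ha' hb')
    have h0 := h η hηT
    rw [hderiv] at h0
    have hgW := hint g hg.continuous hgc hgs
    have hθW := hint θ hθs.continuous hθc hθsupp
    have h1 : ∫ t, g₀ t • W t = (∫ t, g t • W t) - M • c := by
      simp only [g₀, sub_smul, mul_smul]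
      have hθW' : Integrable (fun t => M • θ t • W t) := hθW.smul M
      rw [integral_sub hgW hθW', integral_smul]
    have h2 : ∫ t, g t • (W t - c) = (∫ t, g t • W t) - M • c := by
      simp only [smul_sub]
      rw [integral_sub hgW (hgi.smul_const c), integral_smul_const]
    rw [h2, ← h1, h0]

/-- chain rule for weak derivatives on an interval -/
theorem oneD {U R : ℝ → E} {a b : ℝ} (hab : a < b) (hU : IntegrableOn U (Ioo a b))
    (hR : Integrable R)
    (h : ∀ η, IsTime a b η → ∫ t, (deriv η t • U t + η t • R t) = 0)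
    {β : E → E'} (hβ : ContDiff ℝ 1 β) {η : ℝ → ℝ} (hη : IsTime a b η) :
    ∫ t, (deriv η t • β (U t) + η t • fderiv ℝ β (U t) (R t)) = 0 := by
  set I : ℝ → E := fun t => ∫ s in (0 : ℝ)..t, R s with hIdef
  have hIcont : Continuous I :=
    intervalIntegral.continuous_primitive (fun a b => hR.intervalIntegrable) 0
  have hzero : ∀ ζ : ℝ → ℝ, IsTime a b ζ → ∀ t, t ∉ Ioo a b → ζ t = 0 ∧ deriv ζ t = 0 := by
    intro ζ hζ t ht
    refine ⟨image_eq_zero_of_notMem_tsupport fun h => ht (hζ.supp h),
      image_eq_zero_of_notMem_tsupport fun h => ht (hζ.supp (tsupport_deriv_subset h))⟩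
  obtain ⟨c, hc⟩ : ∃ c : E, ∀ᵐ t, t ∈ Ioo a b → U t - I t = c := by
    have hIi : IntegrableOn I (Ioo a b) :=
      (hIcont.integrableOn_Icc (a := a) (b := b)).mono_set Ioo_subset_Icc_self
    apply dbr hab (hU.sub hIi)
    intro ζ hζ
    have hζ1 : ContDiff ℝ 1 ζ := hζ.smooth.of_le (by exact_mod_cast le_top)
    have hζd : Continuous (deriv ζ) := hζ1.continuous_deriv le_rfl
    have h1 := chain_primitive hR (0 : E) (β := (id : E → E)) contDiff_id hζ1 hζ.cpt
    simp only [zero_add, id] at h1
    have h2 := h ζ hζ
    obtain ⟨C, hC⟩ := hζ.cpt.exists_bound_of_continuous hζ.smooth.continuous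
    have hi2 : Integrable (fun t => ζ t • R t) :=
      hR.bdd_smul C hζ.smooth.continuous.aestronglyMeasurable (Eventually.of_forall hC)
    obtain ⟨C', hC'⟩ := hζ.cpt.deriv.exists_bound_of_continuous hζd
    have hi1 : Integrable (fun t => deriv ζ t • U t) := by
      have h1 : (fun t => deriv ζ t • U t) = (Ioo a b).indicator (fun t => deriv ζ t • U t) := by
        ext t
        by_cases ht : t ∈ Ioo a b
        · rw [indicator_of_mem ht]
        · rw [indicator_of_notMem ht, (hzero ζ hζ t ht).2, zero_smul]
      rw [h1, integrable_indicator_iff measurableSet_Ioo]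
      exact hU.bdd_smul C' hζd.aestronglyMeasurable (Eventually.of_forall hC')
    have hi3 : Integrable (fun t => deriv ζ t • I t) :=
      (hζd.smul hIcont).integrable_of_hasCompactSupport hζ.cpt.deriv.smul_right
    have h1' : ∫ t, (deriv ζ t • I t + ζ t • R t) = 0 := by
      simpa using h1
    rw [integral_add hi3 hi2] at h1'
    rw [integral_add hi1 hi2] at h2
    have h3 : ∫ t, deriv ζ t • (U - I) t = (∫ t, deriv ζ t • U t) - ∫ t, deriv ζ t • I t := by
      rw [← integral_sub hi1 hi3]
      congr 1
      ext t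
      rw [Pi.sub_apply, smul_sub]
    rw [h3, eq_neg_of_add_eq_zero_left h2, eq_neg_of_add_eq_zero_left h1', sub_self]
  have h4 := chain_primitive hR c hβ (hη.smooth.of_le (by exact_mod_cast le_top)) hη.cpt
  rw [← h4]
  apply integral_congr_ae
  filter_upwards [hc] with t ht
  by_cases hmem : t ∈ Ioo a b
  · have h5 : U t = c + I t := by
      rw [← ht hmem]; abel
    rw [h5]
  · rw [(hzero η hη t hmem).1, (hzero η hη t hmem).2]
    simp

end OneD

end Pool.Agent.Helper47.Jef
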