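import Pool.Agent.Helper47.JefComm
import Pool.Agent.Helper47.JefOneD

/-! # The mollified equation -/

open MeasureTheory Set Filter Topology
open scoped ENNReal ContDiff

namespace Pool.Agent.Helper47.Jef

open Pool.Agent.Helper42.Jef

variable {n : ℕ} {E E' : Type*} [NormedAddCommGroup E] [NormedSpace ℝ E] [FiniteDimensional ℝ E]
  [NormedAddCommGroup E'] [NormedSpace ℝ E'] [FiniteDimensional ℝ E']

omit [FiniteDimensional ℝ E] in
theorem int2 {k : ST n → ℝ} (hk : MemLp k 2 volume) {w : ST n → E} (hw : MemLp w 2 volume) :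
    Integrable (fun z => k z • w z) :=
  memLp_one_iff_integrable.1 (hw.smul hk)

theorem prod_cont_cpt {η : ℝ → ℝ} {ψ : Eu n → ℝ} (hη : Continuous η) (hηc : HasCompactSupport η)
    (hψ : Continuous ψ) (hψc : HasCompactSupport ψ) :
    Continuous (fun z : ST n => η z.1 * ψ z.2) ∧
    HasCompactSupport (fun z : ST n => η z.1 * ψ z.2) := by
  constructor
  · exact (hη.comp continuous_fst).mul (hψ.comp continuous_snd)
  · apply HasCompactSupport.intro (hηc.isCompact.prod hψc.isCompact)
    rintro ⟨t, x⟩ hz
    rw [mem_prod, not_and_or] at hz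
    rcases hz with hz | hz
    · simp only at hz ⊢
      rw [image_eq_zero_of_notMem_tsupport hz, zero_mul]
    · simp only at hz ⊢
      rw [image_eq_zero_of_notMem_tsupport hz, mul_zero]

theorem kerx_cpt {ε : ℝ} (hε : 0 < ε) (x : Eu n) :
    Continuous (fun y => ro ε (x - y)) ∧ HasCompactSupport (fun y => ro ε (x - y)) :=
  ⟨(ro_smooth ε).continuous.comp (continuous_const.sub continuous_id),
    (ro_cpt hε).comp_homeomorph (Homeomorph.subLeft x)⟩

theorem kerx_test {ε : ℝ} (hε : 0 < ε) (x : Eu n) : IsTest (fun y => ro ε (x - y)) :=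
  ⟨(ro_smooth ε).comp (contDiff_const.sub contDiff_id), (kerx_cpt hε x).2⟩

theorem kerx_fderiv {ε : ℝ} (x y w : Eu n) :
    fderiv ℝ (fun y : Eu n => ro ε (x - y)) y w = - fderiv ℝ (ro ε) (x - y) w := by
  have h4 : HasFDerivAt (fun y : Eu n => x - y) (-ContinuousLinearMap.id ℝ (Eu n)) y :=
    (hasFDerivAt_id y).const_sub x
  have h5 := (((ro_smooth ε).differentiable (by simp) (x - y)).hasFDerivAt).comp y h4
  have h6 : fderiv ℝ (fun y : Eu n => ro ε (x - y)) y = _ := h5.fderiv
  rw [h6]
  simp

/-- integrability of `D ρ_ε(x - y)(v) u` -/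
theorem int_qe {ε : ℝ} (hε : 0 < ε) {v : ST n → Eu n} {u : ST n → E}
    (hv : StronglyMeasurable v) (hu : StronglyMeasurable u) (hv2 : MemLp v 2 volume)
    (hu2 : MemLp u 2 volume) (x : Eu n) :
    Integrable (fun z : ST n => (fderiv ℝ (ro ε) (x - z.2) (v z)) • u z) := by
  have h1 : Integrable (fun z : ST n => ‖v z‖ * ‖u z‖) := hv2.norm.integrable_mul hu2.norm
  obtain ⟨C, hC⟩ := (dro_cpt (n := n) hε).exists_bound_of_continuous (dro_cont ε)
  refine Integrable.mono' (h1.const_mul C) ?_ ?_
  · apply StronglyMeasurable.aestronglyMeasurable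
    apply StronglyMeasurable.smul
    · have hc : Continuous (fun q : (Eu n →L[ℝ] ℝ) × Eu n => q.1 q.2) :=
        continuous_fst.clm_apply continuous_snd
      exact hc.comp_stronglyMeasurable
        (((dro_cont ε).comp (continuous_const.sub continuous_snd)).stronglyMeasurable.prodMk hv)
    · exact hu
  · filter_upwards with z
    rw [norm_smul, ← mul_assoc]
    gcongr
    exact (ContinuousLinearMap.le_opNorm _ _).trans (by gcongr; exact hC _)

theorem bdd_smul_int {w : ST n → E} (hw : Integrable w) {k : ST n → ℝ} (hk : Continuous k)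
    {C : ℝ} (hC : ∀ z, ‖k z‖ ≤ C) : Integrable (fun z => k z • w z) :=
  hw.bdd_smul C hk.aestronglyMeasurable (Eventually.of_forall hC)

/-- the one dimensional identity at every point `x` -/
theorem J_x {ε : ℝ} (hε : 0 < ε) {T : ℝ} (hT : 0 < T) {v : ST n → Eu n} {u F : ST n → E}
    (hv : StronglyMeasurable v) (hu : StronglyMeasurable u)
    (hv2 : MemLp v 2 volume) (hu2 : MemLp u 2 volume) (hF1 : Integrable F volume)
    (h : TE T v u F) {β : E → E'} (hβ : ContDiff ℝ 1 β) {η : ℝ → ℝ} (hη : IsTime (-1) T η)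
    (x : Eu n) :
    ∫ t, (deriv η t • β (mo ε u (t, x)) +
      η t • fderiv ℝ β (mo ε u (t, x)) (mo ε F (t, x) - qe ε v u (t, x))) = 0 := by
  obtain ⟨Cr, hCr⟩ := (kerx_cpt hε x).2.exists_bound_of_continuous (kerx_cpt hε x).1
  have hkc : Continuous (fun z : ST n => ro ε (x - z.2)) := (kerx_cpt hε x).1.comp continuous_snd
  -- integrability of the building blocks
  have iF : Integrable (fun z : ST n => ro ε (x - z.2) • F z) :=
    bdd_smul_int hF1 hkc (fun z => hCr z.2)
  have iq := int_qe hε hv hu hv2 hu2 x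
  have iu : IntegrableOn (fun t => mo ε u (t, x)) (Ioo (-1) T) := by
    have hk2 : MemLp (fun z : ST n => (Ioo (-1 : ℝ) T ×ˢ univ : Set (ST n)).indicator
        (fun z => ro ε (x - z.2)) z) 2 volume := by
      have hind : MemLp ((Ioo (-1 : ℝ) T ×ˢ Metric.closedBall x ε : Set (ST n)).indicator
          (fun _ => Cr)) 2 volume := by
        apply memLp_indicator_const
        · exact measurableSet_Ioo.prod Metric.isClosed_closedBall.measurableSet
        · right
          rw [Measure.volume_eq_prod, Measure.prod_prod]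
          exact (ENNReal.mul_lt_top (by simp) measure_closedBall_lt_top).ne
      refine hind.mono ?_ ?_
      · exact (hkc.stronglyMeasurable.indicator
          (measurableSet_Ioo.prod MeasurableSet.univ)).aestronglyMeasurable
      · filter_upwards with z
        by_cases hz1 : z.1 ∈ Ioo (-1 : ℝ) T
        · by_cases hz2 : z.2 ∈ Metric.closedBall x ε
          · rw [indicator_of_mem (show z ∈ (Ioo (-1 : ℝ) T ×ˢ univ : Set (ST n)) from ⟨hz1, trivial⟩),
              indicator_of_mem (show z ∈ (Ioo (-1 : ℝ) T ×ˢ Metric.closedBall x ε : Set (ST n))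
                from ⟨hz1, hz2⟩)]
            exact (hCr z.2).trans (le_abs_self _)
          · rw [indicator_of_mem (show z ∈ (Ioo (-1 : ℝ) T ×ˢ univ : Set (ST n)) from ⟨hz1, trivial⟩)]
            have : ro ε (x - z.2) = 0 := by
              apply ro_zero hε
              rw [Metric.mem_closedBall, dist_comm, dist_eq_norm, not_le] at hz2
              exact hz2.le
            rw [this, norm_zero]
            exact norm_nonneg _
        · rw [indicator_of_notMem (fun hm => hz1 hm.1), norm_zero]
          exact norm_nonneg _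
    have h1 := int2 hk2 hu2
    rw [Measure.volume_eq_prod] at h1
    have h2 := h1.integral_prod_left
    rw [← integrable_indicator_iff measurableSet_Ioo]
    refine h2.congr ?_
    filter_upwards with t
    by_cases ht : t ∈ Ioo (-1 : ℝ) T
    · rw [indicator_of_mem ht]
      unfold mo
      congr 1
      ext1 y
      rw [indicator_of_mem (show (t, y) ∈ (Ioo (-1 : ℝ) T ×ˢ univ : Set (ST n)) from ⟨ht, trivial⟩)]
    · rw [indicator_of_notMem ht]
      have : ∀ y : Eu n, (Ioo (-1 : ℝ) T ×ˢ univ : Set (ST n)).indicator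
        (fun z => ro ε (x - z.2)) (t, y) = 0 := fun y => indicator_of_notMem (fun hm => ht hm.1) _
      simp only [this, zero_smul, integral_zero]
  have iR : Integrable (fun t => mo ε F (t, x) - qe ε v u (t, x)) := by
    rw [Measure.volume_eq_prod] at iF iq
    exact iF.integral_prod_left.sub iq.integral_prod_left
  apply oneD (by linarith) iu iR _ hβ hη
  intro ζ hζ
  have hζc : Continuous ζ := hζ.smooth.continuous
  have hζd : Continuous (deriv ζ) := (hζ.smooth.of_le (m := 1) (by exact_mod_cast le_top)).continuous_deriv le_rfl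
  obtain ⟨Cz, hCz⟩ := hζ.cpt.exists_bound_of_continuous hζc
  have h0 := h ζ _ hζ (kerx_test hε x)
  simp only [kerx_fderiv] at h0
  -- the three pieces
  have i1 : Integrable (fun z : ST n => (deriv ζ z.1 * ro ε (x - z.2)) • u z) := by
    obtain ⟨a1, a2⟩ := prod_cont_cpt hζd hζ.cpt.deriv (kerx_cpt hε x).1 (kerx_cpt hε x).2
    exact int2 (a1.memLp_of_hasCompactSupport a2) hu2
  have i2 : Integrable (fun z : ST n => (ζ z.1 * -(fderiv ℝ (ro ε) (x - z.2) (v z))) • u z) := by
    have := bdd_smul_int iq (k := fun z => - ζ z.1) (hζc.comp continuous_fst).neg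
      (C := Cz) (fun z => by rw [norm_neg]; exact hCz z.1)
    refine this.congr ?_
    filter_upwards with z
    rw [smul_smul]
    congr 1
    ring
  have i3 : Integrable (fun z : ST n => (ζ z.1 * ro ε (x - z.2)) • F z) := by
    have := bdd_smul_int iF (k := fun z => ζ z.1) (hζc.comp continuous_fst)
      (C := Cz) (fun z => hCz z.1)
    refine this.congr ?_
    filter_upwards with z
    rw [smul_smul]
  have e0 : ∫ z : ST n, ((deriv ζ z.1 * ro ε (x - z.2) + ζ z.1 * -(fderiv ℝ (ro ε) (x - z.2) (v z))) • u z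
      + (ζ z.1 * ro ε (x - z.2)) • F z) =
      (∫ z : ST n, (deriv ζ z.1 * ro ε (x - z.2)) • u z) +
      (∫ z : ST n, (ζ z.1 * -(fderiv ℝ (ro ε) (x - z.2) (v z))) • u z) +
      ∫ z : ST n, (ζ z.1 * ro ε (x - z.2)) • F z := by
    have i12 : Integrable (fun z : ST n => (deriv ζ z.1 * ro ε (x - z.2)) • u z +
        (ζ z.1 * -(fderiv ℝ (ro ε) (x - z.2) (v z))) • u z) := i1.add i2
    rw [← integral_add i1 i2, ← integral_add i12 i3]
    simp only [add_smul]
  rw [e0] at h0
  have e1 : ∫ z : ST n, (deriv ζ z.1 * ro ε (x - z.2)) • u z = ∫ t, deriv ζ t • mo ε u (t, x) := by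
    rw [Measure.volume_eq_prod] at i1 ⊢
    rw [integral_prod _ i1]
    congr 1
    ext1 t
    simp only [mul_smul]
    rw [integral_smul]
    rfl
  have e2 : ∫ z : ST n, (ζ z.1 * -(fderiv ℝ (ro ε) (x - z.2) (v z))) • u z =
      ∫ t, -(ζ t • qe ε v u (t, x)) := by
    rw [Measure.volume_eq_prod] at i2 ⊢
    rw [integral_prod _ i2]
    congr 1
    ext1 t
    simp only [mul_neg, neg_smul, mul_smul]
    rw [integral_neg, integral_smul]
    rfl
  have e3 : ∫ z : ST n, (ζ z.1 * ro ε (x - z.2)) • F z = ∫ t, ζ t • mo ε F (t, x) := by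
    rw [Measure.volume_eq_prod] at i3 ⊢
    rw [integral_prod _ i3]
    congr 1
    ext1 t
    simp only [mul_smul]
    rw [integral_smul]
    rfl
  -- integrability in time
  have j1 : Integrable (fun t => deriv ζ t • mo ε u (t, x)) := by
    rw [Measure.volume_eq_prod] at i1
    refine i1.integral_prod_left.congr ?_
    filter_upwards with t
    simp only [mul_smul]
    rw [integral_smul]
    rfl
  have j2 : Integrable (fun t => -(ζ t • qe ε v u (t, x))) := by
    rw [Measure.volume_eq_prod] at i2
    refine i2.integral_prod_left.congr ?_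
    filter_upwards with t
    simp only [mul_neg, neg_smul, mul_smul]
    rw [integral_neg, integral_smul]
    rfl
  have j3 : Integrable (fun t => ζ t • mo ε F (t, x)) := by
    rw [Measure.volume_eq_prod] at i3
    refine i3.integral_prod_left.congr ?_
    filter_upwards with t
    simp only [mul_smul]
    rw [integral_smul]
    rfl
  have j12 : Integrable (fun t => deriv ζ t • mo ε u (t, x) + -(ζ t • qe ε v u (t, x))) :=
    j1.add j2
  rw [e1, e2, e3, ← integral_add j1 j2, ← integral_add j12 j3] at h0
  rw [← h0]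
  congr 1
  ext1 t
  rw [smul_sub]
  abel

end Pool.Agent.Helper47.Jef
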