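import Pool.Agent.Helper42.Jef.Defs

/-! # The mollification kernel -/

open MeasureTheory Set Filter Topology
open scoped ENNReal ContDiff

namespace Pool.Agent.Helper47.Jef

open Pool.Agent.Helper42.Jef

variable {n : ℕ}

theorem rho_smooth : ContDiff ℝ ∞ (rho n) := ContDiffBump.contDiff_normed _

theorem rho_cpt : HasCompactSupport (rho n) := ContDiffBump.hasCompactSupport_normed _

theorem rho_nonneg (x : Eu n) : 0 ≤ rho n x := ContDiffBump.nonneg_normed _ _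

theorem rho_integral : ∫ x, rho n x = 1 := ContDiffBump.integral_normed _

theorem rho_zero {x : Eu n} (hx : 1 ≤ ‖x‖) : rho n x = 0 := by
  by_contra h
  have h1 : x ∈ Function.support (rho n) := h
  unfold rho at h1
  rw [ContDiffBump.support_normed_eq, mem_ball_zero_iff] at h1
  exact absurd h1 (not_lt.2 hx)

theorem ro_smooth (ε : ℝ) : ContDiff ℝ ∞ (ro (n := n) ε) := by
  unfold ro
  exact contDiff_const.mul (rho_smooth.comp (contDiff_const_smul _))

theorem ro_nonneg {ε : ℝ} (hε : 0 < ε) (x : Eu n) : 0 ≤ ro ε x := by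
  unfold ro
  exact mul_nonneg (by positivity) (rho_nonneg _)

theorem ro_zero {ε : ℝ} (hε : 0 < ε) {x : Eu n} (hx : ε ≤ ‖x‖) : ro ε x = 0 := by
  unfold ro
  rw [rho_zero, mul_zero]
  rw [norm_smul, norm_inv, Real.norm_of_nonneg hε.le]
  rw [le_inv_mul_iff₀ hε]
  simpa using hx

theorem ro_cpt {ε : ℝ} (hε : 0 < ε) : HasCompactSupport (ro (n := n) ε) := by
  apply HasCompactSupport.intro (isCompact_closedBall (0 : Eu n) ε)
  intro x hx
  rw [mem_closedBall_zero_iff, not_le] at hx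
  exact ro_zero hε hx.le

theorem ro_integrable {ε : ℝ} (hε : 0 < ε) : Integrable (ro (n := n) ε) :=
  (ro_smooth ε).continuous.integrable_of_hasCompactSupport (ro_cpt hε)

theorem ro_integral {ε : ℝ} (hε : 0 < ε) : ∫ x : Eu n, ro ε x = 1 := by
  unfold ro
  rw [integral_const_mul, Measure.integral_comp_smul, rho_integral]
  simp only [finrank_euclideanSpace, Fintype.card_fin, smul_eq_mul, mul_one]
  rw [abs_of_pos (by positivity), inv_pow, inv_inv]
  exact inv_mul_cancel₀ (by positivity)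

theorem ro_lintegral {ε : ℝ} (hε : 0 < ε) : ∫⁻ x : Eu n, ‖ro ε x‖ₑ = 1 := by
  have h1 := ofReal_integral_norm_eq_lintegral_enorm (ro_integrable (n := n) hε)
  rw [← h1]
  have h2 : ∫ x : Eu n, ‖ro ε x‖ = 1 := by
    rw [← ro_integral (n := n) hε]
    congr 1
    ext x
    rw [Real.norm_of_nonneg (ro_nonneg hε x)]
  rw [h2, ENNReal.ofReal_one]

theorem fderiv_ro {ε : ℝ} (x : Eu n) : fderiv ℝ (ro ε) x =
    ((ε ^ n)⁻¹ * ε⁻¹) • fderiv ℝ (rho n) (ε⁻¹ • x) := by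
  have h1 : HasFDerivAt (rho n) (fderiv ℝ (rho n) (ε⁻¹ • x)) (ε⁻¹ • x) :=
    ((rho_smooth (n := n)).differentiable (by simp) _).hasFDerivAt
  have h2 : HasFDerivAt (fun x : Eu n => ε⁻¹ • x) (ε⁻¹ • ContinuousLinearMap.id ℝ (Eu n)) x :=
    (ε⁻¹ • ContinuousLinearMap.id ℝ (Eu n)).hasFDerivAt
  have h3 := (h1.comp x h2).const_mul ((ε ^ n)⁻¹)
  have h4 : fderiv ℝ (ro ε) x = _ := h3.fderiv
  rw [h4]
  ext v
  simp
  ring

theorem dro_zero {ε : ℝ} (hε : 0 < ε) {x : Eu n} (hx : ε < ‖x‖) : fderiv ℝ (ro ε) x = 0 := by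
  have h1 : (ro (n := n) ε) =ᶠ[𝓝 x] fun _ => 0 := by
    have : {y : Eu n | ε < ‖y‖} ∈ 𝓝 x := (isOpen_lt continuous_const continuous_norm).mem_nhds hx
    filter_upwards [this] with y hy
    exact ro_zero hε (le_of_lt hy)
  rw [h1.fderiv_eq]
  simp

/-- the constant of the commutator estimate -/
noncomputable def Cro (n : ℕ) : ℝ≥0∞ := ENNReal.ofReal (∫ x : Eu n, ‖fderiv ℝ (rho n) x‖)

theorem Cro_lt_top : Cro n < ⊤ := ENNReal.ofReal_lt_top

theorem drho_integrable : Integrable (fun x : Eu n => fderiv ℝ (rho n) x) :=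
  ((rho_smooth (n := n)).continuous_fderiv (by simp)).integrable_of_hasCompactSupport
    ((rho_cpt (n := n)).fderiv (𝕜 := ℝ))

theorem dro_bound {ε : ℝ} (hε : 0 < ε) :
    ∫⁻ h : Eu n, ‖fderiv ℝ (ro ε) h‖ₑ * ‖h‖ₑ ≤ Cro n := by
  set φ : Eu n → ℝ := fun h => (ε ^ n)⁻¹ * ‖fderiv ℝ (rho n) (ε⁻¹ • h)‖ with hφ
  have hφ0 : ∀ h, 0 ≤ φ h := fun h => by positivity
  have h1 : ∀ h : Eu n, ‖fderiv ℝ (ro ε) h‖ * ‖h‖ ≤ φ h := by
    intro h
    rcases lt_or_ge ε ‖h‖ with hh | hh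
    · rw [dro_zero hε hh, norm_zero, zero_mul]
      exact hφ0 h
    · rw [fderiv_ro, norm_smul, norm_mul, norm_inv, norm_inv, norm_pow,
        Real.norm_of_nonneg hε.le]
      calc (ε ^ n)⁻¹ * ε⁻¹ * ‖fderiv ℝ (rho n) (ε⁻¹ • h)‖ * ‖h‖
          ≤ (ε ^ n)⁻¹ * ε⁻¹ * ‖fderiv ℝ (rho n) (ε⁻¹ • h)‖ * ε := by gcongr
        _ = φ h := by
          simp only [hφ]
          field_simp
  have hint : Integrable φ := by
    have h2 : Integrable (fun h : Eu n => ‖fderiv ℝ (rho n) (ε⁻¹ • h)‖) :=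
      (drho_integrable (n := n)).norm.comp_smul (inv_ne_zero hε.ne')
    exact h2.const_mul _
  have h3 : ∫ h, φ h = ∫ x : Eu n, ‖fderiv ℝ (rho n) x‖ := by
    simp only [hφ]
    rw [integral_const_mul, Measure.integral_comp_smul (μ := (volume : Measure (Eu n)))
      (fun x => ‖fderiv ℝ (rho n) x‖) ε⁻¹]
    simp only [finrank_euclideanSpace, Fintype.card_fin, smul_eq_mul]
    rw [abs_of_pos (by positivity), inv_pow, inv_inv, ← mul_assoc,
      inv_mul_cancel₀ (by positivity), one_mul]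
  calc ∫⁻ h : Eu n, ‖fderiv ℝ (ro ε) h‖ₑ * ‖h‖ₑ ≤ ∫⁻ h : Eu n, ENNReal.ofReal (φ h) := by
        apply lintegral_mono
        intro h
        simp only
        rw [← ofReal_norm, ← ofReal_norm, ← ENNReal.ofReal_mul (norm_nonneg _)]
        exact ENNReal.ofReal_le_ofReal (h1 h)
    _ = ENNReal.ofReal (∫ h, φ h) :=
        (ofReal_integral_eq_lintegral_ofReal hint (Eventually.of_forall hφ0)).symm
    _ = Cro n := by rw [h3, Cro]

end Pool.Agent.Helper47.Jef
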