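import Pool.Agent.Helper47.JefMoll

/-! # Mollification: pointwise facts and `L^p` convergence -/

open MeasureTheory Set Filter Topology
open scoped ENNReal ContDiff

namespace Pool.Agent.Helper47.Jef

open Pool.Agent.Helper42.Jef

variable {n : ℕ} {E : Type*} [NormedAddCommGroup E] [NormedSpace ℝ E] [FiniteDimensional ℝ E]

/-- the time slice is locally integrable -/
def Good (u : ST n → E) (t : ℝ) : Prop := LocallyIntegrable (fun y : Eu n => u (t, y)) volume

omit [NormedSpace ℝ E] [FiniteDimensional ℝ E] in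
theorem good_ae {u : ST n → E} (hu : LocallyIntegrable u volume) : ∀ᵐ t : ℝ, Good u t := by
  have h1 : ∀ N : ℕ, ∀ᵐ t : ℝ, t ∈ Metric.closedBall (0 : ℝ) N →
      IntegrableOn (fun y : Eu n => u (t, y)) (Metric.closedBall 0 N) volume := by
    intro N
    have h2 : IntegrableOn u (Metric.closedBall (0 : ℝ) N ×ˢ Metric.closedBall (0 : Eu n) N)
        volume :=
      hu.integrableOn_isCompact
        ((isCompact_closedBall _ _).prod (isCompact_closedBall _ _))
    rw [IntegrableOn, Measure.volume_eq_prod, ← Measure.prod_restrict] at h2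
    have h3 := h2.prod_right_ae
    rw [ae_restrict_iff' Metric.isClosed_closedBall.measurableSet] at h3
    exact h3
  have h4 : ∀ᵐ t : ℝ, ∀ N : ℕ, t ∈ Metric.closedBall (0 : ℝ) N →
      IntegrableOn (fun y : Eu n => u (t, y)) (Metric.closedBall 0 N) volume := ae_all_iff.2 h1
  filter_upwards [h4] with t ht
  intro x
  obtain ⟨N, hN⟩ := exists_nat_gt (max ‖t‖ (‖x‖ + 1))
  have hNt : ‖t‖ ≤ N := (le_max_left _ _).trans hN.le
  have hNx : ‖x‖ + 1 ≤ N := (le_max_right _ _).trans hN.le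
  refine ⟨Metric.closedBall 0 N, ?_, ht N (by rwa [mem_closedBall_zero_iff])⟩
  apply Filter.mem_of_superset (Metric.ball_mem_nhds x one_pos)
  intro y hy
  rw [mem_closedBall_zero_iff]
  have h5 : ‖y - x‖ < 1 := by rwa [← dist_eq_norm]
  have h6 : ‖y‖ ≤ ‖y - x‖ + ‖x‖ := norm_le_norm_sub_add _ _
  linarith

omit [NormedSpace ℝ E] [FiniteDimensional ℝ E] in
theorem ae_of_time {P : ℝ → Prop} (h : ∀ᵐ t : ℝ, P t) : ∀ᵐ z : ST n, P z.1 := by
  have h1 : Measure.QuasiMeasurePreserving (Prod.fst : ST n → ℝ) volume volume :=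
    Measure.quasiMeasurePreserving_fst
  exact h1.ae h

omit [FiniteDimensional ℝ E] in
theorem good_kernel {u : ST n → E} {t : ℝ} (ht : Good u t) {k : Eu n → ℝ} (hk : Continuous k)
    (hkc : HasCompactSupport k) (x : Eu n) : Integrable (fun y => k (x - y) • u (t, y)) := by
  have h1 : HasCompactSupport (fun y => k (x - y)) := by
    have := hkc.comp_homeomorph (Homeomorph.subLeft x)
    exact this
  exact LocallyIntegrable.integrable_smul_left_of_hasCompactSupport ht
    (hk.comp (continuous_const.sub continuous_id)) h1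

omit [FiniteDimensional ℝ E] in
theorem good_kernel' {u : ST n → E} {t : ℝ} (ht : Good u t) {k : Eu n → ℝ} (hk : Continuous k)
    (hkc : HasCompactSupport k) (x : Eu n) : Integrable (fun h => k h • u (t, x - h)) := by
  have h1 := (good_kernel ht hk hkc x).comp_sub_left x
  simpa using h1

omit [FiniteDimensional ℝ E] in
theorem conv_eq {F : Type*} [NormedAddCommGroup F] [NormedSpace ℝ F]
    (f : Eu n → Eu n → F) (x : Eu n) :
    ∫ y, f (x - y) y = ∫ h, f h (x - h) := by
  have h1 := integral_sub_left_eq_self (fun y => f (x - y) y) (volume : Measure (Eu n)) x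
  rw [← h1]
  simp

omit [FiniteDimensional ℝ E] in
theorem mo_eq (ε : ℝ) (u : ST n → E) (z : ST n) : mo ε u z = ∫ h, ro ε h • u (shf h z) := by
  unfold mo shf
  exact conv_eq (fun h y => ro ε h • u (z.1, y)) z.2

theorem mo_sub_eq {ε : ℝ} (hε : 0 < ε) {u : ST n → E} {z : ST n} (hz : Good u z.1) :
    mo ε u z - u z = ∫ h, ro ε h • (u (shf h z) - u z) := by
  have h1 : Integrable (fun h => ro ε h • u (shf h z)) :=
    good_kernel' hz (ro_smooth ε).continuous (ro_cpt hε) z.2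
  have h2 : Integrable (fun h : Eu n => ro ε h • u z) := (ro_integrable hε).smul_const _
  simp only [smul_sub]
  rw [integral_sub h1 h2, integral_smul_const, ro_integral hε, one_smul, mo_eq]

theorem enorm_mo_sub_le {ε : ℝ} (hε : 0 < ε) {u : ST n → E} {z : ST n} (hz : Good u z.1) :
    ‖mo ε u z - u z‖ₑ ≤ ∫⁻ h, ‖ro ε h‖ₑ * ‖u (shf h z) - u z‖ₑ := by
  rw [mo_sub_eq hε hz]
  refine (enorm_integral_le_lintegral_enorm _).trans (le_of_eq ?_)
  congr 1
  ext h
  rw [enorm_smul]

omit [NormedSpace ℝ E] [FiniteDimensional ℝ E] in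
theorem meas_shf_sub {u : ST n → E} (hu : StronglyMeasurable u) :
    Measurable (fun p : ST n × Eu n => ‖u (shf p.2 p.1) - u p.1‖ₑ) := by
  have h1 : StronglyMeasurable (fun p : ST n × Eu n => u (shf p.2 p.1)) :=
    hu.comp_measurable shf_cont.measurable
  have h2 : StronglyMeasurable (fun p : ST n × Eu n => u p.1) := hu.comp_measurable measurable_fst
  exact (h1.sub h2).enorm

theorem ro_enorm_meas (ε : ℝ) : Measurable (fun h : Eu n => ‖ro ε h‖ₑ) :=
  (ro_smooth ε).continuous.measurable.enorm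

/-- Tonelli with a kernel in the space variable -/
theorem tonelli_kernel {w : Eu n → ℝ≥0∞} (hw : Measurable w) {a : ST n × Eu n → ℝ≥0∞}
    (ha : Measurable a) :
    ∫⁻ z : ST n, ∫⁻ h, w h * a (z, h) = ∫⁻ h, w h * ∫⁻ z : ST n, a (z, h) := by
  rw [lintegral_lintegral_swap]
  · congr 1
    ext h
    rw [lintegral_const_mul]
    exact ha.comp (measurable_id.prodMk measurable_const)
  · exact ((hw.comp measurable_snd).mul ha).aemeasurable

theorem ro_weight {ε : ℝ} (hε : 0 < ε) {a : Eu n → ℝ≥0∞} {δ : ℝ≥0∞}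
    (h : ∀ h, ‖h‖ ≤ ε → a h ≤ δ) : ∫⁻ h, ‖ro ε h‖ₑ * a h ≤ δ := by
  calc ∫⁻ h, ‖ro ε h‖ₑ * a h ≤ ∫⁻ h : Eu n, ‖ro ε h‖ₑ * δ := by
        apply lintegral_mono
        intro x
        simp only
        rcases le_or_gt ‖x‖ ε with hx | hx
        · gcongr
          exact h x hx
        · rw [ro_zero hε hx.le]
          simp
    _ = δ := by
        rw [lintegral_mul_const _ (ro_enorm_meas ε), ro_lintegral hε, one_mul]

theorem mo_sub_L1 {ε : ℝ} (hε : 0 < ε) {u : ST n → E} (hu : StronglyMeasurable u)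
    (hg : ∀ᵐ t : ℝ, Good u t) {δ : ℝ≥0∞}
    (hδ : ∀ h : Eu n, ‖h‖ ≤ ε → eLpNorm (fun z => u (shf h z) - u z) 1 volume ≤ δ) :
    eLpNorm (fun z => mo ε u z - u z) 1 volume ≤ δ := by
  rw [eLpNorm_one_eq_lintegral_enorm]
  calc ∫⁻ z, ‖mo ε u z - u z‖ₑ ≤ ∫⁻ z : ST n, ∫⁻ h, ‖ro ε h‖ₑ * ‖u (shf h z) - u z‖ₑ := by
        apply lintegral_mono_ae
        filter_upwards [ae_of_time hg] with z hz
        exact enorm_mo_sub_le hε hz
    _ = ∫⁻ h, ‖ro ε h‖ₑ * ∫⁻ z : ST n, ‖u (shf h z) - u z‖ₑ :=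
        tonelli_kernel (ro_enorm_meas ε) (meas_shf_sub hu)
    _ ≤ δ := by
        apply ro_weight hε
        intro h hh
        have := hδ h hh
        rwa [eLpNorm_one_eq_lintegral_enorm] at this

theorem mo_sub_L2 {ε : ℝ} (hε : 0 < ε) {u : ST n → E} (hu : StronglyMeasurable u)
    (hg : ∀ᵐ t : ℝ, Good u t) {δ : ℝ≥0∞}
    (hδ : ∀ h : Eu n, ‖h‖ ≤ ε → eLpNorm (fun z => u (shf h z) - u z) 2 volume ≤ δ) :
    eLpNorm (fun z => mo ε u z - u z) 2 volume ≤ δ := by
  have hsq : eLpNorm (fun z => mo ε u z - u z) 2 volume ^ 2 ≤ δ ^ 2 := by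
    rw [eLpNorm_two_sq]
    calc ∫⁻ z, ‖mo ε u z - u z‖ₑ ^ 2
        ≤ ∫⁻ z : ST n, ∫⁻ h, ‖ro ε h‖ₑ * ‖u (shf h z) - u z‖ₑ ^ 2 := by
          apply lintegral_mono_ae
          filter_upwards [ae_of_time hg] with z hz
          calc ‖mo ε u z - u z‖ₑ ^ 2
              ≤ (∫⁻ h, ‖ro ε h‖ₑ * ‖u (shf h z) - u z‖ₑ) ^ 2 := by
                gcongr
                exact enorm_mo_sub_le hε hz
            _ ≤ (∫⁻ h : Eu n, ‖ro ε h‖ₑ) * ∫⁻ h, ‖ro ε h‖ₑ * ‖u (shf h z) - u z‖ₑ ^ 2 :=
                sq_lintegral_le (ro_enorm_meas ε)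
                  ((meas_shf_sub hu).comp (measurable_const.prodMk measurable_id))
            _ = _ := by rw [ro_lintegral hε, one_mul]
      _ = ∫⁻ h, ‖ro ε h‖ₑ * ∫⁻ z : ST n, ‖u (shf h z) - u z‖ₑ ^ 2 :=
          tonelli_kernel (ro_enorm_meas ε) ((meas_shf_sub hu).pow_const 2)
      _ ≤ δ ^ 2 := by
          apply ro_weight hε
          intro h hh
          have := hδ h hh
          rw [← eLpNorm_two_sq]
          gcongr
  exact (ENNReal.pow_le_pow_left_iff (by norm_num)).1 hsq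

omit [FiniteDimensional ℝ E] in
theorem mo_meas {ε : ℝ} {u : ST n → E} (hu : StronglyMeasurable u) :
    StronglyMeasurable (mo ε u) := by
  have h1 : mo ε u = fun z => ∫ h, ro ε h • u (shf h z) := funext (mo_eq ε u)
  rw [h1]
  have h2 : StronglyMeasurable (fun p : ST n × Eu n => ro ε p.2 • u (shf p.2 p.1)) :=
    ((ro_smooth ε).continuous.comp continuous_snd).stronglyMeasurable.smul
      (hu.comp_measurable shf_cont.measurable)
  exact h2.integral_prod_right'

end Pool.Agent.Helper47.Jef
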