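import Pool.Agent.Helper47.JefKer

/-! # Translations and mollification on space-time -/

open MeasureTheory Set Filter Topology
open scoped ENNReal ContDiff

namespace Pool.Agent.Helper47.Jef

open Pool.Agent.Helper42.Jef

variable {n : ℕ}

instance stInv : (volume : Measure (ST n)).IsAddLeftInvariant :=
  inferInstanceAs ((volume.prod volume : Measure (ℝ × Eu n)).IsAddLeftInvariant)

/-- space translation -/
def shf (h : Eu n) (z : ST n) : ST n := (z.1, z.2 - h)

theorem shf_mp (h : Eu n) : MeasurePreserving (shf h) (volume : Measure (ST n)) volume := by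
  have h1 := measurePreserving_sub_right (volume : Measure (ST n)) ((0 : ℝ), h)
  convert! h1 using 1
  ext z <;> simp [shf]

theorem shf_cont : Continuous (fun p : ST n × Eu n => shf p.2 p.1) := by
  unfold shf
  fun_prop

theorem lintegral_shf (h : Eu n) (f : ST n → ℝ≥0∞) : ∫⁻ z, f (shf h z) = ∫⁻ z, f z := by
  have h1 := lintegral_sub_right_eq_self (μ := (volume : Measure (ST n))) f ((0 : ℝ), h)
  rw [← h1]
  congr 1
  ext z
  simp [shf]
  congr 1
  ext <;> simp

/-- continuity of translations in `L^p` -/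
theorem trans_cont {E : Type*} [NormedAddCommGroup E] {p : ℝ≥0∞} (hp1 : 1 ≤ p) (hp : p ≠ ⊤)
    {f : ST n → E} (hf : MemLp f p volume) {δ : ℝ} (hδ : 0 < δ) :
    ∃ r > 0, ∀ h : Eu n, ‖h‖ ≤ r →
      eLpNorm (fun z => f (shf h z) - f z) p volume ≤ ENNReal.ofReal δ := by
  have _ : Fact (1 ≤ p) := ⟨hp1⟩
  let g : Eu n → C(ST n, ST n) := fun h => ⟨shf h, by unfold shf; fun_prop⟩
  have hg : Continuous g := by
    apply ContinuousMap.continuous_of_continuous_uncurry
    exact shf_cont.comp continuous_swap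
  have hcont : Continuous (fun h => Lp.compMeasurePreserving (g h) (shf_mp h) (hf.toLp f)) :=
    Continuous.compMeasurePreservingLp continuous_const hg shf_mp hp
  have h0 := (Metric.continuous_iff.1 hcont) 0 δ hδ
  obtain ⟨r, hr, hr'⟩ := h0
  refine ⟨r / 2, by positivity, fun h hh => ?_⟩
  have h1 := hr' h (by rw [dist_zero_right]; linarith)
  rw [← edist_lt_ofReal] at h1
  rw [Lp.edist_def] at h1
  refine le_trans (le_of_eq ?_) h1.le
  apply eLpNorm_congr_ae
  have a1 := Lp.coeFn_compMeasurePreserving (hf.toLp f) (shf_mp h)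
  have a2 := Lp.coeFn_compMeasurePreserving (hf.toLp f) (shf_mp (0 : Eu n))
  have a3 := (hf.coeFn_toLp)
  have a4 := (shf_mp h).quasiMeasurePreserving.ae_eq_comp a3
  have a5 := (shf_mp (0 : Eu n)).quasiMeasurePreserving.ae_eq_comp a3
  filter_upwards [a1, a2, a4, a5] with z b1 b2 b4 b5
  simp only [Pi.sub_apply]
  have c1 : (Lp.compMeasurePreserving (g h) (shf_mp h) (hf.toLp f)) z = f (shf h z) := by
    rw [show (Lp.compMeasurePreserving (g h) (shf_mp h) (hf.toLp f)) z = _ from b1]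
    exact b4
  have c2 : (Lp.compMeasurePreserving (g 0) (shf_mp 0) (hf.toLp f)) z = f z := by
    rw [show (Lp.compMeasurePreserving (g 0) (shf_mp 0) (hf.toLp f)) z = _ from b2]
    rw [b5]
    simp [shf]
  rw [c1, c2]

/-! ### inequalities for lower integrals -/

theorem sq_lintegral_le {α : Type*} [MeasurableSpace α] {μ : Measure α} {w a : α → ℝ≥0∞}
    (hw : Measurable w) (ha : Measurable a) :
    (∫⁻ x, w x * a x ∂μ) ^ 2 ≤ (∫⁻ x, w x ∂μ) * ∫⁻ x, w x * a x ^ 2 ∂μ := by
  have h1 := ENNReal.lintegral_mul_le_Lp_mul_Lq (μ.withDensity w) (p := 2) (q := 2)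
    Real.HolderConjugate.two_two ha.aemeasurable (measurable_const (a := (1 : ℝ≥0∞))).aemeasurable
  simp only [Pi.mul_apply, mul_one, ENNReal.one_rpow, lintegral_const, one_mul] at h1
  rw [withDensity_apply _ MeasurableSet.univ, Measure.restrict_univ,
    lintegral_withDensity_eq_lintegral_mul _ hw ha,
    lintegral_withDensity_eq_lintegral_mul _ hw (ha.pow_const _)] at h1
  simp only [Pi.mul_apply] at h1
  calc (∫⁻ x, w x * a x ∂μ) ^ 2
      ≤ ((∫⁻ x, w x * a x ^ (2 : ℝ) ∂μ) ^ (1 / (2 : ℝ)) * (∫⁻ x, w x ∂μ) ^ (1 / (2 : ℝ))) ^ 2 := by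
        gcongr
    _ = (∫⁻ x, w x ∂μ) * ∫⁻ x, w x * a x ^ 2 ∂μ := by
        rw [mul_pow, ← ENNReal.rpow_natCast, ← ENNReal.rpow_natCast, ← ENNReal.rpow_mul,
          ← ENNReal.rpow_mul]
        norm_num
        rw [mul_comm]

theorem eLpNorm_two_sq {α : Type*} [MeasurableSpace α] {μ : Measure α} {E : Type*}
    [NormedAddCommGroup E] (f : α → E) : eLpNorm f 2 μ ^ 2 = ∫⁻ x, ‖f x‖ₑ ^ 2 ∂μ := by
  rw [eLpNorm_eq_lintegral_rpow_enorm_toReal (by norm_num) (by norm_num)]
  rw [← ENNReal.rpow_natCast, ← ENNReal.rpow_mul]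
  norm_num

/-- Cauchy–Schwarz -/
theorem lintegral_enorm_mul_le {α : Type*} [MeasurableSpace α] {μ : Measure α} {E F : Type*}
    [NormedAddCommGroup E] [NormedAddCommGroup F] {f : α → E} {g : α → F}
    (hf : AEStronglyMeasurable f μ) (hg : AEStronglyMeasurable g μ) :
    ∫⁻ x, ‖f x‖ₑ * ‖g x‖ₑ ∂μ ≤ eLpNorm f 2 μ * eLpNorm g 2 μ := by
  have h1 := ENNReal.lintegral_mul_le_Lp_mul_Lq μ (p := 2) (q := 2)
    Real.HolderConjugate.two_two hf.enorm hg.enorm
  rw [eLpNorm_eq_lintegral_rpow_enorm_toReal (by norm_num) (by norm_num),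
    eLpNorm_eq_lintegral_rpow_enorm_toReal (by norm_num) (by norm_num)]
  simpa using h1

end Pool.Agent.Helper47.Jef
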