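import Pool.Agent.Helper47.JefBB

/-! # DiPerna–Lions renormalisation -/

open MeasureTheory Set Filter Topology
open scoped ENNReal ContDiff

namespace Pool.Agent.Helper47.Jef

open Pool.Agent.Helper42.Jef

variable {n : ℕ} {E E' : Type*} [NormedAddCommGroup E] [NormedSpace ℝ E] [FiniteDimensional ℝ E]
  [NormedAddCommGroup E'] [NormedSpace ℝ E'] [FiniteDimensional ℝ E']

omit [NormedSpace ℝ E'] [FiniteDimensional ℝ E'] in
theorem tendsto_zero_of_enorm_le {f : ℕ → E'} {a : ℕ → ℝ≥0∞} (h : ∀ m, ‖f m‖ₑ ≤ a m)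
    (ha : Tendsto a atTop (𝓝 0)) : Tendsto f atTop (𝓝 0) := by
  rw [tendsto_iff_edist_tendsto_0]
  refine tendsto_of_tendsto_of_tendsto_of_le_of_le tendsto_const_nhds ha (fun _ => zero_le) ?_
  intro m
  simp only [edist_zero_right]
  exact h m

namespace RH

variable {T : ℝ} {v : ST n → Eu n} {u F : ST n → E} {K : Set E} {β : E → E'} {L : ℝ}

/-- a good sequence of mollification parameters -/
theorem exists_seq (H : RH T v u F K β L) {Ω : Set (Eu n)} {G : ST n → Mt n}
    (hv : IsVel Ω T v G) {η : ℝ → ℝ} {ψ : Eu n → ℝ}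
    (hη : IsTime (-1) T η) (hψ : IsTest ψ) :
    ∃ e : ℕ → ℝ, (∀ m, 0 < e m) ∧
      Tendsto (fun m => eLpNorm (fun z => mo (e m) u z - u z) 2 volume) atTop (𝓝 0) ∧
      Tendsto (fun m => eLpNorm (fun z => mo (e m) F z - F z) 1 volume) atTop (𝓝 0) ∧
      Tendsto (fun m => BB β η ψ (e m) u v) atTop (𝓝 0) ∧
      ∀ᵐ z, Tendsto (fun m => mo (e m) u z) atTop (𝓝 (u z)) := by
  obtain ⟨b1, b2⟩ := prod_cont_cpt hη.smooth.continuous hη.cpt hψ.smooth.continuous hψ.cpt
  obtain ⟨C, hC⟩ := b2.exists_bound_of_continuous b1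
  have h1 : ∀ m : ℕ, ∃ ε : ℝ, 0 < ε ∧
      eLpNorm (fun z => mo ε u z - u z) 2 volume ≤ ENNReal.ofReal (1 / ((m : ℝ) + 1)) ∧
      eLpNorm (fun z => mo ε F z - F z) 1 volume ≤ ENNReal.ofReal (1 / ((m : ℝ) + 1)) ∧
      ‖BB β η ψ ε u v‖ₑ ≤ ENNReal.ofReal (C * L) * (Cro n * eLpNorm G 2 volume) *
        ENNReal.ofReal (1 / ((m : ℝ) + 1)) := by
    intro m
    have hm : (0 : ℝ) < 1 / ((m : ℝ) + 1) := by positivity
    obtain ⟨r, hr, hr'⟩ := trans_cont (by norm_num) (by norm_num) H.u2 hm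
    obtain ⟨s, hs, hs'⟩ := trans_cont le_rfl (by norm_num) (memLp_one_iff_integrable.2 H.F1) hm
    have hrs : 0 < min r s := lt_min hr hs
    refine ⟨min r s, hrs, ?_, ?_, ?_⟩
    · exact mo_sub_L2 hrs H.um H.good_u fun h hh => hr' h (hh.trans (min_le_left _ _))
    · exact mo_sub_L1 hrs H.Fm H.good_F fun h hh => hs' h (hh.trans (min_le_right _ _))
    · refine (H.BB_bound hv hrs hη hψ hC ENNReal.ofReal_ne_top
        (fun h hh => hr' h (hh.trans (min_le_left _ _)))).trans (le_of_eq ?_)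
      ring
  choose e he1 he2 he3 he4 using h1
  have hlim : Tendsto (fun m : ℕ => ENNReal.ofReal (1 / ((m : ℝ) + 1))) atTop (𝓝 0) := by
    have := (ENNReal.continuous_ofReal.tendsto 0).comp tendsto_one_div_add_atTop_nhds_zero_nat
    rwa [ENNReal.ofReal_zero] at this
  have l1 : Tendsto (fun m => eLpNorm (fun z => mo (e m) u z - u z) 2 volume) atTop (𝓝 0) :=
    tendsto_of_tendsto_of_tendsto_of_le_of_le tendsto_const_nhds hlim (fun _ => zero_le) he2
  have l2 : Tendsto (fun m => eLpNorm (fun z => mo (e m) F z - F z) 1 volume) atTop (𝓝 0) :=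
    tendsto_of_tendsto_of_tendsto_of_le_of_le tendsto_const_nhds hlim (fun _ => zero_le) he3
  have l3 : Tendsto (fun m => BB β η ψ (e m) u v) atTop (𝓝 0) := by
    apply tendsto_zero_of_enorm_le he4
    have hc : ENNReal.ofReal (C * L) * (Cro n * eLpNorm G 2 volume) ≠ ⊤ :=
      (ENNReal.mul_lt_top ENNReal.ofReal_lt_top
        (ENNReal.mul_lt_top Cro_lt_top hv.memG.2)).ne
    have := ENNReal.Tendsto.const_mul hlim (Or.inr hc)
    simpa using this
  have hmeas : TendstoInMeasure volume (fun m => mo (e m) u) atTop u := by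
    apply tendstoInMeasure_of_tendsto_eLpNorm (p := 2) (by norm_num)
      (fun m => (mo_meas H.um).aestronglyMeasurable) H.um.aestronglyMeasurable
    exact l1
  obtain ⟨φ, hφ, hφ'⟩ := hmeas.exists_seq_tendsto_ae
  exact ⟨fun m => e (φ m), fun m => he1 _, l1.comp hφ.tendsto_atTop, l2.comp hφ.tendsto_atTop,
    l3.comp hφ.tendsto_atTop, hφ'⟩

theorem main (H : RH T v u F K β L) {Ω : Set (Eu n)} {G : ST n → Mt n}
    (hv : IsVel Ω T v G) :
    TE T v (fun z => β (u z)) (fun z => fderiv ℝ β (u z) (F z)) := by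
  intro η ψ hη hψ
  obtain ⟨e, he, l1, l2, l3, l4⟩ := H.exists_seq hv hη hψ
  have hηc : Continuous η := hη.smooth.continuous
  have hηd : Continuous (deriv η) :=
    (hη.smooth.of_le (m := 1) (by exact_mod_cast le_top)).continuous_deriv le_rfl
  obtain ⟨a1, a2⟩ := prod_cont_cpt hηd hη.cpt.deriv hψ.smooth.continuous hψ.cpt
  obtain ⟨b1, b2⟩ := prod_cont_cpt hηc hη.cpt hψ.smooth.continuous hψ.cpt
  obtain ⟨C, hC⟩ := b2.exists_bound_of_continuous b1
  have hC0 : 0 ≤ C := (norm_nonneg _).trans (hC 0)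
  obtain ⟨k1, k2, k3⟩ := kv hη hψ H.vm H.v2
  -- the weight
  set W : ST n → ℝ := fun z => deriv η z.1 * ψ z.2 + η z.1 * fderiv ℝ ψ z.2 (v z) with hW
  have W1 : Integrable W := (a1.integrable_of_hasCompactSupport a2).add k2
  have W2 : MemLp W 2 volume := (a1.memLp_of_hasCompactSupport (p := 2) a2).add k3
  have Wm : StronglyMeasurable W := a1.stronglyMeasurable.add k1
  -- integrability
  have I1 : ∀ m, Integrable (fun z => W z • β (mo (e m) u z)) := fun m =>
    H.intB (mo_meas H.um) (H.mo_u2 (he m)) (H.mo_mem (he m)) W1 W2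
  have I2 : ∀ m, Integrable (fun z : ST n => (η z.1 * ψ z.2) •
      fderiv ℝ β (mo (e m) u z) (mo (e m) F z)) := fun m =>
    H.intD (mo_meas (ε := e m) H.um) (H.mo_mem (he m)) (mo_meas (ε := e m) H.Fm)
      (H.mo_F1 (he m)) b1 hC
  have I3 : Integrable (fun z => W z • β (u z)) := H.intB H.um H.u2 H.uK W1 W2
  have I4 : Integrable (fun z : ST n => (η z.1 * ψ z.2) • fderiv ℝ β (u z) (F z)) :=
    H.intD H.um H.uK H.Fm H.F1 b1 hC
  have I5 : ∀ m, Integrable (fun z : ST n => (η z.1 * ψ z.2) •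
      fderiv ℝ β (mo (e m) u z) (F z)) := fun m =>
    H.intD (mo_meas (ε := e m) H.um) (H.mo_mem (he m)) H.Fm H.F1 b1 hC
  -- the mollified identity
  have hZ : ∀ m, (∫ z : ST n, W z • β (mo (e m) u z)) +
      (∫ z : ST n, (η z.1 * ψ z.2) • fderiv ℝ β (mo (e m) u z) (mo (e m) F z)) =
      BB β η ψ (e m) u v := by
    intro m
    have hJ := H.J_ST (he m) hη hψ
    obtain ⟨j1, j2⟩ := H.BB_int (he m) hη hψ H.vm H.v2
    have j3 := H.intB (mo_meas (ε := e m) H.um) (H.mo_u2 (he m)) (H.mo_mem (he m))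
      (a1.integrable_of_hasCompactSupport a2) (a1.memLp_of_hasCompactSupport a2)
    have j4 := H.intD (mo_meas (ε := e m) H.um) (H.mo_mem (he m))
      ((mo_meas (ε := e m) H.Fm).sub (qe_meas (ε := e m) H.vm H.um))
      ((H.mo_F1 (he m)).sub (qe_int (he m) H.vm H.um H.v2 H.u2)) b1 hC
    have j34 : Integrable (fun z : ST n => (deriv η z.1 * ψ z.2) • β (mo (e m) u z) +
      (η z.1 * ψ z.2) • fderiv ℝ β (mo (e m) u z) (mo (e m) F z - qe (e m) v u z)) := j3.add j4
    have j12 : Integrable (fun z : ST n => (η z.1 * fderiv ℝ ψ z.2 (v z)) • β (mo (e m) u z) +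
      (η z.1 * ψ z.2) • fderiv ℝ β (mo (e m) u z) (qe (e m) v u z)) := j1.add j2
    rw [← integral_add (I1 m) (I2 m)]
    calc ∫ z : ST n, (W z • β (mo (e m) u z) +
          (η z.1 * ψ z.2) • fderiv ℝ β (mo (e m) u z) (mo (e m) F z))
        = ∫ z : ST n, (((deriv η z.1 * ψ z.2) • β (mo (e m) u z) +
          (η z.1 * ψ z.2) • fderiv ℝ β (mo (e m) u z) (mo (e m) F z - qe (e m) v u z)) +
          ((η z.1 * fderiv ℝ ψ z.2 (v z)) • β (mo (e m) u z) +
          (η z.1 * ψ z.2) • fderiv ℝ β (mo (e m) u z) (qe (e m) v u z))) := by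
          congr 1
          ext1 z
          simp only [hW, add_smul, map_sub, smul_sub]
          abel
      _ = 0 + BB β η ψ (e m) u v := by
          rw [integral_add j34 j12, hJ]
          rfl
      _ = _ := zero_add _
  -- limits
  have T1 : Tendsto (fun m => ∫ z : ST n, W z • β (mo (e m) u z)) atTop
      (𝓝 (∫ z : ST n, W z • β (u z))) := by
    apply tendsto_integral_of_L1' _ I3.aestronglyMeasurable (Eventually.of_forall I1)
    have hb : ∀ m, eLpNorm ((fun z => W z • β (mo (e m) u z)) - fun z => W z • β (u z)) 1 volume ≤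
        ENNReal.ofReal L * (eLpNorm W 2 volume *
          eLpNorm (fun z => mo (e m) u z - u z) 2 volume) := by
      intro m
      rw [eLpNorm_one_eq_lintegral_enorm]
      calc ∫⁻ z, ‖((fun z => W z • β (mo (e m) u z)) - fun z => W z • β (u z)) z‖ₑ
          ≤ ∫⁻ z, ENNReal.ofReal L * (‖W z‖ₑ * ‖mo (e m) u z - u z‖ₑ) := by
            apply lintegral_mono_ae
            filter_upwards [H.mo_mem (he m), H.uK] with z hz1 hz2
            simp only [Pi.sub_apply]
            rw [← smul_sub, enorm_smul, mul_left_comm]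
            gcongr
            rw [← ofReal_norm, ← ofReal_norm, ← ENNReal.ofReal_mul H.L0]
            exact ENNReal.ofReal_le_ofReal (H.lip hz2 hz1)
        _ = ENNReal.ofReal L * ∫⁻ z, (‖W z‖ₑ * ‖mo (e m) u z - u z‖ₑ) :=
            lintegral_const_mul' _ _ ENNReal.ofReal_ne_top
        _ ≤ _ := by
            gcongr
            exact lintegral_enorm_mul_le Wm.aestronglyMeasurable
              ((mo_meas H.um).sub H.um).aestronglyMeasurable
    refine tendsto_of_tendsto_of_tendsto_of_le_of_le tendsto_const_nhds ?_ (fun _ => zero_le) hb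
    have h1 : Tendsto (fun m => eLpNorm W 2 volume *
          eLpNorm (fun z => mo (e m) u z - u z) 2 volume) atTop (𝓝 (eLpNorm W 2 volume * 0)) :=
      ENNReal.Tendsto.const_mul l1 (Or.inr W2.2.ne)
    have h2 := ENNReal.Tendsto.const_mul h1 (Or.inr (ENNReal.ofReal_ne_top (r := L)))
    simpa using h2
  have T2 : Tendsto (fun m => ∫ z : ST n, (η z.1 * ψ z.2) •
      fderiv ℝ β (mo (e m) u z) (F z)) atTop
      (𝓝 (∫ z : ST n, (η z.1 * ψ z.2) • fderiv ℝ β (u z) (F z))) := by
    apply tendsto_integral_of_dominated_convergence (fun z => C * L * ‖F z‖)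
      (fun m => (I5 m).aestronglyMeasurable) (H.F1.norm.const_mul _)
      (fun m => H.bndD (H.mo_mem (he m)) hC)
    filter_upwards [l4] with z hz
    have h1 : Tendsto (fun m => fderiv ℝ β (mo (e m) u z)) atTop (𝓝 (fderiv ℝ β (u z))) :=
      ((H.hβ.continuous_fderiv one_ne_zero).tendsto _).comp hz
    have h2 : Tendsto (fun m => fderiv ℝ β (mo (e m) u z) (F z)) atTop
        (𝓝 (fderiv ℝ β (u z) (F z))) :=
      ((ContinuousLinearMap.apply ℝ E' (F z)).continuous.tendsto _).comp h1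
    exact h2.const_smul _
  have T3 : Tendsto (fun m => ∫ z : ST n, (η z.1 * ψ z.2) •
      fderiv ℝ β (mo (e m) u z) (mo (e m) F z - F z)) atTop (𝓝 0) := by
    apply tendsto_zero_of_enorm_le (a := fun m => ENNReal.ofReal (C * L) *
      eLpNorm (fun z => mo (e m) F z - F z) 1 volume)
    · intro m
      rw [eLpNorm_one_eq_lintegral_enorm]
      exact H.normD (H.mo_mem (he m)) hC
    · have := ENNReal.Tendsto.const_mul l2 (Or.inr (ENNReal.ofReal_ne_top (r := C * L)))
      simpa using this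
  have T4 : Tendsto (fun m => (∫ z : ST n, W z • β (mo (e m) u z)) +
      (∫ z : ST n, (η z.1 * ψ z.2) • fderiv ℝ β (mo (e m) u z) (mo (e m) F z))) atTop
      (𝓝 ((∫ z : ST n, W z • β (u z)) +
        ((∫ z : ST n, (η z.1 * ψ z.2) • fderiv ℝ β (u z) (F z)) + 0))) := by
    apply T1.add
    refine (T2.add T3).congr fun m => ?_
    have I6 : Integrable (fun z : ST n => (η z.1 * ψ z.2) •
        fderiv ℝ β (mo (e m) u z) (mo (e m) F z - F z)) := by
      refine ((I2 m).sub (I5 m)).congr ?_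
      filter_upwards with z
      simp only [Pi.sub_apply, map_sub, smul_sub]
    rw [← integral_add (I5 m) I6]
    congr 1
    ext1 z
    rw [map_sub, ← smul_add, add_sub_cancel]
  have T5 : Tendsto (fun m => (∫ z : ST n, W z • β (mo (e m) u z)) +
      (∫ z : ST n, (η z.1 * ψ z.2) • fderiv ℝ β (mo (e m) u z) (mo (e m) F z))) atTop
      (𝓝 0) := l3.congr fun m => (hZ m).symm
  have hfin := tendsto_nhds_unique T4 T5
  rw [add_zero, ← integral_add I3 I4] at hfin
  exact hfin

end RH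

/-- **DiPerna–Lions renormalisation** -/
theorem renorm {n : ℕ} {E E' : Type*} [NormedAddCommGroup E] [NormedSpace ℝ E]
    [FiniteDimensional ℝ E] [MeasurableSpace E] [BorelSpace E]
    [NormedAddCommGroup E'] [NormedSpace ℝ E'] [FiniteDimensional ℝ E']
    [MeasurableSpace E'] [BorelSpace E']
    {Ω : Set (Eu n)} (_hΩ : IsOpen Ω) (_hΩb : Bornology.IsBounded Ω) {T : ℝ} (hT : 0 < T)
    {v : ST n → Eu n} {G : ST n → Mt n} (hv : IsVel Ω T v G)
    {u F : ST n → E} (hu : MemLp u 2 volume) (hF : Integrable F volume)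
    (h : TE T v u F) {K : Set E} (hK : Convex ℝ K) (hKc : IsClosed K) (hK0 : (0 : E) ∈ K)
    (huK : ∀ᵐ z, u z ∈ K) (β : E → E') (hβ : ContDiff ℝ 1 β) (L : ℝ)
    (hL : ∀ x ∈ K, ‖fderiv ℝ β x‖ ≤ L) :
    TE T v (fun z => β (u z)) (fun z => fderiv ℝ β (u z) (F z)) := by
  -- measurable representatives
  set v' : ST n → Eu n := hv.memv.1.mk v with hv'
  set u' : ST n → E := hu.1.mk u with hu'
  set F' : ST n → E := hF.1.mk F with hF'
  have ev : v =ᵐ[volume] v' := hv.memv.1.ae_eq_mk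
  have eu : u =ᵐ[volume] u' := hu.1.ae_eq_mk
  have eF : F =ᵐ[volume] F' := hF.1.ae_eq_mk
  have hvel : IsVel Ω T v' G := by
    refine ⟨hv.memv.ae_eq ev, hv.memG, fun ε hε => ?_⟩
    obtain ⟨w, Gw, h1, h2, h3⟩ := hv.approx ε hε
    refine ⟨w, Gw, h1, ?_, h3⟩
    rw [eLpNorm_congr_ae (g := v - w)]
    · exact h2
    · filter_upwards [ev] with z hz
      simp only [Pi.sub_apply, hz]
  have hte : TE T v' u' F' := by
    intro η ψ hη hψ
    rw [← h η ψ hη hψ]
    apply integral_congr_ae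
    filter_upwards [ev, eu, eF] with z h1 h2 h3
    rw [h1, h2, h3]
  have H : RH T v' u' F' K β L :=
    { hT := hT
      vm := hv.memv.1.stronglyMeasurable_mk
      um := hu.1.stronglyMeasurable_mk
      Fm := hF.1.stronglyMeasurable_mk
      v2 := hv.memv.ae_eq ev
      u2 := hu.ae_eq eu
      F1 := hF.congr eF
      te := hte
      hK := hK
      hKc := hKc
      hK0 := hK0
      uK := by
        filter_upwards [huK, eu] with z h1 h2
        rwa [← h2]
      hβ := hβ
      hL := hL }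
  have hm := H.main hvel
  intro η ψ hη hψ
  rw [← hm η ψ hη hψ]
  apply integral_congr_ae
  filter_upwards [ev, eu, eF] with z h1 h2 h3
  rw [h1, h2, h3]

end Pool.Agent.Helper47.Jef
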