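import Mathlib

/-!
Definitions for the spectral permanence property of the multiplier algebras `M(L^p(G))`.
-/

namespace Pool.Agent.Helper47.Mult

open MeasureTheory ENNReal

noncomputable section

/-- The translation operator `(τ_y f)(x) = f (y + x)` on `L^p(G, μ)`. -/
def translation {G : Type*} [AddCommGroup G] [MeasurableSpace G] [MeasurableAdd G]
    (μ : Measure G) [μ.IsAddLeftInvariant] (p : ℝ≥0∞) [Fact (1 ≤ p)] (y : G) :
    Lp ℂ p μ →L[ℂ] Lp ℂ p μ :=
  (Lp.compMeasurePreservingₗᵢ ℂ (fun x => y + x)
    (measurePreserving_add_left μ y)).toContinuousLinearMap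

/-- The multiplier algebra `M(L^p(G))`: the algebra of all bounded linear operators on `L^p(G, μ)`
that commute with every translation, with composition and the operator norm. -/
def multiplierAlgebra {G : Type*} [AddCommGroup G] [MeasurableSpace G] [MeasurableAdd G]
    (μ : Measure G) [μ.IsAddLeftInvariant] (p : ℝ≥0∞) [Fact (1 ≤ p)] :
    Subalgebra ℂ (Lp ℂ p μ →L[ℂ] Lp ℂ p μ) :=
  Subalgebra.centralizer ℂ (Set.range (translation μ p))

/-- The spectral permanence property of a complex unital normed algebra `A`: the spectrum of
every element of `A` is the same in `A` and in every commutative unital Banach algebra `B` which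
contains `A` as a closed subalgebra, that is, for which there is a unital algebra homomorphism
`ι : A → B` that is continuous and bounded below. -/
def HasSpectralPermanence.{u, v} (A : Type u) [NormedRing A] [NormedAlgebra ℂ A] : Prop :=
  ∀ (B : Type v) [NormedCommRing B] [NormedAlgebra ℂ B] [CompleteSpace B] (ι : A →ₐ[ℂ] B),
    Continuous ι → (∃ c : ℝ, 0 < c ∧ ∀ x : A, c * ‖x‖ ≤ ‖ι x‖) →
      ∀ x : A, spectrum ℂ (ι x) = spectrum ℂ x

end

end Pool.Agent.Helper47.Mult
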