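import Mathlib
import Pool.Agent.Helper47.MultDefs

namespace Pool.Agent.Helper47.Mult

open MeasureTheory ENNReal Filter Topology

set_option linter.unusedSectionVars false
set_option linter.overlappingInstances false

noncomputable section

variable {G : Type*} [AddCommGroup G] [TopologicalSpace G] [IsTopologicalAddGroup G]
  [CompactSpace G] [T2Space G] [MeasurableSpace G] [BorelSpace G]
  (μ : Measure G) [μ.IsAddHaarMeasure] [μ.Regular] (p : ℝ≥0∞) [Fact (1 ≤ p)]

lemma norm_translation (y : G) (g : Lp ℂ p μ) : ‖translation μ p y g‖ = ‖g‖ :=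
  Lp.norm_compMeasurePreserving g (measurePreserving_add_left μ y)

lemma translation_ae (y : G) (g : Lp ℂ p μ) :
    (translation μ p y g : G → ℂ) =ᵐ[μ] fun x => g (y + x) :=
  Lp.coeFn_compMeasurePreserving g (measurePreserving_add_left μ y)

lemma translation_comp (y z : G) (g : Lp ℂ p μ) :
    translation μ p y (translation μ p z g) = translation μ p (y + z) g := by
  apply Lp.ext
  have h1 := translation_ae μ p y (translation μ p z g)
  have h2 := (measurePreserving_add_left μ y).quasiMeasurePreserving.ae_eq_comp (translation_ae μ p z g)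
  have h3 := translation_ae μ p (y + z) g
  refine h1.trans (h2.trans (EventuallyEq.trans ?_ h3.symm))
  filter_upwards with x
  simp only [Function.comp]
  congr 1; abel

lemma translation_zero (g : Lp ℂ p μ) : translation μ p 0 g = g := by
  apply Lp.ext
  refine (translation_ae μ p 0 g).trans ?_
  filter_upwards with x
  rw [zero_add]

lemma continuous_translation (hp : p ≠ ∞) (g : Lp ℂ p μ) :
    Continuous (fun y => translation μ p y g) := by
  have hg : Continuous (fun y : G => (⟨fun x => y + x, continuous_const.add continuous_id⟩ : C(G, G))) := by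
    apply ContinuousMap.continuous_of_continuous_uncurry
    exact continuous_fst.add continuous_snd
  exact Continuous.compMeasurePreservingLp (continuous_const (y := g)) hg
    (fun y => measurePreserving_add_left μ y) hp

/-- translation of the class of a continuous function -/
lemma translation_toLp (y : G) (F : C(G, ℂ)) :
    translation μ p y (ContinuousMap.toLp p μ ℂ F) =
      ContinuousMap.toLp p μ ℂ (F.comp ⟨fun x => y + x, continuous_const.add continuous_id⟩) := by
  apply Lp.ext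
  refine (translation_ae μ p y _).trans ?_
  have h1 := (measurePreserving_add_left μ y).quasiMeasurePreserving.ae_eq_comp
    (ContinuousMap.coeFn_toLp (p := p) (𝕜 := ℂ) μ F)
  refine EventuallyEq.trans h1 ?_
  have h2 := ContinuousMap.coeFn_toLp (p := p) (𝕜 := ℂ) μ
    (F.comp ⟨fun x => y + x, continuous_const.add continuous_id⟩)
  refine EventuallyEq.trans ?_ h2.symm
  filter_upwards with x
  rfl

lemma integrable_Lp (f : Lp ℂ p μ) : Integrable (f : G → ℂ) μ := by
  have := Lp.memLp f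
  exact memLp_one_iff_integrable.1 (this.mono_exponent Fact.out)

lemma exists_norm_one_le : ∃ C : ℝ, 0 ≤ C ∧ ∀ f : Lp ℂ p μ, ∫ x, ‖(f : G → ℂ) x‖ ∂μ ≤ C * ‖f‖ := by
  refine ⟨(μ Set.univ ^ (1 / (1 : ℝ≥0∞).toReal - 1 / p.toReal)).toReal, ENNReal.toReal_nonneg, ?_⟩
  intro f
  have h1 := eLpNorm_le_eLpNorm_mul_rpow_measure_univ (μ := μ) (p := 1) (q := p) Fact.out
    (Lp.memLp f).aestronglyMeasurable
  rw [eLpNorm_one_eq_lintegral_enorm] at h1
  rw [integral_norm_eq_lintegral_enorm (Lp.memLp f).aestronglyMeasurable, Lp.norm_def, mul_comm,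
    ← ENNReal.toReal_mul]
  apply ENNReal.toReal_mono _ h1
  apply ENNReal.mul_ne_top (Lp.memLp f).eLpNorm_ne_top
  apply ENNReal.rpow_ne_top_of_nonneg _ (measure_ne_top μ _)
  have hp1 : (1 : ℝ≥0∞) ≤ p := Fact.out
  rcases eq_or_ne p ∞ with hp | hp
  · simp [hp]
  · have : (1 : ℝ) ≤ p.toReal := by
      have := ENNReal.toReal_mono hp hp1
      simpa using this
    simp only [ENNReal.toReal_one, div_one, sub_nonneg]
    rw [div_le_one (by linarith)]
    exact this

lemma aesm_translation (hp : p ≠ ∞) (g : Lp ℂ p μ) :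
    AEStronglyMeasurable (fun y => translation μ p (-y) g) μ := by
  have h : Continuous (fun y => translation μ p (-y) g) :=
    (continuous_translation μ p hp g).comp continuous_neg
  have := h.continuousOn.aestronglyMeasurable_of_isCompact (μ := μ) isCompact_univ MeasurableSet.univ
  rwa [Measure.restrict_univ] at this

lemma integrable_smul_translation (hp : p ≠ ∞) {f : G → ℂ} (hf : Integrable f μ) (g : Lp ℂ p μ) :
    Integrable (fun y => f y • translation μ p (-y) g) μ := by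
  apply Integrable.mono' (g := fun y => ‖f y‖ * ‖g‖) (hf.norm.mul_const _)
  · exact hf.aestronglyMeasurable.smul (aesm_translation μ p hp g)
  · filter_upwards with y
    rw [norm_smul, norm_translation]

/-- convolution `f * g`, as a Bochner integral in `L^p` -/
def cv (f : G → ℂ) (g : Lp ℂ p μ) : Lp ℂ p μ := ∫ y, f y • translation μ p (-y) g ∂μ

lemma norm_cv_le {f : G → ℂ} (g : Lp ℂ p μ) :
    ‖cv μ p f g‖ ≤ (∫ y, ‖f y‖ ∂μ) * ‖g‖ := by
  unfold cv
  refine (norm_integral_le_integral_norm _).trans ?_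
  simp only [norm_smul, norm_translation]
  rw [integral_mul_const]

/-- convolution operator by an integrable function -/
def Sop (hp : p ≠ ∞) {f : G → ℂ} (hf : Integrable f μ) : Lp ℂ p μ →L[ℂ] Lp ℂ p μ :=
  LinearMap.mkContinuous
    { toFun := cv μ p f
      map_add' := by
        intro g h
        unfold cv
        rw [← integral_add (integrable_smul_translation μ p hp hf g) (integrable_smul_translation μ p hp hf h)]
        simp only [map_add, smul_add]
      map_smul' := by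
        intro c g
        unfold cv
        rw [RingHom.id_apply, ← integral_smul]
        simp only [map_smul, smul_comm c] }
    (∫ y, ‖f y‖ ∂μ) (fun g => norm_cv_le μ p g)

lemma Sop_apply (hp : p ≠ ∞) {f : G → ℂ} (hf : Integrable f μ) (g : Lp ℂ p μ) :
    Sop μ p hp hf g = cv μ p f g := rfl

lemma norm_Sop_le (hp : p ≠ ∞) {f : G → ℂ} (hf : Integrable f μ) :
    ‖Sop μ p hp hf‖ ≤ ∫ y, ‖f y‖ ∂μ :=
  LinearMap.mkContinuous_norm_le _ (integral_nonneg fun _ => norm_nonneg _) _

lemma mem_mult {T : Lp ℂ p μ →L[ℂ] Lp ℂ p μ} :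
    T ∈ multiplierAlgebra μ p ↔ ∀ y g, T (translation μ p y g) = translation μ p y (T g) := by
  unfold multiplierAlgebra
  rw [Subalgebra.mem_centralizer_iff]
  constructor
  · intro h y g
    have := h _ ⟨y, rfl⟩
    have := congrArg (fun W : Lp ℂ p μ →L[ℂ] Lp ℂ p μ => W g) this
    exact this.symm
  · rintro h _ ⟨y, rfl⟩
    ext1 g
    exact (h y g).symm

lemma T_cv (hp : p ≠ ∞) {T : Lp ℂ p μ →L[ℂ] Lp ℂ p μ} (hT : T ∈ multiplierAlgebra μ p)
    {f : G → ℂ} (hf : Integrable f μ) (g : Lp ℂ p μ) : T (cv μ p f g) = cv μ p f (T g) := by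
  unfold cv
  rw [← ContinuousLinearMap.integral_comp_comm T (integrable_smul_translation μ p hp hf g)]
  simp only [map_smul]
  simp only [(mem_mult μ p).1 hT]

lemma translation_mem (y : G) : translation μ p y ∈ multiplierAlgebra μ p := by
  rw [mem_mult]
  intro z g
  rw [translation_comp, translation_comp, add_comm]

lemma Sop_mem (hp : p ≠ ∞) {f : G → ℂ} (hf : Integrable f μ) :
    Sop μ p hp hf ∈ multiplierAlgebra μ p := by
  rw [mem_mult]
  intro y g
  rw [Sop_apply, Sop_apply, T_cv μ p hp (translation_mem μ p y) hf]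


/-- `C(G)`-valued convolution -/
def cc (F H : C(G, ℂ)) : C(G, ℂ) :=
  ∫ y, F y • H.comp (⟨fun x => -y + x, continuous_const.add continuous_id⟩ : C(G, G)) ∂μ

lemma continuous_comp_trans (H : C(G, ℂ)) :
    Continuous (fun y : G => H.comp (⟨fun x => -y + x, continuous_const.add continuous_id⟩ : C(G, G))) := by
  apply ContinuousMap.continuous_of_continuous_uncurry
  exact H.continuous.comp ((continuous_fst.neg).add continuous_snd)

lemma integrable_cc (F H : C(G, ℂ)) :
    Integrable (fun y => F y • H.comp (⟨fun x => -y + x, continuous_const.add continuous_id⟩ : C(G, G))) μ := by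
  have h : Continuous (fun y => F y • H.comp (⟨fun x => -y + x, continuous_const.add continuous_id⟩ : C(G, G))) :=
    F.continuous.smul (continuous_comp_trans H)
  have := h.continuousOn.integrableOn_compact (μ := μ) isCompact_univ
  rwa [integrableOn_univ] at this

lemma cc_apply (F H : C(G, ℂ)) (x : G) : cc μ F H x = ∫ y, F y * H (-y + x) ∂μ := by
  unfold cc
  have := ContinuousLinearMap.integral_comp_comm (ContinuousMap.evalCLM ℂ x) (integrable_cc μ F H)
  exact this.symm

lemma cc_comm (F H : C(G, ℂ)) : cc μ F H = cc μ H F := by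
  ext x
  rw [cc_apply, cc_apply]
  rw [← integral_sub_left_eq_self (fun y => F y * H (-y + x)) μ x]
  apply integral_congr_ae
  filter_upwards with y
  have e1 : -(x - y) + x = y := by abel
  have e2 : x - y = -y + x := by abel
  rw [e1, e2, mul_comm]

lemma toLp_cc (F H : C(G, ℂ)) :
    ContinuousMap.toLp p μ ℂ (cc μ F H) =
      cv μ p (ContinuousMap.toLp p μ ℂ F : Lp ℂ p μ) (ContinuousMap.toLp p μ ℂ H) := by
  unfold cc
  rw [← ContinuousLinearMap.integral_comp_comm _ (integrable_cc μ F H)]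
  unfold cv
  apply integral_congr_ae
  filter_upwards [ContinuousMap.coeFn_toLp (p := p) (𝕜 := ℂ) μ F] with y hy
  rw [hy, map_smul, translation_toLp]

lemma cv_congr {f f' : G → ℂ} (h : f =ᵐ[μ] f') (g : Lp ℂ p μ) : cv μ p f g = cv μ p f' g := by
  unfold cv
  apply integral_congr_ae
  filter_upwards [h] with y hy
  rw [hy]

lemma cv_add (hp : p ≠ ∞) (f f' g : Lp ℂ p μ) :
    cv μ p (f + f' : Lp ℂ p μ) g = cv μ p f g + cv μ p f' g := by
  rw [cv_congr μ p (Lp.coeFn_add f f')]
  unfold cv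
  rw [← integral_add (integrable_smul_translation μ p hp (integrable_Lp μ p f) g)
    (integrable_smul_translation μ p hp (integrable_Lp μ p f') g)]
  simp only [Pi.add_apply, add_smul]

lemma cv_smul (c : ℂ) (f g : Lp ℂ p μ) :
    cv μ p (c • f : Lp ℂ p μ) g = c • cv μ p f g := by
  rw [cv_congr μ p (Lp.coeFn_smul c f)]
  unfold cv
  rw [← integral_smul]
  simp only [Pi.smul_apply, smul_eq_mul, mul_smul]

/-- convolution on the left as a continuous linear map in the left variable -/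
def Lop (hp : p ≠ ∞) (g : Lp ℂ p μ) : Lp ℂ p μ →L[ℂ] Lp ℂ p μ :=
  LinearMap.mkContinuous
    { toFun := fun f => cv μ p f g
      map_add' := fun f f' => cv_add μ p hp f f' g
      map_smul' := fun c f => cv_smul μ p c f g }
    ((exists_norm_one_le μ p).choose * ‖g‖) (fun f => by
      have h := (exists_norm_one_le μ p).choose_spec.2 f
      refine (norm_cv_le μ p g).trans ?_
      have := mul_le_mul_of_nonneg_right h (norm_nonneg g)
      refine this.trans (le_of_eq ?_)
      ring)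

lemma cv_comm (hp : p ≠ ∞) (f g : Lp ℂ p μ) : cv μ p f g = cv μ p g f := by
  have hd : DenseRange (ContinuousMap.toLp p μ ℂ : C(G, ℂ) →L[ℂ] Lp ℂ p μ) :=
    ContinuousMap.toLp_denseRange ℂ μ ℂ hp
  -- step 1: both continuous
  have h1 : ∀ F H : C(G, ℂ), cv μ p (ContinuousMap.toLp p μ ℂ F : Lp ℂ p μ) (ContinuousMap.toLp p μ ℂ H)
      = cv μ p (ContinuousMap.toLp p μ ℂ H : Lp ℂ p μ) (ContinuousMap.toLp p μ ℂ F) := by
    intro F H
    rw [← toLp_cc μ p, ← toLp_cc μ p, cc_comm]
  -- step 2: f arbitrary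
  have h2 : ∀ (f : Lp ℂ p μ) (H : C(G, ℂ)), cv μ p f (ContinuousMap.toLp p μ ℂ H)
      = cv μ p (ContinuousMap.toLp p μ ℂ H : Lp ℂ p μ) f := by
    intro f H
    have hc1 : Continuous (fun f : Lp ℂ p μ => cv μ p f (ContinuousMap.toLp p μ ℂ H)) :=
      (Lop μ p hp (ContinuousMap.toLp p μ ℂ H)).continuous
    have hc2 : Continuous (fun f : Lp ℂ p μ => cv μ p (ContinuousMap.toLp p μ ℂ H : Lp ℂ p μ) f) :=
      (Sop μ p hp (integrable_Lp μ p (ContinuousMap.toLp p μ ℂ H))).continuous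
    exact congrFun (hd.equalizer hc1 hc2 (funext fun F => h1 F H)) f
  have hc1 : Continuous (fun g : Lp ℂ p μ => cv μ p g f) := (Lop μ p hp f).continuous
  have hc2 : Continuous (fun g : Lp ℂ p μ => cv μ p f g) := (Sop μ p hp (integrable_Lp μ p f)).continuous
  exact congrFun (hd.equalizer hc2 hc1 (funext fun F => h2 f F)) g

/-- approximate identity -/
lemma exists_approx (hp : p ≠ ∞) (g : Lp ℂ p μ) (ε : ℝ) (hε : 0 < ε) :
    ∃ K : Lp ℂ p μ, (∫ y, ‖(K : G → ℂ) y‖ ∂μ) = 1 ∧ ‖cv μ p K g - g‖ ≤ ε := by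
  have hc : Continuous (fun y => translation μ p (-y) g) :=
    (continuous_translation μ p hp g).comp continuous_neg
  have h0 : (fun y => translation μ p (-y) g) 0 = g := by
    simp only [neg_zero]; exact translation_zero μ p g
  obtain ⟨U, hU, hUo, h0U⟩ : ∃ U : Set G, (∀ y ∈ U, ‖translation μ p (-y) g - g‖ ≤ ε) ∧ IsOpen U ∧ (0 : G) ∈ U := by
    have := hc.tendsto 0
    have h0' : translation μ p (-(0 : G)) g = g := h0
    rw [h0', Metric.tendsto_nhds] at this
    obtain ⟨U, h1, h2, h3⟩ := mem_nhds_iff.1 (this ε hε)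
    refine ⟨U, fun y hy => ?_, h2, h3⟩
    have := h1 hy
    simp only [Set.mem_ofPred_eq, dist_eq_norm] at this
    exact this.le
  have hμU : μ U ≠ 0 := (hUo.measure_pos μ ⟨0, h0U⟩).ne'
  have hμU' : μ U ≠ ∞ := measure_ne_top μ U
  set c : ℝ := (μ U).toReal with hc'
  have hcpos : 0 < c := ENNReal.toReal_pos hμU hμU'
  set K : Lp ℂ p μ := indicatorConstLp p hUo.measurableSet hμU' ((c⁻¹ : ℝ) : ℂ) with hK
  have hKae : (K : G → ℂ) =ᵐ[μ] U.indicator (fun _ => ((c⁻¹ : ℝ) : ℂ)) := indicatorConstLp_coeFn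
  have hint : ∫ y, (K : G → ℂ) y ∂μ = 1 := by
    rw [integral_congr_ae hKae, integral_indicator hUo.measurableSet, setIntegral_const]
    rw [Measure.real, ← hc']
    rw [Complex.real_smul, ← Complex.ofReal_mul, mul_inv_cancel₀ hcpos.ne', Complex.ofReal_one]
  have hnorm : ∫ y, ‖(K : G → ℂ) y‖ ∂μ = 1 := by
    have : (fun y => ‖(K : G → ℂ) y‖) =ᵐ[μ] U.indicator (fun _ => c⁻¹) := by
      filter_upwards [hKae] with y hy
      rw [hy]
      by_cases hyU : y ∈ U
      · rw [Set.indicator_of_mem hyU, Set.indicator_of_mem hyU, Complex.norm_real, Real.norm_eq_abs,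
          abs_of_pos (inv_pos.2 hcpos)]
      · rw [Set.indicator_of_notMem hyU, Set.indicator_of_notMem hyU, norm_zero]
    rw [integral_congr_ae this, integral_indicator hUo.measurableSet, setIntegral_const]
    rw [Measure.real, ← hc', smul_eq_mul, mul_inv_cancel₀ hcpos.ne']
  refine ⟨K, hnorm, ?_⟩
  have hKi := integrable_Lp μ p K
  have e : cv μ p K g - g = ∫ y, (K : G → ℂ) y • (translation μ p (-y) g - g) ∂μ := by
    have e1 : g = ∫ y, (K : G → ℂ) y • g ∂μ := by
      rw [integral_smul_const, hint, one_smul]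
    have e2 : ∫ y, (K : G → ℂ) y • (translation μ p (-y) g - g) ∂μ
        = cv μ p K g - ∫ y, (K : G → ℂ) y • g ∂μ := by
      unfold cv
      rw [← integral_sub (integrable_smul_translation μ p hp hKi g) (hKi.smul_const g)]
      simp only [smul_sub]
    rw [e2, ← e1]
  rw [e]
  refine (norm_integral_le_integral_norm _).trans ?_
  have hle : ∫ y, ‖(K : G → ℂ) y • (translation μ p (-y) g - g)‖ ∂μ ≤ ∫ y, ‖(K : G → ℂ) y‖ * ε ∂μ := by
    apply integral_mono_ae
    · have := (integrable_smul_translation μ p hp hKi g).sub (hKi.smul_const g)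
      refine this.norm.congr ?_
      filter_upwards with y
      simp only [Pi.sub_apply, smul_sub]
    · exact hKi.norm.mul_const _
    · filter_upwards [hKae] with y hy
      rw [norm_smul]
      by_cases hyU : y ∈ U
      · exact mul_le_mul_of_nonneg_left (hU y hyU) (norm_nonneg _)
      · rw [hy, Set.indicator_of_notMem hyU, norm_zero, zero_mul, zero_mul]
  rw [integral_mul_const, hnorm, one_mul] at hle
  exact hle

/-- `T (f * g) = (T f) * g` -/
lemma T_cv_left (hp : p ≠ ∞) {T : Lp ℂ p μ →L[ℂ] Lp ℂ p μ} (hT : T ∈ multiplierAlgebra μ p)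
    (f g : Lp ℂ p μ) : T (cv μ p f g) = cv μ p (T f) g := by
  rw [cv_comm μ p hp f g, T_cv μ p hp hT (integrable_Lp μ p g), cv_comm μ p hp]

/-- the multiplier algebra is commutative -/
lemma mult_comm (hp : p ≠ ∞) {S T : Lp ℂ p μ →L[ℂ] Lp ℂ p μ} (hS : S ∈ multiplierAlgebra μ p)
    (hT : T ∈ multiplierAlgebra μ p) (g : Lp ℂ p μ) : S (T g) = T (S g) := by
  have key : ∀ K : Lp ℂ p μ, S (T (cv μ p K g)) = T (S (cv μ p K g)) := by
    intro K
    rw [T_cv_left μ p hp hT, T_cv μ p hp hS (integrable_Lp μ p (T K)),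
      T_cv μ p hp hS (integrable_Lp μ p K), T_cv_left μ p hp hT]
  have hcl : ∀ ε : ℝ, 0 < ε → ‖S (T g) - T (S g)‖ ≤ (‖S‖ * ‖T‖ + ‖T‖ * ‖S‖) * ε := by
    intro ε hε
    obtain ⟨K, -, hK⟩ := exists_approx μ p hp g ε hε
    have e : S (T g) - T (S g) = T (S (cv μ p K g - g)) - S (T (cv μ p K g - g)) := by
      simp only [map_sub]
      rw [key K]; abel
    rw [e]
    refine (norm_sub_le _ _).trans ?_
    have h1 : ‖T (S (cv μ p K g - g))‖ ≤ ‖T‖ * (‖S‖ * ε) :=
      (T.le_opNorm _).trans (mul_le_mul_of_nonneg_left ((S.le_opNorm _).trans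
        (mul_le_mul_of_nonneg_left hK (norm_nonneg _))) (norm_nonneg _))
    have h2 : ‖S (T (cv μ p K g - g))‖ ≤ ‖S‖ * (‖T‖ * ε) :=
      (S.le_opNorm _).trans (mul_le_mul_of_nonneg_left ((T.le_opNorm _).trans
        (mul_le_mul_of_nonneg_left hK (norm_nonneg _))) (norm_nonneg _))
    linarith
  have h0 : ‖S (T g) - T (S g)‖ ≤ 0 := by
    apply _root_.le_of_forall_pos_le_add
    intro δ hδ
    set M := ‖S‖ * ‖T‖ + ‖T‖ * ‖S‖ with hM
    have hM0 : 0 ≤ M := by positivity
    have := hcl (δ / (M + 1)) (by positivity)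
    refine this.trans ?_
    rw [zero_add, mul_div_assoc', div_le_iff₀ (by positivity)]
    nlinarith
  have := norm_le_zero_iff.1 h0
  exact sub_eq_zero.1 this

/-- `C(G)`-valued operator associated with a functional -/
def Fop₀ (hp : p ≠ ∞) (φ : Lp ℂ p μ →L[ℂ] ℂ) : Lp ℂ p μ →ₗ[ℂ] C(G, ℂ) where
  toFun := fun g => ⟨fun x => φ (translation μ p x g),
          φ.continuous.comp (continuous_translation μ p hp g)⟩
  map_add' := by
    intro g h; ext x; simp
  map_smul' := by
    intro c g; ext x; simp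

/-- operator associated with a functional -/
def Fop (hp : p ≠ ∞) (φ : Lp ℂ p μ →L[ℂ] ℂ) : Lp ℂ p μ →L[ℂ] Lp ℂ p μ :=
  (ContinuousMap.toLp p μ ℂ : C(G, ℂ) →L[ℂ] Lp ℂ p μ).comp
    (LinearMap.mkContinuous (Fop₀ μ p hp φ)
      ‖φ‖ (fun g => by
        apply (ContinuousMap.norm_le _ (by positivity)).2
        intro x
        have := φ.le_opNorm (translation μ p x g)
        rwa [norm_translation] at this))

lemma Fop_apply (hp : p ≠ ∞) (φ : Lp ℂ p μ →L[ℂ] ℂ) (g : Lp ℂ p μ) :
    Fop μ p hp φ g = ContinuousMap.toLp p μ ℂ (⟨fun x => φ (translation μ p x g),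
          φ.continuous.comp (continuous_translation μ p hp g)⟩ : C(G, ℂ)) := rfl

lemma Fop_mem (hp : p ≠ ∞) (φ : Lp ℂ p μ →L[ℂ] ℂ) : Fop μ p hp φ ∈ multiplierAlgebra μ p := by
  rw [mem_mult]
  intro y g
  rw [Fop_apply, Fop_apply, translation_toLp]
  congr 1
  ext x
  simp only [ContinuousMap.coe_mk, ContinuousMap.comp_apply]
  rw [translation_comp, add_comm x y]

lemma toLp_injective (F : C(G, ℂ)) (h : ContinuousMap.toLp p μ ℂ F = 0) : F = 0 := by
  have := ContinuousMap.toLp_injective (E := ℂ) (p := p) (𝕜 := ℂ) μ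
  apply this
  rw [h, map_zero]


section main

variable {μ p}

lemma inj_of_bddBelow (hp : p ≠ ∞) {T : Lp ℂ p μ →L[ℂ] Lp ℂ p μ} (hT : T ∈ multiplierAlgebra μ p)
    {c : ℝ} (hc : 0 < c) (hbelow : ∀ S ∈ multiplierAlgebra μ p, c * ‖S‖ ≤ ‖T * S‖)
    (f : Lp ℂ p μ) (hf : T f = 0) : f = 0 := by
  have hfi := integrable_Lp μ p f
  have hTS : T * Sop μ p hp hfi = 0 := by
    ext1 g
    rw [mul_apply_eq_comp, Sop_apply, T_cv_left μ p hp hT, hf]
    have : cv μ p (0 : Lp ℂ p μ) g = 0 := (Lop μ p hp g).map_zero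
    rw [this]; rfl
  have h1 := hbelow _ (Sop_mem μ p hp hfi)
  rw [hTS, norm_zero] at h1
  have h2 : ‖Sop μ p hp hfi‖ = 0 := by
    have h3 := norm_nonneg (Sop μ p hp hfi)
    nlinarith
  have h4 : Sop μ p hp hfi = 0 := norm_eq_zero.1 h2
  have h5 : ∀ ε : ℝ, 0 < ε → ‖f‖ ≤ 0 + ε := by
    intro ε hε
    obtain ⟨K, -, hK⟩ := exists_approx μ p hp f ε hε
    rw [cv_comm μ p hp K f, ← Sop_apply μ p hp hfi, h4] at hK
    rw [zero_apply, zero_sub, norm_neg] at hK
    linarith
  exact norm_le_zero_iff.1 (_root_.le_of_forall_pos_le_add h5)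

lemma dense_of_bddBelow (hp : p ≠ ∞) {T : Lp ℂ p μ →L[ℂ] Lp ℂ p μ} (hT : T ∈ multiplierAlgebra μ p)
    {c : ℝ} (hc : 0 < c) (hbelow : ∀ S ∈ multiplierAlgebra μ p, c * ‖S‖ ≤ ‖T * S‖)
    (x : Lp ℂ p μ) : x ∈ closure (Set.range T) := by
  by_contra hx
  set R : Submodule ℂ (Lp ℂ p μ) := (T.range : Submodule ℂ (Lp ℂ p μ)).topologicalClosure with hR
  have hRcl : IsClosed (R : Set (Lp ℂ p μ)) := Submodule.isClosed_topologicalClosure _
  have hxR : x ∉ R := by
    intro h
    apply hx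
    have h' : x ∈ ((T.range : Submodule ℂ (Lp ℂ p μ)).topologicalClosure : Set (Lp ℂ p μ)) := h
    rw [Submodule.topologicalClosure_coe] at h'
    exact h'
  have : IsClosed (R : Set (Lp ℂ p μ)) := hRcl
  have hmk : R.mkQ x ≠ 0 := by
    intro h
    exact hxR ((Submodule.Quotient.mk_eq_zero R).1 h)
  obtain ⟨ψ, hψ⟩ := SeparatingDual.exists_ne_zero (R := ℂ) hmk
  set φ : Lp ℂ p μ →L[ℂ] ℂ := ψ.comp R.mkQL with hφ
  have hφT : ∀ g, φ (T g) = 0 := by
    intro g
    have h1 : R.mkQ (T g) = 0 := by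
      rw [Submodule.mkQ_apply, Submodule.Quotient.mk_eq_zero]
      exact Submodule.le_topologicalClosure _ ⟨g, rfl⟩
    change ψ (R.mkQ (T g)) = 0
    rw [h1, map_zero]
  have hφx : φ x ≠ 0 := hψ
  -- the operator attached to φ
  have hFm := Fop_mem μ p hp φ
  have hTF : T * Fop μ p hp φ = 0 := by
    ext1 g
    rw [mul_apply_eq_comp, ← mult_comm μ p hp hFm hT g, Fop_apply,
      zero_apply]
    have : (⟨fun x => φ (translation μ p x (T g)),
          φ.continuous.comp (continuous_translation μ p hp (T g))⟩ : C(G, ℂ)) = 0 := by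
      ext y
      simp only [ContinuousMap.coe_mk, ContinuousMap.coe_zero, Pi.zero_apply]
      rw [← (mem_mult μ p).1 hT, hφT]
    rw [this, map_zero]
  have h1 := hbelow _ hFm
  rw [hTF, norm_zero] at h1
  have h2 : ‖Fop μ p hp φ‖ = 0 := by
    have h3 := norm_nonneg (Fop μ p hp φ)
    nlinarith
  have h4 : Fop μ p hp φ = 0 := norm_eq_zero.1 h2
  have h5 : Fop μ p hp φ x = 0 := by rw [h4]; rfl
  rw [Fop_apply] at h5
  have h6 := toLp_injective μ p _ h5
  have h7 := congrArg (fun F : C(G, ℂ) => F 0) h6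
  simp only [ContinuousMap.coe_mk, ContinuousMap.coe_zero, Pi.zero_apply] at h7
  rw [translation_zero] at h7
  exact hφx h7

lemma bddBelow_apply (hp : p ≠ ∞) {T : Lp ℂ p μ →L[ℂ] Lp ℂ p μ} (hT : T ∈ multiplierAlgebra μ p)
    {c : ℝ} (hc : 0 < c) (hbelow : ∀ S ∈ multiplierAlgebra μ p, c * ‖S‖ ≤ ‖T * S‖)
    (h : Lp ℂ p μ) : ‖h‖ ≤ 2 / c * ‖T h‖ := by
  apply _root_.le_of_forall_pos_le_add
  intro ε hε
  obtain ⟨K, hK1, hK2⟩ := exists_approx μ p hp h (ε / 2) (by positivity)
  obtain ⟨C, hC0, hC⟩ := exists_norm_one_le μ p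
  set δ : ℝ := min (1 / (C + 1)) (ε / (2 * ((C + 1) * (‖h‖ + 1)))) with hδ
  have hδpos : 0 < δ := by
    apply lt_min <;> positivity
  have hKcl := dense_of_bddBelow hp hT hc hbelow K
  obtain ⟨_, ⟨f, rfl⟩, hf⟩ := Metric.mem_closure_iff.1 hKcl δ hδpos
  rw [dist_eq_norm, norm_sub_rev] at hf
  have hfi := integrable_Lp μ p f
  have hTfi := integrable_Lp μ p (T f)
  have hint : ∫ y, ‖((T f - K : Lp ℂ p μ) : G → ℂ) y‖ ∂μ ≤ C * δ :=
    (hC _).trans (mul_le_mul_of_nonneg_left hf.le hC0)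
  have hCδ : C * δ ≤ 1 := by
    calc C * δ ≤ C * (1 / (C + 1)) := mul_le_mul_of_nonneg_left (min_le_left _ _) hC0
      _ ≤ 1 := by rw [mul_one_div, div_le_one (by positivity)]; linarith
  have hCδ2 : C * δ * ‖h‖ ≤ ε / 2 := by
    have h1 : δ ≤ ε / (2 * ((C + 1) * (‖h‖ + 1))) := min_le_right _ _
    have h2 : C * δ * ‖h‖ ≤ (C + 1) * (ε / (2 * ((C + 1) * (‖h‖ + 1)))) * (‖h‖ + 1) := by
      gcongr
      · linarith
      · linarith
    refine h2.trans (le_of_eq ?_)
    field_simp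
  -- norm of `Sop f`
  have hTS : T * Sop μ p hp hfi = Sop μ p hp hTfi := by
    ext1 g
    rw [mul_apply_eq_comp, Sop_apply, Sop_apply, T_cv_left μ p hp hT]
  have hn1 : ‖Sop μ p hp hTfi‖ ≤ 2 := by
    refine (norm_Sop_le μ p hp hTfi).trans ?_
    have h1 : ∫ y, ‖(T f : Lp ℂ p μ) y‖ ∂μ ≤ ∫ y, (‖((T f - K : Lp ℂ p μ) : G → ℂ) y‖ + ‖(K : G → ℂ) y‖) ∂μ := by
      apply integral_mono_ae hTfi.norm ((integrable_Lp μ p (T f - K)).norm.add (integrable_Lp μ p K).norm)
      filter_upwards [Lp.coeFn_sub (T f) K] with y hy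
      simp only [Pi.add_apply]
      rw [hy, Pi.sub_apply]
      have := norm_add_le ((T f : Lp ℂ p μ) y - (K : G → ℂ) y) ((K : G → ℂ) y)
      rwa [sub_add_cancel] at this
    rw [integral_add (integrable_Lp μ p (T f - K)).norm (integrable_Lp μ p K).norm, hK1] at h1
    linarith
  have hn2 : ‖Sop μ p hp hfi‖ ≤ 2 / c := by
    have h1 := hbelow _ (Sop_mem μ p hp hfi)
    rw [hTS] at h1
    rw [le_div_iff₀ hc]
    linarith
  -- main estimate
  have e : h = (h - cv μ p K h) + (cv μ p K h - cv μ p (T f) h) + cv μ p f (T h) := by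
    rw [← T_cv μ p hp hT hfi, T_cv_left μ p hp hT]; abel
  have n1 : ‖h - cv μ p K h‖ ≤ ε / 2 := by rw [norm_sub_rev]; exact hK2
  have n2 : ‖cv μ p K h - cv μ p (T f) h‖ ≤ ε / 2 := by
    have e2 : cv μ p K h - cv μ p (T f) h = -cv μ p (T f - K : Lp ℂ p μ) h := by
      have : cv μ p (T f - K : Lp ℂ p μ) h = cv μ p (T f) h - cv μ p K h := (Lop μ p hp h).map_sub (T f) K
      rw [this]; abel
    rw [e2, norm_neg]
    refine (norm_cv_le μ p h).trans ?_
    refine (mul_le_mul_of_nonneg_right hint (norm_nonneg _)).trans hCδ2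
  have n3 : ‖cv μ p f (T h)‖ ≤ 2 / c * ‖T h‖ := by
    rw [← Sop_apply μ p hp hfi]
    exact (ContinuousLinearMap.le_opNorm _ _).trans (mul_le_mul_of_nonneg_right hn2 (norm_nonneg _))
  calc ‖h‖ = ‖(h - cv μ p K h) + (cv μ p K h - cv μ p (T f) h) + cv μ p f (T h)‖ := by rw [← e]
    _ ≤ ‖h - cv μ p K h‖ + ‖cv μ p K h - cv μ p (T f) h‖ + ‖cv μ p f (T h)‖ := norm_add₃_le
    _ ≤ 2 / c * ‖T h‖ + ε := by linarith

/-- Key theorem: an element of the multiplier algebra which is not a topological divisor of zero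
is invertible in the multiplier algebra. -/
lemma exists_inverse (hp : p ≠ ∞) {T : Lp ℂ p μ →L[ℂ] Lp ℂ p μ} (hT : T ∈ multiplierAlgebra μ p)
    {c : ℝ} (hc : 0 < c) (hbelow : ∀ S ∈ multiplierAlgebra μ p, c * ‖S‖ ≤ ‖T * S‖) :
    ∃ R ∈ multiplierAlgebra μ p, T * R = 1 ∧ R * T = 1 := by
  have hanti : AntilipschitzWith (Real.toNNReal (2 / c)) T := by
    apply ContinuousLinearMap.antilipschitz_of_bound
    intro x
    rw [Real.coe_toNNReal _ (by positivity)]
    exact bddBelow_apply hp hT hc hbelow x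
  have hclosed : IsClosed (Set.range T) := hanti.isClosed_range T.uniformContinuous
  have hsurj : Function.Surjective T := by
    intro x
    have := dense_of_bddBelow hp hT hc hbelow x
    rwa [hclosed.closure_eq] at this
  have hinj : Function.Injective T := hanti.injective
  have hker : (T : Lp ℂ p μ →ₗ[ℂ] Lp ℂ p μ).ker = ⊥ := LinearMap.ker_eq_bot.2 hinj
  have hrange : (T : Lp ℂ p μ →ₗ[ℂ] Lp ℂ p μ).range = ⊤ := LinearMap.range_eq_top.2 hsurj
  set e : Lp ℂ p μ ≃L[ℂ] Lp ℂ p μ := ContinuousLinearEquiv.ofBijective T hker hrange with he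
  have hTe : ∀ x, T (e.symm x) = x := fun x => e.apply_symm_apply x
  have heT : ∀ x, e.symm (T x) = x := fun x => e.symm_apply_apply x
  refine ⟨(e.symm : Lp ℂ p μ →L[ℂ] Lp ℂ p μ), ?_, ?_, ?_⟩
  · rw [mem_mult]
    intro y g
    apply hinj
    change T (e.symm (translation μ p y g)) = T (translation μ p y (e.symm g))
    rw [hTe, (mem_mult μ p).1 hT, hTe]
  · ext1 x; exact hTe x
  · ext1 x; exact heT x

end main

theorem spectral_permanence (hp : p ≠ ∞) :
    HasSpectralPermanence (multiplierAlgebra μ p) := by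
  intro B _ _ _ ι hι hbelow x
  obtain ⟨c₁, hc₁, hb⟩ := hbelow
  apply Set.Subset.antisymm (AlgHom.spectrum_apply_subset ι x)
  intro l hl
  by_contra hl'
  have hu : IsUnit (algebraMap ℂ B l - ι x) := by
    by_contra h
    exact hl' (spectrum.mem_iff.2 h)
  set a : multiplierAlgebra μ p := algebraMap ℂ _ l - x with ha
  have hιa : ι a = algebraMap ℂ B l - ι x := by
    rw [ha, map_sub, AlgHom.commutes]
  rw [← hιa] at hu
  obtain ⟨b, hb1⟩ := hu.exists_left_inv
  set ιc : multiplierAlgebra μ p →L[ℂ] B := ⟨ι.toLinearMap, hι⟩ with hιc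
  have hest : ∀ S : multiplierAlgebra μ p, ‖S‖ ≤ c₁⁻¹ * (‖b‖ * ‖ιc‖ + 1) * ‖a * S‖ := by
    intro S
    have h1 : ι S = b * ι (a * S) := by
      rw [map_mul, ← mul_assoc, hb1, one_mul]
    have h2 : ‖ι S‖ ≤ ‖b‖ * (‖ιc‖ * ‖a * S‖) := by
      rw [h1]
      refine (norm_mul_le _ _).trans ?_
      exact mul_le_mul_of_nonneg_left (ιc.le_opNorm (a * S)) (norm_nonneg _)
    have h3 := hb S
    rw [mul_assoc, inv_mul_eq_div, le_div_iff₀ hc₁]
    have h4 : 0 ≤ ‖a * S‖ := norm_nonneg _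
    nlinarith
  have hM : 0 < c₁⁻¹ * (‖b‖ * ‖ιc‖ + 1) := by positivity
  obtain ⟨R, hR, hR1, hR2⟩ := exists_inverse hp a.2 (c := (c₁⁻¹ * (‖b‖ * ‖ιc‖ + 1))⁻¹) (by positivity) (by
    intro S hS
    have := hest ⟨S, hS⟩
    rw [inv_mul_le_iff₀ hM]
    exact this)
  apply spectrum.mem_iff.1 hl
  refine ⟨⟨a, ⟨R, hR⟩, ?_, ?_⟩, rfl⟩
  · exact Subtype.ext hR1
  · exact Subtype.ext hR2

end

end Pool.Agent.Helper47.Mult
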