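import Mathlib

/-!
Definitions for the converse of Nagel's theorem on peak-interpolation sets in the unit sphere.
-/

namespace Pool.Agent.Helper47.Nagel

open Metric

noncomputable section

/-- the Hermitian product `⟨z,w⟩ = ∑ z_j conj w_j` of `ℂ^n` -/
def herm {n : ℕ} (z w : EuclideanSpace ℂ (Fin n)) : ℂ := ∑ j, z j * (starRingEnd ℂ) (w j)

/-- the ball algebra `A(B)`: functions continuous on the closed unit ball of `ℂ^n` and holomorphic
in the open unit ball -/
def ballAlgebra (n : ℕ) : Set (EuclideanSpace ℂ (Fin n) → ℂ) :=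
  {g | ContinuousOn g (closedBall 0 1) ∧ DifferentiableOn ℂ g (ball 0 1)}

/-- `K` is a peak-interpolation set for the ball algebra -/
def IsPISet (n : ℕ) (K : Set (EuclideanSpace ℂ (Fin n))) : Prop :=
  ∀ f : EuclideanSpace ℂ (Fin n) → ℂ, ContinuousOn f K → (∃ z ∈ K, f z ≠ 0) →
    ∃ g ∈ ballAlgebra n, (∀ z ∈ K, g z = f z) ∧
      ∀ z ∈ closedBall (0 : EuclideanSpace ℂ (Fin n)) 1 \ K, ‖g z‖ < sSup ((fun w => ‖f w‖) '' K)

end

end Pool.Agent.Helper47.Nagel
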