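import Mathlib
import Pool.Agent.Helper47.NagelDefs

namespace Pool.Agent.Helper47.Nagel

open Complex Metric Set MeasureTheory Filter Topology Pointwise

noncomputable section

/-- amplitude `B_k = 256^{-(k+1)}` -/
def B (k : ℕ) : ℝ := (1 / 256) ^ (k + 1)

/-- `A_k = sqrt (1 - B_k^2)` -/
def A (k : ℕ) : ℝ := Real.sqrt (1 - B k ^ 2)

/-- frequency `N_k = 4096^{k+1}` -/
def N (k : ℕ) : ℕ := 4096 ^ (k + 1)

/-- the character `e^{i n t}` -/
def ch (n : ℕ) (t : ℝ) : ℂ := exp ((n * t : ℝ) * I)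

def pq : ℕ → ℝ → ℂ × ℂ
  | 0, t => (ch 1 t, 0)
  | k + 1, t =>
      ((A k : ℂ) * (pq k t).1 - (B k : ℂ) * ch (N k) t * (starRingEnd ℂ) (pq k t).2,
       (A k : ℂ) * (pq k t).2 + (B k : ℂ) * ch (N k) t * (starRingEnd ℂ) (pq k t).1)

lemma B_pos (k : ℕ) : 0 < B k := by unfold B; positivity
lemma B_le (k : ℕ) : B k ≤ 1 / 256 := by
  unfold B
  rw [pow_succ]
  have : (1 / 256 : ℝ) ^ k ≤ 1 := pow_le_one₀ (by norm_num) (by norm_num)
  linarith
lemma B_succ (k : ℕ) : B (k + 1) = B k / 256 := by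
  unfold B; rw [pow_succ _ (k+1)]; ring
lemma A_nonneg (k : ℕ) : 0 ≤ A k := Real.sqrt_nonneg _
lemma A_sq (k : ℕ) : A k ^ 2 + B k ^ 2 = 1 := by
  unfold A
  rw [Real.sq_sqrt]
  · ring
  · have h1 := B_pos k
    have h2 := B_le k
    nlinarith
lemma A_le_one (k : ℕ) : A k ≤ 1 := by
  have := A_sq k
  nlinarith [A_nonneg k, B_pos k]
lemma one_sub_A_le (k : ℕ) : 1 - A k ≤ B k := by
  have := A_sq k
  have h1 := B_pos k
  have h2 := B_le k
  have h3 := A_le_one k
  have h4 := A_nonneg k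
  nlinarith
lemma B_mul_N (k : ℕ) : B k * N k = 16 ^ (k + 1) := by
  unfold B N
  push_cast
  rw [← mul_pow]
  norm_num

lemma norm_ch (n : ℕ) (t : ℝ) : ‖ch n t‖ = 1 := by
  unfold ch
  exact Complex.norm_exp_ofReal_mul_I _

lemma ch_sub_le (n : ℕ) (s t : ℝ) : ‖ch n s - ch n t‖ ≤ n * |s - t| := by
  unfold ch
  have h := Real.norm_exp_I_mul_ofReal_sub_one_le (x := n * s - n * t)
  have e : exp ((n * s : ℝ) * I) - exp ((n * t : ℝ) * I)
      = exp ((n * t : ℝ) * I) * (exp (I * ((n * s - n * t : ℝ) : ℂ)) - 1) := by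
    rw [mul_sub, ← Complex.exp_add, mul_one]
    congr 2
    push_cast; ring
  rw [e, norm_mul, Complex.norm_exp_ofReal_mul_I, one_mul]
  refine h.trans ?_
  rw [← mul_sub, Real.norm_eq_abs, abs_mul, Nat.abs_cast]

lemma ch_conj (n : ℕ) (t : ℝ) : (starRingEnd ℂ) (ch n t) * ch n t = 1 := by
  have := norm_ch n t
  rw [mul_comm, Complex.mul_conj, Complex.normSq_eq_norm_sq, this]
  norm_num

/-- `|p_k|^2 + |q_k|^2 = 1` on the circle -/
lemma unit_pq (k : ℕ) (t : ℝ) :
    (pq k t).1 * (starRingEnd ℂ) (pq k t).1 + (pq k t).2 * (starRingEnd ℂ) (pq k t).2 = 1 := by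
  induction k with
  | zero =>
    simp only [pq, map_zero, mul_zero, add_zero]
    rw [mul_comm]; exact ch_conj 1 t
  | succ k ih =>
    simp only [pq]
    have hA : ((A k : ℂ)) ^ 2 + (B k : ℂ) ^ 2 = 1 := by
      have := A_sq k
      exact_mod_cast this
    have hc := ch_conj (N k) t
    simp only [map_sub, map_add, map_mul, Complex.conj_conj, Complex.conj_ofReal]
    set p := (pq k t).1
    set q := (pq k t).2
    set c := ch (N k) t
    set p' := (starRingEnd ℂ) p
    set q' := (starRingEnd ℂ) q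
    set c' := (starRingEnd ℂ) c
    linear_combination (p * p' + q * q') * hA + (B k : ℂ)^2 * (p * p' + q * q') * hc + ih

lemma norm_unit (k : ℕ) (t : ℝ) : ‖(pq k t).1‖ ^ 2 + ‖(pq k t).2‖ ^ 2 = 1 := by
  have h := unit_pq k t
  rw [Complex.mul_conj, Complex.mul_conj, Complex.normSq_eq_norm_sq, Complex.normSq_eq_norm_sq] at h
  exact_mod_cast h

lemma norm_p_le (k : ℕ) (t : ℝ) : ‖(pq k t).1‖ ≤ 1 := by
  have := norm_unit k t
  nlinarith [norm_nonneg (pq k t).1, sq_nonneg ‖(pq k t).2‖]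

lemma norm_q_le (k : ℕ) (t : ℝ) : ‖(pq k t).2‖ ≤ 1 := by
  have := norm_unit k t
  nlinarith [norm_nonneg (pq k t).2, sq_nonneg ‖(pq k t).1‖]

lemma ch_mul_sub_le (n : ℕ) (s t : ℝ) (u v : ℂ) (hv : ‖u‖ ≤ 1) :
    ‖ch n s * (starRingEnd ℂ) u - ch n t * (starRingEnd ℂ) v‖ ≤ n * |s - t| + ‖u - v‖ := by
  have e : ch n s * (starRingEnd ℂ) u - ch n t * (starRingEnd ℂ) v
      = (ch n s - ch n t) * (starRingEnd ℂ) u + ch n t * (starRingEnd ℂ) (u - v) := by
    rw [map_sub]; ring
  rw [e]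
  refine (norm_add_le _ _).trans ?_
  rw [norm_mul, norm_mul, norm_ch, RCLike.norm_conj, RCLike.norm_conj, one_mul]
  have h1 := ch_sub_le n s t
  have h2 : ‖ch n s - ch n t‖ * ‖u‖ ≤ n * |s - t| * 1 := by
    apply mul_le_mul h1 hv (norm_nonneg _) (by positivity)
  linarith

lemma lip_pq (k : ℕ) (s t : ℝ) :
    ‖(pq k s).1 - (pq k t).1‖ ≤ 2 * 16 ^ k * |s - t| ∧
    ‖(pq k s).2 - (pq k t).2‖ ≤ 2 * 16 ^ k * |s - t| := by
  induction k with
  | zero =>
    constructor
    · simp only [pq]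
      have := ch_sub_le 1 s t
      have h0 := abs_nonneg (s - t)
      simp only [Nat.cast_one, one_mul] at this
      linarith
    · simp only [pq, sub_self, norm_zero]; positivity
  | succ k ih =>
    obtain ⟨h1, h2⟩ := ih
    have hA0 := A_nonneg k
    have hA1 := A_le_one k
    have hB0 := (B_pos k).le
    have hB1 := B_le k
    have hBN := B_mul_N k
    have key : ∀ x y : ℝ, x ≤ 2 * 16 ^ k * |s - t| → y ≤ 2 * 16 ^ k * |s - t| → 0 ≤ x → 0 ≤ y → 
        A k * x + B k * ((N k : ℝ) * |s - t| + y) ≤ 2 * 16 ^ (k + 1) * |s - t| := by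
      intro x y hx hy hx0 hy0
      have e1 : A k * x ≤ 2 * 16 ^ k * |s - t| := by
        calc A k * x ≤ 1 * x := by apply mul_le_mul_of_nonneg_right hA1 hx0
          _ ≤ _ := by rw [one_mul]; exact hx
      have e2 : B k * y ≤ 1 / 256 * (2 * 16 ^ k * |s - t|) := by
        apply mul_le_mul hB1 hy hy0 (by norm_num)
      have e3 : B k * ((N k : ℝ) * |s - t|) = 16 ^ (k + 1) * |s - t| := by
        rw [← mul_assoc, hBN]
      have e4 : (16 : ℝ) ^ (k + 1) = 16 * 16 ^ k := by rw [pow_succ]; ring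
      rw [mul_add, e3, e4]
      have e5 : 0 ≤ (16:ℝ) ^ k * |s - t| := by positivity
      nlinarith
    constructor
    · simp only [pq]
      have e : (A k : ℂ) * (pq k s).1 - (B k : ℂ) * ch (N k) s * (starRingEnd ℂ) (pq k s).2 -
          ((A k : ℂ) * (pq k t).1 - (B k : ℂ) * ch (N k) t * (starRingEnd ℂ) (pq k t).2) =
          (A k : ℂ) * ((pq k s).1 - (pq k t).1) - (B k : ℂ) *
            (ch (N k) s * (starRingEnd ℂ) (pq k s).2 - ch (N k) t * (starRingEnd ℂ) (pq k t).2) := by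
        ring
      rw [e]
      refine (norm_sub_le _ _).trans ?_
      rw [norm_mul, norm_mul, Complex.norm_real, Complex.norm_real, Real.norm_eq_abs, Real.norm_eq_abs,
        abs_of_nonneg hA0, abs_of_nonneg hB0]
      have h3 := ch_mul_sub_le (N k) s t (pq k s).2 (pq k t).2 (norm_q_le k s)
      refine le_trans ?_ (key _ _ h1 h2 (norm_nonneg _) (norm_nonneg _))
      gcongr
    · simp only [pq]
      have e : (A k : ℂ) * (pq k s).2 + (B k : ℂ) * ch (N k) s * (starRingEnd ℂ) (pq k s).1 -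
          ((A k : ℂ) * (pq k t).2 + (B k : ℂ) * ch (N k) t * (starRingEnd ℂ) (pq k t).1) =
          (A k : ℂ) * ((pq k s).2 - (pq k t).2) + (B k : ℂ) *
            (ch (N k) s * (starRingEnd ℂ) (pq k s).1 - ch (N k) t * (starRingEnd ℂ) (pq k t).1) := by
        ring
      rw [e]
      refine (norm_add_le _ _).trans ?_
      rw [norm_mul, norm_mul, Complex.norm_real, Complex.norm_real, Real.norm_eq_abs, Real.norm_eq_abs,
        abs_of_nonneg hA0, abs_of_nonneg hB0]
      have h3 := ch_mul_sub_le (N k) s t (pq k s).1 (pq k t).1 (norm_p_le k s)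
      refine le_trans ?_ (key _ _ h2 h1 (norm_nonneg _) (norm_nonneg _))
      gcongr

/-- hermitian product of two values of the curve -/
def om (k : ℕ) (s t : ℝ) : ℂ :=
  (pq k s).1 * (starRingEnd ℂ) (pq k t).1 + (pq k s).2 * (starRingEnd ℂ) (pq k t).2

lemma om_bound (k : ℕ) (s t : ℝ) : ‖1 - om k s t‖ ≤ (2 - (1 / 16) ^ k) * |s - t| := by
  induction k with
  | zero =>
    have e : 1 - om 0 s t = (starRingEnd ℂ) (ch 1 t) * (ch 1 t - ch 1 s) := by
      simp only [om, pq, map_zero, mul_zero, add_zero]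
      rw [mul_sub, ch_conj]; ring
    rw [e, norm_mul, RCLike.norm_conj, norm_ch, one_mul, norm_sub_rev]
    have := ch_sub_le 1 s t
    simp only [Nat.cast_one, one_mul] at this
    simp only [pow_zero]
    linarith
  | succ k ih =>
    have hA0 := A_nonneg k
    have hA1 := A_le_one k
    have hB0 := (B_pos k).le
    have hB1 := B_le k
    have hBN := B_mul_N k
    have hAB := A_sq k
    have hA : ((A k : ℂ)) ^ 2 + (B k : ℂ) ^ 2 = 1 := by
      exact_mod_cast hAB
    set et : ℂ := (pq k s).2 * (pq k t).1 - (pq k s).1 * (pq k t).2 with het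
    have e : 1 - om (k + 1) s t = (A k : ℂ) ^ 2 * (1 - om k s t)
        + (B k : ℂ) ^ 2 * (1 - ch (N k) s * (starRingEnd ℂ) (ch (N k) t) * (starRingEnd ℂ) (om k s t))
        - (A k : ℂ) * (B k : ℂ) * ((starRingEnd ℂ) (ch (N k) t) * et - ch (N k) s * (starRingEnd ℂ) et) := by
      simp only [om, pq, het, map_sub, map_add, map_mul, Complex.conj_conj, Complex.conj_ofReal]
      linear_combination -hA
    have het' : ‖et‖ ≤ 2 * (2 * 16 ^ k * |s - t|) := by
      have : et = ((pq k s).2 - (pq k t).2) * (pq k t).1 - ((pq k s).1 - (pq k t).1) * (pq k t).2 := by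
        rw [het]; ring
      rw [this]
      refine (norm_sub_le _ _).trans ?_
      rw [norm_mul, norm_mul]
      obtain ⟨h1, h2⟩ := lip_pq k s t
      have h3 := norm_p_le k t
      have h4 := norm_q_le k t
      have h5 : ‖(pq k s).2 - (pq k t).2‖ * ‖(pq k t).1‖ ≤ 2 * 16 ^ k * |s - t| * 1 :=
        mul_le_mul h2 h3 (norm_nonneg _) (by positivity)
      have h6 : ‖(pq k s).1 - (pq k t).1‖ * ‖(pq k t).2‖ ≤ 2 * 16 ^ k * |s - t| * 1 :=
        mul_le_mul h1 h4 (norm_nonneg _) (by positivity)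
      linarith
    have h2 : ‖1 - ch (N k) s * (starRingEnd ℂ) (ch (N k) t) * (starRingEnd ℂ) (om k s t)‖
        ≤ (N k : ℝ) * |s - t| + ‖1 - om k s t‖ := by
      have e2 : 1 - ch (N k) s * (starRingEnd ℂ) (ch (N k) t) * (starRingEnd ℂ) (om k s t)
          = (starRingEnd ℂ) (ch (N k) t) * (ch (N k) t - ch (N k) s) +
            ch (N k) s * (starRingEnd ℂ) (ch (N k) t) * (starRingEnd ℂ) (1 - om k s t) := by
        rw [map_sub, map_one]
        linear_combination -(ch_conj (N k) t)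
      rw [e2]
      refine (norm_add_le _ _).trans ?_
      rw [norm_mul, norm_mul, norm_mul, RCLike.norm_conj, RCLike.norm_conj, norm_ch, norm_ch, norm_sub_rev]
      have := ch_sub_le (N k) s t
      linarith
    have h3 : ‖(starRingEnd ℂ) (ch (N k) t) * et - ch (N k) s * (starRingEnd ℂ) et‖ ≤ 2 * ‖et‖ := by
      refine (norm_sub_le _ _).trans ?_
      rw [norm_mul, norm_mul, RCLike.norm_conj, RCLike.norm_conj, norm_ch, norm_ch]
      linarith
    rw [e]
    refine (norm_sub_le _ _).trans ?_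
    refine (add_le_add (norm_add_le _ _) le_rfl).trans ?_
    rw [norm_mul, norm_mul, norm_mul, norm_mul, norm_pow, norm_pow, Complex.norm_real, Complex.norm_real,
      Real.norm_eq_abs, Real.norm_eq_abs, abs_of_nonneg hA0, abs_of_nonneg hB0]
    set w := ‖1 - om k s t‖ with hw
    have hw0 : 0 ≤ w := norm_nonneg _
    have k1 : A k ^ 2 * w + B k ^ 2 * ‖1 - ch (N k) s * (starRingEnd ℂ) (ch (N k) t) * (starRingEnd ℂ) (om k s t)‖
        ≤ w + B k ^ 2 * ((N k : ℝ) * |s - t|) := by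
      have : B k ^ 2 * ‖1 - ch (N k) s * (starRingEnd ℂ) (ch (N k) t) * (starRingEnd ℂ) (om k s t)‖
        ≤ B k ^ 2 * ((N k : ℝ) * |s - t| + w) := by gcongr
      have h7 : A k ^ 2 * w + B k ^ 2 * w = w := by rw [← add_mul, hAB, one_mul]
      linarith
    have k2 : A k * B k * ‖(starRingEnd ℂ) (ch (N k) t) * et - ch (N k) s * (starRingEnd ℂ) et‖
        ≤ B k * (2 * (2 * (2 * 16 ^ k * |s - t|))) := by
      have h8 : A k * B k ≤ B k := by nlinarith
      have h9 : ‖(starRingEnd ℂ) (ch (N k) t) * et - ch (N k) s * (starRingEnd ℂ) et‖ ≤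
        2 * (2 * (2 * 16 ^ k * |s - t|)) := by linarith
      exact mul_le_mul h8 h9 (norm_nonneg _) hB0
    have k3 : B k ^ 2 * ((N k : ℝ) * |s - t|) = (1 / 16) ^ (k + 1) * |s - t| := by
      have : B k ^ 2 * ((N k : ℝ) * |s - t|) = B k * (B k * N k) * |s - t| := by ring
      rw [this, hBN]
      unfold B
      rw [← mul_pow]; norm_num
    have k4 : B k * (2 * (2 * (2 * 16 ^ k * |s - t|))) = (1 / 16) ^ (k + 1) * |s - t| / 2 := by
      unfold B
      have : (1 / 16 : ℝ) ^ (k + 1) = (1 / 256) ^ (k + 1) * 16 ^ (k + 1) := by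
        rw [← mul_pow]; norm_num
      rw [this, pow_succ (16 : ℝ)]
      ring
    have k5 : (1 / 16 : ℝ) ^ k = 16 * (1 / 16) ^ (k + 1) := by
      rw [pow_succ]; ring
    have k6 : 0 ≤ (1 / 16 : ℝ) ^ (k + 1) * |s - t| := by positivity
    rw [k5] at ih
    nlinarith


lemma step_pq (k : ℕ) (t : ℝ) :
    dist (pq k t).1 (pq (k + 1) t).1 ≤ (1 / 128) * (1 / 256) ^ k ∧
    dist (pq k t).2 (pq (k + 1) t).2 ≤ (1 / 128) * (1 / 256) ^ k := by
  have hA1 := A_le_one k
  have hA2 := one_sub_A_le k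
  have hB0 := (B_pos k).le
  have hp := norm_p_le k t
  have hq := norm_q_le k t
  have hBB : 2 * B k = (1 / 128) * (1 / 256) ^ k := by
    unfold B; rw [pow_succ]; ring
  have key : ∀ x y : ℝ, 0 ≤ x → 0 ≤ y → x ≤ 1 → y ≤ 1 → (1 - A k) * x + B k * y ≤ 2 * B k := by
    intro x y hx hy hx1 hy1
    nlinarith
  constructor
  · rw [dist_eq_norm, ← hBB]
    simp only [pq]
    have e : (pq k t).1 - ((A k : ℂ) * (pq k t).1 - (B k : ℂ) * ch (N k) t * (starRingEnd ℂ) (pq k t).2)
      = ((1 - A k : ℝ) : ℂ) * (pq k t).1 + (B k : ℂ) * ch (N k) t * (starRingEnd ℂ) (pq k t).2 := by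
      push_cast; ring
    rw [e]
    refine (norm_add_le _ _).trans ?_
    rw [norm_mul, norm_mul, norm_mul, Complex.norm_real, Complex.norm_real, Real.norm_eq_abs,
      Real.norm_eq_abs, abs_of_nonneg hB0, abs_of_nonneg (by linarith : 0 ≤ 1 - A k), norm_ch, mul_one,
      RCLike.norm_conj]
    exact key _ _ (norm_nonneg _) (norm_nonneg _) hp hq
  · rw [dist_eq_norm, ← hBB]
    simp only [pq]
    have e : (pq k t).2 - ((A k : ℂ) * (pq k t).2 + (B k : ℂ) * ch (N k) t * (starRingEnd ℂ) (pq k t).1)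
      = ((1 - A k : ℝ) : ℂ) * (pq k t).2 - (B k : ℂ) * ch (N k) t * (starRingEnd ℂ) (pq k t).1 := by
      push_cast; ring
    rw [e]
    refine (norm_sub_le _ _).trans ?_
    rw [norm_mul, norm_mul, norm_mul, Complex.norm_real, Complex.norm_real, Real.norm_eq_abs,
      Real.norm_eq_abs, abs_of_nonneg hB0, abs_of_nonneg (by linarith : 0 ≤ 1 - A k), norm_ch, mul_one,
      RCLike.norm_conj]
    exact key _ _ (norm_nonneg _) (norm_nonneg _) hq hp

/-- limit curve, first component -/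
def P (t : ℝ) : ℂ := limUnder atTop (fun k => (pq k t).1)
/-- limit curve, second component -/
def Q (t : ℝ) : ℂ := limUnder atTop (fun k => (pq k t).2)

lemma tendsto_P (t : ℝ) : Tendsto (fun k => (pq k t).1) atTop (𝓝 (P t)) :=
  (cauchySeq_of_le_geometric (1 / 256) (1 / 128) (by norm_num) (fun k => (step_pq k t).1)).tendsto_limUnder

lemma tendsto_Q (t : ℝ) : Tendsto (fun k => (pq k t).2) atTop (𝓝 (Q t)) :=
  (cauchySeq_of_le_geometric (1 / 256) (1 / 128) (by norm_num) (fun k => (step_pq k t).2)).tendsto_limUnder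

lemma P_near (k : ℕ) (t : ℝ) : ‖(pq k t).1 - P t‖ ≤ 3 * B k := by
  have h := dist_le_of_le_geometric_of_tendsto (1 / 256) (1 / 128) (by norm_num)
    (fun k => (step_pq k t).1) (tendsto_P t) k
  rw [dist_eq_norm] at h
  refine h.trans ?_
  unfold B
  rw [pow_succ]
  have h0 : 0 ≤ (1 / 256 : ℝ) ^ k := by positivity
  generalize (1 / 256 : ℝ) ^ k = x at h0 ⊢
  rw [div_le_iff₀ (by norm_num)]
  linarith

lemma Q_near (k : ℕ) (t : ℝ) : ‖(pq k t).2 - Q t‖ ≤ 3 * B k := by
  have h := dist_le_of_le_geometric_of_tendsto (1 / 256) (1 / 128) (by norm_num)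
    (fun k => (step_pq k t).2) (tendsto_Q t) k
  rw [dist_eq_norm] at h
  refine h.trans ?_
  unfold B
  rw [pow_succ]
  have h0 : 0 ≤ (1 / 256 : ℝ) ^ k := by positivity
  generalize (1 / 256 : ℝ) ^ k = x at h0 ⊢
  rw [div_le_iff₀ (by norm_num)]
  linarith

lemma tendsto_B : Tendsto B atTop (𝓝 0) := by
  have : Tendsto (fun k : ℕ => (1 / 256 : ℝ) ^ (k + 1)) atTop (𝓝 0) :=
    (tendsto_pow_atTop_nhds_zero_of_lt_one (by norm_num) (by norm_num)).comp (tendsto_add_atTop_nat 1)
  exact this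

lemma continuous_ch (n : ℕ) : Continuous (ch n) := by
  unfold ch
  fun_prop

lemma continuous_pq (k : ℕ) : Continuous (fun t => (pq k t).1) ∧ Continuous (fun t => (pq k t).2) := by
  induction k with
  | zero => exact ⟨continuous_ch 1, continuous_const⟩
  | succ k ih =>
    obtain ⟨h1, h2⟩ := ih
    have h3 := continuous_ch (N k)
    have h4 : Continuous (fun t => (starRingEnd ℂ) (pq k t).1) := Complex.continuous_conj.comp h1
    have h5 : Continuous (fun t => (starRingEnd ℂ) (pq k t).2) := Complex.continuous_conj.comp h2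
    constructor
    · simp only [pq]
      exact (continuous_const.mul h1).sub ((continuous_const.mul h3).mul h5)
    · simp only [pq]
      exact (continuous_const.mul h2).add ((continuous_const.mul h3).mul h4)

lemma continuous_P : Continuous P := by
  have h : TendstoUniformly (fun k t => (pq k t).1) P atTop := by
    rw [Metric.tendstoUniformly_iff]
    intro ε hε
    have h1 : ∀ᶠ k in atTop, B k < ε / 3 := tendsto_B.eventually_lt_const (by positivity)
    filter_upwards [h1] with k hk t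
    rw [dist_eq_norm, norm_sub_rev]
    have := P_near k t
    linarith
  exact h.continuous (Frequently.of_forall (fun k => (continuous_pq k).1))

lemma continuous_Q : Continuous Q := by
  have h : TendstoUniformly (fun k t => (pq k t).2) Q atTop := by
    rw [Metric.tendstoUniformly_iff]
    intro ε hε
    have h1 : ∀ᶠ k in atTop, B k < ε / 3 := tendsto_B.eventually_lt_const (by positivity)
    filter_upwards [h1] with k hk t
    rw [dist_eq_norm, norm_sub_rev]
    have := Q_near k t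
    linarith
  exact h.continuous (Frequently.of_forall (fun k => (continuous_pq k).2))

lemma unit_PQ (t : ℝ) : ‖P t‖ ^ 2 + ‖Q t‖ ^ 2 = 1 := by
  have h1 := ((tendsto_P t).norm.pow 2).add ((tendsto_Q t).norm.pow 2)
  have h2 : Tendsto (fun k => ‖(pq k t).1‖ ^ 2 + ‖(pq k t).2‖ ^ 2) atTop (𝓝 1) := by
    simp only [norm_unit]; exact tendsto_const_nhds
  exact tendsto_nhds_unique h1 h2

lemma PQ_bound (s t : ℝ) :
    ‖1 - (P s * (starRingEnd ℂ) (P t) + Q s * (starRingEnd ℂ) (Q t))‖ ≤ 2 * |s - t| := by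
  have h1 : Tendsto (fun k => ‖1 - om k s t‖) atTop
      (𝓝 ‖1 - (P s * (starRingEnd ℂ) (P t) + Q s * (starRingEnd ℂ) (Q t))‖) := by
    apply Tendsto.norm
    apply Tendsto.const_sub
    unfold om
    apply Tendsto.add
    · exact (tendsto_P s).mul ((Complex.continuous_conj.tendsto _).comp (tendsto_P t))
    · exact (tendsto_Q s).mul ((Complex.continuous_conj.tendsto _).comp (tendsto_Q t))
  apply le_of_tendsto h1
  filter_upwards with k
  refine (om_bound k s t).trans ?_
  apply mul_le_mul_of_nonneg_right _ (abs_nonneg _)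
  have : 0 ≤ (1 / 16 : ℝ) ^ k := by positivity
  linarith

lemma N_pos (k : ℕ) : (0 : ℝ) < N k := by
  unfold N; positivity

lemma ch_shift (k : ℕ) (t : ℝ) : ch (N k) (t + Real.pi / N k) = - ch (N k) t := by
  unfold ch
  have h := N_pos k
  have e : (((N k : ℝ) * (t + Real.pi / N k) : ℝ) : ℂ) * I = (((N k : ℝ) * t : ℝ) : ℂ) * I + Real.pi * I := by
    have : (N k : ℝ) * (t + Real.pi / N k) = N k * t + Real.pi := by
      field_simp
    rw [this]; push_cast; ring
  rw [e, Complex.exp_add, Complex.exp_pi_mul_I]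
  ring

lemma expand_lower (k : ℕ) (t : ℝ) :
    B k / 2 ≤ ‖P (t + Real.pi / N k) - P t‖ ∨ B k / 2 ≤ ‖Q (t + Real.pi / N k) - Q t‖ := by
  set t' := t + Real.pi / N k with ht'
  have hN := N_pos k
  have habs : |t' - t| = Real.pi / N k := by
    rw [ht', add_sub_cancel_left, abs_of_pos (div_pos Real.pi_pos hN)]
  obtain ⟨h1, h2⟩ := lip_pq k t' t
  rw [habs] at h1 h2
  have hBN := B_mul_N k
  have hB0 := B_pos k
  have hB1 := B_le k
  have hpi := Real.pi_lt_d2
  have hD : 2 * 16 ^ k * (Real.pi / N k) ≤ 0.394 * B k := by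
    have e1 : (16 : ℝ) ^ k = B k * N k / 16 := by rw [hBN, pow_succ]; ring
    rw [e1]
    have e2 : 2 * (B k * N k / 16) * (Real.pi / N k) = Real.pi / 8 * B k := by
      field_simp; ring
    rw [e2]
    nlinarith
  have hunit := norm_unit k t
  have hA0 := A_nonneg k
  have hA1 := A_le_one k
  have hB3 := B_succ k
  -- first component
  have hp1 := P_near (k + 1) t
  have hp2 := P_near (k + 1) t'
  have hq1 := Q_near (k + 1) t
  have hq2 := Q_near (k + 1) t'
  rw [hB3] at hp1 hp2 hq1 hq2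
  have eP : P t' - P t = ((pq (k+1) t').1 - (pq (k+1) t).1) - ((pq (k+1) t').1 - P t')
      + ((pq (k+1) t).1 - P t) := by ring
  have eQ : Q t' - Q t = ((pq (k+1) t').2 - (pq (k+1) t).2) - ((pq (k+1) t').2 - Q t')
      + ((pq (k+1) t).2 - Q t) := by ring
  have hsh := ch_shift k t
  rw [← ht'] at hsh
  have e1 : (pq (k+1) t').1 - (pq (k+1) t).1 = 
      2 * ((B k : ℂ) * ch (N k) t * (starRingEnd ℂ) (pq k t).2) + 
      ((A k : ℂ) * ((pq k t').1 - (pq k t).1) + (B k : ℂ) * ch (N k) t * (starRingEnd ℂ) ((pq k t').2 - (pq k t).2)) := by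
    simp only [pq, hsh, map_sub]; ring
  have e2 : (pq (k+1) t').2 - (pq (k+1) t).2 = 
      -(2 * ((B k : ℂ) * ch (N k) t * (starRingEnd ℂ) (pq k t).1)) + 
      ((A k : ℂ) * ((pq k t').2 - (pq k t).2) - (B k : ℂ) * ch (N k) t * (starRingEnd ℂ) ((pq k t').1 - (pq k t).1)) := by
    simp only [pq, hsh, map_sub]; ring
  have n1 : ‖2 * ((B k : ℂ) * ch (N k) t * (starRingEnd ℂ) (pq k t).2)‖ = 2 * B k * ‖(pq k t).2‖ := by
    rw [norm_mul, norm_mul, norm_mul, Complex.norm_real, Real.norm_eq_abs, abs_of_pos hB0, norm_ch,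
      RCLike.norm_conj, Complex.norm_ofNat]
    ring
  have n2 : ‖2 * ((B k : ℂ) * ch (N k) t * (starRingEnd ℂ) (pq k t).1)‖ = 2 * B k * ‖(pq k t).1‖ := by
    rw [norm_mul, norm_mul, norm_mul, Complex.norm_real, Real.norm_eq_abs, abs_of_pos hB0, norm_ch,
      RCLike.norm_conj, Complex.norm_ofNat]
    ring
  have m1 : ‖(A k : ℂ) * ((pq k t').1 - (pq k t).1) + (B k : ℂ) * ch (N k) t * (starRingEnd ℂ) ((pq k t').2 - (pq k t).2)‖
      ≤ (1 + 1 / 256) * (0.394 * B k) := by
    refine (norm_add_le _ _).trans ?_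
    rw [norm_mul, norm_mul, norm_mul, Complex.norm_real, Complex.norm_real, Real.norm_eq_abs,
      Real.norm_eq_abs, abs_of_pos hB0, abs_of_nonneg hA0, norm_ch, RCLike.norm_conj, mul_one]
    have u1 : A k * ‖(pq k t').1 - (pq k t).1‖ ≤ 1 * (0.394 * B k) :=
      mul_le_mul hA1 (h1.trans hD) (norm_nonneg _) (by norm_num)
    have u2 : B k * ‖(pq k t').2 - (pq k t).2‖ ≤ 1 / 256 * (0.394 * B k) :=
      mul_le_mul hB1 (h2.trans hD) (norm_nonneg _) (by norm_num)
    linarith
  have m2 : ‖(A k : ℂ) * ((pq k t').2 - (pq k t).2) - (B k : ℂ) * ch (N k) t * (starRingEnd ℂ) ((pq k t').1 - (pq k t).1)‖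
      ≤ (1 + 1 / 256) * (0.394 * B k) := by
    refine (norm_sub_le _ _).trans ?_
    rw [norm_mul, norm_mul, norm_mul, Complex.norm_real, Complex.norm_real, Real.norm_eq_abs,
      Real.norm_eq_abs, abs_of_pos hB0, abs_of_nonneg hA0, norm_ch, RCLike.norm_conj, mul_one]
    have u1 : A k * ‖(pq k t').2 - (pq k t).2‖ ≤ 1 * (0.394 * B k) :=
      mul_le_mul hA1 (h2.trans hD) (norm_nonneg _) (by norm_num)
    have u2 : B k * ‖(pq k t').1 - (pq k t).1‖ ≤ 1 / 256 * (0.394 * B k) :=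
      mul_le_mul hB1 (h1.trans hD) (norm_nonneg _) (by norm_num)
    linarith
  have big : 0.7 ≤ ‖(pq k t).1‖ ∨ 0.7 ≤ ‖(pq k t).2‖ := by
    by_contra hcon
    push Not at hcon
    obtain ⟨c1, c2⟩ := hcon
    have d1 := norm_nonneg (pq k t).1
    have d2 := norm_nonneg (pq k t).2
    nlinarith
  have lowP : 2 * B k * ‖(pq k t).2‖ - (1 + 1 / 256) * (0.394 * B k) - 2 * (3 * (B k / 256)) ≤ ‖P t' - P t‖ := by
    rw [eP]
    have w1 : ‖(pq (k+1) t').1 - (pq (k+1) t).1‖ ≥ 2 * B k * ‖(pq k t).2‖ - (1 + 1 / 256) * (0.394 * B k) := by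
      rw [e1]
      have := norm_sub_le_norm_add (2 * ((B k : ℂ) * ch (N k) t * (starRingEnd ℂ) (pq k t).2))
        ((A k : ℂ) * ((pq k t').1 - (pq k t).1) + (B k : ℂ) * ch (N k) t * (starRingEnd ℂ) ((pq k t').2 - (pq k t).2))
      linarith
    have w2 := norm_sub_le_norm_add (((pq (k+1) t').1 - (pq (k+1) t).1) - ((pq (k+1) t').1 - P t')) ((pq (k+1) t).1 - P t)
    have w3 := norm_sub_norm_le ((pq (k+1) t').1 - (pq (k+1) t).1) ((pq (k+1) t').1 - P t')
    linarith
  have lowQ : 2 * B k * ‖(pq k t).1‖ - (1 + 1 / 256) * (0.394 * B k) - 2 * (3 * (B k / 256)) ≤ ‖Q t' - Q t‖ := by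
    rw [eQ]
    have w1 : ‖(pq (k+1) t').2 - (pq (k+1) t).2‖ ≥ 2 * B k * ‖(pq k t).1‖ - (1 + 1 / 256) * (0.394 * B k) := by
      rw [e2]
      have := norm_sub_le_norm_add (-(2 * ((B k : ℂ) * ch (N k) t * (starRingEnd ℂ) (pq k t).1)))
        ((A k : ℂ) * ((pq k t').2 - (pq k t).2) - (B k : ℂ) * ch (N k) t * (starRingEnd ℂ) ((pq k t').1 - (pq k t).1))
      rw [norm_neg] at this
      linarith
    have w2 := norm_sub_le_norm_add (((pq (k+1) t').2 - (pq (k+1) t).2) - ((pq (k+1) t').2 - Q t')) ((pq (k+1) t).2 - Q t)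
    have w3 := norm_sub_norm_le ((pq (k+1) t').2 - (pq (k+1) t).2) ((pq (k+1) t').2 - Q t')
    linarith
  rcases big with hb | hb
  · right
    have : 2 * B k * 0.7 ≤ 2 * B k * ‖(pq k t).1‖ := by
      apply mul_le_mul_of_nonneg_left hb (by positivity)
    nlinarith
  · left
    have : 2 * B k * 0.7 ≤ 2 * B k * ‖(pq k t).2‖ := by
      apply mul_le_mul_of_nonneg_left hb (by positivity)
    nlinarith


def emb (m : ℕ) (u v : ℂ) : EuclideanSpace ℂ (Fin (m + 2)) :=
  WithLp.toLp 2 (Fin.cons u (Fin.cons v (fun _ => 0)))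

lemma emb_zero (m : ℕ) (u v : ℂ) : emb m u v 0 = u := rfl
lemma emb_one (m : ℕ) (u v : ℂ) : emb m u v 1 = v := rfl

lemma herm_emb (m : ℕ) (u v u' v' : ℂ) :
    herm (emb m u v) (emb m u' v') = u * (starRingEnd ℂ) u' + v * (starRingEnd ℂ) v' := by
  unfold herm emb
  simp [Fin.sum_univ_succ]

lemma norm_sq_emb (m : ℕ) (u v : ℂ) : ‖emb m u v‖ ^ 2 = ‖u‖ ^ 2 + ‖v‖ ^ 2 := by
  rw [EuclideanSpace.norm_sq_eq]
  unfold emb
  simp [Fin.sum_univ_succ]

lemma emb_sub (m : ℕ) (u v u' v' : ℂ) : emb m u v - emb m u' v' = emb m (u - u') (v - v') := by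
  ext j
  refine Fin.cases ?_ (fun j => ?_) j
  · rfl
  · refine Fin.cases ?_ (fun j => ?_) j
    · rfl
    · simp [emb]

lemma emb_add (m : ℕ) (u v : ℂ) : emb m u v = u • emb m 1 0 + v • emb m 0 1 := by
  ext j
  refine Fin.cases ?_ (fun j => ?_) j
  · simp [emb]
  · refine Fin.cases ?_ (fun j => ?_) j
    · simp [emb]
    · simp [emb]

lemma norm_le_emb (m : ℕ) (u v : ℂ) : ‖u‖ ≤ ‖emb m u v‖ ∧ ‖v‖ ≤ ‖emb m u v‖ := by
  have h := norm_sq_emb m u v
  constructor
  · apply abs_le_of_sq_le_sq' _ (norm_nonneg _) |>.2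
    nlinarith [sq_nonneg ‖v‖]
  · apply abs_le_of_sq_le_sq' _ (norm_nonneg _) |>.2
    nlinarith [sq_nonneg ‖u‖]

lemma herm_eq_inner {n : ℕ} (z w : EuclideanSpace ℂ (Fin n)) : herm z w = inner ℂ w z := by
  unfold herm
  rw [PiLp.inner_apply]
  apply Finset.sum_congr rfl
  intro j _
  simp

lemma herm_self {n : ℕ} (z : EuclideanSpace ℂ (Fin n)) (hz : ‖z‖ = 1) : herm z z = 1 := by
  rw [herm_eq_inner, inner_self_eq_norm_sq_to_K, hz]
  norm_num

/-- the closed curve -/
def curve (m : ℕ) (t : ℝ) : EuclideanSpace ℂ (Fin (m + 2)) := emb m (P t) (Q t)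

lemma norm_curve (m : ℕ) (t : ℝ) : ‖curve m t‖ = 1 := by
  have h := norm_sq_emb m (P t) (Q t)
  rw [unit_PQ] at h
  have h2 : ‖curve m t‖ ^ 2 = 1 ^ 2 := by rw [one_pow]; exact h
  exact (sq_eq_sq₀ (norm_nonneg _) (by norm_num)).1 h2

lemma continuous_emb (m : ℕ) : Continuous (fun x : ℂ × ℂ => emb m x.1 x.2) := by
  have : (fun x : ℂ × ℂ => emb m x.1 x.2) = fun x : ℂ × ℂ => x.1 • emb m 1 0 + x.2 • emb m 0 1 := by
    ext1 x; exact emb_add m x.1 x.2
  rw [this]
  fun_prop

lemma continuous_curve (m : ℕ) : Continuous (curve m) :=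
  (continuous_emb m).comp (continuous_P.prodMk continuous_Q)

lemma herm_curve (m : ℕ) (s t : ℝ) : ‖1 - herm (curve m s) (curve m t)‖ ≤ 2 * |s - t| := by
  unfold curve
  rw [herm_emb]
  exact PQ_bound s t

lemma curve_lower (m : ℕ) (k : ℕ) (t : ℝ) :
    B k / 2 ≤ ‖curve m (t + Real.pi / N k) - curve m t‖ := by
  unfold curve
  rw [emb_sub]
  obtain ⟨h1, h2⟩ := norm_le_emb m (P (t + Real.pi / N k) - P t) (Q (t + Real.pi / N k) - Q t)
  rcases expand_lower k t with h | h
  · exact h.trans h1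
  · exact h.trans h2

/-- boundary traces of entire functions -/
def IsTr (u : ℝ → ℂ) : Prop := ∃ F : ℂ → ℂ, Differentiable ℂ F ∧ ∀ t : ℝ, u t = F (exp (t * I))

lemma IsTr.add {u v : ℝ → ℂ} (hu : IsTr u) (hv : IsTr v) : IsTr (fun t => u t + v t) := by
  obtain ⟨F, hF, h1⟩ := hu
  obtain ⟨G, hG, h2⟩ := hv
  exact ⟨fun z => F z + G z, hF.add hG, fun t => by simp only [h1, h2]⟩

lemma IsTr.mul {u v : ℝ → ℂ} (hu : IsTr u) (hv : IsTr v) : IsTr (fun t => u t * v t) := by
  obtain ⟨F, hF, h1⟩ := hu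
  obtain ⟨G, hG, h2⟩ := hv
  exact ⟨fun z => F z * G z, hF.mul hG, fun t => by simp only [h1, h2]⟩

lemma IsTr.const (c : ℂ) : IsTr (fun _ => c) := ⟨fun _ => c, differentiable_const c, fun _ => rfl⟩

lemma ch_eq_pow (n : ℕ) (t : ℝ) : ch n t = exp (t * I) ^ n := by
  unfold ch
  rw [← Complex.exp_nat_mul]
  congr 1
  push_cast; ring

lemma IsTr.ch (n : ℕ) : IsTr (ch n) :=
  ⟨fun z => z ^ n, differentiable_pow n, fun t => ch_eq_pow n t⟩

lemma ch_add (a b : ℕ) (t : ℝ) : ch (a + b) t = ch a t * ch b t := by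
  rw [ch_eq_pow, ch_eq_pow, ch_eq_pow, pow_add]

/-- degrees -/
def M : ℕ → ℕ
  | 0 => 1
  | k + 1 => N k

lemma M_le (k : ℕ) : M k ≤ N k := by
  cases k with
  | zero => simp [M, N]
  | succ k =>
    simp only [M, N]
    exact Nat.pow_le_pow_right (by norm_num) (by omega)

lemma tr_pq (k : ℕ) : IsTr (fun t => (pq k t).1) ∧ IsTr (fun t => (pq k t).2) ∧
    IsTr (fun t => ch (M k) t * (starRingEnd ℂ) (pq k t).1) ∧
    IsTr (fun t => ch (M k) t * (starRingEnd ℂ) (pq k t).2) := by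
  induction k with
  | zero =>
    refine ⟨IsTr.ch 1, IsTr.const 0, ?_, ?_⟩
    · have : (fun t => ch (M 0) t * (starRingEnd ℂ) (pq 0 t).1) = fun _ => 1 := by
        ext1 t
        simp only [M, pq]
        rw [mul_comm]; exact ch_conj 1 t
      rw [this]; exact IsTr.const 1
    · have : (fun t => ch (M 0) t * (starRingEnd ℂ) (pq 0 t).2) = fun _ => 0 := by
        ext1 t
        simp [pq]
      rw [this]; exact IsTr.const 0
  | succ k ih =>
    obtain ⟨h1, h2, h3, h4⟩ := ih
    have hd : ∀ t, ch (N k) t = ch (N k - M k) t * ch (M k) t := by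
      intro t
      rw [← ch_add, Nat.sub_add_cancel (M_le k)]
    refine ⟨?_, ?_, ?_, ?_⟩
    · have : (fun t => (pq (k + 1) t).1) = fun t => (A k : ℂ) * (pq k t).1 +
          (-(B k : ℂ)) * (ch (N k - M k) t * (ch (M k) t * (starRingEnd ℂ) (pq k t).2)) := by
        ext1 t
        simp only [pq]
        rw [hd t]; ring
      rw [this]
      exact ((IsTr.const _).mul h1).add ((IsTr.const _).mul ((IsTr.ch _).mul h4))
    · have : (fun t => (pq (k + 1) t).2) = fun t => (A k : ℂ) * (pq k t).2 +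
          (B k : ℂ) * (ch (N k - M k) t * (ch (M k) t * (starRingEnd ℂ) (pq k t).1)) := by
        ext1 t
        simp only [pq]
        rw [hd t]; ring
      rw [this]
      exact ((IsTr.const _).mul h2).add ((IsTr.const _).mul ((IsTr.ch _).mul h3))
    · have : (fun t => ch (M (k + 1)) t * (starRingEnd ℂ) (pq (k + 1) t).1) = fun t =>
          (A k : ℂ) * (ch (N k - M k) t * (ch (M k) t * (starRingEnd ℂ) (pq k t).1)) +
          (-(B k : ℂ)) * (pq k t).2 := by
        ext1 t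
        have hM : M (k + 1) = N k := rfl
        rw [hM]
        simp only [pq, map_sub, map_mul, Complex.conj_conj, Complex.conj_ofReal]
        have hc := ch_conj (N k) t
        have hd' := hd t
        linear_combination (A k : ℂ) * (starRingEnd ℂ) (pq k t).1 * hd' - (B k : ℂ) * (pq k t).2 * hc
      rw [this]
      exact ((IsTr.const _).mul ((IsTr.ch _).mul h3)).add ((IsTr.const _).mul h2)
    · have : (fun t => ch (M (k + 1)) t * (starRingEnd ℂ) (pq (k + 1) t).2) = fun t =>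
          (A k : ℂ) * (ch (N k - M k) t * (ch (M k) t * (starRingEnd ℂ) (pq k t).2)) +
          (B k : ℂ) * (pq k t).1 := by
        ext1 t
        have hM : M (k + 1) = N k := rfl
        rw [hM]
        simp only [pq, map_add, map_mul, Complex.conj_conj, Complex.conj_ofReal]
        have hc := ch_conj (N k) t
        have hd' := hd t
        linear_combination (A k : ℂ) * (starRingEnd ℂ) (pq k t).2 * hd' + (B k : ℂ) * (pq k t).1 * hc
      rw [this]
      exact ((IsTr.const _).mul ((IsTr.ch _).mul h4)).add ((IsTr.const _).mul h1)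

/-- holomorphic discs -/
lemma exists_disc (m k : ℕ) : ∃ Φ : ℂ → EuclideanSpace ℂ (Fin (m + 2)), Differentiable ℂ Φ ∧
    (∀ t : ℝ, Φ (exp (t * I)) = emb m (pq k t).1 (pq k t).2) ∧ ∀ z ∈ closedBall (0 : ℂ) 1, ‖Φ z‖ ≤ 1 := by
  obtain ⟨⟨F, hF, h1⟩, ⟨G, hG, h2⟩, -, -⟩ := tr_pq k
  have hΦ : Differentiable ℂ (fun z => F z • emb m 1 0 + G z • emb m 0 1) := by fun_prop
  have hval : ∀ t : ℝ, F (exp (t * I)) • emb m 1 0 + G (exp (t * I)) • emb m 0 1
      = emb m (pq k t).1 (pq k t).2 := by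
    intro t
    rw [← h1, ← h2, ← emb_add]
  refine ⟨fun z => F z • emb m 1 0 + G z • emb m 0 1, hΦ, hval, ?_⟩
  intro z hz
  have hb : ∀ w ∈ frontier (ball (0 : ℂ) 1), ‖F w • emb m 1 0 + G w • emb m 0 1‖ ≤ 1 := by
    intro w hw
    rw [frontier_ball (0 : ℂ) one_ne_zero] at hw
    have hw' : ‖w‖ = 1 := by simpa using hw
    obtain ⟨t, ht⟩ : ∃ t : ℝ, w = exp (t * I) := by
      refine ⟨Complex.arg w, ?_⟩
      have := Complex.norm_mul_exp_arg_mul_I w
      rw [hw'] at this
      simpa using this.symm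
    rw [ht, hval]
    have h := norm_sq_emb m (pq k t).1 (pq k t).2
    rw [norm_unit] at h
    nlinarith [norm_nonneg (emb m (pq k t).1 (pq k t).2)]
  have hcl : closure (ball (0 : ℂ) 1) = closedBall 0 1 := closure_ball _ one_ne_zero
  exact Complex.norm_le_of_forall_mem_frontier_norm_le isBounded_ball hΦ.diffContOnCl hb (by rw [hcl]; exact hz)

lemma integral_zero (m : ℕ) (g : EuclideanSpace ℂ (Fin (m + 2)) → ℂ) (hg : g ∈ ballAlgebra (m + 2)) :
    ∫ t in (0 : ℝ)..(2 * Real.pi), exp (t * I) * I * g (curve m t) = 0 := by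
  obtain ⟨hc, hd⟩ := hg
  choose Φ hΦ1 hΦ2 hΦ3 using exists_disc m
  -- radii
  set r : ℕ → ℝ := fun k => 1 - 1 / ((k : ℝ) + 1 + 1) with hr
  have hr0 : ∀ k, 0 ≤ r k := by
    intro k
    simp only [hr]
    rw [sub_nonneg, div_le_one (by positivity)]
    have : (0 : ℝ) ≤ k := Nat.cast_nonneg k
    linarith
  have hr1 : ∀ k, r k < 1 := by
    intro k
    simp only [hr]
    have : (0 : ℝ) < 1 / ((k : ℝ) + 1 + 1) := by positivity
    linarith
  have hrlim : Tendsto r atTop (𝓝 1) := by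
    have h1 : Tendsto (fun k : ℕ => 1 / ((k : ℝ) + 1 + 1)) atTop (𝓝 0) := by
      have := (tendsto_one_div_add_atTop_nhds_zero_nat (𝕜 := ℝ)).comp (tendsto_add_atTop_nat 1)
      refine this.congr ?_
      intro k; simp
    have := h1.const_sub 1
    rw [sub_zero] at this
    exact this
  -- compactness bound
  obtain ⟨Cb, hCb⟩ := (isCompact_closedBall (0 : EuclideanSpace ℂ (Fin (m + 2))) 1).exists_bound_of_continuousOn hc
  -- the approximating integrals vanish
  have hz : ∀ k, ∫ t in (0 : ℝ)..(2 * Real.pi),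
      exp (t * I) * I * g ((r k : ℂ) • emb m (pq k t).1 (pq k t).2) = 0 := by
    intro k
    have hin : ∀ z ∈ closedBall (0 : ℂ) 1, (r k : ℂ) • Φ k z ∈ ball (0 : EuclideanSpace ℂ (Fin (m + 2))) 1 := by
      intro z hz
      rw [mem_ball_zero_iff, norm_smul, Complex.norm_real, Real.norm_eq_abs, abs_of_nonneg (hr0 k)]
      have h3 := hΦ3 k z hz
      calc r k * ‖Φ k z‖ ≤ r k * 1 := mul_le_mul_of_nonneg_left h3 (hr0 k)
        _ < 1 := by rw [mul_one]; exact hr1 k
    have hcont : ContinuousOn (fun z => g ((r k : ℂ) • Φ k z)) (closedBall (0 : ℂ) 1) := by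
      apply hc.comp
      · have h1 := (hΦ1 k).continuous
        have h2 : Continuous (fun z => (r k : ℂ) • Φ k z) := by fun_prop
        exact h2.continuousOn
      · intro z hz
        exact ball_subset_closedBall (hin z hz)
    have hdiff : DifferentiableOn ℂ (fun z => g ((r k : ℂ) • Φ k z)) (ball (0 : ℂ) 1) := by
      apply hd.comp
      · have h1 := hΦ1 k
        have h2 : Differentiable ℂ (fun z => (r k : ℂ) • Φ k z) := by fun_prop
        exact h2.differentiableOn
      · intro z hz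
        exact hin z (ball_subset_closedBall hz)
    have hint := Complex.circleIntegral_eq_zero_of_differentiable_on_off_countable (zero_le_one)
      (s := ∅) Set.countable_empty hcont
      (fun z hz => (hdiff z (by simpa using hz)).differentiableAt (isOpen_ball.mem_nhds (by simpa using hz)))
    rw [circleIntegral_def_Icc, MeasureTheory.integral_Icc_eq_integral_Ioc,
      ← intervalIntegral.integral_of_le (by positivity)] at hint
    rw [← hint]
    apply intervalIntegral.integral_congr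
    intro t _
    simp only [deriv_circleMap, circleMap, zero_add, Complex.ofReal_one, one_mul, smul_eq_mul]
    rw [hΦ2]
  -- pass to the limit
  have hlim : Tendsto (fun k => ∫ t in (0 : ℝ)..(2 * Real.pi),
      exp (t * I) * I * g ((r k : ℂ) • emb m (pq k t).1 (pq k t).2)) atTop
      (𝓝 (∫ t in (0 : ℝ)..(2 * Real.pi), exp (t * I) * I * g (curve m t))) := by
    apply intervalIntegral.tendsto_integral_filter_of_dominated_convergence (fun _ => Cb)
    · filter_upwards with k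
      apply Continuous.aestronglyMeasurable
      have h1 : Continuous (fun t : ℝ => (r k : ℂ) • emb m (pq k t).1 (pq k t).2) := by
        have h0 : Continuous (fun t : ℝ => emb m (pq k t).1 (pq k t).2) :=
          (continuous_emb m).comp ((continuous_pq k).1.prodMk (continuous_pq k).2)
        fun_prop
      have h2 : Continuous (fun t : ℝ => g ((r k : ℂ) • emb m (pq k t).1 (pq k t).2)) := by
        apply hc.comp_continuous h1
        intro t
        rw [mem_closedBall_zero_iff, norm_smul, Complex.norm_real, Real.norm_eq_abs, abs_of_nonneg (hr0 k)]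
        have h := norm_sq_emb m (pq k t).1 (pq k t).2
        rw [norm_unit] at h
        have h' : ‖emb m (pq k t).1 (pq k t).2‖ ≤ 1 := by
          nlinarith [norm_nonneg (emb m (pq k t).1 (pq k t).2)]
        exact mul_le_one₀ (hr1 k).le (norm_nonneg _) h'
      have h3 : Continuous (fun t : ℝ => exp (t * I) * I) := by fun_prop
      exact h3.mul h2
    · filter_upwards with k
      filter_upwards with t _
      rw [norm_mul, norm_mul, Complex.norm_exp_ofReal_mul_I, Complex.norm_I, one_mul, one_mul]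
      apply hCb
      rw [mem_closedBall_zero_iff, norm_smul, Complex.norm_real, Real.norm_eq_abs, abs_of_nonneg (hr0 k)]
      have h := norm_sq_emb m (pq k t).1 (pq k t).2
      rw [norm_unit] at h
      have h' : ‖emb m (pq k t).1 (pq k t).2‖ ≤ 1 := by
        nlinarith [norm_nonneg (emb m (pq k t).1 (pq k t).2)]
      exact mul_le_one₀ (hr1 k).le (norm_nonneg _) h'
    · exact intervalIntegrable_const
    · filter_upwards with t _
      apply Tendsto.const_mul
      have hw : Tendsto (fun k => (r k : ℂ) • emb m (pq k t).1 (pq k t).2) atTop (𝓝 (curve m t)) := by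
        have h1 : Tendsto (fun k => (r k : ℂ)) atTop (𝓝 1) := by
          have := (Complex.continuous_ofReal.tendsto 1).comp hrlim
          rw [Complex.ofReal_one] at this
          exact this
        have h2 : Tendsto (fun k => emb m (pq k t).1 (pq k t).2) atTop (𝓝 (curve m t)) :=
          ((continuous_emb m).tendsto (P t, Q t)).comp ((tendsto_P t).prodMk_nhds (tendsto_Q t))
        have := h1.smul h2
        simpa using this
      have hmem : ∀ k, (r k : ℂ) • emb m (pq k t).1 (pq k t).2 ∈ closedBall (0 : EuclideanSpace ℂ (Fin (m + 2))) 1 := by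
        intro k
        rw [mem_closedBall_zero_iff, norm_smul, Complex.norm_real, Real.norm_eq_abs, abs_of_nonneg (hr0 k)]
        have h := norm_sq_emb m (pq k t).1 (pq k t).2
        rw [norm_unit] at h
        have h' : ‖emb m (pq k t).1 (pq k t).2‖ ≤ 1 := by
          nlinarith [norm_nonneg (emb m (pq k t).1 (pq k t).2)]
        exact mul_le_one₀ (hr1 k).le (norm_nonneg _) h'
      have hcm : curve m t ∈ closedBall (0 : EuclideanSpace ℂ (Fin (m + 2))) 1 := by
        rw [mem_closedBall_zero_iff, norm_curve]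
      have := (hc (curve m t) hcm).tendsto
      exact this.comp (tendsto_nhdsWithin_iff.2 ⟨hw, Eventually.of_forall hmem⟩)
  simp only [hz] at hlim
  exact (tendsto_nhds_unique hlim tendsto_const_nhds)

/-- The set `K` -/
def KK (m : ℕ) : Set (EuclideanSpace ℂ (Fin (m + 2))) := curve m '' Icc 0 (2 * Real.pi)

lemma isCompact_KK (m : ℕ) : IsCompact (KK m) := isCompact_Icc.image (continuous_curve m)

lemma KK_subset (m : ℕ) : KK m ⊆ sphere 0 1 := by
  rintro _ ⟨t, -, rfl⟩
  rw [mem_sphere_zero_iff_norm]; exact norm_curve m t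

lemma not_PI (m : ℕ) : ¬ IsPISet (m + 2) (KK m) := by
  intro hPI
  obtain ⟨g, hg, hgK, -⟩ := hPI (fun z => (starRingEnd ℂ) (z 0))
    (by
      apply Continuous.continuousOn
      have : Continuous (fun z : EuclideanSpace ℂ (Fin (m + 2)) => z 0) :=
        (EuclideanSpace.proj (𝕜 := ℂ) (0 : Fin (m + 2))).continuous
      exact Complex.continuous_conj.comp this)
    (by
      refine ⟨curve m 0, ⟨0, ⟨le_rfl, by positivity⟩, rfl⟩, ?_⟩
      have h1 : curve m 0 0 = P 0 := rfl
      rw [h1]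
      intro h0
      have h2 : P 0 = 0 := by simpa using h0
      have h3 := P_near 0 0
      rw [h2] at h3
      have h4 : B 0 = 1 / 256 := by unfold B; norm_num
      simp only [pq, sub_zero, norm_ch, h4] at h3
      norm_num at h3)
  have hI := integral_zero m g hg
  have hI2 : ∫ t in (0 : ℝ)..(2 * Real.pi), exp (t * I) * I * (starRingEnd ℂ) (P t) = 0 := by
    rw [← hI]
    apply intervalIntegral.integral_congr
    intro t ht
    rw [uIcc_of_le (by positivity)] at ht
    have h1 := hgK (curve m t) ⟨t, ht, rfl⟩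
    simp only [h1]
    rfl
  have hdist : ‖(∫ t in (0 : ℝ)..(2 * Real.pi), (exp (t * I) * I * (starRingEnd ℂ) (P t) - I))‖
      ≤ 3 / 256 * |2 * Real.pi - 0| := by
    apply intervalIntegral.norm_integral_le_of_norm_le_const
    intro t _
    have e : exp (t * I) * I * (starRingEnd ℂ) (P t) - I
        = exp (t * I) * I * (starRingEnd ℂ) (P t - (pq 0 t).1) := by
      have hcc := ch_conj 1 t
      have hch : ch 1 t = exp (t * I) := by rw [ch_eq_pow, pow_one]
      simp only [pq, map_sub]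
      rw [hch] at hcc ⊢
      linear_combination I * hcc
    rw [e, norm_mul, norm_mul, Complex.norm_exp_ofReal_mul_I, Complex.norm_I, one_mul, one_mul,
      RCLike.norm_conj, norm_sub_rev]
    refine (P_near 0 t).trans ?_
    unfold B; norm_num
  have hcont : Continuous (fun t : ℝ => exp (t * I) * I * (starRingEnd ℂ) (P t)) := by
    have := Complex.continuous_conj.comp continuous_P
    have h2 : Continuous (fun t : ℝ => (starRingEnd ℂ) (P t)) := this
    fun_prop
  rw [intervalIntegral.integral_sub (hcont.intervalIntegrable _ _) (intervalIntegrable_const), hI2,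
    intervalIntegral.integral_const, zero_sub, norm_neg, norm_smul, Complex.norm_I, Real.norm_eq_abs,
    mul_one] at hdist
  have hpos : 0 < |2 * Real.pi - 0| := by
    rw [sub_zero, abs_of_pos (by positivity)]; positivity
  nlinarith


lemma herm_norm_le {n : ℕ} (z w : EuclideanSpace ℂ (Fin n)) : ‖herm z w‖ ≤ ‖z‖ * ‖w‖ := by
  rw [herm_eq_inner, mul_comm]; exact norm_inner_le_norm w z

lemma herm_sub_left {n : ℕ} (z z' w : EuclideanSpace ℂ (Fin n)) :
    herm (z - z') w = herm z w - herm z' w := by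
  simp only [herm_eq_inner, inner_sub_right]

lemma herm_add_left {n : ℕ} (z z' w : EuclideanSpace ℂ (Fin n)) :
    herm (z + z') w = herm z w + herm z' w := by
  simp only [herm_eq_inner, inner_add_right]

lemma herm_sub_right {n : ℕ} (z w w' : EuclideanSpace ℂ (Fin n)) :
    herm z (w - w') = herm z w - herm z w' := by
  simp only [herm_eq_inner, inner_sub_left]

lemma herm_smul_left {n : ℕ} (r : ℝ) (z w : EuclideanSpace ℂ (Fin n)) :
    herm (r • z) w = (r : ℂ) * herm z w := by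
  simp only [herm_eq_inner, inner_smul_right_eq_smul]
  rfl

lemma local_curve {n : ℕ} {a b : ℝ} (hab : a < b) {φ : ℝ → EuclideanSpace ℂ (Fin n)}
    (hφ : ContDiffOn ℝ 1 φ (Icc a b)) (hS : ∀ t ∈ Icc a b, ‖φ t‖ = 1) {t₀ : ℝ} (ht₀ : t₀ ∈ Icc a b)
    (htr : herm (derivWithin φ (Icc a b) t₀) (φ t₀) ≠ 0) :
    ∃ δ > 0, ∃ c > 0, ∃ L : ℝ, 0 ≤ L ∧ ∀ s ∈ Icc a b ∩ closedBall t₀ δ, ∀ t ∈ Icc a b ∩ closedBall t₀ δ,
      c * |s - t| ≤ ‖1 - herm (φ s) (φ t)‖ ∧ ‖φ s - φ t‖ ≤ L * |s - t| := by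
  set D := derivWithin φ (Icc a b) with hD
  have hu : UniqueDiffOn ℝ (Icc a b) := uniqueDiffOn_Icc hab
  have hDc : ContinuousOn D (Icc a b) := hφ.continuousOn_derivWithin hu le_rfl
  set v := D t₀ with hv
  set c₀ := ‖herm v (φ t₀)‖ with hc₀
  have hc₀pos : 0 < c₀ := norm_pos_iff.2 htr
  have h1 : ∀ᶠ u in 𝓝[Icc a b] t₀, ‖D u - v‖ < c₀ / 4 := by
    have := (hDc t₀ ht₀).tendsto
    rw [Metric.tendsto_nhds] at this
    have := this (c₀ / 4) (by positivity)
    filter_upwards [this] with u hu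
    rwa [dist_eq_norm] at hu
  have h2 : ∀ᶠ u in 𝓝[Icc a b] t₀, ‖φ u - φ t₀‖ < c₀ / (4 * (‖v‖ + 1)) := by
    have := (hφ.continuousOn t₀ ht₀).tendsto
    rw [Metric.tendsto_nhds] at this
    have := this (c₀ / (4 * (‖v‖ + 1))) (by positivity)
    filter_upwards [this] with u hu
    rwa [dist_eq_norm] at hu
  obtain ⟨δ', hδ', hsub⟩ := Metric.mem_nhdsWithin_iff.1 (h1.and h2)
  refine ⟨δ' / 2, by positivity, c₀ / 2, by positivity, ‖v‖ + c₀ / 4, by positivity, ?_⟩
  set J := Icc a b ∩ closedBall t₀ (δ' / 2) with hJ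
  have hJsub : ∀ u ∈ J, ‖D u - v‖ < c₀ / 4 ∧ ‖φ u - φ t₀‖ < c₀ / (4 * (‖v‖ + 1)) := by
    intro u hu
    apply hsub
    refine ⟨?_, hu.1⟩
    exact closedBall_subset_ball (by linarith) hu.2
  have hJconv : Convex ℝ J := (convex_Icc a b).inter (convex_closedBall t₀ _)
  have hmv : ∀ s ∈ J, ∀ t ∈ J, ‖φ s - φ t - (s - t) • v‖ ≤ c₀ / 4 * |s - t| := by
    intro s hs t ht
    have hder : ∀ x ∈ J, HasDerivWithinAt (fun x => φ x - x • v) (D x - v) J x := by
      intro x hx
      have h3 : HasDerivWithinAt φ (D x) (Icc a b) x :=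
        ((hφ.differentiableOn one_ne_zero) x hx.1).hasDerivWithinAt
      have h4 : HasDerivWithinAt φ (D x) J x := h3.mono inter_subset_left
      have h5 : HasDerivWithinAt (fun x : ℝ => x • v) v J x := by
        have := (hasDerivWithinAt_id x J).smul_const v
        simpa using this
      exact h4.sub h5
    have := hJconv.norm_image_sub_le_of_norm_hasDerivWithin_le hder
      (fun x hx => (hJsub x hx).1.le) ht hs
    rw [Real.norm_eq_abs] at this
    have e : φ s - φ t - (s - t) • v = φ s - s • v - (φ t - t • v) := by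
      rw [sub_smul]; abel
    rw [e]; exact this
  intro s hs t ht
  have hm := hmv s hs t ht
  constructor
  · have e : 1 - herm (φ s) (φ t) = -(((s - t : ℝ) : ℂ) * herm v (φ t₀) +
        (((s - t : ℝ) : ℂ) * herm v (φ t - φ t₀) + herm (φ s - φ t - (s - t) • v) (φ t))) := by
      rw [herm_sub_left, herm_sub_left, herm_smul_left, herm_sub_right, herm_self _ (hS t ht.1)]
      ring
    rw [e, norm_neg]
    have n1 : ‖((s - t : ℝ) : ℂ) * herm v (φ t₀)‖ = |s - t| * c₀ := by
      rw [norm_mul, Complex.norm_real, Real.norm_eq_abs]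
    have n2 : ‖((s - t : ℝ) : ℂ) * herm v (φ t - φ t₀)‖ ≤ |s - t| * (c₀ / 4) := by
      rw [norm_mul, Complex.norm_real, Real.norm_eq_abs]
      apply mul_le_mul_of_nonneg_left _ (abs_nonneg _)
      refine (herm_norm_le _ _).trans ?_
      have h6 := (hJsub t ht).2
      have hv0 := norm_nonneg v
      calc ‖v‖ * ‖φ t - φ t₀‖ ≤ (‖v‖ + 1) * (c₀ / (4 * (‖v‖ + 1))) := by
            apply mul_le_mul (by linarith) h6.le (norm_nonneg _) (by positivity)
        _ = c₀ / 4 := by field_simp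
    have n3 : ‖herm (φ s - φ t - (s - t) • v) (φ t)‖ ≤ c₀ / 4 * |s - t| := by
      refine (herm_norm_le _ _).trans ?_
      rw [hS t ht.1, mul_one]; exact hm
    have n4 := norm_sub_le_norm_add (((s - t : ℝ) : ℂ) * herm v (φ t₀))
      (((s - t : ℝ) : ℂ) * herm v (φ t - φ t₀) + herm (φ s - φ t - (s - t) • v) (φ t))
    have n5 := norm_add_le (((s - t : ℝ) : ℂ) * herm v (φ t - φ t₀)) (herm (φ s - φ t - (s - t) • v) (φ t))
    rw [n1] at n4
    nlinarith
  · have e : φ s - φ t = (φ s - φ t - (s - t) • v) + (s - t) • v := by abel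
    rw [e]
    refine (norm_add_le _ _).trans ?_
    rw [norm_smul, Real.norm_eq_abs]
    nlinarith

lemma tendsto_pi_div_N : Tendsto (fun k => Real.pi / (N k : ℝ)) atTop (𝓝 0) := by
  have h : ∀ k, Real.pi / (N k : ℝ) = Real.pi * (1 / 4096) ^ (k + 1) := by
    intro k; unfold N; push_cast; rw [one_div, inv_pow]; rfl
  simp only [h]
  have : Tendsto (fun k : ℕ => (1 / 4096 : ℝ) ^ (k + 1)) atTop (𝓝 0) :=
    (tendsto_pow_atTop_nhds_zero_of_lt_one (by norm_num) (by norm_num)).comp (tendsto_add_atTop_nat 1)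
  simpa using this.const_mul Real.pi

lemma null_curve (m : ℕ) {a b : ℝ} {φ : ℝ → EuclideanSpace ℂ (Fin (m + 2))}
    (hφ : ContDiffOn ℝ 1 φ (Icc a b)) (hS : ∀ t ∈ Icc a b, ‖φ t‖ = 1)
    (htr : ∀ t ∈ Icc a b, herm (derivWithin φ (Icc a b) t) (φ t) ≠ 0) :
    volume (Icc a b ∩ φ ⁻¹' (KK m)) = 0 := by
  rcases lt_or_ge b a with hba | hba
  · rw [Icc_eq_empty (by linarith), empty_inter, measure_empty]
  rcases hba.eq_or_lt with hab | hab
  · subst hab
    apply measure_mono_null inter_subset_left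
    simp
  apply measure_null_of_locally_null
  rintro t₀ ⟨ht₀, -⟩
  obtain ⟨δ, hδ, c, hc, L, hL, hloc⟩ := local_curve hab hφ hS ht₀ (htr t₀ ht₀)
  refine ⟨(Icc a b ∩ closedBall t₀ δ) ∩ φ ⁻¹' (KK m), ?_, ?_⟩
  · have h1 : closedBall t₀ δ ∈ 𝓝[Icc a b ∩ φ ⁻¹' (KK m)] t₀ :=
      mem_nhdsWithin_of_mem_nhds (closedBall_mem_nhds t₀ hδ)
    have h2 : Icc a b ∩ φ ⁻¹' (KK m) ∈ 𝓝[Icc a b ∩ φ ⁻¹' (KK m)] t₀ := self_mem_nhdsWithin
    filter_upwards [h1, h2] with t h3 h4
    exact ⟨⟨h4.1, h3⟩, h4.2⟩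
  set J := Icc a b ∩ closedBall t₀ δ with hJ
  have hJc : IsCompact J := isCompact_Icc.inter_right isClosed_closedBall
  set F : Set ℝ := Icc 0 (2 * Real.pi) ∩ (curve m) ⁻¹' (φ '' J) with hF
  have hφJ : IsCompact (φ '' J) := hJc.image_of_continuousOn (hφ.continuousOn.mono inter_subset_left)
  have hFclosed : IsClosed F := isClosed_Icc.inter (hφJ.isClosed.preimage (continuous_curve m))
  -- the inverse map
  have hex : ∀ θ : ℝ, ∃ t : ℝ, θ ∈ F → (t ∈ J ∧ φ t = curve m θ) := by
    intro θ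
    by_cases h : θ ∈ F
    · obtain ⟨t, ht1, ht2⟩ := h.2
      exact ⟨t, fun _ => ⟨ht1, ht2⟩⟩
    · exact ⟨0, fun h' => absurd h' h⟩
  choose τ hτ using hex
  have hlip : ∀ θ ∈ F, ∀ θ' ∈ F, |τ θ - τ θ'| ≤ 2 / c * |θ - θ'| := by
    intro θ hθ θ' hθ'
    obtain ⟨h1, h2⟩ := hτ θ hθ
    obtain ⟨h3, h4⟩ := hτ θ' hθ'
    have h5 := (hloc _ h1 _ h3).1
    rw [h2, h4] at h5
    have h6 := herm_curve m θ θ'
    have h7 : c * |τ θ - τ θ'| ≤ 2 * |θ - θ'| := h5.trans h6
    rw [div_mul_eq_mul_div, le_div_iff₀ hc]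
    linarith
  have himg : J ∩ φ ⁻¹' (KK m) ⊆ τ '' F := by
    rintro t ⟨htJ, htK⟩
    obtain ⟨θ, hθ1, hθ2⟩ := htK
    have hθF : θ ∈ F := ⟨hθ1, ⟨t, htJ, hθ2.symm⟩⟩
    refine ⟨θ, hθF, ?_⟩
    obtain ⟨h1, h2⟩ := hτ θ hθF
    have h5 := (hloc _ h1 _ htJ).1
    rw [h2, hθ2, herm_self _ (hS t htJ.1), sub_self, norm_zero] at h5
    have h6 : |τ θ - t| ≤ 0 := by
      by_contra hcon
      push Not at hcon
      have := mul_pos hc hcon
      linarith
    have h7 : |τ θ - t| = 0 := le_antisymm h6 (abs_nonneg _)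
    rw [abs_eq_zero] at h7
    linarith
  by_cases hF0 : volume F = 0
  · have hlipF : LipschitzOnWith (Real.toNNReal (2 / c)) τ F := by
      apply LipschitzOnWith.of_dist_le_mul
      intro θ hθ θ' hθ'
      rw [Real.dist_eq, Real.dist_eq, Real.coe_toNNReal _ (by positivity)]
      exact hlip θ hθ θ' hθ'
    have hle := hlipF.hausdorffMeasure_image_le (d := 1) zero_le_one
    rw [MeasureTheory.hausdorffMeasure_real, hF0, mul_zero] at hle
    exact measure_mono_null himg (le_antisymm hle bot_le)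
  · exfalso
    have hpos : 0 < volume F := pos_iff_ne_zero.2 hF0
    have hst := Measure.sub_mem_nhds_zero_of_addHaar_pos volume F hFclosed.measurableSet hpos
    have h1 : ∀ᶠ k in atTop, Real.pi / (N k : ℝ) ∈ F - F := tendsto_pi_div_N.eventually hst
    have h2 : Tendsto (fun k : ℕ => (16 : ℝ) ^ (k + 1)) atTop atTop :=
      (tendsto_pow_atTop_atTop_of_one_lt (by norm_num)).comp (tendsto_add_atTop_nat 1)
    have h3 : ∀ᶠ k : ℕ in atTop, L * (2 / c) * Real.pi * 2 < (16 : ℝ) ^ (k + 1) := h2.eventually_gt_atTop _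
    obtain ⟨k, hk1, hk2⟩ := (h1.and h3).exists
    obtain ⟨θ', hθ', θ, hθ, hsub⟩ := hk1
    have hN := N_pos k
    have hθeq : θ' = θ + Real.pi / N k := by
      have : θ' - θ = Real.pi / N k := hsub
      linarith
    have hlow := curve_lower m k θ
    rw [← hθeq] at hlow
    obtain ⟨h4, h5⟩ := hτ θ hθ
    obtain ⟨h6, h7⟩ := hτ θ' hθ'
    have h8 := (hloc _ h6 _ h4).2
    rw [h5, h7] at h8
    have h9 := hlip θ' hθ' θ hθ
    have h10 : |θ' - θ| = Real.pi / N k := by
      rw [hθeq, add_sub_cancel_left, abs_of_pos (div_pos Real.pi_pos hN)]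
    rw [h10] at h9
    have h11 : B k / 2 ≤ L * (2 / c * (Real.pi / N k)) :=
      hlow.trans (h8.trans (mul_le_mul_of_nonneg_left h9 hL))
    have hBN := B_mul_N k
    have h12 : B k * N k ≤ L * (2 / c) * Real.pi * 2 := by
      have h13 : B k / 2 * N k ≤ L * (2 / c * (Real.pi / N k)) * N k :=
        mul_le_mul_of_nonneg_right h11 hN.le
      have h14 : L * (2 / c * (Real.pi / N k)) * N k = L * (2 / c) * Real.pi := by
        field_simp
      rw [h14] at h13
      linarith
    rw [hBN] at h12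
    linarith

end

/-- The converse of Nagel's theorem fails in every dimension `n ≥ 2`. -/
theorem main (n : ℕ) (hn : 2 ≤ n) :
    ∃ K : Set (EuclideanSpace ℂ (Fin n)), IsCompact K ∧ K ⊆ sphere 0 1 ∧ ¬ IsPISet n K ∧
      ∀ (a b : ℝ) (φ : ℝ → EuclideanSpace ℂ (Fin n)), ContDiffOn ℝ 1 φ (Icc a b) →
        (∀ t ∈ Icc a b, φ t ∈ sphere (0 : EuclideanSpace ℂ (Fin n)) 1) →
        (∀ t ∈ Icc a b, herm (derivWithin φ (Icc a b) t) (φ t) ≠ 0) →
        volume (Icc a b ∩ φ ⁻¹' K) = 0 := by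
  obtain ⟨m, rfl⟩ : ∃ m, n = m + 2 := ⟨n - 2, by omega⟩
  refine ⟨KK m, isCompact_KK m, KK_subset m, not_PI m, ?_⟩
  intro a b φ hφ hS htr
  exact null_curve m hφ (fun t ht => by simpa using hS t ht) htr

end Pool.Agent.Helper47.Nagel
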