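import Mathlib

namespace Pool.Agent.Helper47.Recon

open MeasureTheory Set Filter Topology
open scoped symmDiff

noncomputable section

variable {d : ℕ}

/-- a bounded measurable set has subsets of every smaller measure -/
lemma exists_subset_vol (hd : 0 < d) (a : Set (Fin d → ℝ)) (ha : MeasurableSet a)
    (hb : Bornology.IsBounded a) (c : ℝ) (hc0 : 0 ≤ c) (hc : c ≤ volume.real a) :
    ∃ T ⊆ a, MeasurableSet T ∧ volume.real T = c := by
  obtain ⟨R, hR⟩ := hb.subset_closedBall 0
  have hfin : volume a ≠ ⊤ := hb.measure_lt_top.ne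
  let j : Fin d := ⟨0, hd⟩
  have hj : ∀ z ∈ a, |z j| ≤ R := by
    intro z hz
    have h1 := hR hz
    rw [mem_closedBall_zero_iff] at h1
    have h2 := norm_le_pi_norm z j
    rw [Real.norm_eq_abs] at h2
    linarith
  let H : ℝ → Set (Fin d → ℝ) := fun t => {z | z j ≤ t}
  have hHm : ∀ t, MeasurableSet (H t) := fun t => measurableSet_le (measurable_pi_apply j) measurable_const
  have hcont : Continuous (fun t : ℝ => ∫ z in a, (H t).indicator (fun _ => (1 : ℝ)) z) := by
    rw [continuous_iff_continuousAt]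
    intro t₀
    apply continuousAt_of_dominated (bound := fun _ => (1 : ℝ))
    · filter_upwards with t
      exact (measurable_const.indicator (hHm t)).aestronglyMeasurable
    · filter_upwards with t
      filter_upwards with z
      rw [indicator_apply]
      split_ifs <;> simp
    · exact integrableOn_const hfin
    · have h0 : ∀ᵐ z ∂(volume.restrict a), z j ≠ t₀ := by
        apply ae_restrict_of_ae
        have : volume {z : Fin d → ℝ | z j = t₀} = 0 := by
          rw [volume_pi]; exact Measure.pi_hyperplane (fun _ : Fin d => (volume : Measure ℝ)) j t₀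
        exact measure_eq_zero_iff_ae_notMem.1 this
      filter_upwards [h0] with z hz
      rcases lt_or_gt_of_ne hz with h | h
      · apply continuousAt_const (y := (1 : ℝ)) |>.congr
        filter_upwards [lt_mem_nhds h] with t ht
        rw [indicator_of_mem]
        exact ht.le
      · apply continuousAt_const (y := (0 : ℝ)) |>.congr
        filter_upwards [gt_mem_nhds h] with t ht
        rw [indicator_of_notMem]
        exact not_le.2 ht
  have hval : ∀ t, ∫ z in a, (H t).indicator (fun _ => (1 : ℝ)) z = volume.real (a ∩ H t) := by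
    intro t
    rw [integral_indicator (hHm t), Measure.restrict_restrict (hHm t), setIntegral_const, smul_eq_mul, mul_one,
      inter_comm]
  have h1 : ∫ z in a, (H (-R - 1)).indicator (fun _ => (1 : ℝ)) z = 0 := by
    rw [hval]
    have : a ∩ H (-R - 1) = ∅ := by
      ext z
      simp only [mem_inter_iff, mem_empty_iff_false, iff_false, not_and, H, mem_ofPred_eq]
      intro hz
      have := (abs_le.1 (hj z hz)).1
      linarith
    rw [this, measureReal_empty]
  have h2 : ∫ z in a, (H R).indicator (fun _ => (1 : ℝ)) z = volume.real a := by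
    rw [hval]
    have : a ∩ H R = a := by
      ext z
      simp only [mem_inter_iff, and_iff_left_iff_imp, H, mem_ofPred_eq]
      intro hz
      exact (abs_le.1 (hj z hz)).2
    rw [this]
  have hle : -R - 1 ≤ R ∨ a = ∅ := by
    by_cases h : a = ∅
    · right; exact h
    · left
      obtain ⟨z, hz⟩ := nonempty_iff_ne_empty.2 h
      have := hj z hz
      have := abs_nonneg (z j)
      linarith
  rcases hle with hle | hle
  · obtain ⟨t, -, ht⟩ := intermediate_value_Icc hle hcont.continuousOn (by
      rw [h1, h2]; exact ⟨hc0, hc⟩)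
    simp only [hval] at ht
    exact ⟨a ∩ H t, inter_subset_left, ha.inter (hHm t), ht⟩
  · subst hle
    refine ⟨∅, Subset.rfl, MeasurableSet.empty, ?_⟩
    simp only [measureReal_empty] at hc ⊢
    linarith

/-- indicator function of a set -/
abbrev ind (T : Set (Fin d → ℝ)) : (Fin d → ℝ) → ℝ := T.indicator (fun _ => (1 : ℝ))

lemma ind_nonneg (T : Set (Fin d → ℝ)) (z) : 0 ≤ ind T z := by
  classical
  unfold ind; rw [indicator_apply]; split_ifs <;> norm_num

lemma ind_le_one (T : Set (Fin d → ℝ)) (z) : ind T z ≤ 1 := by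
  classical
  unfold ind; rw [indicator_apply]; split_ifs <;> norm_num

lemma measurable_ind {T : Set (Fin d → ℝ)} (hT : MeasurableSet T) : Measurable (ind T) :=
  measurable_const.indicator hT

lemma setIntegral_ind {T U : Set (Fin d → ℝ)} (hT : MeasurableSet T) :
    ∫ z in U, ind T z = volume.real (U ∩ T) := by
  rw [integral_indicator hT, Measure.restrict_restrict hT, setIntegral_const, smul_eq_mul, mul_one,
      inter_comm]

lemma integrableOn_of_bdd {U : Set (Fin d → ℝ)} (hU : Bornology.IsBounded U)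
    {f : (Fin d → ℝ) → ℝ} (hf : Measurable f) {C : ℝ} (hC : ∀ z, |f z| ≤ C) : IntegrableOn f U := by
  apply Measure.integrableOn_of_bounded (M := C) hU.measure_lt_top.ne hf.aestronglyMeasurable
  filter_upwards with z
  exact hC z

/-- one atom -/
lemma atom (hd : 0 < d) (U S : Set (Fin d → ℝ)) (hU : MeasurableSet U)
    (hb : Bornology.IsBounded U) (hS : MeasurableSet S) (h : (Fin d → ℝ) → ℝ) (hm : Measurable h)
    (h0 : ∀ z, 0 ≤ h z) (h1 : ∀ z, h z ≤ 1) :
    ∃ T ⊆ U, MeasurableSet T ∧ volume.real T = ∫ z in U, h z ∧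
      ∫ z in U, |ind T z - ind S z| ≤ ∫ z in U, |h z - ind S z| := by
  have habs : ∀ z, |h z| ≤ 1 := fun z => by rw [abs_of_nonneg (h0 z)]; exact h1 z
  have hint : ∀ W : Set (Fin d → ℝ), Bornology.IsBounded W → IntegrableOn h W := fun W hW =>
    integrableOn_of_bdd hW hm habs
  have hsub : ∀ W : Set (Fin d → ℝ), MeasurableSet W → Bornology.IsBounded W →
      ∫ z in W, h z ≤ volume.real W := by
    intro W hW hWb
    have h2 : ∫ z in W, h z ≤ ∫ z in W, (1 : ℝ) :=
      setIntegral_mono (hint W hWb) (integrableOn_const hWb.measure_lt_top.ne) h1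
    rwa [setIntegral_const, smul_eq_mul, mul_one] at h2
  have hb1 : Bornology.IsBounded (U ∩ S) := hb.subset inter_subset_left
  have hb2 : Bornology.IsBounded (U \ S) := hb.subset sdiff_subset
  have hm1 : MeasurableSet (U ∩ S) := hU.inter hS
  have hm2 : MeasurableSet (U \ S) := hU.diff hS
  obtain ⟨T₁, hT₁s, hT₁m, hT₁⟩ := exists_subset_vol hd (U ∩ S) hm1 hb1 (∫ z in U ∩ S, h z)
    (setIntegral_nonneg hm1 (fun z _ => h0 z)) (hsub _ hm1 hb1)
  obtain ⟨T₂, hT₂s, hT₂m, hT₂⟩ := exists_subset_vol hd (U \ S) hm2 hb2 (∫ z in U \ S, h z)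
    (setIntegral_nonneg hm2 (fun z _ => h0 z)) (hsub _ hm2 hb2)
  have hdisj : Disjoint T₁ T₂ := by
    rw [Set.disjoint_left]
    intro z hz1 hz2
    exact (hT₂s hz2).2 (hT₁s hz1).2
  have hf1 : volume T₁ ≠ ⊤ := (hb1.subset hT₁s).measure_lt_top.ne
  have hf2 : volume T₂ ≠ ⊤ := (hb2.subset hT₂s).measure_lt_top.ne
  have hUeq : U = (U ∩ S) ∪ (U \ S) := (inter_union_sdiff U S).symm
  have hdU : Disjoint (U ∩ S) (U \ S) := by
    rw [Set.disjoint_left]; rintro z hz1 hz2; exact hz2.2 hz1.2
  have hsplit : ∀ f : (Fin d → ℝ) → ℝ, Measurable f → (∀ z, |f z| ≤ 1) →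
      ∫ z in U, f z = (∫ z in U ∩ S, f z) + ∫ z in U \ S, f z := by
    intro f hf hf1
    conv_lhs => rw [hUeq]
    exact setIntegral_union hdU hm2 (integrableOn_of_bdd hb1 hf hf1) (integrableOn_of_bdd hb2 hf hf1)
  refine ⟨T₁ ∪ T₂, union_subset (hT₁s.trans inter_subset_left) (hT₂s.trans sdiff_subset), hT₁m.union hT₂m, ?_, ?_⟩
  · rw [measureReal_union hdisj hT₂m hf1 hf2, hT₁, hT₂, ← hsplit h hm habs]
  · have hTm : MeasurableSet (T₁ ∪ T₂) := hT₁m.union hT₂m
    have hb' : ∀ g : (Fin d → ℝ) → ℝ, (∀ z, 0 ≤ g z) → (∀ z, g z ≤ 1) → ∀ z, |(|g z - ind S z|)| ≤ 1 := by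
      intro g hg0 hg1 z
      rw [abs_abs, abs_le]
      have := hg0 z
      have := hg1 z
      have := ind_nonneg S z
      have := ind_le_one S z
      constructor <;> linarith
    rw [hsplit (fun z => |ind (T₁ ∪ T₂) z - ind S z|) ((measurable_ind hTm).sub (measurable_ind hS)).abs
        (hb' _ (ind_nonneg _) (ind_le_one _)),
      hsplit (fun z => |h z - ind S z|) (hm.sub (measurable_ind hS)).abs (hb' _ h0 h1)]
    have e1 : ∫ z in U ∩ S, |ind (T₁ ∪ T₂) z - ind S z| = ∫ z in U ∩ S, |h z - ind S z| := by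
      have e2 : ∫ z in U ∩ S, |ind (T₁ ∪ T₂) z - ind S z| = ∫ z in U ∩ S, (1 - ind T₁ z) := by
        apply setIntegral_congr_fun hm1
        intro z hz
        have hzS : ind S z = 1 := indicator_of_mem hz.2 _
        have hz2 : z ∉ T₂ := fun h => (hT₂s h).2 hz.2
        have hz3 : ind (T₁ ∪ T₂) z = ind T₁ z := by
          unfold ind
          by_cases hz1 : z ∈ T₁
          · rw [indicator_of_mem (mem_union_left _ hz1), indicator_of_mem hz1]
          · rw [indicator_of_notMem (by simp [hz1, hz2]), indicator_of_notMem hz1]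
        simp only
        rw [hzS, hz3, abs_sub_comm, abs_of_nonneg]
        have := ind_le_one T₁ z
        linarith
      have e3 : ∫ z in U ∩ S, |h z - ind S z| = ∫ z in U ∩ S, (1 - h z) := by
        apply setIntegral_congr_fun hm1
        intro z hz
        have hzS : ind S z = 1 := indicator_of_mem hz.2 _
        simp only
        rw [hzS, abs_sub_comm, abs_of_nonneg]
        have := h1 z
        linarith
      have i1 : IntegrableOn (fun _ : Fin d → ℝ => (1 : ℝ)) (U ∩ S) := integrableOn_const hb1.measure_lt_top.ne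
      have i2 : IntegrableOn (ind T₁) (U ∩ S) := integrableOn_of_bdd hb1 (measurable_ind hT₁m) (fun z => by
          rw [abs_of_nonneg (ind_nonneg _ z)]; exact ind_le_one _ z)
      rw [e2, e3, integral_sub i1 i2, integral_sub i1 (hint _ hb1), setIntegral_ind hT₁m,
        inter_eq_self_of_subset_right hT₁s, hT₁]
    have e4 : ∫ z in U \ S, |ind (T₁ ∪ T₂) z - ind S z| = ∫ z in U \ S, |h z - ind S z| := by
      have e2 : ∫ z in U \ S, |ind (T₁ ∪ T₂) z - ind S z| = ∫ z in U \ S, ind T₂ z := by
        apply setIntegral_congr_fun hm2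
        intro z hz
        have hzS : ind S z = 0 := indicator_of_notMem hz.2 _
        have hz2 : z ∉ T₁ := fun h => hz.2 (hT₁s h).2
        have hz3 : ind (T₁ ∪ T₂) z = ind T₂ z := by
          unfold ind
          by_cases hz1 : z ∈ T₂
          · rw [indicator_of_mem (mem_union_right _ hz1), indicator_of_mem hz1]
          · rw [indicator_of_notMem (by simp [hz1, hz2]), indicator_of_notMem hz1]
        simp only
        rw [hzS, hz3, sub_zero, abs_of_nonneg (ind_nonneg _ z)]
      have e3 : ∫ z in U \ S, |h z - ind S z| = ∫ z in U \ S, h z := by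
        apply setIntegral_congr_fun hm2
        intro z hz
        have hzS : ind S z = 0 := indicator_of_notMem hz.2 _
        simp only
        rw [hzS, sub_zero, abs_of_nonneg (h0 z)]
      rw [e2, e3, setIntegral_ind hT₂m, inter_eq_self_of_subset_right hT₂s, hT₂]
    rw [e1, e4]

/-- finitely many constraints -/
lemma atoms (hd : 0 < d) (S : Set (Fin d → ℝ)) (hS : MeasurableSet S) (h : (Fin d → ℝ) → ℝ)
    (hm : Measurable h) (h0 : ∀ z, 0 ≤ h z) (h1 : ∀ z, h z ≤ 1) (L : List (Set (Fin d → ℝ)))
    (hL : ∀ A ∈ L, MeasurableSet A) :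
    ∀ U : Set (Fin d → ℝ), MeasurableSet U → Bornology.IsBounded U →
    ∃ T ⊆ U, MeasurableSet T ∧ volume.real T = ∫ z in U, h z ∧
      (∀ A ∈ L, volume.real (A ∩ T) = ∫ z in A ∩ U, h z) ∧
      ∫ z in U, |ind T z - ind S z| ≤ ∫ z in U, |h z - ind S z| := by
  have habs : ∀ z, |h z| ≤ 1 := fun z => by rw [abs_of_nonneg (h0 z)]; exact h1 z
  induction L with
  | nil =>
    intro U hU hb
    obtain ⟨T, h2, h3, h4, h5⟩ := atom hd U S hU hb hS h hm h0 h1
    exact ⟨T, h2, h3, h4, by simp, h5⟩
  | cons A L ih =>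
    intro U hU hb
    have hA : MeasurableSet A := hL A (by simp)
    have hL' : ∀ A' ∈ L, MeasurableSet A' := fun A' hA' => hL A' (by simp [hA'])
    obtain ⟨T₁, hs1, hT₁m, hv1, hc1, hd1⟩ := ih hL' (U ∩ A) (hU.inter hA) (hb.subset inter_subset_left)
    obtain ⟨T₂, hs2, hT₂m, hv2, hc2, hd2⟩ := ih hL' (U \ A) (hU.diff hA) (hb.subset sdiff_subset)
    have hb1 : Bornology.IsBounded (U ∩ A) := hb.subset inter_subset_left
    have hb2 : Bornology.IsBounded (U \ A) := hb.subset sdiff_subset
    have hm1 : MeasurableSet (U ∩ A) := hU.inter hA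
    have hm2 : MeasurableSet (U \ A) := hU.diff hA
    have hdisj : Disjoint T₁ T₂ := by
      rw [Set.disjoint_left]
      intro z hz1 hz2
      exact (hs2 hz2).2 (hs1 hz1).2
    have hf1 : volume T₁ ≠ ⊤ := (hb1.subset hs1).measure_lt_top.ne
    have hf2 : volume T₂ ≠ ⊤ := (hb2.subset hs2).measure_lt_top.ne
    have hUeq : U = (U ∩ A) ∪ (U \ A) := (inter_union_sdiff U A).symm
    have hdU : Disjoint (U ∩ A) (U \ A) := by
      rw [Set.disjoint_left]; rintro z hz1 hz2; exact hz2.2 hz1.2
    have hsplit : ∀ (W : Set (Fin d → ℝ)), MeasurableSet W → ∀ f : (Fin d → ℝ) → ℝ, Measurable f → (∀ z, |f z| ≤ 1) →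
        ∫ z in W ∩ U, f z = (∫ z in W ∩ (U ∩ A), f z) + ∫ z in W ∩ (U \ A), f z := by
      intro W hW f hf hf1
      have : W ∩ U = (W ∩ (U ∩ A)) ∪ (W ∩ (U \ A)) := by rw [← inter_union_distrib_left, ← hUeq]
      rw [this]
      exact setIntegral_union (hdU.mono inter_subset_right inter_subset_right) (hW.inter hm2)
        (integrableOn_of_bdd (hb1.subset inter_subset_right) hf hf1)
        (integrableOn_of_bdd (hb2.subset inter_subset_right) hf hf1)
    refine ⟨T₁ ∪ T₂, union_subset (hs1.trans inter_subset_left) (hs2.trans sdiff_subset), hT₁m.union hT₂m,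
      ?_, ?_, ?_⟩
    · rw [measureReal_union hdisj hT₂m hf1 hf2, hv1, hv2]
      have := hsplit univ MeasurableSet.univ h hm habs
      simp only [univ_inter] at this
      exact this.symm
    · intro A' hA'
      rw [List.mem_cons] at hA'
      rcases hA' with rfl | hA'
      · have e1 : A' ∩ (T₁ ∪ T₂) = T₁ := by
          ext z
          constructor
          · rintro ⟨hz1, hz2 | hz2⟩
            · exact hz2
            · exact absurd hz1 (hs2 hz2).2
          · intro hz
            exact ⟨(hs1 hz).2, Or.inl hz⟩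
        rw [e1, hv1, inter_comm]
      · have e1 : A' ∩ (T₁ ∪ T₂) = (A' ∩ T₁) ∪ (A' ∩ T₂) := inter_union_distrib_left _ _ _
        have hA'm := hL' A' hA'
        rw [e1, measureReal_union (hdisj.mono inter_subset_right inter_subset_right) (hA'm.inter hT₂m)
          (ne_top_of_le_ne_top hf1 (measure_mono inter_subset_right))
          (ne_top_of_le_ne_top hf2 (measure_mono inter_subset_right)), hc1 A' hA', hc2 A' hA',
          hsplit A' hA'm h hm habs]
    · have hTm : MeasurableSet (T₁ ∪ T₂) := hT₁m.union hT₂m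
      have hb' : ∀ g : (Fin d → ℝ) → ℝ, (∀ z, 0 ≤ g z) → (∀ z, g z ≤ 1) → ∀ z, |(|g z - ind S z|)| ≤ 1 := by
        intro g hg0 hg1 z
        rw [abs_abs, abs_le]
        have := hg0 z
        have := hg1 z
        have := ind_nonneg S z
        have := ind_le_one S z
        constructor <;> linarith
      have s1 := hsplit univ MeasurableSet.univ (fun z => |ind (T₁ ∪ T₂) z - ind S z|) ((measurable_ind hTm).sub (measurable_ind hS)).abs
        (hb' _ (ind_nonneg _) (ind_le_one _))
      have s2 := hsplit univ MeasurableSet.univ (fun z => |h z - ind S z|) (hm.sub (measurable_ind hS)).abs (hb' _ h0 h1)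
      simp only [univ_inter] at s1 s2
      rw [s1, s2]
      have e1 : ∫ z in U ∩ A, |ind (T₁ ∪ T₂) z - ind S z| = ∫ z in U ∩ A, |ind T₁ z - ind S z| := by
        apply setIntegral_congr_fun hm1
        intro z hz
        have hz2 : z ∉ T₂ := fun h => (hs2 h).2 hz.2
        have hz3 : ind (T₁ ∪ T₂) z = ind T₁ z := by
          unfold ind
          by_cases hz1 : z ∈ T₁
          · rw [indicator_of_mem (mem_union_left _ hz1), indicator_of_mem hz1]
          · rw [indicator_of_notMem (by simp [hz1, hz2]), indicator_of_notMem hz1]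
        simp only
        rw [hz3]
      have e2 : ∫ z in U \ A, |ind (T₁ ∪ T₂) z - ind S z| = ∫ z in U \ A, |ind T₂ z - ind S z| := by
        apply setIntegral_congr_fun hm2
        intro z hz
        have hz2 : z ∉ T₁ := fun h => hz.2 (hs1 h).2
        have hz3 : ind (T₁ ∪ T₂) z = ind T₂ z := by
          unfold ind
          by_cases hz1 : z ∈ T₂
          · rw [indicator_of_mem (mem_union_right _ hz1), indicator_of_mem hz1]
          · rw [indicator_of_notMem (by simp [hz1, hz2]), indicator_of_notMem hz1]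
        simp only
        rw [hz3]
      rw [e1, e2]
      linarith

end

end Pool.Agent.Helper47.Recon
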