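import Mathlib
import Pool.Agent.Helper47.ReconA

namespace Pool.Agent.Helper47.Recon

open MeasureTheory Set Filter Topology
open scoped symmDiff NNReal

noncomputable section

variable {d : ℕ}

/-- the magnified copy with parameters `p = (r, x)` -/
def cp (E : Set (Fin d → ℝ)) (p : ℝ × (Fin d → ℝ)) : Set (Fin d → ℝ) :=
  (fun y => p.1 • y + p.2) '' E

lemma cp_eq (E : Set (Fin d → ℝ)) {p : ℝ × (Fin d → ℝ)} (hp : 0 < p.1) :
    cp E p = (fun z => p.1⁻¹ • (z - p.2)) ⁻¹' E := by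
  ext z
  simp only [cp, mem_image, mem_preimage]
  constructor
  · rintro ⟨y, hy, rfl⟩
    rw [add_sub_cancel_right, inv_smul_smul₀ hp.ne']
    exact hy
  · intro hz
    refine ⟨_, hz, ?_⟩
    rw [smul_inv_smul₀ hp.ne', sub_add_cancel]

lemma measurableSet_cp {E : Set (Fin d → ℝ)} (hE : MeasurableSet E) {p : ℝ × (Fin d → ℝ)} (hp : 0 < p.1) :
    MeasurableSet (cp E p) := by
  rw [cp_eq E hp]
  exact hE.preimage (by fun_prop)

lemma ind_cp (E : Set (Fin d → ℝ)) {p : ℝ × (Fin d → ℝ)} (hp : 0 < p.1) (z : Fin d → ℝ) :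
    ind (cp E p) z = ind E (p.1⁻¹ • (z - p.2)) := by
  rw [cp_eq E hp]; rfl

lemma integral_affine (f : (Fin d → ℝ) → ℝ) {p : ℝ × (Fin d → ℝ)} (hp : 0 < p.1) :
    ∫ z, f (p.1⁻¹ • (z - p.2)) = p.1 ^ d * ∫ y, f y := by
  rw [integral_sub_right_eq_self (fun z => f (p.1⁻¹ • z)) p.2,
    Measure.integral_comp_inv_smul_of_nonneg volume f hp.le]
  simp

lemma setIntegral_cp {E : Set (Fin d → ℝ)} (hE : MeasurableSet E) (f : (Fin d → ℝ) → ℝ)
    {p : ℝ × (Fin d → ℝ)} (hp : 0 < p.1) :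
    ∫ z in cp E p, f z = p.1 ^ d * ∫ y in E, f (p.1 • y + p.2) := by
  rw [← integral_indicator (measurableSet_cp hE hp), ← integral_indicator hE, ← integral_affine _ hp]
  congr 1
  ext z
  by_cases hz : z ∈ cp E p
  · rw [indicator_of_mem hz]
    have hz' : p.1⁻¹ • (z - p.2) ∈ E := by rw [cp_eq E hp] at hz; exact hz
    rw [indicator_of_mem hz', smul_inv_smul₀ hp.ne', sub_add_cancel]
  · rw [indicator_of_notMem hz]
    have hz' : p.1⁻¹ • (z - p.2) ∉ E := by rw [cp_eq E hp] at hz; exact hz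
    rw [indicator_of_notMem hz']

lemma abs_pow_sub_le {M : ℝ} (hM : 1 ≤ M) {a b : ℝ} (ha : |a| ≤ M) (hb : |b| ≤ M) (n : ℕ) :
    |a ^ n - b ^ n| ≤ n * M ^ n * |a - b| := by
  induction n with
  | zero => simp
  | succ n ih =>
    have e : a ^ (n + 1) - b ^ (n + 1) = a * (a ^ n - b ^ n) + (a - b) * b ^ n := by ring
    have hMn : (0 : ℝ) < M ^ n := by positivity
    have h1 : |a * (a ^ n - b ^ n)| ≤ M * (n * M ^ n * |a - b|) := by
      rw [abs_mul]
      exact mul_le_mul ha ih (abs_nonneg _) (by linarith)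
    have h2 : |(a - b) * b ^ n| ≤ |a - b| * M ^ n := by
      rw [abs_mul, abs_pow]
      exact mul_le_mul_of_nonneg_left (pow_le_pow_left₀ (abs_nonneg _) hb n) (abs_nonneg _)
    rw [e]
    refine (abs_add_le _ _).trans ?_
    have h3 : |a - b| * M ^ n ≤ M ^ (n + 1) * |a - b| := by
      rw [mul_comm, pow_succ]
      apply mul_le_mul_of_nonneg_right _ (abs_nonneg _)
      nlinarith
    calc |a * (a ^ n - b ^ n)| + |(a - b) * b ^ n| ≤ M * (n * M ^ n * |a - b|) + M ^ (n + 1) * |a - b| := by linarith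
      _ = ((n + 1 : ℕ) : ℝ) * M ^ (n + 1) * |a - b| := by push_cast; ring

/-- the compact parameter sets -/
def Kp (d : ℕ) (k : ℝ) : Set (ℝ × (Fin d → ℝ)) := Icc 1 k ×ˢ Metric.closedBall 0 k

lemma isCompact_Kp (k : ℝ) : IsCompact (Kp d k) := isCompact_Icc.prod (isCompact_closedBall 0 k)

lemma pos_of_mem {k : ℝ} {p : ℝ × (Fin d → ℝ)} (hp : p ∈ Kp d k) : 0 < p.1 := by
  have := hp.1.1; linarith

lemma lipschitz_setIntegral {E : Set (Fin d → ℝ)} (hE : MeasurableSet E) (hb : Bornology.IsBounded E)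
    {f : (Fin d → ℝ) → ℝ} {L : ℝ≥0} (hf : LipschitzWith L f) {C₀ : ℝ} (hC : ∀ z, |f z| ≤ C₀) (k : ℝ) :
    ∃ C : ℝ≥0, LipschitzOnWith C (fun p => ∫ z in cp E p, f z) (Kp d k) := by
  by_cases hk : 1 ≤ k
  swap
  · refine ⟨0, ?_⟩
    have : Kp d k = ∅ := by
      unfold Kp
      rw [Icc_eq_empty hk, empty_prod]
    rw [this]
    exact fun x hx => absurd hx (notMem_empty x)
  obtain ⟨R, hR⟩ := hb.subset_closedBall 0
  have hR' : ∀ y ∈ E, ‖y‖ ≤ R := fun y hy => by
    have := hR hy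
    rwa [mem_closedBall_zero_iff] at this
  have hC₀ : 0 ≤ C₀ := (abs_nonneg _).trans (hC 0)
  have hfin : volume E ≠ ⊤ := hb.measure_lt_top.ne
  set I : ℝ × (Fin d → ℝ) → ℝ := fun p => ∫ y in E, f (p.1 • y + p.2) with hI
  have hfc := hf.continuous
  have hIint : ∀ p : ℝ × (Fin d → ℝ), IntegrableOn (fun y => f (p.1 • y + p.2)) E := by
    intro p
    apply integrableOn_of_bdd hb (C := C₀) _ (fun z => hC _)
    exact (hfc.comp (by fun_prop)).measurable
  have hI1 : ∀ p, |I p| ≤ C₀ * volume.real E := by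
    intro p
    have := norm_setIntegral_le_of_norm_le_const (μ := volume) (s := E) (f := fun y => f (p.1 • y + p.2))
      (C := C₀) hb.measure_lt_top (fun y _ => hC _)
    exact this
  set R' := max R 0 with hR'def
  have hI2 : ∀ p q, |I p - I q| ≤ (L * (R' + 1) * dist p q) * volume.real E := by
    intro p q
    simp only [hI]
    rw [← integral_sub (hIint p) (hIint q), ← Real.norm_eq_abs]
    apply norm_setIntegral_le_of_norm_le_const hb.measure_lt_top
    intro y hy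
    have h1 := hf.dist_le_mul (p.1 • y + p.2) (q.1 • y + q.2)
    rw [Real.dist_eq] at h1
    rw [Real.norm_eq_abs]
    refine h1.trans ?_
    rw [mul_assoc]
    apply mul_le_mul_of_nonneg_left _ L.2
    rw [dist_eq_norm]
    have e : p.1 • y + p.2 - (q.1 • y + q.2) = (p.1 - q.1) • y + (p.2 - q.2) := by
      rw [sub_smul]; abel
    rw [e]
    refine (norm_add_le _ _).trans ?_
    rw [norm_smul]
    have h2 : ‖p.1 - q.1‖ ≤ dist p q := by
      rw [dist_eq_norm]; exact norm_fst_le (p - q)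
    have h3 : ‖p.2 - q.2‖ ≤ dist p q := by
      rw [dist_eq_norm]; exact norm_snd_le (p - q)
    have h4 : ‖y‖ ≤ R' := (hR' y hy).trans (le_max_left _ _)
    have h5 : 0 ≤ R' := le_max_right _ _
    have h6 : ‖p.1 - q.1‖ * ‖y‖ ≤ dist p q * R' := mul_le_mul h2 h4 (norm_nonneg _) dist_nonneg
    linarith
  have hvE : 0 ≤ volume.real E := measureReal_nonneg
  have hR'0 : 0 ≤ R' := le_max_right _ _
  set C : ℝ := d * k ^ d * (C₀ * volume.real E) + k ^ d * (L * (R' + 1) * volume.real E) with hCdef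
  have hC0 : 0 ≤ C := by positivity
  refine ⟨C.toNNReal, ?_⟩
  apply LipschitzOnWith.of_dist_le_mul
  intro p hp q hq
  rw [Real.coe_toNNReal _ hC0, Real.dist_eq, setIntegral_cp hE f (pos_of_mem hp),
    setIntegral_cp hE f (pos_of_mem hq)]
  change |p.1 ^ d * I p - q.1 ^ d * I q| ≤ C * dist p q
  have e : p.1 ^ d * I p - q.1 ^ d * I q = (p.1 ^ d - q.1 ^ d) * I p + q.1 ^ d * (I p - I q) := by ring
  rw [e]
  refine (abs_add_le _ _).trans ?_
  rw [abs_mul, abs_mul]
  have hp1 : |p.1| ≤ k := by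
    rw [abs_of_pos (pos_of_mem hp)]; exact hp.1.2
  have hq1 : |q.1| ≤ k := by
    rw [abs_of_pos (pos_of_mem hq)]; exact hq.1.2
  have h1 := abs_pow_sub_le hk hp1 hq1 d
  have h2 : |p.1 - q.1| ≤ dist p q := by
    rw [dist_eq_norm]; exact norm_fst_le (p - q)
  have h3 : |p.1 ^ d - q.1 ^ d| ≤ d * k ^ d * dist p q :=
    h1.trans (mul_le_mul_of_nonneg_left h2 (by positivity))
  have h4 : |q.1 ^ d| ≤ k ^ d := by
    rw [abs_pow]; exact pow_le_pow_left₀ (abs_nonneg _) hq1 d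
  have h5 : |p.1 ^ d - q.1 ^ d| * |I p| ≤ (d * k ^ d * dist p q) * (C₀ * volume.real E) :=
    mul_le_mul h3 (hI1 p) (abs_nonneg _) (by positivity)
  have h6 : |q.1 ^ d| * |I p - I q| ≤ k ^ d * ((L * (R' + 1) * dist p q) * volume.real E) :=
    mul_le_mul h4 (hI2 p q) (abs_nonneg _) (by positivity)
  calc _ ≤ (d * k ^ d * dist p q) * (C₀ * volume.real E) + k ^ d * ((L * (R' + 1) * dist p q) * volume.real E) :=
        add_le_add h5 h6
    _ = C * dist p q := by rw [hCdef]; ring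

/-- continuity in `L¹` of the family of copies -/
lemma L1_tendsto {E : Set (Fin d → ℝ)} (hE : MeasurableSet E) (hb : Bornology.IsBounded E)
    {q : ℝ × (Fin d → ℝ)} (hq : 0 < q.1) {κ : ℝ} (hκ : 0 < κ) :
    ∀ᶠ p in 𝓝 q, 0 < p.1 ∧ ∫ z, |ind (cp E p) z - ind (cp E q) z| < κ := by
  have hEi : Integrable (ind E) volume := (integrable_indicator_iff hE).2 (integrableOn_const hb.measure_lt_top.ne)
  set c : ℝ := (2 * q.1) ^ d with hc
  have hc0 : 0 < c := by positivity
  obtain ⟨g, hgs, hg1, hgc, hgi⟩ := hEi.exists_hasCompactSupport_integral_sub_le (ε := κ / (4 * c)) (by positivity)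
  have hgi' : Integrable (fun z => |ind E z - g z|) volume := (hEi.sub hgi).abs
  -- the smooth part
  have h2 : Tendsto (fun p : ℝ × (Fin d → ℝ) => ∫ z, |g (p.1⁻¹ • (z - p.2)) - g (q.1⁻¹ • (z - q.2))|) (𝓝 q)
      (𝓝 (∫ z : Fin d → ℝ, (0 : ℝ))) := by
    obtain ⟨M, hM⟩ := hgs.exists_bound_of_continuous hgc
    obtain ⟨R, hR⟩ := hgs.isCompact.isBounded.subset_closedBall 0
    have hgR : ∀ y, R < ‖y‖ → g y = 0 := by
      intro y hy
      by_contra h
      have := hR (subset_tsupport g h)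
      rw [mem_closedBall_zero_iff] at this
      linarith
    set B : ℝ := 2 * q.1 * max R 0 + ‖q.2‖ + 1 with hB
    have hbig : ∀ p : ℝ × (Fin d → ℝ), 0 < p.1 → p.1 ≤ 2 * q.1 → ‖p.2‖ ≤ ‖q.2‖ + 1 → ∀ z, B < ‖z‖ →
        g (p.1⁻¹ • (z - p.2)) = 0 := by
      intro p hp1 hp2 hp3 z hz
      apply hgR
      rw [norm_smul, norm_inv, Real.norm_eq_abs, abs_of_pos hp1, ← div_eq_inv_mul, lt_div_iff₀ hp1]
      have h3 : ‖z‖ - ‖p.2‖ ≤ ‖z - p.2‖ := norm_sub_norm_le z p.2
      have h4 : R * p.1 ≤ 2 * q.1 * max R 0 := by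
        have h5 : R * p.1 ≤ max R 0 * p.1 := mul_le_mul_of_nonneg_right (le_max_left _ _) hp1.le
        have h6 : max R 0 * p.1 ≤ max R 0 * (2 * q.1) := mul_le_mul_of_nonneg_left hp2 (le_max_right _ _)
        linarith
      linarith
    have hM0 : 0 ≤ M := (norm_nonneg _).trans (hM 0)
    have ev1 : ∀ᶠ p : ℝ × (Fin d → ℝ) in 𝓝 q, 0 < p.1 ∧ p.1 ≤ 2 * q.1 ∧ ‖p.2‖ ≤ ‖q.2‖ + 1 := by
      have e1 : ∀ᶠ p : ℝ × (Fin d → ℝ) in 𝓝 q, 0 < p.1 :=
        (continuous_fst.tendsto q).eventually (lt_mem_nhds hq)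
      have e2 : ∀ᶠ p : ℝ × (Fin d → ℝ) in 𝓝 q, p.1 < 2 * q.1 :=
        (continuous_fst.tendsto q).eventually (gt_mem_nhds (by linarith))
      have e3 : ∀ᶠ p : ℝ × (Fin d → ℝ) in 𝓝 q, ‖p.2‖ < ‖q.2‖ + 1 :=
        ((continuous_norm.comp continuous_snd).tendsto q).eventually (gt_mem_nhds (by simp))
      filter_upwards [e1, e2, e3] with p h1 h2 h3
      exact ⟨h1, h2.le, h3.le⟩
    apply tendsto_integral_filter_of_dominated_convergence
      ((Metric.closedBall (0 : Fin d → ℝ) B).indicator (fun _ => 2 * M))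
    · filter_upwards with p
      apply Continuous.aestronglyMeasurable
      fun_prop
    · filter_upwards [ev1] with p hp
      filter_upwards with z
      rw [Real.norm_eq_abs, abs_abs]
      by_cases hz : z ∈ Metric.closedBall (0 : Fin d → ℝ) B
      · rw [indicator_of_mem hz]
        refine (abs_sub _ _).trans ?_
        have := hM (p.1⁻¹ • (z - p.2))
        have := hM (q.1⁻¹ • (z - q.2))
        rw [Real.norm_eq_abs] at *
        linarith
      · rw [indicator_of_notMem hz]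
        have hz' : B < ‖z‖ := by
          rw [mem_closedBall_zero_iff] at hz; linarith [not_le.1 hz]
        rw [hbig p hp.1 hp.2.1 hp.2.2 z hz', hbig q hq (by linarith) (by linarith) z hz']
        simp
    · rw [integrable_indicator_iff measurableSet_closedBall]
      exact integrableOn_const (isCompact_closedBall _ _).measure_lt_top.ne
    · filter_upwards with z
      have hcont : ContinuousAt (fun p : ℝ × (Fin d → ℝ) => |g (p.1⁻¹ • (z - p.2)) - g (q.1⁻¹ • (z - q.2))|) q := by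
        have h5 : ContinuousAt (fun p : ℝ × (Fin d → ℝ) => p.1⁻¹ • (z - p.2)) q := by
          have ha : ContinuousAt (fun p : ℝ × (Fin d → ℝ) => p.1⁻¹) q := continuousAt_fst.inv₀ hq.ne'
          have hb : ContinuousAt (fun p : ℝ × (Fin d → ℝ) => z - p.2) q := by fun_prop
          exact ha.smul hb
        exact ((hgc.continuousAt.comp h5).sub continuousAt_const).abs
      have := hcont.tendsto
      simpa using this
  rw [integral_zero] at h2
  have e1 : ∀ᶠ p : ℝ × (Fin d → ℝ) in 𝓝 q, 0 < p.1 :=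
    (continuous_fst.tendsto q).eventually (lt_mem_nhds hq)
  have e2 : ∀ᶠ p : ℝ × (Fin d → ℝ) in 𝓝 q, p.1 < 2 * q.1 :=
    (continuous_fst.tendsto q).eventually (gt_mem_nhds (by linarith))
  filter_upwards [e1, e2, h2.eventually (gt_mem_nhds (show (0 : ℝ) < κ / 4 by positivity))] with p hp1 hp2 hp3
  refine ⟨hp1, ?_⟩
  have hint : ∀ r : ℝ × (Fin d → ℝ), 0 < r.1 → ∀ f : (Fin d → ℝ) → ℝ, Integrable f volume →
      Integrable (fun z => f (r.1⁻¹ • (z - r.2))) volume := by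
    intro r hr f hf
    have h5 : Integrable (fun z => f (r.1⁻¹ • z)) volume := hf.comp_smul (inv_ne_zero hr.ne')
    exact h5.comp_sub_right r.2
  have i1 := hint p hp1 _ hEi
  have i2 := hint q hq _ hEi
  have i3 := hint p hp1 _ hgi
  have i4 := hint q hq _ hgi
  have j1 : Integrable (fun z => |ind E (p.1⁻¹ • (z - p.2)) - g (p.1⁻¹ • (z - p.2))|) volume := (i1.sub i3).abs
  have j2 : Integrable (fun z => |g (p.1⁻¹ • (z - p.2)) - g (q.1⁻¹ • (z - q.2))|) volume := (i3.sub i4).abs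
  have j3 : Integrable (fun z => |ind E (q.1⁻¹ • (z - q.2)) - g (q.1⁻¹ • (z - q.2))|) volume := (i2.sub i4).abs
  have j12 : Integrable (fun z => |ind E (p.1⁻¹ • (z - p.2)) - g (p.1⁻¹ • (z - p.2))|
    + |g (p.1⁻¹ • (z - p.2)) - g (q.1⁻¹ • (z - q.2))|) volume := j1.add j2
  have hle : ∫ z, |ind (cp E p) z - ind (cp E q) z| ≤
      ∫ z, (|ind E (p.1⁻¹ • (z - p.2)) - g (p.1⁻¹ • (z - p.2))|
        + |g (p.1⁻¹ • (z - p.2)) - g (q.1⁻¹ • (z - q.2))|
        + |ind E (q.1⁻¹ • (z - q.2)) - g (q.1⁻¹ • (z - q.2))|) := by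
    apply integral_mono
    · simp only [ind_cp E hp1, ind_cp E hq]
      exact (i1.sub i2).abs
    · exact j12.add j3
    · intro z
      simp only [ind_cp E hp1, ind_cp E hq]
      have h5 : ind E (p.1⁻¹ • (z - p.2)) - ind E (q.1⁻¹ • (z - q.2))
        = (ind E (p.1⁻¹ • (z - p.2)) - g (p.1⁻¹ • (z - p.2)))
          + (g (p.1⁻¹ • (z - p.2)) - g (q.1⁻¹ • (z - q.2)))
          - (ind E (q.1⁻¹ • (z - q.2)) - g (q.1⁻¹ • (z - q.2))) := by ring
      rw [h5]
      refine (abs_sub _ _).trans ?_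
      have := abs_add_le (ind E (p.1⁻¹ • (z - p.2)) - g (p.1⁻¹ • (z - p.2)))
        (g (p.1⁻¹ • (z - p.2)) - g (q.1⁻¹ • (z - q.2)))
      linarith
  refine hle.trans_lt ?_
  rw [integral_add j12 j3, integral_add j1 j2,
    integral_affine (fun y => |ind E y - g y|) hp1, integral_affine (fun y => |ind E y - g y|) hq]
  have hg2 : ∫ y, |ind E y - g y| ≤ κ / (4 * c) := hg1
  have hg3 : 0 ≤ ∫ y, |ind E y - g y| := integral_nonneg (fun _ => abs_nonneg _)
  have b1 : p.1 ^ d * ∫ y, |ind E y - g y| ≤ κ / 4 := by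
    calc p.1 ^ d * ∫ y, |ind E y - g y| ≤ c * (κ / (4 * c)) := by
          apply mul_le_mul _ hg2 hg3 hc0.le
          exact pow_le_pow_left₀ hp1.le hp2.le d
      _ = κ / 4 := by field_simp
  have b2 : q.1 ^ d * ∫ y, |ind E y - g y| ≤ κ / 4 := by
    calc q.1 ^ d * ∫ y, |ind E y - g y| ≤ c * (κ / (4 * c)) := by
          apply mul_le_mul _ hg2 hg3 hc0.le
          exact pow_le_pow_left₀ hq.le (by linarith) d
      _ = κ / 4 := by field_simp
  linarith

end

end Pool.Agent.Helper47.Recon
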