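import Mathlib

namespace Pool.Agent.Helper47.Recon

open Set Filter Topology Module
open scoped NNReal

noncomputable section

section generic

variable {P : Type*} [NormedAddCommGroup P] [NormedSpace ℝ P] [FiniteDimensional ℝ P] {m N : ℕ}

/-- source of the bad set number `j` -/
abbrev Dj (P : Type*) (m N : ℕ) (j : Fin m) : Type _ := P × P × ({l : Fin m // l ≠ j} → Fin N → ℝ)

abbrev Qj (m N : ℕ) (j : Fin m) : Type :=
  (Fin N → ℝ) × (Fin N → ℝ) × (Fin m → ℝ) × (Fin m → ℝ) × ({l : Fin m // l ≠ j} → Fin N → ℝ)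

def th (H : P → Fin N → ℝ) (W : P → Fin m → ℝ) (j : Fin m) (x : Dj P m N j) : Qj m N j :=
  (H x.1, H x.2.1, W x.1, W x.2.1, x.2.2)

def ps (j : Fin m) (x : Qj m N j) : Fin m → Fin N → ℝ := fun l i =>
  if h : l = j then
    -(x.1 i - x.2.1 i + ∑ l' : {l : Fin m // l ≠ j}, x.2.2.2.2 l' i * (x.2.2.1 l' - x.2.2.2.1 l'))
      / (x.2.2.1 j - x.2.2.2.1 j)
  else x.2.2.2.2 ⟨l, h⟩ i

lemma ps_contDiffOn (j : Fin m) :
    ContDiffOn ℝ 1 (ps (N := N) j) {x | x.2.2.2.1 j < x.2.2.1 j} := by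
  unfold ps
  rw [contDiffOn_pi]
  intro l
  rw [contDiffOn_pi]
  intro i
  by_cases h : l = j
  · simp only [h, dite_true]
    apply ContDiffOn.div
    · fun_prop
    · fun_prop
    · intro x hx
      exact (sub_pos.2 hx).ne'
  · simp only [h, dite_false]
    fun_prop

lemma convex_dom (j : Fin m) : Convex ℝ {x : Qj m N j | x.2.2.2.1 j < x.2.2.1 j} := by
  intro x hx y hy a b ha hb hab
  simp only [mem_ofPred_eq] at hx hy ⊢
  simp only [Prod.snd_add, Prod.fst_add, Prod.smul_snd, Prod.smul_fst, Pi.add_apply, Pi.smul_apply,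
    smul_eq_mul]
  rcases eq_or_lt_of_le ha with h | h
  · subst h
    have : b = 1 := by linarith
    subst this
    linarith
  · nlinarith

lemma mem_bad (j : Fin m) (H : P → Fin N → ℝ) (W : P → Fin m → ℝ) (t : Fin m → Fin N → ℝ) (p p' : P)
    (hW : W p' j < W p j) (h : ∀ i, H p i + ∑ l, t l i * W p l = H p' i + ∑ l, t l i * W p' l) :
    t = ps j (th H W j (p, p', fun l i => t l i)) := by
  ext l i
  unfold ps th
  by_cases hl : l = j
  · subst hl
    simp only [dite_true]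
    rw [eq_div_iff (sub_pos.2 hW).ne']
    have h1 := h i
    have h2 : ∑ l', t l' i * W p l' - ∑ l', t l' i * W p' l' = ∑ l', t l' i * (W p l' - W p' l') := by
      rw [← Finset.sum_sub_distrib]
      apply Finset.sum_congr rfl
      intro x _; ring
    have h3 : ∑ l', t l' i * (W p l' - W p' l') = t l i * (W p l - W p' l)
        + ∑ l' : {k : Fin m // k ≠ l}, t l' i * (W p l' - W p' l') := by
      rw [← Finset.add_sum_erase _ _ (Finset.mem_univ l)]
      congr 1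
      rw [← Finset.sum_subtype (Finset.univ.erase l) (by intro x; simp) (fun l' => t l' i * (W p l' - W p' l'))]
    linarith
  · simp only [hl, dite_false]

lemma th_lipschitz {K : Set P} {H : P → Fin N → ℝ} {W : P → Fin m → ℝ} {C₁ C₂ : ℝ≥0}
    (hH : LipschitzOnWith C₁ H K) (hW : LipschitzOnWith C₂ W K) (j : Fin m) :
    LipschitzOnWith (C₁ + C₂ + 1) (th H W j) (K ×ˢ K ×ˢ univ) := by
  apply LipschitzOnWith.of_dist_le_mul
  rintro ⟨p, p', s⟩ ⟨hp, hp', -⟩ ⟨q, q', s'⟩ ⟨hq, hq', -⟩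
  have h1 := hH.dist_le_mul p hp q hq
  have h2 := hH.dist_le_mul p' hp' q' hq'
  have h3 := hW.dist_le_mul p hp q hq
  have h4 := hW.dist_le_mul p' hp' q' hq'
  simp only at hp hp' hq hq'
  have d1 : dist p q ≤ dist (p, p', s) (q, q', s') := by
    rw [Prod.dist_eq]; exact le_max_left _ _
  have d23 : dist (p', s) (q', s') ≤ dist (p, p', s) (q, q', s') := by
    rw [Prod.dist_eq (x := (p, p', s))]; exact le_max_right _ _
  have d2 : dist p' q' ≤ dist (p, p', s) (q, q', s') := by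
    refine le_trans ?_ d23
    rw [Prod.dist_eq]; exact le_max_left _ _
  have d3 : dist s s' ≤ dist (p, p', s) (q, q', s') := by
    refine le_trans ?_ d23
    rw [Prod.dist_eq]; exact le_max_right _ _
  set D := dist (p, p', s) (q, q', s') with hD
  have hD0 : 0 ≤ D := dist_nonneg
  have c1 : (0 : ℝ) ≤ C₁ := C₁.2
  have c2 : (0 : ℝ) ≤ C₂ := C₂.2
  have e : (((C₁ + C₂ + 1 : ℝ≥0)) : ℝ) = C₁ + C₂ + 1 := by push_cast; rfl
  rw [e]
  simp only [th, Prod.dist_eq]
  refine max_le ?_ (max_le ?_ (max_le ?_ (max_le ?_ ?_))) <;> nlinarith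

/-- generic linear perturbations are injective -/
lemma exists_perturb (hm : 0 < m) (hN : 2 * finrank ℝ P < N) {K : Set P} {H : P → Fin N → ℝ} {W : P → Fin m → ℝ}
    {C₁ C₂ : ℝ≥0} (hH : LipschitzOnWith C₁ H K) (hW : LipschitzOnWith C₂ W K) (hinj : InjOn W K)
    (U : Set (Fin m → Fin N → ℝ)) (hU : IsOpen U) (hne : U.Nonempty) :
    ∃ t ∈ U, InjOn (fun p i => H p i + ∑ l, t l i * W p l) K := by
  set bad : Fin m → Set (Fin m → Fin N → ℝ) := fun j =>
    ps j '' ((th H W j '' (K ×ˢ K ×ˢ univ)) ∩ {x | x.2.2.2.1 j < x.2.2.1 j}) with hbad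
  have hdim : ∀ j, dimH (bad j) ≤ ((2 * finrank ℝ P + (m - 1) * N : ℕ) : ENNReal) := by
    intro j
    calc dimH (bad j) ≤ dimH ((th H W j '' (K ×ˢ K ×ˢ univ)) ∩ {x | x.2.2.2.1 j < x.2.2.1 j}) :=
          (ps_contDiffOn j).dimH_image_le (convex_dom j) inter_subset_right
      _ ≤ dimH (th H W j '' (K ×ˢ K ×ˢ univ)) := dimH_mono inter_subset_left
      _ ≤ dimH (K ×ˢ K ×ˢ (univ : Set ({l : Fin m // l ≠ j} → Fin N → ℝ))) :=
          (th_lipschitz hH hW j).dimH_image_le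
      _ ≤ dimH (univ : Set (Dj P m N j)) := dimH_mono (subset_univ _)
      _ = ((finrank ℝ (Dj P m N j) : ℕ) : ENNReal) := Real.dimH_univ_eq_finrank _
      _ = ((2 * finrank ℝ P + (m - 1) * N : ℕ) : ENNReal) := by
          congr 1
          rw [Module.finrank_prod, Module.finrank_prod, Module.finrank_pi_fintype]
          simp [Module.finrank_pi]
          ring
  have hdim2 : dimH (⋃ j, bad j) < ((finrank ℝ (Fin m → Fin N → ℝ) : ℕ) : ENNReal) := by
    rw [dimH_iUnion]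
    refine lt_of_le_of_lt (iSup_le hdim) ?_
    rw [Nat.cast_lt, Module.finrank_pi_fintype]
    simp [Module.finrank_pi]
    obtain ⟨m', rfl⟩ : ∃ m', m = m' + 1 := ⟨m - 1, by omega⟩
    rw [Nat.add_sub_cancel]
    nlinarith
  have hd := dense_compl_of_dimH_lt_finrank hdim2
  obtain ⟨t, ht1, ht2⟩ := hd.inter_open_nonempty U hU hne
  refine ⟨t, ht1, ?_⟩
  intro p hp p' hp' hpp
  by_contra hne'
  have hWne : W p ≠ W p' := fun h => hne' (hinj hp hp' h)
  obtain ⟨j, hj⟩ := Function.ne_iff.1 hWne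
  apply ht2
  rw [mem_iUnion]
  refine ⟨j, ?_⟩
  rcases lt_or_gt_of_ne hj with h | h
  · refine ⟨th H W j (p', p, fun l i => t l i), ⟨⟨_, ⟨hp', hp, mem_univ _⟩, rfl⟩, h⟩, ?_⟩
    exact (mem_bad j H W t p' p h (fun i => (congrFun hpp i).symm)).symm
  · refine ⟨th H W j (p, p', fun l i => t l i), ⟨⟨_, ⟨hp, hp', mem_univ _⟩, rfl⟩, h⟩, ?_⟩
    exact (mem_bad j H W t p p' h (fun i => congrFun hpp i)).symm

end generic

end

end Pool.Agent.Helper47.Recon
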