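import Mathlib
import Pool.Agent.Helper47.ReconB
import Pool.Agent.Helper47.ReconC

namespace Pool.Agent.Helper47.Recon

open MeasureTheory Set Filter Topology
open scoped symmDiff NNReal

noncomputable section

variable {d : ℕ}

lemma base_approx {U S : Set (Fin d → ℝ)} (hU : MeasurableSet U) (hb : Bornology.IsBounded U)
    (hS : MeasurableSet S) {ε : ℝ} (hε : 0 < ε) :
    ∃ g : (Fin d → ℝ) → ℝ, (∃ L, LipschitzWith L g) ∧ (∀ z, 0 ≤ g z) ∧ (∀ z, g z ≤ 1) ∧
      ∫ z in U, |g z - ind S z| ≤ ε := by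
  have hf : MemLp (ind (S ∩ U)) 1 volume := by
    rw [memLp_one_iff_integrable, integrable_indicator_iff (hS.inter hU)]
    exact integrableOn_const (hb.subset inter_subset_right).measure_lt_top.ne
  obtain ⟨g, hgs, hgc, hg⟩ := hf.exist_eLpNorm_sub_le ENNReal.one_ne_top le_rfl hε
  obtain ⟨L, hL⟩ := hgc.lipschitzWith_of_hasCompactSupport hgs (by simp)
  have hgi : Integrable g volume := hgc.continuous.integrable_of_hasCompactSupport hgs
  have hfi : Integrable (ind (S ∩ U)) volume := memLp_one_iff_integrable.1 hf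
  have h1 : ∫ z, |ind (S ∩ U) z - g z| ≤ ε := by
    rw [eLpNorm_one_eq_lintegral_enorm] at hg
    have h2 := integral_norm_eq_lintegral_enorm (hfi.sub hgi).aestronglyMeasurable
    have h3 : ∫ z, |ind (S ∩ U) z - g z| = (∫⁻ z, ‖(ind (S ∩ U) - g) z‖ₑ).toReal := h2
    rw [h3]
    exact ENNReal.toReal_le_of_le_ofReal hε.le hg
  refine ⟨fun z => max 0 (min 1 (g z)), ⟨L, (hL.const_min 1).const_max 0⟩, fun z => le_max_left _ _,
    fun z => max_le zero_le_one (min_le_left _ _), ?_⟩
  refine le_trans ?_ h1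
  rw [← integral_indicator hU]
  apply integral_mono_of_nonneg
  · filter_upwards with z
    exact indicator_nonneg (fun z _ => abs_nonneg _) z
  · exact (hfi.sub hgi).abs
  · filter_upwards with z
    by_cases hz : z ∈ U
    · rw [indicator_of_mem hz]
      have e : ind (S ∩ U) z = ind S z := by
        unfold ind
        by_cases hzS : z ∈ S
        · rw [indicator_of_mem (show z ∈ S ∩ U from ⟨hzS, hz⟩), indicator_of_mem hzS]
        · rw [indicator_of_notMem (fun h => hzS h.1), indicator_of_notMem hzS]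
      rw [e]
      have h2 := ind_nonneg S z
      have h3 := ind_le_one S z
      rcases le_total (g z) 0 with h4 | h4
      · rw [max_eq_left ((min_le_right _ _).trans h4), zero_sub, abs_neg, abs_of_nonneg h2, abs_of_nonneg (by linarith)]
        linarith
      · rcases le_total (g z) 1 with h5 | h5
        · rw [min_eq_right h5, max_eq_right h4, abs_sub_comm]
        · rw [min_eq_left h5, max_eq_right zero_le_one, abs_of_nonneg (by linarith), abs_sub_comm, abs_of_nonneg (by linarith)]
          linarith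
    · rw [indicator_of_notMem hz]
      exact abs_nonneg _

lemma isBounded_cp {E : Set (Fin d → ℝ)} (hb : Bornology.IsBounded E) (k : ℝ) :
    ∃ R : ℝ, 0 < R ∧ ∀ p ∈ Kp d k, cp E p ⊆ Metric.closedBall 0 R := by
  obtain ⟨R, hR⟩ := hb.subset_closedBall 0
  refine ⟨|k| * (|R| + 1) + 1, by positivity, ?_⟩
  rintro p ⟨⟨hp1, hp1'⟩, hp2⟩ _ ⟨y, hy, rfl⟩
  have hy' := hR hy
  rw [mem_closedBall_zero_iff] at hy' hp2 ⊢
  simp only
  refine (norm_add_le _ _).trans ?_
  rw [norm_smul, Real.norm_eq_abs, abs_of_nonneg (by linarith)]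
  have h1 : p.1 * ‖y‖ ≤ |k| * |R| :=
    mul_le_mul (hp1'.trans (le_abs_self k)) (hy'.trans (le_abs_self R)) (norm_nonneg _) (abs_nonneg _)
  have h2 : ‖p.2‖ ≤ |k| := hp2.trans (le_abs_self k)
  linarith

lemma measurableSet_cp' {E : Set (Fin d → ℝ)} (hE : MeasurableSet E) {k : ℝ} {p : ℝ × (Fin d → ℝ)}
    (hp : p ∈ Kp d k) : MeasurableSet (cp E p) := measurableSet_cp hE (pos_of_mem hp)

lemma diff_le {E : Set (Fin d → ℝ)} (hE : MeasurableSet E) {k : ℝ} (hb : Bornology.IsBounded E)
    {p q : ℝ × (Fin d → ℝ)} (hp : p ∈ Kp d k) (hq : q ∈ Kp d k) {f : (Fin d → ℝ) → ℝ}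
    (hf : Measurable f) (hf1 : ∀ z, |f z| ≤ 1) :
    |(∫ z in cp E p, f z) - ∫ z in cp E q, f z| ≤ ∫ z, |ind (cp E p) z - ind (cp E q) z| := by
  obtain ⟨R, -, hR⟩ := isBounded_cp hb k
  have bp : Bornology.IsBounded (cp E p) := Metric.isBounded_closedBall.subset (hR p hp)
  have bq : Bornology.IsBounded (cp E q) := Metric.isBounded_closedBall.subset (hR q hq)
  have mp := measurableSet_cp' hE hp
  have mq := measurableSet_cp' hE hq
  have ip : Integrable ((cp E p).indicator f) volume :=
    (integrable_indicator_iff mp).2 (integrableOn_of_bdd bp hf hf1)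
  have iq : Integrable ((cp E q).indicator f) volume :=
    (integrable_indicator_iff mq).2 (integrableOn_of_bdd bq hf hf1)
  have jp : Integrable (ind (cp E p)) volume :=
    (integrable_indicator_iff mp).2 (integrableOn_const bp.measure_lt_top.ne)
  have jq : Integrable (ind (cp E q)) volume :=
    (integrable_indicator_iff mq).2 (integrableOn_const bq.measure_lt_top.ne)
  rw [← integral_indicator mp, ← integral_indicator mq, ← integral_sub ip iq]
  refine (abs_integral_le_integral_abs).trans ?_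
  apply integral_mono (ip.sub iq).abs (jp.sub jq).abs
  intro z
  have e : ∀ A : Set (Fin d → ℝ), A.indicator f z = ind A z * f z := by
    intro A
    by_cases hz : z ∈ A
    · rw [indicator_of_mem hz, ind, indicator_of_mem hz, one_mul]
    · rw [indicator_of_notMem hz, ind, indicator_of_notMem hz, zero_mul]
  change |(cp E p).indicator f z - (cp E q).indicator f z| ≤ |ind (cp E p) z - ind (cp E q) z|
  rw [e, e, ← sub_mul, abs_mul]
  exact mul_le_of_le_one_right (abs_nonneg _) (hf1 z)

/-- test functions -/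
def phi (R : ℝ) : Fin (d + 1) → (Fin d → ℝ) → ℝ :=
  Fin.cons (fun _ => 1) (fun j z => max 0 (min 1 ((z j + R) / (2 * R))))

lemma phi_nonneg (R : ℝ) (l : Fin (d + 1)) (z : Fin d → ℝ) : 0 ≤ phi R l z := by
  refine Fin.cases ?_ (fun j => ?_) l
  · simp [phi]
  · simp [phi]

lemma phi_le_one (R : ℝ) (l : Fin (d + 1)) (z : Fin d → ℝ) : phi R l z ≤ 1 := by
  refine Fin.cases ?_ (fun j => ?_) l
  · simp [phi]
  · simp [phi]

lemma phi_lipschitz {R : ℝ} (hR : 0 < R) (l : Fin (d + 1)) : ∃ L, LipschitzWith L (phi R l) := by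
  refine Fin.cases ?_ (fun j => ?_) l
  · exact ⟨0, by simp [phi, LipschitzWith.const (1 : ℝ)]⟩
  · have h1 : LipschitzWith (1 / (2 * R)).toNNReal (fun z : Fin d → ℝ => (z j + R) / (2 * R)) := by
      apply LipschitzWith.of_dist_le_mul
      intro z w
      rw [Real.coe_toNNReal _ (by positivity), Real.dist_eq]
      have e : (z j + R) / (2 * R) - (w j + R) / (2 * R) = (1 / (2 * R)) * (z j - w j) := by field_simp; ring
      rw [e, abs_mul, abs_of_pos (by positivity : (0 : ℝ) < 1 / (2 * R))]
      apply mul_le_mul_of_nonneg_left _ (by positivity)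
      rw [dist_eq_norm]
      exact norm_le_pi_norm (z - w) j
    exact ⟨_, (h1.const_min 1).const_max 0⟩

lemma phi_measurable {R : ℝ} (hR : 0 < R) (l : Fin (d + 1)) : Measurable (phi R l) := by
  obtain ⟨L, hL⟩ := phi_lipschitz hR l
  exact hL.continuous.measurable

/-- moments -/
def mom (E : Set (Fin d → ℝ)) (R : ℝ) (p : ℝ × (Fin d → ℝ)) (l : Fin (d + 1)) : ℝ :=
  ∫ z in cp E p, phi R l z

lemma mom_inj (hd : 0 < d) {E : Set (Fin d → ℝ)} (hE : MeasurableSet E) (hb : Bornology.IsBounded E)
    (hpos : 0 < volume E) {k R : ℝ} (hR0 : 0 < R) (hR : ∀ p ∈ Kp d k, cp E p ⊆ Metric.closedBall 0 R) :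
    InjOn (mom E R) (Kp d k) := by
  have hv : 0 < volume.real E := ENNReal.toReal_pos hpos.ne' hb.measure_lt_top.ne
  intro p hp q hq hpq
  have hp0 := pos_of_mem hp
  have hq0 := pos_of_mem hq
  have h0 := congrFun hpq 0
  have e0 : ∀ p ∈ Kp d k, mom E R p 0 = p.1 ^ d * volume.real E := by
    intro p hp
    unfold mom
    rw [setIntegral_cp hE _ (pos_of_mem hp)]
    simp [phi]
  rw [e0 p hp, e0 q hq] at h0
  have h1 : p.1 ^ d = q.1 ^ d := mul_right_cancel₀ hv.ne' h0
  have h2 : p.1 = q.1 := (pow_left_inj₀ hp0.le hq0.le hd.ne').1 h1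
  have hint : ∀ p : ℝ × (Fin d → ℝ), ∀ j, IntegrableOn (fun y => ((p.1 • y + p.2) j + R) / (2 * R)) E := by
    intro p j
    have hc : Continuous (fun y : Fin d → ℝ => ((p.1 • y + p.2) j + R) / (2 * R)) := by fun_prop
    exact (hc.continuousOn.integrableOn_compact hb.isCompact_closure).mono_set subset_closure
  ext j
  · exact h2
  · have hj := congrFun hpq j.succ
    have ej : ∀ p ∈ Kp d k, mom E R p j.succ = p.1 ^ d * ∫ y in E, ((p.1 • y + p.2) j + R) / (2 * R) := by
      intro p hp
      unfold mom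
      rw [setIntegral_cp hE _ (pos_of_mem hp)]
      congr 1
      apply setIntegral_congr_fun hE
      intro y hy
      have hz : p.1 • y + p.2 ∈ Metric.closedBall (0 : Fin d → ℝ) R := hR p hp ⟨y, hy, rfl⟩
      rw [mem_closedBall_zero_iff] at hz
      have hzj := (norm_le_pi_norm (p.1 • y + p.2) j).trans hz
      rw [Real.norm_eq_abs, abs_le] at hzj
      simp only [phi, Fin.cons_succ]
      rw [min_eq_right, max_eq_right]
      · apply div_nonneg _ (by positivity)
        linarith [hzj.1]
      · rw [div_le_one (by positivity)]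
        linarith [hzj.2]
    rw [ej p hp, ej q hq, h1] at hj
    have h3 := mul_left_cancel₀ (pow_pos hq0 d).ne' hj
    have h4 : (∫ y in E, ((p.1 • y + p.2) j + R) / (2 * R)) - ∫ y in E, ((q.1 • y + q.2) j + R) / (2 * R)
        = (p.2 j - q.2 j) / (2 * R) * volume.real E := by
      rw [← integral_sub (hint p j) (hint q j)]
      have : ∀ y : Fin d → ℝ, ((p.1 • y + p.2) j + R) / (2 * R) - ((q.1 • y + q.2) j + R) / (2 * R)
        = (p.2 j - q.2 j) / (2 * R) := by
        intro y
        simp only [Pi.add_apply, Pi.smul_apply, smul_eq_mul, h2]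
        ring
      simp only [this]
      rw [setIntegral_const, smul_eq_mul, mul_comm]
    rw [h3, sub_self] at h4
    have h5 : (p.2 j - q.2 j) / (2 * R) = 0 := by
      rcases mul_eq_zero.1 h4.symm with h | h
      · exact h
      · exact absurd h hv.ne'
    rw [div_eq_zero_iff] at h5
    rcases h5 with h | h
    · linarith
    · linarith

end

end Pool.Agent.Helper47.Recon
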