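import Mathlib
import Pool.Agent.Helper47.ReconD

namespace Pool.Agent.Helper47.Recon

open MeasureTheory Set Filter Topology
open scoped symmDiff NNReal

noncomputable section

variable {d : ℕ}

/-- the perturbed densities -/
def hh (θ R : ℝ) (g : (Fin d → ℝ) → ℝ) (t : Fin (d + 1) → ℝ) (z : Fin d → ℝ) : ℝ :=
  (1 - θ) * g z + ∑ l, t l * phi R l z

lemma hh_bounds {θ R : ℝ} (hθ1 : θ ≤ 1) {g : (Fin d → ℝ) → ℝ} (hg0 : ∀ z, 0 ≤ g z)
    (hg1 : ∀ z, g z ≤ 1) {t : Fin (d + 1) → ℝ} (ht0 : ∀ l, 0 ≤ t l) (ht1 : ∀ l, t l ≤ θ / (d + 1)) (z) :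
    0 ≤ hh θ R g t z ∧ hh θ R g t z ≤ 1 ∧ |hh θ R g t z - g z| ≤ θ := by
  have h1 : 0 ≤ ∑ l, t l * phi R l z := Finset.sum_nonneg (fun l _ => mul_nonneg (ht0 l) (phi_nonneg R l z))
  have h2 : ∑ l, t l * phi R l z ≤ θ := by
    calc ∑ l, t l * phi R l z ≤ ∑ _l : Fin (d + 1), θ / (d + 1) := by
          apply Finset.sum_le_sum
          intro l _
          calc t l * phi R l z ≤ t l * 1 := mul_le_mul_of_nonneg_left (phi_le_one R l z) (ht0 l)
            _ ≤ _ := by rw [mul_one]; exact ht1 l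
      _ = θ := by
          rw [Finset.sum_const, Finset.card_univ, Fintype.card_fin, nsmul_eq_mul]
          push_cast
          field_simp
  have h3 := hg0 z
  have h4 := hg1 z
  have h5 : 0 ≤ θ := h1.trans h2
  unfold hh
  refine ⟨by nlinarith, by nlinarith, ?_⟩
  rw [abs_le]
  constructor <;> nlinarith

lemma hh_measurable {θ R : ℝ} (hR : 0 < R) {g : (Fin d → ℝ) → ℝ} (hg : Measurable g) (t : Fin (d + 1) → ℝ) :
    Measurable (hh θ R g t) := by
  unfold hh
  apply (hg.const_mul _).add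
  apply Finset.measurable_fun_sum
  intro l _
  exact (phi_measurable hR l).const_mul _

lemma hh_integral {θ R : ℝ} (hR : 0 < R) {g : (Fin d → ℝ) → ℝ} (hg : Measurable g) (hg1 : ∀ z, |g z| ≤ 1)
    (t : Fin (d + 1) → ℝ) {A : Set (Fin d → ℝ)} (hA : Bornology.IsBounded A) :
    ∫ z in A, hh θ R g t z = (1 - θ) * (∫ z in A, g z) + ∑ l, t l * ∫ z in A, phi R l z := by
  unfold hh
  have i1 : IntegrableOn (fun z => (1 - θ) * g z) A := (integrableOn_of_bdd hA hg hg1).const_mul _
  have i2 : ∀ l, IntegrableOn (fun z => t l * phi R l z) A := fun l =>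
    (integrableOn_of_bdd hA (phi_measurable hR l) (C := 1) (fun z => by
      rw [abs_of_nonneg (phi_nonneg R l z)]; exact phi_le_one R l z)).const_mul _
  rw [integral_add i1 (integrable_finsetSum _ (fun l _ => i2 l)), integral_const_mul,
    integral_finsetSum _ (fun l _ => i2 l)]
  congr 1
  apply Finset.sum_congr rfl
  intro l _
  rw [integral_const_mul]

lemma intOn_diff {U : Set (Fin d → ℝ)} (hUb : Bornology.IsBounded U) {h : (Fin d → ℝ) → ℝ}
    (hm : Measurable h) (h0 : ∀ z, 0 ≤ h z) (h1 : ∀ z, h z ≤ 1) {S : Set (Fin d → ℝ)} (hS : MeasurableSet S) :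
    IntegrableOn (fun z => |h z - ind S z|) U := by
  apply integrableOn_of_bdd hUb (f := fun z => |h z - ind S z|) (hm.sub (measurable_ind hS)).abs (C := 1)
  intro z
  have := h0 z
  have := h1 z
  have := ind_nonneg S z
  have := ind_le_one S z
  rw [abs_abs, abs_le]
  constructor <;> linarith

lemma gap_of_inj {P Q : Type*} [MetricSpace P] [MetricSpace Q] {K : Set P} (hK : IsCompact K)
    {F : P → Q} (hFc : ContinuousOn F K) (hinj : InjOn F K) {δ : ℝ} (hδ : 0 < δ) :
    ∃ τ₀ > 0, ∀ p ∈ K, ∀ p' ∈ K, δ ≤ dist p p' → τ₀ ≤ dist (F p) (F p') := by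
  have hCc : IsCompact ({x : P × P | δ ≤ dist x.1 x.2} ∩ (K ×ˢ K)) := by
    apply (hK.prod hK).inter_left
    exact isClosed_le continuous_const (by fun_prop)
  have c1 : ContinuousOn (fun x : P × P => F x.1) ({x : P × P | δ ≤ dist x.1 x.2} ∩ (K ×ˢ K)) :=
    hFc.comp continuousOn_fst (fun x hx => hx.2.1)
  have c2 : ContinuousOn (fun x : P × P => F x.2) ({x : P × P | δ ≤ dist x.1 x.2} ∩ (K ×ˢ K)) :=
    hFc.comp continuousOn_snd (fun x hx => hx.2.2)
  have hGc := continuous_dist.comp_continuousOn (c1.prodMk c2)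
  rcases ({x : P × P | δ ≤ dist x.1 x.2} ∩ (K ×ˢ K)).eq_empty_or_nonempty with hCe | hCne
  · refine ⟨1, one_pos, ?_⟩
    intro p hp p' hp' hpp
    have : (p, p') ∈ ({x : P × P | δ ≤ dist x.1 x.2} ∩ (K ×ˢ K)) := ⟨hpp, hp, hp'⟩
    rw [hCe] at this
    exact absurd this (notMem_empty _)
  · obtain ⟨x, hx, hmin⟩ := hCc.exists_isMinOn hCne hGc
    refine ⟨dist (F x.1) (F x.2), ?_, ?_⟩
    · rw [gt_iff_lt, dist_pos]
      intro heq
      have := hinj hx.2.1 hx.2.2 heq
      have h2 : δ ≤ dist x.1 x.2 := hx.1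
      rw [this, dist_self] at h2
      linarith
    · intro p hp p' hp' hpp
      exact isMinOn_iff.1 hmin (p, p') ⟨hpp, hp, hp'⟩

lemma exists_net {E : Set (Fin d → ℝ)} (hE : MeasurableSet E) (hb : Bornology.IsBounded E) (k : ℝ)
    {κ : ℝ} (hκ : 0 < κ) : ∃ net : Finset (ℝ × (Fin d → ℝ)), (∀ q ∈ net, q ∈ Kp d k) ∧
      ∀ p ∈ Kp d k, ∃ q ∈ net, ∫ z, |ind (cp E p) z - ind (cp E q) z| < κ := by
  let W : ℝ × (Fin d → ℝ) → Set (ℝ × (Fin d → ℝ)) := fun q =>
    {p | ∫ z, |ind (cp E p) z - ind (cp E q) z| < κ}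
  have hW : ∀ q ∈ Kp d k, W q ∈ 𝓝 q := by
    intro q hq
    filter_upwards [L1_tendsto hE hb (pos_of_mem hq) hκ] with p hp
    exact hp.2
  obtain ⟨net, h1, h2⟩ := (isCompact_Kp (d := d) k).elim_nhds_subcover W hW
  refine ⟨net, h1, ?_⟩
  intro p hp
  have h3 := h2 hp
  rw [mem_iUnion₂] at h3
  obtain ⟨q, hq, hpq⟩ := h3
  exact ⟨q, hq, hpq⟩

lemma density_lemma (hd : 0 < d) {E : Set (Fin d → ℝ)} (hE : MeasurableSet E) (hb : Bornology.IsBounded E)
    (hpos : 0 < volume E) (k δ ρ : ℝ) (hδ : 0 < δ) (hρ : 0 < ρ) (S : Fin (2 * d + 3) → Set (Fin d → ℝ))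
    (hS : ∀ i, MeasurableSet (S i)) :
    ∃ T : Fin (2 * d + 3) → Set (Fin d → ℝ), (∀ i, MeasurableSet (T i)) ∧
      (∀ i, volume (symmDiff (T i) (S i)) ≤ ENNReal.ofReal ρ) ∧
      ∃ τ > 0, ∀ p ∈ Kp d k, ∀ p' ∈ Kp d k, δ ≤ dist p p' →
        ∃ i, τ ≤ |volume.real (cp E p ∩ T i) - volume.real (cp E p' ∩ T i)| := by
  obtain ⟨R, hR0, hR⟩ := isBounded_cp hb k
  set U : Set (Fin d → ℝ) := Metric.closedBall 0 R with hUdef
  have hUb : Bornology.IsBounded U := Metric.isBounded_closedBall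
  have hUm : MeasurableSet U := measurableSet_closedBall
  have hbp : ∀ p ∈ Kp d k, Bornology.IsBounded (cp E p) := fun p hp => hUb.subset (hR p hp)
  -- base functions
  choose g hgL hg0 hg1 hgS using fun i => base_approx hUm hUb (hS i) (ε := ρ / 2) (by positivity)
  choose L hL using hgL
  have hgabs : ∀ i z, |g i z| ≤ 1 := fun i z => by rw [abs_of_nonneg (hg0 i z)]; exact hg1 i z
  have hgm : ∀ i, Measurable (g i) := fun i => (hL i).continuous.measurable
  -- θ
  set θ : ℝ := min 1 (ρ / (2 * (volume.real U + 1))) with hθdef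
  have hvU : 0 ≤ volume.real U := measureReal_nonneg
  have hθ0 : 0 < θ := lt_min one_pos (by positivity)
  have hθ1 : θ ≤ 1 := min_le_left _ _
  have hθU : θ * volume.real U ≤ ρ / 2 := by
    calc θ * volume.real U ≤ (ρ / (2 * (volume.real U + 1))) * (volume.real U + 1) :=
          mul_le_mul (min_le_right _ _) (by linarith) hvU (by positivity)
      _ = ρ / 2 := by field_simp
  -- the Lipschitz maps
  set H : ℝ × (Fin d → ℝ) → Fin (2 * d + 3) → ℝ := fun p i => (1 - θ) * ∫ z in cp E p, g i z with hHdef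
  have hHL : ∃ C : ℝ≥0, LipschitzOnWith C H (Kp d k) := by
    choose C hC using fun i => lipschitz_setIntegral hE hb (hL i) (hgabs i) k
    refine ⟨∑ i, C i, ?_⟩
    apply LipschitzOnWith.of_dist_le_mul
    intro p hp q hq
    rw [dist_pi_le_iff (by positivity)]
    intro i
    have h1 := (hC i).dist_le_mul p hp q hq
    simp only [hHdef]
    rw [Real.dist_eq, ← mul_sub, abs_mul, abs_of_nonneg (by linarith : 0 ≤ 1 - θ)]
    rw [Real.dist_eq] at h1
    have h2 : (C i : ℝ) ≤ ((∑ i, C i : ℝ≥0) : ℝ) := by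
      exact_mod_cast Finset.single_le_sum (f := C) (fun j _ => zero_le) (Finset.mem_univ i)
    calc (1 - θ) * |(∫ z in cp E p, g i z) - ∫ z in cp E q, g i z|
        ≤ 1 * |(∫ z in cp E p, g i z) - ∫ z in cp E q, g i z| :=
          mul_le_mul_of_nonneg_right (by linarith) (abs_nonneg _)
      _ ≤ C i * dist p q := by rw [one_mul]; exact h1
      _ ≤ _ := mul_le_mul_of_nonneg_right h2 dist_nonneg
  have hWL : ∃ C : ℝ≥0, LipschitzOnWith C (mom E R) (Kp d k) := by
    choose L' hL' using fun l => phi_lipschitz (d := d) hR0 l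
    choose C hC using fun l => lipschitz_setIntegral hE hb (hL' l) (C₀ := 1) (fun z => by
      rw [abs_of_nonneg (phi_nonneg R l z)]; exact phi_le_one R l z) k
    refine ⟨∑ i, C i, ?_⟩
    apply LipschitzOnWith.of_dist_le_mul
    intro p hp q hq
    rw [dist_pi_le_iff (by positivity)]
    intro i
    have h1 := (hC i).dist_le_mul p hp q hq
    have h2 : (C i : ℝ) ≤ ((∑ i, C i : ℝ≥0) : ℝ) := by
      exact_mod_cast Finset.single_le_sum (f := C) (fun j _ => zero_le) (Finset.mem_univ i)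
    exact h1.trans (mul_le_mul_of_nonneg_right h2 dist_nonneg)
  obtain ⟨C₁, hC₁⟩ := hHL
  obtain ⟨C₂, hC₂⟩ := hWL
  have hfr : 2 * Module.finrank ℝ (ℝ × (Fin d → ℝ)) < 2 * d + 3 := by
    rw [Module.finrank_prod]
    simp
    omega
  -- generic coefficients
  obtain ⟨t, htU, htinj⟩ := exists_perturb (Nat.succ_pos d) hfr hC₁ hC₂ (mom_inj hd hE hb hpos hR0 hR)
    (Set.pi univ (fun _ => Set.pi univ (fun _ => Ioo 0 (θ / (d + 1)))))
    (isOpen_set_pi finite_univ (fun _ _ => isOpen_set_pi finite_univ (fun _ _ => isOpen_Ioo)))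
    ⟨fun _ _ => θ / (d + 1) / 2, by
      intro l _ i _
      have : 0 < θ / ((d : ℝ) + 1) := by positivity
      constructor <;> simp only <;> linarith⟩
  have ht0 : ∀ l i, 0 ≤ t l i := fun l i => (htU l (mem_univ _) i (mem_univ _)).1.le
  have ht1 : ∀ l i, t l i ≤ θ / (d + 1) := fun l i => (htU l (mem_univ _) i (mem_univ _)).2.le
  set h : Fin (2 * d + 3) → (Fin d → ℝ) → ℝ := fun i => hh θ R (g i) (fun l => t l i) with hhdef
  have hb3 : ∀ i z, 0 ≤ h i z ∧ h i z ≤ 1 ∧ |h i z - g i z| ≤ θ := fun i z =>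
    hh_bounds hθ1 (hg0 i) (hg1 i) (fun l => ht0 l i) (fun l => ht1 l i) z
  have hhm : ∀ i, Measurable (h i) := fun i => hh_measurable hR0 (hgm i) _
  have hhabs : ∀ i z, |h i z| ≤ 1 := fun i z => by rw [abs_of_nonneg (hb3 i z).1]; exact (hb3 i z).2.1
  set F : ℝ × (Fin d → ℝ) → Fin (2 * d + 3) → ℝ := fun p i => H p i + ∑ l, t l i * mom E R p l with hFdef
  have hFint : ∀ p ∈ Kp d k, ∀ i, F p i = ∫ z in cp E p, h i z := by
    intro p hp i
    simp only [hFdef, hHdef, hhdef]
    rw [hh_integral hR0 (hgm i) (hgabs i) _ (hbp p hp)]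
    rfl
  -- the gap
  have hFc : ContinuousOn F (Kp d k) := by
    have h1 := hC₁.continuousOn
    have h2 := hC₂.continuousOn
    apply continuousOn_pi.2
    intro i
    apply ContinuousOn.add
    · exact (continuousOn_pi.1 h1) i
    · apply continuousOn_finsetSum
      intro l _
      exact continuousOn_const.mul ((continuousOn_pi.1 h2) l)
  have hgap := gap_of_inj (isCompact_Kp k) hFc htinj hδ
  obtain ⟨τ₀, hτ₀, hgap⟩ := hgap
  -- the finite net
  obtain ⟨net, hnet1, hnet2⟩ := exists_net hE hb k (show 0 < τ₀ / 8 by positivity)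
  set Ls : List (Set (Fin d → ℝ)) := net.toList.map (cp E) with hLs
  have hLsm : ∀ A ∈ Ls, MeasurableSet A := by
    intro A hA
    rw [hLs, List.mem_map] at hA
    obtain ⟨q, hq, rfl⟩ := hA
    exact measurableSet_cp' hE (hnet1 q (Finset.mem_toList.1 hq))
  choose T' hT's hT'm _ hT'A hT'd using fun i => atoms hd (S i) (hS i) (h i) (hhm i)
    (fun z => (hb3 i z).1) (fun z => (hb3 i z).2.1) Ls hLsm U hUm hUb
  refine ⟨fun i => T' i ∪ (S i \ U), fun i => (hT'm i).union ((hS i).diff hUm), ?_, τ₀ / 2, by positivity, ?_⟩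
  · intro i
    have e1 : ∫ z in U, |ind (T' i) z - ind (S i) z| = volume.real (symmDiff (T' i ∪ (S i \ U)) (S i)) := by
      have hTm : MeasurableSet (T' i ∪ (S i \ U)) := (hT'm i).union ((hS i).diff hUm)
      have hDm : MeasurableSet (symmDiff (T' i ∪ (S i \ U)) (S i)) := hTm.symmDiff (hS i)
      have e2 : symmDiff (T' i ∪ (S i \ U)) (S i) ⊆ U := by
        intro z hz
        rw [Set.mem_symmDiff] at hz
        rcases hz with ⟨h1 | h1, h2⟩ | ⟨h1, h2⟩
        · exact hT's i h1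
        · exact absurd h1.1 h2
        · by_contra hU
          exact h2 (Or.inr ⟨h1, hU⟩)
      rw [← inter_eq_self_of_subset_right e2, ← setIntegral_ind hDm]
      apply setIntegral_congr_fun hUm
      intro z hz
      simp only
      have e3 : z ∈ symmDiff (T' i ∪ (S i \ U)) (S i) ↔ (z ∈ T' i ∧ z ∉ S i) ∨ (z ∈ S i ∧ z ∉ T' i) := by
        rw [Set.mem_symmDiff]
        simp only [mem_union, Set.mem_sdiff, hz, not_true, and_false, or_false]
      unfold ind
      by_cases h1 : z ∈ T' i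
      · by_cases h2 : z ∈ S i
        · rw [indicator_of_mem h1, indicator_of_mem h2, indicator_of_notMem (by rw [e3]; tauto)]; simp
        · rw [indicator_of_mem h1, indicator_of_notMem h2, indicator_of_mem (by rw [e3]; tauto)]; simp
      · by_cases h2 : z ∈ S i
        · rw [indicator_of_notMem h1, indicator_of_mem h2, indicator_of_mem (by rw [e3]; tauto)]; simp
        · rw [indicator_of_notMem h1, indicator_of_notMem h2, indicator_of_notMem (by rw [e3]; tauto)]; simp
    have hfin : volume (symmDiff (T' i ∪ (S i \ U)) (S i)) ≠ ⊤ := by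
      have e2 : symmDiff (T' i ∪ (S i \ U)) (S i) ⊆ U := by
        intro z hz
        rw [Set.mem_symmDiff] at hz
        rcases hz with ⟨h1 | h1, h2⟩ | ⟨h1, h2⟩
        · exact hT's i h1
        · exact absurd h1.1 h2
        · by_contra hU
          exact h2 (Or.inr ⟨h1, hU⟩)
      exact (hUb.subset e2).measure_lt_top.ne
    rw [← ENNReal.ofReal_toReal hfin]
    apply ENNReal.ofReal_le_ofReal
    change volume.real (symmDiff (T' i ∪ (S i \ U)) (S i)) ≤ ρ
    rw [← e1]
    refine (hT'd i).trans ?_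
    have h1 : ∫ z in U, |h i z - ind (S i) z| ≤ ∫ z in U, (θ + |g i z - ind (S i) z|) := by
      have i1 : IntegrableOn (fun z => |g i z - ind (S i) z|) U :=
        intOn_diff hUb (hgm i) (hg0 i) (hg1 i) (hS i)
      have i2 : IntegrableOn (fun z => |h i z - ind (S i) z|) U :=
        intOn_diff hUb (hhm i) (fun z => (hb3 i z).1) (fun z => (hb3 i z).2.1) (hS i)
      apply setIntegral_mono i2 ((integrableOn_const hUb.measure_lt_top.ne).add i1)
      intro z
      simp only
      have h2 := (hb3 i z).2.2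
      have h3 := abs_sub_le (h i z) (g i z) (ind (S i) z)
      simp only [Pi.add_apply]
      linarith
    refine h1.trans ?_
    have i1 : IntegrableOn (fun z => |g i z - ind (S i) z|) U :=
      intOn_diff hUb (hgm i) (hg0 i) (hg1 i) (hS i)
    have i0 : IntegrableOn (fun _ : Fin d → ℝ => θ) U := integrableOn_const hUb.measure_lt_top.ne
    rw [integral_add i0 i1, setIntegral_const, smul_eq_mul]
    have := hgS i
    linarith
  · -- comparison with the functions
    have hcomp : ∀ p ∈ Kp d k, ∀ i, |volume.real (cp E p ∩ (T' i ∪ (S i \ U))) - F p i| ≤ τ₀ / 4 := by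
      intro p hp i
      have hTm : MeasurableSet (T' i ∪ (S i \ U)) := (hT'm i).union ((hS i).diff hUm)
      obtain ⟨q, hq, hpq⟩ := hnet2 p hp
      have hqK := hnet1 q hq
      have h1 := diff_le hE hb hp hqK (measurable_ind hTm) (fun z => by
        rw [abs_of_nonneg (ind_nonneg _ z)]; exact ind_le_one _ z)
      have h2 := diff_le hE hb hp hqK (hhm i) (hhabs i)
      have h3 : ∫ z, |ind (cp E p) z - ind (cp E q) z| < τ₀ / 8 := hpq
      rw [setIntegral_ind hTm, setIntegral_ind hTm] at h1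
      have h4 : volume.real (cp E q ∩ (T' i ∪ (S i \ U))) = ∫ z in cp E q, h i z := by
        have e1 : cp E q ∩ (T' i ∪ (S i \ U)) = cp E q ∩ T' i := by
          ext z
          constructor
          · rintro ⟨hz1, hz2 | hz2⟩
            · exact ⟨hz1, hz2⟩
            · exact absurd (hR q hqK hz1) hz2.2
          · rintro ⟨hz1, hz2⟩
            exact ⟨hz1, Or.inl hz2⟩
        rw [e1, hT'A i (cp E q) (by rw [hLs, List.mem_map]; exact ⟨q, Finset.mem_toList.2 hq, rfl⟩),
          inter_eq_self_of_subset_left (hR q hqK)]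
      rw [hFint p hp i]
      rw [abs_le] at h1 h2 ⊢
      constructor <;> linarith [h1.1, h1.2, h2.1, h2.2]
    intro p hp p' hp' hpp
    have h1 := hgap p hp p' hp' hpp
    have h2 : ∃ i, τ₀ ≤ dist (F p i) (F p' i) := by
      by_contra hcon
      push Not at hcon
      have : dist (F p) (F p') < τ₀ := (dist_pi_lt_iff hτ₀).2 hcon
      linarith
    obtain ⟨i, hi⟩ := h2
    refine ⟨i, ?_⟩
    rw [Real.dist_eq] at hi
    have h3 := hcomp p hp i
    have h4 := hcomp p' hp' i
    simp only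
    have h5 : |F p i - F p' i| ≤ |volume.real (cp E p ∩ (T' i ∪ (S i \ U))) - F p i|
        + |volume.real (cp E p ∩ (T' i ∪ (S i \ U))) - volume.real (cp E p' ∩ (T' i ∪ (S i \ U)))|
        + |volume.real (cp E p' ∩ (T' i ∪ (S i \ U))) - F p' i| := by
      have e : F p i - F p' i = -(volume.real (cp E p ∩ (T' i ∪ (S i \ U))) - F p i)
        + (volume.real (cp E p ∩ (T' i ∪ (S i \ U))) - volume.real (cp E p' ∩ (T' i ∪ (S i \ U))))
        + (volume.real (cp E p' ∩ (T' i ∪ (S i \ U))) - F p' i) := by ring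
      rw [e]
      refine (abs_add_le _ _).trans ?_
      refine add_le_add ((abs_add_le _ _).trans ?_) le_rfl
      rw [abs_neg]
    linarith

end

end Pool.Agent.Helper47.Recon
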