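import Mathlib
import Pool.Agent.Helper47.ReconDefs
import Pool.Agent.Helper47.ReconE

namespace Pool.Agent.Helper47.Recon

open MeasureTheory Set Filter Topology
open scoped symmDiff NNReal Pointwise

noncomputable section

variable {d : ℕ}

/-- states of the recursion -/
def St (d : ℕ) : Type := {x : (Fin (2 * d + 3) → Set (Fin d → ℝ)) × ℝ // (∀ i, MeasurableSet (x.1 i)) ∧ 0 < x.2}

def Rel (E : Set (Fin d → ℝ)) (k : ℕ) (s s' : St d) : Prop :=
  (∀ i, volume (symmDiff (s'.1.1 i) (s.1.1 i)) ≤ ENNReal.ofReal (s.1.2 / 4)) ∧ s'.1.2 ≤ s.1.2 / 4 ∧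
    ∀ p ∈ Kp d (k + 1), ∀ p' ∈ Kp d (k + 1), 1 / ((k : ℝ) + 1) ≤ dist p p' →
      ∃ i, 8 * s'.1.2 ≤ |volume.real (cp E p ∩ s'.1.1 i) - volume.real (cp E p' ∩ s'.1.1 i)|

lemma exists_step (hd : 0 < d) {E : Set (Fin d → ℝ)} (hE : MeasurableSet E) (hb : Bornology.IsBounded E)
    (hpos : 0 < volume E) (k : ℕ) (s : St d) : ∃ s', Rel E k s s' := by
  obtain ⟨T, hT, hTS, τ, hτ, hsep⟩ := density_lemma hd hE hb hpos (k + 1) (1 / ((k : ℝ) + 1)) (s.1.2 / 4)
    (by positivity) (by have := s.2.2; positivity) s.1.1 s.2.1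
  have hs := s.2.2
  refine ⟨⟨(T, min (s.1.2 / 4) (τ / 8)), hT, lt_min (by positivity) (by positivity)⟩, hTS, min_le_left _ _, ?_⟩
  intro p hp p' hp' hpp
  obtain ⟨i, hi⟩ := hsep p hp p' hp' hpp
  refine ⟨i, ?_⟩
  have : min (s.1.2 / 4) (τ / 8) ≤ τ / 8 := min_le_right _ _
  simp only
  linarith

lemma real_inter_sub_le {A T S : Set (Fin d → ℝ)} (hA : volume A ≠ ⊤) (hT : MeasurableSet T)
    (hS : MeasurableSet S) {ρ : ℝ} (hρ : 0 ≤ ρ) (h : volume (symmDiff T S) ≤ ENNReal.ofReal ρ) :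
    |volume.real (A ∩ T) - volume.real (A ∩ S)| ≤ ρ := by
  have hfin : volume (symmDiff T S) ≠ ⊤ := ne_top_of_le_ne_top ENNReal.ofReal_ne_top h
  have hr : volume.real (symmDiff T S) ≤ ρ := ENNReal.toReal_le_of_le_ofReal hρ h
  have h1 : volume.real (A ∩ T) ≤ volume.real (A ∩ S) + volume.real (symmDiff T S) := by
    have hsub : A ∩ T ⊆ (A ∩ S) ∪ symmDiff T S := by
      rintro z ⟨hz1, hz2⟩
      by_cases hz3 : z ∈ S
      · exact Or.inl ⟨hz1, hz3⟩
      · exact Or.inr (Or.inl ⟨hz2, hz3⟩)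
    refine (measureReal_mono hsub ?_).trans (measureReal_union_le _ _)
    exact (measure_union_lt_top (lt_of_le_of_lt (measure_mono inter_subset_left) hA.lt_top) hfin.lt_top).ne
  have h2 : volume.real (A ∩ S) ≤ volume.real (A ∩ T) + volume.real (symmDiff T S) := by
    have hsub : A ∩ S ⊆ (A ∩ T) ∪ symmDiff T S := by
      rintro z ⟨hz1, hz2⟩
      by_cases hz3 : z ∈ T
      · exact Or.inl ⟨hz1, hz3⟩
      · exact Or.inr (Or.inr ⟨hz2, hz3⟩)
    refine (measureReal_mono hsub ?_).trans (measureReal_union_le _ _)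
    exact (measure_union_lt_top (lt_of_le_of_lt (measure_mono inter_subset_left) hA.lt_top) hfin.lt_top).ne
  rw [abs_le]
  constructor <;> linarith

theorem core (hd : 0 < d) {E : Set (Fin d → ℝ)} (hE : MeasurableSet E) (hb : Bornology.IsBounded E)
    (hpos : 0 < volume E) :
    ∃ T : Fin (2 * d + 3) → Set (Fin d → ℝ), (∀ i, MeasurableSet (T i)) ∧
      ∀ p p' : ℝ × (Fin d → ℝ), 1 ≤ p.1 → 1 ≤ p'.1 →
        (∀ i, volume (cp E p ∩ T i) = volume (cp E p' ∩ T i)) → p = p' := by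
  choose nxt hnxt using fun (k : ℕ) (s : St d) => exists_step hd hE hb hpos k s
  let s0 : St d := ⟨(fun _ => ∅, 1), fun _ => MeasurableSet.empty, one_pos⟩
  let sq : ℕ → St d := fun n => Nat.rec s0 (fun k s => nxt k s) n
  have hsq : ∀ k, Rel E k (sq k) (sq (k + 1)) := fun k => hnxt k (sq k)
  have hρpos : ∀ k, 0 < (sq k).1.2 := fun k => (sq k).2.2
  have hmeas : ∀ k i, MeasurableSet ((sq k).1.1 i) := fun k => (sq k).2.1
  have hρ : ∀ m j, (sq (m + j)).1.2 ≤ (sq m).1.2 * (1 / 4) ^ j := by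
    intro m j
    induction j with
    | zero => simp
    | succ j ih =>
      have := (hsq (m + j)).2.1
      rw [pow_succ, ← mul_assoc, ← add_assoc]
      linarith
  set T : Fin (2 * d + 3) → Set (Fin d → ℝ) := fun i => ⋃ n : ℕ, ⋂ k : ℕ, ((sq (n + k)).1.1 i) with hT
  have hTm : ∀ i, MeasurableSet (T i) := fun i =>
    MeasurableSet.iUnion (fun n => MeasurableSet.iInter (fun k => hmeas _ i))
  have hclose : ∀ m i, volume (symmDiff (T i) ((sq m).1.1 i)) ≤ ENNReal.ofReal ((sq m).1.2) := by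
    intro m i
    have hsub : symmDiff (T i) ((sq m).1.1 i) ⊆ ⋃ j : ℕ, symmDiff ((sq (m + j + 1)).1.1 i) ((sq (m + j)).1.1 i) := by
      intro z hz
      by_contra hcon
      rw [mem_iUnion] at hcon
      push Not at hcon
      have hconst : ∀ j, (z ∈ (sq (m + j)).1.1 i ↔ z ∈ (sq m).1.1 i) := by
        intro j
        induction j with
        | zero => exact Iff.rfl
        | succ j ih =>
          have h1 := hcon j
          rw [Set.mem_symmDiff] at h1
          have h2 : z ∈ (sq (m + j + 1)).1.1 i ↔ z ∈ (sq (m + j)).1.1 i := by tauto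
          rw [← add_assoc, h2, ih]
      have hiff : z ∈ T i ↔ z ∈ (sq m).1.1 i := by
        simp only [hT, mem_iUnion, mem_iInter]
        constructor
        · rintro ⟨n, hn⟩
          have h1 := hn m
          rw [add_comm n m] at h1
          exact (hconst n).1 h1
        · intro hz2
          exact ⟨m, fun k => (hconst k).2 hz2⟩
      rw [Set.mem_symmDiff] at hz
      tauto
    have hsum : Summable (fun j : ℕ => (sq m).1.2 / 4 * (1 / 4 : ℝ) ^ j) :=
      (summable_geometric_of_lt_one (by norm_num) (by norm_num)).mul_left _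
    calc volume (symmDiff (T i) ((sq m).1.1 i))
        ≤ volume (⋃ j : ℕ, symmDiff ((sq (m + j + 1)).1.1 i) ((sq (m + j)).1.1 i)) := measure_mono hsub
      _ ≤ ∑' j : ℕ, volume (symmDiff ((sq (m + j + 1)).1.1 i) ((sq (m + j)).1.1 i)) := measure_iUnion_le _
      _ ≤ ∑' j : ℕ, ENNReal.ofReal ((sq m).1.2 / 4 * (1 / 4 : ℝ) ^ j) := by
          apply ENNReal.tsum_le_tsum
          intro j
          refine ((hsq (m + j)).1 i).trans ?_
          apply ENNReal.ofReal_le_ofReal
          have := hρ m j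
          linarith
      _ = ENNReal.ofReal (∑' j : ℕ, (sq m).1.2 / 4 * (1 / 4 : ℝ) ^ j) := by
          rw [ENNReal.ofReal_tsum_of_nonneg _ hsum]
          intro j
          have := hρpos m
          positivity
      _ ≤ ENNReal.ofReal ((sq m).1.2) := by
          apply ENNReal.ofReal_le_ofReal
          rw [tsum_mul_left, tsum_geometric_of_lt_one (by norm_num) (by norm_num)]
          have := hρpos m
          norm_num
          linarith
  refine ⟨T, hTm, ?_⟩
  intro p p' hp hp' heq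
  by_contra hne
  have hdist : 0 < dist p p' := dist_pos.2 hne
  obtain ⟨k, hk⟩ := exists_nat_gt (max (max p.1 p'.1) (max (max ‖p.2‖ ‖p'.2‖) (1 / dist p p')))
  have hk1 : p.1 < k := lt_of_le_of_lt ((le_max_left _ _).trans (le_max_left _ _)) hk
  have hk2 : p'.1 < k := lt_of_le_of_lt ((le_max_right _ _).trans (le_max_left _ _)) hk
  have hk3 : ‖p.2‖ < k := lt_of_le_of_lt (((le_max_left _ _).trans (le_max_left _ _)).trans (le_max_right _ _)) hk
  have hk4 : ‖p'.2‖ < k := lt_of_le_of_lt (((le_max_right _ _).trans (le_max_left _ _)).trans (le_max_right _ _)) hk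
  have hk5 : 1 / dist p p' < k := lt_of_le_of_lt ((le_max_right _ _).trans (le_max_right _ _)) hk
  have hpK : p ∈ Kp d (k + 1) := ⟨⟨hp, by linarith⟩, by rw [mem_closedBall_zero_iff]; linarith⟩
  have hpK' : p' ∈ Kp d (k + 1) := ⟨⟨hp', by linarith⟩, by rw [mem_closedBall_zero_iff]; linarith⟩
  have hδ : 1 / ((k : ℝ) + 1) ≤ dist p p' := by
    rw [div_lt_iff₀ hdist] at hk5
    rw [div_le_iff₀ (by positivity)]
    nlinarith
  obtain ⟨i, hi⟩ := (hsq k).2.2 p hpK p' hpK' hδ
  obtain ⟨R, -, hR⟩ := isBounded_cp hb ((k : ℝ) + 1)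
  have hf : volume (cp E p) ≠ ⊤ := (Metric.isBounded_closedBall.subset (hR p hpK)).measure_lt_top.ne
  have hf' : volume (cp E p') ≠ ⊤ := (Metric.isBounded_closedBall.subset (hR p' hpK')).measure_lt_top.ne
  have h1 := real_inter_sub_le hf (hTm i) (hmeas (k + 1) i) (hρpos (k + 1)).le (hclose (k + 1) i)
  have h2 := real_inter_sub_le hf' (hTm i) (hmeas (k + 1) i) (hρpos (k + 1)).le (hclose (k + 1) i)
  have h3 : volume.real (cp E p ∩ T i) = volume.real (cp E p' ∩ T i) := by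
    unfold Measure.real
    rw [heq i]
  have h4 := hρpos (k + 1)
  rw [abs_le] at h1 h2
  rcases abs_cases (volume.real (cp E p ∩ (sq (k + 1)).1.1 i) - volume.real (cp E p' ∩ (sq (k + 1)).1.1 i)) with h | h
  · linarith [h1.1, h1.2, h2.1, h2.2]
  · linarith [h1.1, h1.2, h2.1, h2.2]

lemma volume_cp (N : Set (Fin d → ℝ)) (p : ℝ × (Fin d → ℝ)) (hN : volume N = 0) : volume (cp N p) = 0 := by
  have e : cp N p = (fun h => h + (-p.2)) ⁻¹' (p.1 • N) := by
    ext z
    simp only [cp, mem_image, mem_preimage, mem_smul_set]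
    constructor
    · rintro ⟨y, hy, rfl⟩
      exact ⟨y, hy, by abel⟩
    · rintro ⟨y, hy, hyz⟩
      exact ⟨y, hy, by rw [hyz]; abel⟩
  rw [e, measure_preimage_add_right, Measure.addHaar_smul, hN, mul_zero]

theorem recon_main (d : ℕ) (hd : 1 ≤ d) (E : Set (Fin d → ℝ)) (hb : Bornology.IsBounded E)
    (hE : NullMeasurableSet E volume) (hpos : 0 < volume E) :
    CanReconstruct (magnifiedCopies E) (2 * d + 3) := by
  obtain ⟨E', hsub, hE', hae⟩ := hE.exists_measurable_subset_ae_eq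
  have hb' : Bornology.IsBounded E' := hb.subset hsub
  have hpos' : 0 < volume E' := by rw [measure_congr hae]; exact hpos
  obtain ⟨T, hTm, hT⟩ := core hd hE' hb' hpos'
  have hnull : volume (E \ E') = 0 := (ae_le_set.1 hae.symm.le)
  have hcp : ∀ p (S : Set (Fin d → ℝ)), volume (cp E p ∩ S) = volume (cp E' p ∩ S) := by
    intro p S
    apply le_antisymm
    · have h1 : cp E p ∩ S ⊆ (cp E' p ∩ S) ∪ cp (E \ E') p := by
        rintro z ⟨⟨y, hy, rfl⟩, hz⟩
        by_cases hy' : y ∈ E'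
        · exact Or.inl ⟨⟨y, hy', rfl⟩, hz⟩
        · exact Or.inr ⟨y, ⟨hy, hy'⟩, rfl⟩
      calc volume (cp E p ∩ S) ≤ volume ((cp E' p ∩ S) ∪ cp (E \ E') p) := measure_mono h1
        _ ≤ volume (cp E' p ∩ S) + volume (cp (E \ E') p) := measure_union_le _ _
        _ = volume (cp E' p ∩ S) := by rw [volume_cp _ _ hnull, add_zero]
    · apply measure_mono
      rintro z ⟨⟨y, hy, rfl⟩, hz⟩
      exact ⟨⟨y, hsub hy, rfl⟩, hz⟩
  refine ⟨T, fun i => (hTm i).nullMeasurableSet, ?_⟩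
  rintro A ⟨r, hr, x, rfl⟩ B ⟨r', hr', x', rfl⟩ heq
  have h1 := hT (r, x) (r', x') hr hr' (by
    intro i
    rw [← hcp (r, x) (T i), ← hcp (r', x') (T i)]
    exact heq i)
  rw [Prod.mk.injEq] at h1
  rw [h1.1, h1.2]

end

end Pool.Agent.Helper47.Recon
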